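import Pool.Agent.H2.GMPair

/-! The group `C₂ × A₅` as a permutation group on nine points. -/

open scoped Pointwise

namespace Pool.Agent.H2.AA

open Pool.Agent.H2.GM (ap R allN allN_spec)

def a : Equiv.Perm (Fin 9) := ⟨![1, 2, 0, 3, 4, 5, 6, 7, 8], ![2, 0, 1, 3, 4, 5, 6, 7, 8], by decide, by decide⟩
def ac : ℕ := 36344967201
def aci : ℕ := 36344967426
theorem Ra : R a ac := by unfold R; decide +kernel
theorem Rai : R a⁻¹ aci := by unfold R; decide +kernel

def b : Equiv.Perm (Fin 9) := ⟨![1, 2, 3, 4, 0, 5, 6, 7, 8], ![4, 0, 1, 2, 3, 5, 6, 7, 8], by decide, by decide⟩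
def bc : ℕ := 36344709921
def bci : ℕ := 36344897796
theorem Rb : R b bc := by unfold R; decide +kernel
theorem Rbi : R b⁻¹ bci := by unfold R; decide +kernel

def z : Equiv.Perm (Fin 9) := ⟨![0, 1, 2, 3, 4, 6, 5, 7, 8], ![0, 1, 2, 3, 4, 6, 5, 7, 8], by decide, by decide⟩
def zc : ℕ := 36329239056
def zci : ℕ := 36329239056
theorem Rz : R z zc := by unfold R; decide +kernel
theorem Rzi : R z⁻¹ zci := by unfold R; decide +kernel

def t : Equiv.Perm (Fin 9) := ⟨![1, 0, 3, 2, 4, 6, 5, 7, 8], ![1, 0, 3, 2, 4, 6, 5, 7, 8], by decide, by decide⟩
def tc : ℕ := 36329235201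
def tci : ℕ := 36329235201
theorem Rt : R t tc := by unfold R; decide +kernel
theorem Rti : R t⁻¹ tci := by unfold R; decide +kernel

/-- all elements with their inverses -/
def E : List (ℕ × ℕ) := [(36344967696, 36344967696), (36329239056, 36329239056), (36344840976, 36344898576), (36329112336, 36329169936), (36344898576, 36344840976), (36329169936, 36329112336), (36344906016, 36344906016), (36329177376, 36329177376), (36344959776, 36344963376), (36329231136, 36329234736), (36344771616, 36344836416), (36329042976, 36329107776), (36344963376, 36344959776), (36329234736, 36329231136), (36344775216, 36344894016), (36329046576, 36329165376), (36344828976, 36344828976), (36329100336, 36329100336), (36344836416, 36344771616), (36329107776, 36329042976), (36344894016, 36344775216), (36329165376, 36329046576), (36344767296, 36344767296), (36329038656, 36329038656), (36344906241, 36344906241), (36329177601, 36329177601), (36344963841, 36344963841), (36329235201, 36329235201), (36344837121, 36344837121), (36329108481, 36329108481), (36344967201, 36344967426), (36329238561, 36329238786), (36344709921,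 36344897796), (36328981281, 36329169156), (36344890401, 36344840451), (36329161761, 36329111811), (36344840241, 36344894466), (36329111601, 36329165826), (36344955441, 36344959491), (36329226801, 36329230851), (36344702001, 36344828676), (36328973361, 36329100036), (36344897601, 36344775426), (36329168961, 36329046786), (36344705601, 36344771076), (36328976961, 36329042436), (36344824641, 36344767491), (36329096001, 36329038851), (36344967426, 36344967201), (36329238786, 36329238561), (36344775426, 36344897601), (36329046786, 36329168961), (36344894466, 36344840241), (36329165826, 36329111601), (36344905746, 36344905746), (36329177106, 36329177106), (36344955666, 36344963091), (36329227026, 36329234451), (36344706066, 36344836116), (36328977426, 36329107476), (36344959026, 36344959026), (36329230386, 36329230386), (36344709426, 36344893476), (36328980786, 36329164836), (36344759346, 36344827971), (36329030706, 36329099331), (36344770626, 36344770626), (36329041986, 36329041986), (36344889666, 36344774691), (36329161026, 36329046051), (36344697666, 36344766516), (36328969026, 36329037876), (36344840451,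 36344890401), (36329111811, 36329161761), (36344959491, 36344955441), (36329230851, 36329226801), (36344767491, 36344824641), (36329038851, 36329096001), (36344963091, 36344955666), (36329234451, 36329227026), (36344709651, 36344889876), (36328981011, 36329161236), (36344824851, 36344824851), (36329096211, 36329096211), (36344774691, 36344889666), (36329046051, 36329161026), (36344955171, 36344955171), (36329226531, 36329226531), (36344697891, 36344824116), (36328969251, 36329095476), (36344827971, 36344759346), (36329099331, 36329030706), (36344701251, 36344759076), (36328972611, 36329030436), (36344758851, 36344758851), (36329030211, 36329030211), (36344897796, 36344709921), (36329169156, 36328981281), (36344771076, 36344705601), (36329042436, 36328976961), (36344828676, 36344702001), (36329100036, 36328973361), (36344836116, 36344706066), (36329107476, 36328977426), (36344889876, 36344709651), (36329161236, 36328981011), (36344701716, 36344701716), (36328973076, 36328973076), (36344893476, 36344709426), (36329164836, 36328980786), (36344705316, 36344705316), (36328976676, 36328976676), (36344759076,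 36344701251), (36329030436, 36328972611), (36344766516, 36344697666), (36329037876, 36328969026), (36344824116, 36344697891), (36329095476, 36328969251), (36344697396, 36344697396), (36328968756, 36328968756)]

def RE (σ : Equiv.Perm (Fin 9)) (p : ℕ × ℕ) : Prop := R σ p.1 ∧ R σ⁻¹ p.2

def S : Set (Equiv.Perm (Fin 9)) := {σ | ∃ p ∈ E, RE σ p}

def chkMul (g gi : ℕ) : Bool := E.all fun p => E.any fun q => allN 9 fun i =>
  and (Nat.beq (ap q.1 i) (ap g (ap p.1 i))) (Nat.beq (ap q.2 i) (ap p.2 (ap gi i)))

theorem mul_spec {g gi : ℕ} (h : chkMul g gi = true) {τ : Equiv.Perm (Fin 9)} (hτ : R τ g)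
    (hτi : R τ⁻¹ gi) {σ : Equiv.Perm (Fin 9)} (hσ : σ ∈ S) : τ * σ ∈ S := by
  obtain ⟨p, hp, hR, hRi⟩ := hσ
  have h1 := List.all_eq_true.mp h p hp
  obtain ⟨q, hq, h2⟩ := List.any_eq_true.mp h1
  refine ⟨q, hq, ?_, ?_⟩
  · intro i
    have h3 := allN_spec h2 i i.2
    rw [Bool.and_eq_true] at h3
    rw [Equiv.Perm.mul_apply, hτ, hR, Nat.eq_of_beq_eq_true h3.1]
  · intro i
    have h3 := allN_spec h2 i i.2
    rw [Bool.and_eq_true] at h3
    rw [mul_inv_rev, Equiv.Perm.mul_apply, hRi, hτi, Nat.eq_of_beq_eq_true h3.2]

theorem ma : chkMul ac aci = true := by decide +kernel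
theorem mb : chkMul bc bci = true := by decide +kernel
theorem mz : chkMul zc zci = true := by decide +kernel

/-- the group -/
def G : Subgroup (Equiv.Perm (Fin 9)) := Subgroup.closure {a, b, z}

theorem one_S : (1 : Equiv.Perm (Fin 9)) ∈ S := by
  refine ⟨(36344967696, 36344967696), by decide +kernel, ?_, ?_⟩
  · unfold R; decide +kernel
  · unfold R; decide +kernel

theorem G_S {σ : Equiv.Perm (Fin 9)} (hσ : σ ∈ G) : σ ∈ S := by
  have h : G ≤ MulAction.stabilizer (Equiv.Perm (Fin 9)) S := by
    apply (Subgroup.closure_le _).mpr
    intro g hg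
    have hg' : g = a ∨ g = b ∨ g = z := by simpa using hg
    refine (MulAction.mem_stabilizer_set' (Set.toFinite S)).mpr (fun s hs => ?_)
    rcases hg' with rfl | rfl | rfl
    · exact mul_spec ma Ra Rai hs
    · exact mul_spec mb Rb Rbi hs
    · exact mul_spec mz Rz Rzi hs
  have h1 := (MulAction.mem_stabilizer_set' (Set.toFinite S)).mp (h hσ) one_S
  rwa [smul_eq_mul, mul_one] at h1

def nt (k : ℕ) : Bool := !(allN 5 fun i => Nat.beq (ap k i) i)
def sq (k : ℕ) : Bool := allN 9 fun i => Nat.beq (ap k (ap k i)) i

def chk1 : Bool := E.all fun p => and (Nat.beq (ap p.1 (ap tc (ap p.2 5))) 6)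
  (and (Nat.beq (ap p.1 (ap tc (ap p.2 6))) 5) (!(allN 5 fun i => Nat.beq (ap p.1 (ap tc (ap p.2 i))) i)))
def chk2 : Bool := E.all fun p => or (!(Nat.beq (ap p.1 5) 5))
  (or (nt p.1) (allN 9 fun i => Nat.beq (ap p.1 i) i))
def chk3 : Bool := E.all fun d => cond (and (sq d.1) (nt d.1))
  (E.all fun x => cond (allN 9 fun i => Nat.beq (ap d.1 (ap x.1 i)) (ap x.1 (ap d.1 i))) (sq x.1) true) true
def ee (d g : ℕ × ℕ) (i : ℕ) : ℕ := ap d.1 (ap g.1 (ap d.1 (ap g.2 i)))
def chk4 : Bool := E.all fun d => cond (and (sq d.1) (nt d.1))
  (E.any fun g => and (allN 9 fun i => Nat.beq (ee d g (ee d g (ee d g i))) i)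
    (!(allN 9 fun i => Nat.beq (ee d g i) i))) true

theorem chk1_t : chk1 = true := by decide +kernel
theorem chk2_t : chk2 = true := by decide +kernel
theorem chk3_t : chk3 = true := by decide +kernel
theorem chk4_t : chk4 = true := by decide +kernel

end Pool.Agent.H2.AA
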