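import Pool.Agent.H2.AAInv

namespace Pool.Agent.H2.AA

open Pool.Agent.H2.GM (ap R allN allN_spec)

theorem allN_intro {n : ℕ} {p : ℕ → Bool} (h : ∀ k, k < n → p k = true) : allN n p = true := by
  induction n with
  | zero => rfl
  | succ n ih =>
    rw [allN, h n (Nat.lt_succ_self n), cond_true]
    exact ih fun k hk => h k (by omega)

theorem a_mem : a ∈ G := Subgroup.subset_closure (by simp)
theorem b_mem : b ∈ G := Subgroup.subset_closure (by simp)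
theorem z_mem : z ∈ G := Subgroup.subset_closure (by simp)

theorem t_mem : t ∈ G := by
  have e : t = z * b * b * b * a * b * a * a := by
    apply Equiv.ext
    decide +kernel
  rw [e]
  exact G.mul_mem (G.mul_mem (G.mul_mem (G.mul_mem (G.mul_mem (G.mul_mem (G.mul_mem z_mem b_mem)
    b_mem) b_mem) a_mem) b_mem) a_mem) a_mem

def g3 : Equiv.Perm (Fin 9) := a * b * a * a
def g4 : Equiv.Perm (Fin 9) := a * a * b * a
theorem g3_mem : g3 ∈ G := G.mul_mem (G.mul_mem (G.mul_mem a_mem b_mem) a_mem) a_mem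
theorem g4_mem : g4 ∈ G := G.mul_mem (G.mul_mem (G.mul_mem a_mem a_mem) b_mem) a_mem
theorem Rg3 : R g3 36344774691 := by unfold R; decide +kernel
theorem Rg3i : R g3⁻¹ 36344889666 := by unfold R; decide +kernel
theorem Rg4 : R g4 36344840241 := by unfold R; decide +kernel
theorem Rg4i : R g4⁻¹ 36344894466 := by unfold R; decide +kernel

def e5 (d g gi i : ℕ) : ℕ := ap d (ap g (ap d (ap gi i)))
def ok (d g gi : ℕ) : Bool := and (allN 9 fun i => Nat.beq (e5 d g gi (e5 d g gi (e5 d g gi i))) i)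
    (!(allN 9 fun i => Nat.beq (e5 d g gi i) i))
def chk5 : Bool := E.all fun d => cond (and (sq d.1) (nt d.1))
  (or (ok d.1 ac aci) (or (ok d.1 bc bci) (or (ok d.1 36344774691 36344889666) (ok d.1 36344840241 36344894466)))) true
theorem chk5_t : chk5 = true := by decide +kernel

/-- nontrivial involution part on the first five points -/
def Good (δ : Equiv.Perm (Fin 9)) : Prop := δ * δ = 1 ∧ ∃ i : Fin 9, (i : ℕ) < 5 ∧ δ i ≠ i

theorem sq_of {δ : Equiv.Perm (Fin 9)} {k : ℕ} (hR : R δ k) (h : δ * δ = 1) : sq k = true := by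
  apply allN_intro
  intro i hi
  have h1 : δ (δ ⟨i, hi⟩) = ⟨i, hi⟩ := by
    rw [← Equiv.Perm.mul_apply, h]; rfl
  have h2 := congrArg (fun j : Fin 9 => (j : ℕ)) h1
  simp only [hR _] at h2
  rw [h2]
  exact Nat.beq_refl i

theorem of_sq {δ : Equiv.Perm (Fin 9)} {k : ℕ} (hR : R δ k) (h : sq k = true) : δ * δ = 1 := by
  apply Equiv.ext
  intro i
  apply Fin.ext
  rw [Equiv.Perm.mul_apply, hR, hR]
  exact Nat.eq_of_beq_eq_true (allN_spec h i i.2)

theorem nt_of {δ : Equiv.Perm (Fin 9)} {k : ℕ} (hR : R δ k)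
    (h : ∃ i : Fin 9, (i : ℕ) < 5 ∧ δ i ≠ i) : nt k = true := by
  obtain ⟨i, hi, hne⟩ := h
  by_contra hc
  rw [nt, Bool.not_eq_true, Bool.not_eq_false'] at hc
  apply hne
  apply Fin.ext
  rw [hR]
  exact Nat.eq_of_beq_eq_true (allN_spec hc i hi)

theorem move_of {f : ℕ → ℕ} {n : ℕ} (h : (!(allN n fun i => Nat.beq (f i) i)) = true) :
    ∃ i < n, f i ≠ i := by
  by_contra hc
  push Not at hc
  have : allN n (fun i => Nat.beq (f i) i) = true := allN_intro fun k hk => by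
    rw [hc k hk]; exact Nat.beq_refl k
  rw [this] at h
  exact absurd h (by decide)

theorem L1 {σ : Equiv.Perm (Fin 9)} (hσ : σ ∈ G) : (σ * t * σ⁻¹) 5 = 6 ∧ (σ * t * σ⁻¹) 6 = 5 ∧
    ∃ i : Fin 9, (i : ℕ) < 5 ∧ (σ * t * σ⁻¹) i ≠ i := by
  obtain ⟨p, hp, hR, hRi⟩ := G_S hσ
  have h1 := List.all_eq_true.mp chk1_t p hp
  rw [Bool.and_eq_true, Bool.and_eq_true] at h1
  obtain ⟨h5, h6, h7⟩ := h1
  have ev : ∀ i : Fin 9, (((σ * t * σ⁻¹) i : Fin 9) : ℕ) = ap p.1 (ap tc (ap p.2 i)) := by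
    intro i
    rw [Equiv.Perm.mul_apply, Equiv.Perm.mul_apply, hR, Rt, hRi]
  refine ⟨Fin.ext ?_, Fin.ext ?_, ?_⟩
  · rw [ev]; exact Nat.eq_of_beq_eq_true h5
  · rw [ev]; exact Nat.eq_of_beq_eq_true h6
  · obtain ⟨i, hi, hne⟩ := move_of h7
    refine ⟨⟨i, by omega⟩, hi, ?_⟩
    intro h
    apply hne
    have := congrArg (fun j : Fin 9 => (j : ℕ)) h
    simp only [ev] at this
    exact this

theorem L2 {δ : Equiv.Perm (Fin 9)} (hδ : δ ∈ G) (h5 : δ 5 = 5) (hne : δ ≠ 1) :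
    ∃ i : Fin 9, (i : ℕ) < 5 ∧ δ i ≠ i := by
  obtain ⟨p, hp, hR, hRi⟩ := G_S hδ
  have h1 := List.all_eq_true.mp chk2_t p hp
  rw [Bool.or_eq_true, Bool.or_eq_true] at h1
  have e5' : ap p.1 5 = 5 := by
    have := hR 5
    rw [h5] at this
    exact this.symm
  rcases h1 with h1 | h1 | h1
  · rw [e5'] at h1
    exact absurd h1 (by decide)
  · obtain ⟨i, hi, hm⟩ := move_of h1
    refine ⟨⟨i, by omega⟩, hi, ?_⟩
    intro h
    apply hm
    rw [← hR ⟨i, by omega⟩, h]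
  · exfalso
    apply hne
    apply Equiv.ext
    intro i
    apply Fin.ext
    rw [hR]
    exact Nat.eq_of_beq_eq_true (allN_spec h1 i i.2)

theorem L3 {δ σ : Equiv.Perm (Fin 9)} (hδ : δ ∈ G) (hg : Good δ) (hσ : σ ∈ G)
    (hc : δ * σ = σ * δ) : σ * σ = 1 := by
  obtain ⟨d, hd, hRd, _⟩ := G_S hδ
  obtain ⟨x, hx, hRx, _⟩ := G_S hσ
  have h1 := List.all_eq_true.mp chk3_t d hd
  rw [sq_of hRd hg.1, nt_of hRd hg.2] at h1
  have h2 := List.all_eq_true.mp h1 x hx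
  have h3 : (allN 9 fun i => Nat.beq (ap d.1 (ap x.1 i)) (ap x.1 (ap d.1 i))) = true := by
    apply allN_intro
    intro i hi
    have h4 := congrArg (fun τ : Equiv.Perm (Fin 9) => ((τ ⟨i, hi⟩ : Fin 9) : ℕ)) hc
    simp only [Equiv.Perm.mul_apply, hRd _, hRx _] at h4
    rw [h4]
    exact Nat.beq_refl _
  rw [h3, cond_true] at h2
  exact of_sq hRx h2

theorem L4 {δ : Equiv.Perm (Fin 9)} (hδ : δ ∈ G) (hg : Good δ) :
    ∃ γ ∈ G, (δ * (γ * δ * γ⁻¹)) ^ 3 = 1 ∧ δ * (γ * δ * γ⁻¹) ≠ 1 := by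
  obtain ⟨d, hd, hRd, _⟩ := G_S hδ
  have h1 := List.all_eq_true.mp chk5_t d hd
  rw [sq_of hRd hg.1, nt_of hRd hg.2] at h1
  have key : ∀ {γ : Equiv.Perm (Fin 9)} {g gi : ℕ}, R γ g → R γ⁻¹ gi → ok d.1 g gi = true →
      (δ * (γ * δ * γ⁻¹)) ^ 3 = 1 ∧ δ * (γ * δ * γ⁻¹) ≠ 1 := by
    intro γ g gi r1 r2 hok
    unfold ok at hok
    rw [Bool.and_eq_true] at hok
    have ev : ∀ i : Fin 9, (((δ * (γ * δ * γ⁻¹)) i : Fin 9) : ℕ) = e5 d.1 g gi i := by
      intro i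
      rw [Equiv.Perm.mul_apply, Equiv.Perm.mul_apply, Equiv.Perm.mul_apply, hRd, r1, hRd, r2]
      rfl
    constructor
    · apply Equiv.ext
      intro i
      apply Fin.ext
      rw [pow_succ, pow_two, Equiv.Perm.mul_apply, Equiv.Perm.mul_apply, ev, ev, ev]
      exact Nat.eq_of_beq_eq_true (allN_spec hok.1 i i.2)
    · intro h
      obtain ⟨i, hi, hm⟩ := move_of hok.2
      apply hm
      have := ev ⟨i, hi⟩
      rw [h] at this
      exact this.symm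
  simp only [Bool.and_self, cond_true, Bool.or_eq_true] at h1
  rcases h1 with h1 | h1 | h1 | h1
  · exact ⟨a, a_mem, key Ra Rai h1⟩
  · exact ⟨b, b_mem, key Rb Rbi h1⟩
  · exact ⟨g3, g3_mem, key Rg3 Rg3i h1⟩
  · exact ⟨g4, g4_mem, key Rg4 Rg4i h1⟩

end Pool.Agent.H2.AA
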