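import Mathlib

/-!
Gluings of complete intersection numerical semigroups are complete intersections.
-/

set_option autoImplicit false

namespace Pool.Agent.H2.CIQ

/-- minimal generators -/
def minGen (S : AddSubmonoid ℕ) : Set ℕ :=
  {x | x ∈ S ∧ x ≠ 0 ∧ ∀ a ∈ S, ∀ b ∈ S, a + b = x → a = 0 ∨ b = 0}

/-- the factorization homomorphism -/
def phi {ι : Type} [Fintype ι] (g : ι → ℕ) : (ι → ℕ) →+ ℕ where
  toFun a := ∑ i, a i * g i
  map_zero' := by simp
  map_add' a b := by simp [add_mul, Finset.sum_add_distrib]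

lemma phi_apply {ι : Type} [Fintype ι] (g : ι → ℕ) (a : ι → ℕ) : phi g a = ∑ i, a i * g i := rfl

/-- complete intersection, with arbitrary finite index types -/
def CI (S : AddSubmonoid ℕ) : Prop :=
  ∃ (ι : Type) (_ : Fintype ι) (g : ι → ℕ) (κ : Type) (_ : Fintype κ)
    (ρ : κ → (ι → ℕ) × (ι → ℕ)),
    Function.Injective g ∧ Set.range g = minGen S ∧ (∀ s, s ∈ S ↔ ∃ a : ι → ℕ, phi g a = s) ∧
    Fintype.card κ + 1 = Fintype.card ι ∧
    ∀ a b : ι → ℕ, phi g a = phi g b ↔ addConGen (fun x y => ∃ k, ρ k = (x, y)) a b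

lemma con_le {ι κ : Type} [Fintype ι] (g : ι → ℕ) (ρ : κ → (ι → ℕ) × (ι → ℕ))
    (h : ∀ k, phi g (ρ k).1 = phi g (ρ k).2) (a b : ι → ℕ)
    (hab : addConGen (fun x y => ∃ k, ρ k = (x, y)) a b) : phi g a = phi g b := by
  have : addConGen (fun x y => ∃ k, ρ k = (x, y)) ≤ AddCon.ker (phi g) := by
    rw [AddCon.addConGen_le]
    rintro x y ⟨k, hk⟩
    have := h k
    rw [hk] at this
    exact this
  exact this hab

lemma ci_top : CI ⊤ := by
  refine ⟨Unit, inferInstance, fun _ => 1, Empty, inferInstance, fun k => k.elim, ?_, ?_, ?_, ?_, ?_⟩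
  · intro a b _; rfl
  · ext x
    simp only [Set.mem_range, minGen, Set.mem_setOf_eq, AddSubmonoid.mem_top, true_and, exists_const,
      forall_true_left]
    constructor
    · rintro rfl
      refine ⟨by norm_num, ?_⟩
      intro a b hab
      omega
    · rintro ⟨h0, h⟩
      by_contra h1
      rcases h 1 (x - 1) (by omega) with h2 | h2 <;> omega
  · intro s
    simp only [AddSubmonoid.mem_top, true_iff]
    exact ⟨fun _ => s, by simp [phi_apply]⟩
  · simp
  · intro a b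
    constructor
    · intro h
      have : a = b := by
        funext i
        simpa [phi_apply] using h
      rw [this]
      exact (addConGen _).refl b
    · intro h
      exact con_le _ (fun k : Empty => k.elim) (fun k => k.elim) a b h

/-- the gluing `m S₁ + l S₂` -/
def glue (S₁ S₂ : AddSubmonoid ℕ) (l m : ℕ) : AddSubmonoid ℕ where
  carrier := {s | ∃ x ∈ S₁, ∃ y ∈ S₂, m * x + l * y = s}
  zero_mem' := ⟨0, S₁.zero_mem, 0, S₂.zero_mem, by simp⟩
  add_mem' := by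
    rintro a b ⟨x, hx, y, hy, rfl⟩ ⟨x', hx', y', hy', rfl⟩
    exact ⟨x + x', S₁.add_mem hx hx', y + y', S₂.add_mem hy hy', by ring⟩

lemma mem_glue {S₁ S₂ : AddSubmonoid ℕ} {l m s : ℕ} :
    s ∈ glue S₁ S₂ l m ↔ ∃ x ∈ S₁, ∃ y ∈ S₂, m * x + l * y = s := Iff.rfl

lemma glue_comm (S₁ S₂ : AddSubmonoid ℕ) (l m : ℕ) : glue S₁ S₂ l m = glue S₂ S₁ m l := by
  ext s
  rw [mem_glue, mem_glue]
  constructor
  · rintro ⟨x, hx, y, hy, h⟩
    exact ⟨y, hy, x, hx, by rw [← h]; ring⟩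
  · rintro ⟨x, hx, y, hy, h⟩
    exact ⟨y, hy, x, hx, by rw [← h]; ring⟩

lemma split_eq {l m x y x' y' : ℕ} (hc : Nat.Coprime l m) (hl0 : l ≠ 0) (hm0 : m ≠ 0)
    (h : m * x + l * y = m * x' + l * y') (hxx : x' ≤ x) :
    ∃ t, x = x' + l * t ∧ y' = y + m * t := by
  obtain ⟨u, rfl⟩ := Nat.exists_eq_add_of_le hxx
  have h1 : m * u + l * y = l * y' := by nlinarith
  have h2 : l ∣ m * u := by
    have : l ∣ m * u + l * y := ⟨y', h1⟩
    exact (Nat.dvd_add_left (Dvd.intro _ rfl)).1 this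
  have h3 : l ∣ u := hc.dvd_of_dvd_mul_left h2
  obtain ⟨t, rfl⟩ := h3
  refine ⟨t, rfl, ?_⟩
  have : l * (y + m * t) = l * y' := by rw [← h1]; ring
  exact (Nat.eq_of_mul_eq_mul_left (Nat.pos_of_ne_zero hl0) this).symm

/-- multiples of a minimal generator are minimal generators of the gluing -/
lemma min_left {S₁ S₂ : AddSubmonoid ℕ} {l m : ℕ} (hl : l ∈ S₁) (hl0 : l ≠ 0) (hm0 : m ≠ 0)
    (hln : l ∉ minGen S₁) (hc : Nat.Coprime l m) {a : ℕ} (ha : a ∈ minGen S₁) :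
    m * a ∈ minGen (glue S₁ S₂ l m) := by
  obtain ⟨haS, ha0, hmin⟩ := ha
  refine ⟨⟨a, haS, 0, S₂.zero_mem, by simp⟩, Nat.mul_ne_zero hm0 ha0, ?_⟩
  rintro s ⟨x, hx, y, hy, rfl⟩ s' ⟨x', hx', y', hy', rfl⟩ hs
  have h1 : m * a + l * 0 = m * (x + x') + l * (y + y') := by rw [mul_zero, add_zero, ← hs]; ring
  have hle : x + x' ≤ a := by
    by_contra hlt
    push Not at hlt
    have : m * a < m * (x + x') := Nat.mul_lt_mul_of_pos_left hlt (Nat.pos_of_ne_zero hm0)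
    have h2 : m * a = m * (x + x') + l * (y + y') := by simpa using h1
    omega
  obtain ⟨t, ht, ht'⟩ := split_eq hc hl0 hm0 h1 hle
  rw [zero_add] at ht'
  rcases Nat.eq_zero_or_pos t with rfl | htpos
  · rw [mul_zero] at ht'
    have hy0 : y = 0 := by omega
    have hy0' : y' = 0 := by omega
    subst hy0 hy0'
    rw [mul_zero, add_zero] at ht
    rcases hmin x hx x' hx' ht.symm with h | h
    · left; simp [h]
    · right; simp [h]
  · exfalso
    have hlt : l * t ∈ S₁ := by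
      rw [mul_comm]
      exact S₁.nsmul_mem hl t
    rcases hmin (x + x') (S₁.add_mem hx hx') (l * t) hlt ht.symm with h | h
    · rw [h, zero_add] at ht
      rcases Nat.lt_or_ge 1 t with h2 | h2
      · obtain ⟨t', rfl⟩ : ∃ t', t = t' + 1 := ⟨t - 1, by omega⟩
        have hlt' : l * t' ∈ S₁ := by
          rw [mul_comm]
          exact S₁.nsmul_mem hl t'
        rcases hmin l hl (l * t') hlt' (by rw [ht]; ring) with h3 | h3
        · exact hl0 h3
        · rcases Nat.mul_eq_zero.1 h3 with h4 | h4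
          · exact hl0 h4
          · omega
      · have : t = 1 := by omega
        subst this
        rw [mul_one] at ht
        apply hln
        rw [← ht]
        exact ⟨haS, ha0, hmin⟩
    · rcases Nat.mul_eq_zero.1 h with h4 | h4
      · exact hl0 h4
      · omega

lemma minGen_glue {S₁ S₂ : AddSubmonoid ℕ} {l m : ℕ} (hl : l ∈ S₁) (hm : m ∈ S₂)
    (hl0 : l ≠ 0) (hm0 : m ≠ 0) (hln : l ∉ minGen S₁) (hmn : m ∉ minGen S₂)
    (hc : Nat.Coprime l m) (s : ℕ) :
    s ∈ minGen (glue S₁ S₂ l m) ↔ (∃ a ∈ minGen S₁, m * a = s) ∨ (∃ b ∈ minGen S₂, l * b = s) := by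
  constructor
  · rintro ⟨⟨x, hx, y, hy, rfl⟩, hs0, hmin⟩
    have h1 : m * x ∈ glue S₁ S₂ l m := ⟨x, hx, 0, S₂.zero_mem, by simp⟩
    have h2 : l * y ∈ glue S₁ S₂ l m := ⟨0, S₁.zero_mem, y, hy, by simp⟩
    rcases hmin _ h1 _ h2 rfl with h | h
    · right
      have hx0 : x = 0 := by
        rcases Nat.mul_eq_zero.1 h with h | h
        · exact absurd h hm0
        · exact h
      subst hx0
      rw [mul_zero, zero_add] at hs0 hmin
      refine ⟨y, ⟨hy, ?_, ?_⟩, by simp⟩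
      · rintro rfl; exact hs0 (by simp)
      · intro a ha b hb hab
        have h3 : l * a ∈ glue S₁ S₂ l m := ⟨0, S₁.zero_mem, a, ha, by simp⟩
        have h4 : l * b ∈ glue S₁ S₂ l m := ⟨0, S₁.zero_mem, b, hb, by simp⟩
        rcases hmin _ h3 _ h4 (by rw [← hab]; ring) with h5 | h5
        · left
          rcases Nat.mul_eq_zero.1 h5 with h | h
          · exact absurd h hl0
          · exact h
        · right
          rcases Nat.mul_eq_zero.1 h5 with h | h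
          · exact absurd h hl0
          · exact h
    · left
      have hy0 : y = 0 := by
        rcases Nat.mul_eq_zero.1 h with h | h
        · exact absurd h hl0
        · exact h
      subst hy0
      rw [mul_zero, add_zero] at hs0 hmin
      refine ⟨x, ⟨hx, ?_, ?_⟩, by simp⟩
      · rintro rfl; exact hs0 (by simp)
      · intro a ha b hb hab
        have h3 : m * a ∈ glue S₁ S₂ l m := ⟨a, ha, 0, S₂.zero_mem, by simp⟩
        have h4 : m * b ∈ glue S₁ S₂ l m := ⟨b, hb, 0, S₂.zero_mem, by simp⟩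
        rcases hmin _ h3 _ h4 (by rw [← hab]; ring) with h5 | h5
        · left
          rcases Nat.mul_eq_zero.1 h5 with h | h
          · exact absurd h hm0
          · exact h
        · right
          rcases Nat.mul_eq_zero.1 h5 with h | h
          · exact absurd h hm0
          · exact h
  · rintro (⟨a, ha, rfl⟩ | ⟨b, hb, rfl⟩)
    · exact min_left hl hl0 hm0 hln hc ha
    · rw [glue_comm]
      exact min_left hm hm0 hl0 hmn hc.symm hb

lemma phi_sum {ι₁ ι₂ : Type} [Fintype ι₁] [Fintype ι₂] (g₁ : ι₁ → ℕ) (g₂ : ι₂ → ℕ) (l m : ℕ)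
    (a : ι₁ ⊕ ι₂ → ℕ) :
    phi (Sum.elim (fun i => m * g₁ i) (fun j => l * g₂ j)) a =
      m * phi g₁ (fun i => a (Sum.inl i)) + l * phi g₂ (fun j => a (Sum.inr j)) := by
  simp only [phi_apply, Fintype.sum_sum_type, Sum.elim_inl, Sum.elim_inr, Finset.mul_sum]
  congr 1
  · exact Finset.sum_congr rfl fun i _ => by ring
  · exact Finset.sum_congr rfl fun i _ => by ring

/-- inclusion of the first block of coordinates -/
def inL (ι₁ ι₂ : Type) : (ι₁ → ℕ) →+ (ι₁ ⊕ ι₂ → ℕ) where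
  toFun a := Sum.elim a 0
  map_zero' := by ext (i | i) <;> rfl
  map_add' a b := by ext (i | i) <;> simp

/-- inclusion of the second block of coordinates -/
def inR (ι₁ ι₂ : Type) : (ι₂ → ℕ) →+ (ι₁ ⊕ ι₂ → ℕ) where
  toFun a := Sum.elim 0 a
  map_zero' := by ext (i | i) <;> rfl
  map_add' a b := by ext (i | i) <;> simp

lemma inL_add_inR {ι₁ ι₂ : Type} (a : ι₁ ⊕ ι₂ → ℕ) :
    inL ι₁ ι₂ (fun i => a (Sum.inl i)) + inR ι₁ ι₂ (fun j => a (Sum.inr j)) = a := by
  ext (i | i) <;> simp [inL, inR]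

theorem CI.glue {S₁ S₂ : AddSubmonoid ℕ} (h₁ : CI S₁) (h₂ : CI S₂) {l m : ℕ}
    (hl : l ∈ S₁) (hm : m ∈ S₂) (hl0 : l ≠ 0) (hm0 : m ≠ 0) (hln : l ∉ minGen S₁)
    (hmn : m ∉ minGen S₂) (hc : Nat.Coprime l m) : CI (glue S₁ S₂ l m) := by
  obtain ⟨ι₁, _, g₁, κ₁, _, ρ₁, inj₁, rg₁, mem₁, card₁, con₁⟩ := h₁
  obtain ⟨ι₂, _, g₂, κ₂, _, ρ₂, inj₂, rg₂, mem₂, card₂, con₂⟩ := h₂
  obtain ⟨al, hal⟩ := (mem₁ l).1 hl
  obtain ⟨am, ham⟩ := (mem₂ m).1 hm
  set G : ι₁ ⊕ ι₂ → ℕ := Sum.elim (fun i => m * g₁ i) (fun j => l * g₂ j) with hG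
  set ρ : κ₁ ⊕ κ₂ ⊕ Unit → (ι₁ ⊕ ι₂ → ℕ) × (ι₁ ⊕ ι₂ → ℕ) :=
    Sum.elim (fun k => (inL ι₁ ι₂ (ρ₁ k).1, inL ι₁ ι₂ (ρ₁ k).2))
      (Sum.elim (fun k => (inR ι₁ ι₂ (ρ₂ k).1, inR ι₁ ι₂ (ρ₂ k).2))
        (fun _ => (inL ι₁ ι₂ al, inR ι₁ ι₂ am))) with hρ
  have hmin1 : ∀ i, g₁ i ∈ minGen S₁ := fun i => by rw [← rg₁]; exact ⟨i, rfl⟩
  have hmin2 : ∀ i, g₂ i ∈ minGen S₂ := fun i => by rw [← rg₂]; exact ⟨i, rfl⟩
  have hphiL : ∀ a, phi G (inL ι₁ ι₂ a) = m * phi g₁ a := by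
    intro a
    rw [hG, phi_sum]
    have : phi g₂ (fun j => (inL ι₁ ι₂ a) (Sum.inr j)) = 0 := by simp [phi_apply, inL]
    rw [this, mul_zero, add_zero]
    rfl
  have hphiR : ∀ a, phi G (inR ι₁ ι₂ a) = l * phi g₂ a := by
    intro a
    rw [hG, phi_sum]
    have : phi g₁ (fun j => (inR ι₁ ι₂ a) (Sum.inl j)) = 0 := by simp [phi_apply, inR]
    rw [this, mul_zero, zero_add]
    rfl
  refine ⟨ι₁ ⊕ ι₂, inferInstance, G, κ₁ ⊕ κ₂ ⊕ Unit, inferInstance, ρ, ?_, ?_, ?_, ?_, ?_⟩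
  · -- injectivity
    have key : ∀ i j, m * g₁ i ≠ l * g₂ j := by
      intro i j hij
      have h1 : l ∣ g₁ i := hc.dvd_of_dvd_mul_left ⟨g₂ j, hij⟩
      obtain ⟨t, ht⟩ := h1
      obtain ⟨hS, h0, hmin⟩ := hmin1 i
      have hne : t ≠ 0 := by rintro rfl; exact h0 (by simpa using ht)
      obtain ⟨t', rfl⟩ : ∃ t', t = t' + 1 := ⟨t - 1, by omega⟩
      have hlt' : l * t' ∈ S₁ := by rw [mul_comm]; exact S₁.nsmul_mem hl t'
      rcases hmin l hl (l * t') hlt' (by rw [ht]; ring) with h3 | h3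
      · exact hl0 h3
      · rcases Nat.mul_eq_zero.1 h3 with h4 | h4
        · exact hl0 h4
        · subst h4
          apply hln
          have : g₁ i = l := by rw [ht]; ring
          rw [← this]
          exact hmin1 i
    rintro (i | i) (j | j) hij
    · have : g₁ i = g₁ j := Nat.eq_of_mul_eq_mul_left (Nat.pos_of_ne_zero hm0) hij
      rw [inj₁ this]
    · exact absurd hij (key i j)
    · exact absurd hij.symm (key j i)
    · have : g₂ i = g₂ j := Nat.eq_of_mul_eq_mul_left (Nat.pos_of_ne_zero hl0) hij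
      rw [inj₂ this]
  · ext s
    rw [minGen_glue hl hm hl0 hm0 hln hmn hc, ← rg₁, ← rg₂]
    constructor
    · rintro ⟨(i | i), rfl⟩
      · exact Or.inl ⟨g₁ i, ⟨i, rfl⟩, rfl⟩
      · exact Or.inr ⟨g₂ i, ⟨i, rfl⟩, rfl⟩
    · rintro (⟨_, ⟨i, rfl⟩, rfl⟩ | ⟨_, ⟨i, rfl⟩, rfl⟩)
      · exact ⟨Sum.inl i, rfl⟩
      · exact ⟨Sum.inr i, rfl⟩
  · intro s
    rw [mem_glue]
    constructor
    · rintro ⟨x, hx, y, hy, rfl⟩
      obtain ⟨a, rfl⟩ := (mem₁ x).1 hx
      obtain ⟨b, rfl⟩ := (mem₂ y).1 hy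
      refine ⟨inL ι₁ ι₂ a + inR ι₁ ι₂ b, ?_⟩
      rw [map_add, hphiL, hphiR]
    · rintro ⟨a, rfl⟩
      refine ⟨_, (mem₁ _).2 ⟨_, rfl⟩, _, (mem₂ _).2 ⟨_, rfl⟩, (phi_sum g₁ g₂ l m a).symm⟩
  · simp only [Fintype.card_sum, Fintype.card_unit]
    omega
  · intro a b
    set c := addConGen (fun x y => ∃ k, ρ k = (x, y)) with hcdef
    constructor
    · intro hab
      have hL : ∀ x y, phi g₁ x = phi g₁ y → c (inL ι₁ ι₂ x) (inL ι₁ ι₂ y) := by
        intro x y hxy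
        have h1 := (con₁ x y).1 hxy
        have h2 : addConGen (fun x y => ∃ k, ρ₁ k = (x, y)) ≤ c.comap (inL ι₁ ι₂) (map_add _) := by
          rw [AddCon.addConGen_le]
          rintro u v ⟨k, hk⟩
          show c (inL ι₁ ι₂ u) (inL ι₁ ι₂ v)
          apply AddConGen.Rel.of
          refine ⟨Sum.inl k, ?_⟩
          simp [hρ, hk]
        exact h2 h1
      have hR : ∀ x y, phi g₂ x = phi g₂ y → c (inR ι₁ ι₂ x) (inR ι₁ ι₂ y) := by
        intro x y hxy
        have h1 := (con₂ x y).1 hxy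
        have h2 : addConGen (fun x y => ∃ k, ρ₂ k = (x, y)) ≤ c.comap (inR ι₁ ι₂) (map_add _) := by
          rw [AddCon.addConGen_le]
          rintro u v ⟨k, hk⟩
          show c (inR ι₁ ι₂ u) (inR ι₁ ι₂ v)
          apply AddConGen.Rel.of
          refine ⟨Sum.inr (Sum.inl k), ?_⟩
          simp [hρ, hk]
        exact h2 h1
      have hX : c (inL ι₁ ι₂ al) (inR ι₁ ι₂ am) := by
        apply AddConGen.Rel.of
        exact ⟨Sum.inr (Sum.inr ()), by simp [hρ]⟩
      have hXt : ∀ t : ℕ, c (inL ι₁ ι₂ (t • al)) (inR ι₁ ι₂ (t • am)) := by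
        intro t
        rw [AddMonoidHom.map_nsmul (inL ι₁ ι₂), AddMonoidHom.map_nsmul (inR ι₁ ι₂)]
        exact c.nsmul t hX
      -- main argument, with an ordering hypothesis
      have main : ∀ a b : ι₁ ⊕ ι₂ → ℕ, phi G a = phi G b →
          phi g₁ (fun i => b (Sum.inl i)) ≤ phi g₁ (fun i => a (Sum.inl i)) → c a b := by
        intro a b hab hle
        rw [hG, phi_sum, phi_sum] at hab
        obtain ⟨t, ht1, ht2⟩ := split_eq hc hl0 hm0 hab hle
        have e1 : phi g₁ (fun i => a (Sum.inl i)) =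
            phi g₁ ((fun i => b (Sum.inl i)) + t • al) := by
          rw [map_add, map_nsmul, hal, ht1, smul_eq_mul, mul_comm t l]
        have e2 : phi g₂ ((fun i => a (Sum.inr i)) + t • am) =
            phi g₂ (fun i => b (Sum.inr i)) := by
          rw [map_add, map_nsmul, ham, ht2, smul_eq_mul, mul_comm t m]
        have s1 := c.add (hL _ _ e1) (c.refl (inR ι₁ ι₂ (fun i => a (Sum.inr i))))
        have s2 := c.add (c.refl (inL ι₁ ι₂ (fun i => b (Sum.inl i)))) (hR _ _ e2)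
        rw [inL_add_inR] at s1
        rw [inL_add_inR] at s2
        refine c.trans s1 (c.trans ?_ s2)
        rw [AddMonoidHom.map_add (inL ι₁ ι₂), AddMonoidHom.map_add (inR ι₁ ι₂), add_assoc]
        refine c.add (c.refl _) ?_
        rw [add_comm (inR ι₁ ι₂ _) (inR ι₁ ι₂ _)]
        exact c.add (hXt t) (c.refl _)
      rcases le_total (phi g₁ (fun i => b (Sum.inl i))) (phi g₁ (fun i => a (Sum.inl i))) with h | h
      · exact main a b hab h
      · exact c.symm (main b a hab.symm h)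
    · intro h
      refine con_le G ρ ?_ a b h
      rintro (k | k | k)
      · show phi G (inL ι₁ ι₂ (ρ₁ k).1) = phi G (inL ι₁ ι₂ (ρ₁ k).2)
        rw [hphiL, hphiL]
        congr 1
        apply (con₁ _ _).2
        exact AddConGen.Rel.of _ _ ⟨k, rfl⟩
      · show phi G (inR ι₁ ι₂ (ρ₂ k).1) = phi G (inR ι₁ ι₂ (ρ₂ k).2)
        rw [hphiR, hphiR]
        congr 1
        apply (con₂ _ _).2
        exact AddConGen.Rel.of _ _ ⟨k, rfl⟩
      · show phi G (inL ι₁ ι₂ al) = phi G (inR ι₁ ι₂ am)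
        rw [hphiL, hphiR, hal, ham, mul_comm]

end Pool.Agent.H2.CIQ
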