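import Mathlib
import Pool.Agent.H2.CIQ1

/-!
Chvátal functions `ℤ → ℤ` and their realisation by complete intersection numerical semigroups.
-/

set_option autoImplicit false

namespace Pool.Agent.H2.CIQ

/-- `Chv K l`: the integer function `K` is built from linear functions by
`K₀ + C ⌊K₁ / Q⌋`, and `l` is the product of the denominators `Q`. -/
inductive Chv : (ℤ → ℤ) → ℕ → Prop
  | lin (R : ℤ) : Chv (fun x => R * x) 1
  | node {K₀ K₁ : ℤ → ℤ} {l₀ l₁ : ℕ} (h₀ : Chv K₀ l₀) (h₁ : Chv K₁ l₁) (C Q : ℕ)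
      (hC : 2 ≤ C) (hQ : 2 ≤ Q) (hc : Nat.Coprime (l₀ * C) (l₁ * Q)) :
      Chv (fun x => K₀ x + C * (K₁ x / Q)) (l₀ * l₁ * Q)

lemma Chv.pos {K : ℤ → ℤ} {l : ℕ} (h : Chv K l) : 0 < l := by
  induction h with
  | lin R => norm_num
  | node h₀ h₁ C Q hC hQ hc ih₀ ih₁ => positivity

lemma Chv.zero {K : ℤ → ℤ} {l : ℕ} (h : Chv K l) : K 0 = 0 := by
  induction h with
  | lin R => simp
  | node h₀ h₁ C Q hC hQ hc ih₀ ih₁ => simp [ih₀, ih₁]

lemma Chv.superadd {K : ℤ → ℤ} {l : ℕ} (h : Chv K l) (x y : ℤ) : K x + K y ≤ K (x + y) := by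
  induction h with
  | lin R => exact le_of_eq (by ring)
  | @node K₀ K₁ l₀ l₁ h₀ h₁ C Q hC hQ hc ih₀ ih₁ =>
    have hQ0 : (0 : ℤ) < Q := by exact_mod_cast (by omega : 0 < Q)
    have h1 : K₁ x / Q + K₁ y / Q ≤ K₁ (x + y) / Q := by
      rw [Int.le_ediv_iff_mul_le hQ0, add_mul]
      have e1 := Int.ediv_mul_le (K₁ x) hQ0.ne'
      have e2 := Int.ediv_mul_le (K₁ y) hQ0.ne'
      linarith
    have hC0 : (0 : ℤ) ≤ C := by positivity
    have h2 := mul_le_mul_of_nonneg_left h1 hC0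
    rw [mul_add] at h2
    show K₀ x + C * (K₁ x / Q) + (K₀ y + C * (K₁ y / Q)) ≤ K₀ (x + y) + C * (K₁ (x + y) / Q)
    linarith

/-- numerical semigroups -/
def Cof (S : AddSubmonoid ℕ) : Prop := ∃ N, ∀ x, N ≤ x → x ∈ S

lemma Cof.glue {S₁ S₂ : AddSubmonoid ℕ} (h₁ : Cof S₁) (h₂ : Cof S₂) {l m : ℕ} (hl0 : l ≠ 0)
    (hm0 : m ≠ 0) (hc : Nat.Coprime l m) : Cof (glue S₁ S₂ l m) := by
  obtain ⟨N₁, h₁⟩ := h₁
  obtain ⟨N₂, h₂⟩ := h₂
  refine ⟨m * N₁ + l * (N₂ + m), ?_⟩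
  intro x hx
  -- choose `y ≡ x / l (mod m)` in `[N₂, N₂ + m)`
  obtain ⟨y, hy1, hy2, hy3⟩ : ∃ y, N₂ ≤ y ∧ y < N₂ + m ∧ l * y ≡ x [MOD m] := by
    obtain ⟨u, hu⟩ := Nat.exists_mul_mod_eq_of_coprime (x + (l * m - l) * N₂) hc hm0
    refine ⟨N₂ + u % m, by omega, by have := Nat.mod_lt u (Nat.pos_of_ne_zero hm0); omega, ?_⟩
    have h3 : l * (u % m) ≡ x + (l * m - l) * N₂ [MOD m] := by
      have : l * (u % m) ≡ l * u [MOD m] := Nat.ModEq.mul_left l (Nat.mod_modEq u m)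
      refine this.trans ?_
      unfold Nat.ModEq
      rw [hu.2]
    have h4 : l * (N₂ + u % m) = l * N₂ + l * (u % m) := by ring
    rw [h4]
    have h5 := Nat.ModEq.add_left (l * N₂) h3
    refine h5.trans ?_
    have h6 : l * N₂ + (x + (l * m - l) * N₂) = x + m * (l * N₂) := by
      have : l ≤ l * m := Nat.le_mul_of_pos_right l (Nat.pos_of_ne_zero hm0)
      have h7 : l * N₂ + (l * m - l) * N₂ = l * m * N₂ := by
        rw [← add_mul]
        congr 1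
        omega
      calc l * N₂ + (x + (l * m - l) * N₂) = x + (l * N₂ + (l * m - l) * N₂) := by ring
        _ = x + l * m * N₂ := by rw [h7]
        _ = x + m * (l * N₂) := by ring
    rw [h6]
    exact (Nat.modEq_iff_dvd' (by omega)).2 (by simp) |>.symm
  have hle : l * y ≤ x := by
    have : l * y ≤ l * (N₂ + m) := Nat.mul_le_mul_left l (by omega)
    omega
  obtain ⟨z, hz⟩ := (Nat.modEq_iff_dvd' hle).1 hy3
  refine ⟨z, h₁ z ?_, y, h₂ y hy1, by omega⟩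
  by_contra hlt
  push Not at hlt
  have h8 : m * z ≤ m * N₁ := Nat.mul_le_mul_left m hlt.le
  have h9 : l * y < l * (N₂ + m) := Nat.mul_lt_mul_of_pos_left hy2 (Nat.pos_of_ne_zero hl0)
  omega

/-- `K` is realised by a complete intersection -/
def Realised (K : ℤ → ℤ) (l : ℕ) : Prop :=
  ∃ (S : AddSubmonoid ℕ) (p : ℤ), Cof S ∧ CI S ∧ l ∈ S ∧
    ∀ x y : ℤ, (∃ s ∈ S, (s : ℤ) = p * x - l * y) ↔ y ≤ K x

lemma not_min_mul {S : AddSubmonoid ℕ} {l c : ℕ} (hl : l ∈ S) (hl0 : 0 < l) (hc : 2 ≤ c) :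
    l * c ∉ minGen S := by
  rintro ⟨_, _, h⟩
  obtain ⟨c', rfl⟩ : ∃ c', c = c' + 1 := ⟨c - 1, by omega⟩
  have hlt' : l * c' ∈ S := by rw [mul_comm]; exact S.nsmul_mem hl c'
  rcases h l hl (l * c') hlt' (by ring) with h3 | h3
  · omega
  · rcases Nat.mul_eq_zero.1 h3 with h4 | h4 <;> omega

theorem Chv.realised {K : ℤ → ℤ} {l : ℕ} (h : Chv K l) : Realised K l := by
  induction h with
  | lin R =>
    refine ⟨⊤, R, ⟨0, fun _ _ => trivial⟩, ci_top, trivial, ?_⟩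
    intro x y
    constructor
    · rintro ⟨s, _, hs⟩
      have : (0 : ℤ) ≤ s := by positivity
      show y ≤ R * x
      push_cast at hs
      linarith
    · intro h
      have h' : y ≤ R * x := h
      refine ⟨(R * x - y).toNat, trivial, ?_⟩
      rw [Int.toNat_of_nonneg (by linarith)]
      push_cast
      ring
  | @node K₀ K₁ l₀ l₁ h₀ h₁ C Q hC hQ hc ih₀ ih₁ =>
    obtain ⟨S₀, p₀, cof₀, ci₀, hl₀, H₀⟩ := ih₀
    obtain ⟨S₁, p₁, cof₁, ci₁, hl₁, H₁⟩ := ih₁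
    have hl₀0 := h₀.pos
    have hl₁0 := h₁.pos
    have hlS : l₀ * C ∈ S₀ := by rw [mul_comm]; exact S₀.nsmul_mem hl₀ C
    have hmS : l₁ * Q ∈ S₁ := by rw [mul_comm]; exact S₁.nsmul_mem hl₁ Q
    have hl0 : l₀ * C ≠ 0 := by positivity
    have hm0 : l₁ * Q ≠ 0 := by positivity
    refine ⟨Pool.Agent.H2.CIQ.glue S₀ S₁ (l₀ * C) (l₁ * Q),
      (l₁ * Q : ℕ) * p₀ + (l₀ * C : ℕ) * p₁, cof₀.glue cof₁ hl0 hm0 hc,
      ci₀.glue ci₁ hlS hmS hl0 hm0 (not_min_mul hl₀ hl₀0 hC) (not_min_mul hl₁ hl₁0 hQ) hc, ?_, ?_⟩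
    · refine ⟨l₀, hl₀, 0, S₁.zero_mem, by ring⟩
    · intro x y
      have hQ0 : (0 : ℤ) < Q := by exact_mod_cast (by omega : 0 < Q)
      have hC0 : (0 : ℤ) < C := by exact_mod_cast (by omega : 0 < C)
      have hl₀Z : (0 : ℤ) < l₀ := by exact_mod_cast hl₀0
      have hl₁Z : (0 : ℤ) < l₁ := by exact_mod_cast hl₁0
      constructor
      · rintro ⟨s, ⟨s₀, hs₀, s₁, hs₁, rfl⟩, hs⟩
        push_cast at hs
        have h1 : ((l₁ * Q : ℕ) : ℤ) * (s₀ - (p₀ * x - l₀ * y)) = ((l₀ * C : ℕ) : ℤ) * (p₁ * x - s₁) := by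
          push_cast
          linear_combination hs
        have hcop : IsCoprime ((l₁ * Q : ℕ) : ℤ) ((l₀ * C : ℕ) : ℤ) :=
          Nat.isCoprime_iff_coprime.2 hc.symm
        have h2 : ((l₁ * Q : ℕ) : ℤ) ∣ (p₁ * x - s₁) :=
          hcop.dvd_of_dvd_mul_left (Dvd.intro _ h1)
        obtain ⟨t, ht⟩ := h2
        have h3 : (s₀ : ℤ) - (p₀ * x - l₀ * y) = ((l₀ * C : ℕ) : ℤ) * t := by
          have hne : ((l₁ * Q : ℕ) : ℤ) ≠ 0 := by exact_mod_cast hm0
          apply mul_left_cancel₀ hne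
          rw [h1, ht]; ring
        have a1 : y - C * t ≤ K₀ x := (H₀ x (y - C * t)).1 ⟨s₀, hs₀, by
          push_cast at h3; linear_combination h3⟩
        have a2 : Q * t ≤ K₁ x := (H₁ x (Q * t)).1 ⟨s₁, hs₁, by
          push_cast at ht; linear_combination -ht⟩
        have a3 : t ≤ K₁ x / Q := by
          rw [Int.le_ediv_iff_mul_le hQ0]; linarith
        have a4 := mul_le_mul_of_nonneg_left a3 hC0.le
        show y ≤ K₀ x + C * (K₁ x / Q)
        linarith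
      · intro hy
        have hy' : y ≤ K₀ x + C * (K₁ x / Q) := hy
        set t := K₁ x / Q with ht
        obtain ⟨s₀, hs₀, e₀⟩ := (H₀ x (y - C * t)).2 (by linarith)
        obtain ⟨s₁, hs₁, e₁⟩ := (H₁ x (Q * t)).2 (by
          have := Int.ediv_mul_le (K₁ x) hQ0.ne'
          rw [← ht] at this
          linarith)
        refine ⟨_, ⟨s₀, hs₀, s₁, hs₁, rfl⟩, ?_⟩
        push_cast
        rw [e₀, e₁]
        ring

/-! ### choice of parameters -/

lemma exists_param (D w : ℕ) (hD : 0 < D) (hw : 0 < w) (hc : Nat.Coprime D w) (a : ℤ) (b : ℕ) :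
    ∃ N : ℕ, (N : ℤ) ≡ a [ZMOD D] ∧ Nat.Coprime N w ∧ b ≤ N := by
  have hcz : IsCoprime (D : ℤ) (w : ℤ) := Nat.isCoprime_iff_coprime.2 hc
  obtain ⟨u, v, huv⟩ := hcz
  -- `u D + v w = 1`; `N ≡ a (mod D)`, `N ≡ 1 (mod w)`
  set N₀ : ℤ := a * (v * w) + u * D with hN₀
  have hDz : (0 : ℤ) < D := by exact_mod_cast hD
  have hwz : (0 : ℤ) < w := by exact_mod_cast hw
  set N : ℤ := N₀ + D * w * (|N₀| + b) with hN
  have hNb : (b : ℤ) ≤ N := by
    have h1 : (1 : ℤ) ≤ D * w := by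
      have : 0 < (D : ℤ) * w := mul_pos hDz hwz
      omega
    have h2 : (|N₀| + b) ≤ D * w * (|N₀| + b) := by
      have h3 : 0 ≤ |N₀| + (b : ℤ) := by positivity
      nlinarith
    have h4 := neg_abs_le N₀
    linarith
  refine ⟨N.toNat, ?_, ?_, ?_⟩
  · rw [Int.toNat_of_nonneg (by linarith [(Int.natCast_nonneg b : (0 : ℤ) ≤ b)])]
    rw [Int.modEq_iff_dvd]
    refine ⟨a * u - u - w * (|N₀| + b), ?_⟩
    rw [hN, hN₀]
    linear_combination (-a) * huv
  · have h5 : ((N.toNat : ℕ) : ℤ) = N :=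
      Int.toNat_of_nonneg (by linarith [(Int.natCast_nonneg b : (0 : ℤ) ≤ b)])
    apply Nat.isCoprime_iff_coprime.1
    rw [h5]
    refine ⟨1, -(a * v - v + D * (|N₀| + b)), ?_⟩
    rw [hN, hN₀]
    linear_combination huv
  · have h5 : ((N.toNat : ℕ) : ℤ) = N :=
      Int.toNat_of_nonneg (by linarith [(Int.natCast_nonneg b : (0 : ℤ) ≤ b)])
    exact_mod_cast (by rw [h5]; exact hNb : (b : ℤ) ≤ (N.toNat : ℤ))

/-- certificate that `g` is not in `T` -/
def Cert (T : AddSubmonoid ℕ) (g : ℤ) : Prop :=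
  ∀ m : ℕ, 0 < m → ∃ K l, Chv K l ∧ Nat.Coprime l m ∧ (∀ t ∈ T, 0 ≤ K t) ∧ K g < 0

/-- a cut bounding the multiplicity of `n` in a factorisation of `g` by `k` -/
def Avail (T : AddSubmonoid ℕ) (n : ℕ) (g k : ℤ) : Prop :=
  ∀ m : ℕ, 0 < m → ∃ (B : ℤ → ℤ) (l Q : ℕ), Chv B l ∧ 2 ≤ Q ∧ Nat.Coprime (l * Q) m ∧
    (∀ t ∈ T, 0 ≤ B t / Q) ∧ 1 ≤ B n / Q ∧ B g / Q ≤ k

lemma lift {T : AddSubmonoid ℕ} {n : ℕ} {g : ℤ} {k : ℤ} (hA : Avail T n g k)
    (hk : 0 ≤ k) {K' : ℤ → ℤ} {l' : ℕ} (h : Chv K' l') :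
    ∀ (m D : ℕ) (r : ℤ), 0 < m → 0 < D → ∃ (K : ℤ → ℤ) (ω M : ℕ), Chv K (l' * ω) ∧
      Nat.Coprime ω m ∧ (M : ℤ) ≡ r [ZMOD D] ∧ 2 ≤ M ∧ (∀ t ∈ T, K' t ≤ K t) ∧ (M : ℤ) ≤ K n ∧
      K g ≤ K' (g - k * n) + M * k := by
  induction h with
  | lin R =>
    intro m D r hm hD
    obtain ⟨B, l, Q, hB, hQ, hc, h1, h2, h3⟩ := hA (m * D) (Nat.mul_pos hm hD)
    have hlQ : 0 < l * Q := Nat.mul_pos hB.pos (by omega)
    obtain ⟨N, hN1, hN2, hN3⟩ := exists_param D (l * Q) hD hlQ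
      (Nat.Coprime.coprime_mul_left_right hc).symm (r - R * n) (2 + (R * n).natAbs)
    have hN4 : (2 : ℤ) ≤ R * n + N := by
      have h4 : ((2 + (R * n).natAbs : ℕ) : ℤ) ≤ N := by exact_mod_cast hN3
      push_cast at h4
      have := neg_abs_le (R * n)
      linarith
    have hM : (((R * n + N).toNat : ℕ) : ℤ) = R * n + N := Int.toNat_of_nonneg (by linarith)
    have hN0 : (0 : ℤ) ≤ N := by positivity
    refine ⟨fun x => R * x + N * (B x / Q), l * Q, (R * n + N).toNat, ?_, ?_, ?_, ?_, ?_, ?_, ?_⟩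
    · have := Chv.node (Chv.lin R) hB N Q (by omega) hQ (by rwa [one_mul])
      rwa [one_mul, ← one_mul (l * Q)] at this
    · exact Nat.Coprime.coprime_mul_right_right hc
    · rw [hM]
      have := hN1.add_left (R * n)
      rwa [add_sub_cancel] at this
    · exact_mod_cast (by rw [hM]; exact hN4 : (2 : ℤ) ≤ (((R * n + N).toNat : ℕ) : ℤ))
    · intro t ht
      have := mul_nonneg hN0 (h1 t ht)
      show R * t ≤ R * t + N * (B t / Q)
      linarith
    · rw [hM]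
      have := mul_le_mul_of_nonneg_left h2 hN0
      show R * n + N ≤ R * n + N * (B n / Q)
      linarith
    · rw [hM]
      have := mul_le_mul_of_nonneg_left h3 hN0
      show R * g + N * (B g / Q) ≤ R * (g - k * n) + (R * n + N) * k
      nlinarith
  | @node K₀ K₁ l₀ l₁ h₀ h₁ C Q hC hQ hc ih₀ ih₁ =>
    intro m D r hm hD
    have hl₀ := h₀.pos
    have hl₁ := h₁.pos
    obtain ⟨K₁', ω₁, M₁, c₁, w₁, e₁, f₁, t₁, n₁, g₁⟩ := ih₁ (m * (l₀ * C)) (Q * D) 0 (by positivity) (by positivity)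
    have hω₁ : 0 < ω₁ := by
      have := c₁.pos
      rcases Nat.eq_zero_or_pos ω₁ with h | h
      · rw [h] at this; simp at this
      · exact h
    obtain ⟨K₀', ω₀, M₀, c₀, w₀, e₀, f₀, t₀, n₀, g₀⟩ := ih₀ (m * (l₁ * ω₁ * Q)) D r (by positivity) hD
    have hQ0 : (0 : ℤ) < Q := by exact_mod_cast (by omega : 0 < Q)
    have hC0 : (0 : ℤ) < C := by exact_mod_cast (by omega : 0 < C)
    obtain ⟨M₂, hM₂⟩ : ∃ M₂ : ℕ, M₁ = Q * (D * M₂) := by
      have : ((Q * D : ℕ) : ℤ) ∣ (M₁ : ℤ) := by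
        have := (Int.modEq_zero_iff_dvd).1 e₁
        exact this
      have h5 : Q * D ∣ M₁ := by exact_mod_cast this
      obtain ⟨M₂, h6⟩ := h5
      exact ⟨M₂, by rw [h6]; ring⟩
    have hw1 : Nat.Coprime ω₁ m := Nat.Coprime.coprime_mul_right_right w₁
    have hw1' : Nat.Coprime ω₁ (l₀ * C) := Nat.Coprime.coprime_mul_left_right w₁
    have hw0 : Nat.Coprime ω₀ m := Nat.Coprime.coprime_mul_right_right w₀
    have hw0' : Nat.Coprime ω₀ (l₁ * ω₁ * Q) := Nat.Coprime.coprime_mul_left_right w₀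
    refine ⟨fun x => K₀' x + C * (K₁' x / Q), ω₀ * ω₁, M₀ + C * (D * M₂), ?_, ?_, ?_, ?_, ?_, ?_, ?_⟩
    · have hcop : Nat.Coprime (l₀ * ω₀ * C) (l₁ * ω₁ * Q) := by
        have a1 : Nat.Coprime (l₀ * C) (l₁ * ω₁ * Q) := by
          have : l₁ * ω₁ * Q = l₁ * Q * ω₁ := by ring
          rw [this]
          exact Nat.Coprime.mul_right hc hw1'.symm
        have : l₀ * ω₀ * C = l₀ * C * ω₀ := by ring
        rw [this]
        exact Nat.Coprime.mul_left a1 hw0'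
      have := Chv.node c₀ c₁ C Q hC hQ hcop
      have e : l₀ * ω₀ * (l₁ * ω₁) * Q = l₀ * l₁ * Q * (ω₀ * ω₁) := by ring
      rwa [e] at this
    · exact Nat.Coprime.mul_left hw0 hw1
    · push_cast
      have : (C : ℤ) * (D * M₂) ≡ 0 [ZMOD D] := by
        rw [Int.modEq_zero_iff_dvd]
        exact ⟨C * M₂, by ring⟩
      have := e₀.add this
      rwa [add_zero] at this
    · omega
    · intro t ht
      have a1 := t₀ t ht
      have a2 := Int.ediv_le_ediv hQ0 (t₁ t ht)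
      have a3 := mul_le_mul_of_nonneg_left a2 hC0.le
      show K₀ t + C * (K₁ t / Q) ≤ K₀' t + C * (K₁' t / Q)
      linarith
    · have a2 : (D * M₂ : ℤ) ≤ K₁' n / Q := by
        rw [Int.le_ediv_iff_mul_le hQ0]
        rw [hM₂] at n₁
        push_cast at n₁
        linarith
      have a3 := mul_le_mul_of_nonneg_left a2 hC0.le
      show ((M₀ + C * (D * M₂) : ℕ) : ℤ) ≤ K₀' n + C * (K₁' n / Q)
      push_cast
      linarith
    · have a2 : K₁' g / Q ≤ K₁ (g - k * n) / Q + (D * M₂) * k := by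
        have b1 : K₁' g / Q ≤ (K₁ (g - k * n) + Q * ((D * M₂) * k)) / Q := by
          apply Int.ediv_le_ediv hQ0
          rw [hM₂] at g₁
          push_cast at g₁
          linarith
        rwa [Int.add_mul_ediv_left _ _ hQ0.ne'] at b1
      have a3 := mul_le_mul_of_nonneg_left a2 hC0.le
      show K₀' g + C * (K₁' g / Q) ≤ K₀ (g - k * n) + C * (K₁ (g - k * n) / Q) +
        ((M₀ + C * (D * M₂) : ℕ) : ℤ) * k
      push_cast
      linarith

lemma avail_base (T : AddSubmonoid ℕ) (n : ℕ) (hn : 1 ≤ n) (g : ℤ) : Avail T n g g := by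
  intro m hm
  refine ⟨fun x => ((m + 1 : ℕ) : ℤ) * x, 1, m + 1, Chv.lin _, by omega, ?_, ?_, ?_, ?_⟩
  · rw [one_mul]
    simp
  · intro t ht
    have : ((m + 1 : ℕ) : ℤ) ≠ 0 := by positivity
    show 0 ≤ ((m + 1 : ℕ) : ℤ) * t / ((m + 1 : ℕ) : ℤ)
    rw [Int.mul_ediv_cancel_left _ this]
    positivity
  · have : ((m + 1 : ℕ) : ℤ) ≠ 0 := by positivity
    show 1 ≤ ((m + 1 : ℕ) : ℤ) * n / ((m + 1 : ℕ) : ℤ)
    rw [Int.mul_ediv_cancel_left _ this]
    exact_mod_cast hn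
  · have : ((m + 1 : ℕ) : ℤ) ≠ 0 := by positivity
    show ((m + 1 : ℕ) : ℤ) * g / ((m + 1 : ℕ) : ℤ) ≤ g
    rw [Int.mul_ediv_cancel_left _ this]

lemma avail_step {T : AddSubmonoid ℕ} {n : ℕ} {g k : ℤ} (hk : 0 ≤ k) (hA : Avail T n g k)
    (hC : Cert T (g - k * n)) : Avail T n g (k - 1) := by
  intro m hm
  obtain ⟨K', l', hK', hc', hT', hg'⟩ := hC m hm
  obtain ⟨K, ω, M, h1, h2, h3, h4, h5, h6, h7⟩ := lift hA hk hK' m m 1 hm hm
  have hM0 : (0 : ℤ) < M := by exact_mod_cast (by omega : 0 < M)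
  have hMm : Nat.Coprime M m := by
    apply Nat.isCoprime_iff_coprime.1
    obtain ⟨c, hc⟩ := (Int.modEq_iff_dvd).1 h3
    exact ⟨1, c, by linear_combination -hc⟩
  refine ⟨K, l' * ω, M, h1, h4, ?_, ?_, ?_, ?_⟩
  · exact Nat.Coprime.mul_left (Nat.Coprime.mul_left hc' h2) hMm
  · intro t ht
    exact Int.ediv_nonneg ((hT' t ht).trans (h5 t ht)) hM0.le
  · rw [Int.le_ediv_iff_mul_le hM0]
    linarith
  · have : K g ≤ M * k - 1 := by linarith
    have h8 : K g / M < k := by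
      rw [Int.ediv_lt_iff_lt_mul hM0]
      linarith
    omega

lemma cert_neg (T : AddSubmonoid ℕ) (g : ℤ) (hg : g < 0) : Cert T g := by
  intro m _
  refine ⟨fun x => 1 * x, 1, Chv.lin 1, by simp, fun t _ => by simp, ?_⟩
  show 1 * g < 0
  linarith

lemma avail_zero {T : AddSubmonoid ℕ} {n : ℕ} (hn : 1 ≤ n) {g : ℕ}
    (hC : ∀ k : ℤ, 1 ≤ k → Cert T (g - k * n)) : Avail T n g 0 := by
  have key : ∀ j : ℕ, j ≤ g → Avail T n g ((g : ℤ) - j) := by
    intro j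
    induction j with
    | zero =>
      intro _
      simpa using avail_base T n hn g
    | succ j ih =>
      intro hj
      have h1 := ih (by omega)
      have h2 : (1 : ℤ) ≤ (g : ℤ) - j := by
        have : ((j + 1 : ℕ) : ℤ) ≤ g := by exact_mod_cast hj
        push_cast at this
        linarith
      have := avail_step (by linarith) h1 (hC _ h2)
      have e : ((g : ℤ) - j) - 1 = (g : ℤ) - (j + 1 : ℕ) := by push_cast; ring
      rwa [e] at this
  have := key g le_rfl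
  rwa [sub_self] at this

lemma combine {T : AddSubmonoid ℕ} {g : ℕ} (G : Finset ℕ)
    (hG : ∀ n ∈ G, n ∈ T ∧ Avail T n g 0) :
    ∀ m : ℕ, 0 < m → ∃ K l, Chv K l ∧ Nat.Coprime l m ∧ (∀ t ∈ T, -(t : ℤ) ≤ K t) ∧
      (∀ n ∈ G, 0 ≤ K n) ∧ K g ≤ -g := by
  classical
  induction G using Finset.induction_on with
  | empty =>
    intro m _
    refine ⟨fun x => (-1) * x, 1, Chv.lin (-1), by simp, fun t _ => by simp, by simp, ?_⟩
    show (-1) * (g : ℤ) ≤ -g
    linarith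
  | insert n G hn ih =>
    intro m hm
    obtain ⟨K₀, l₀, c₀, w₀, t₀, n₀, g₀⟩ := ih (fun a ha => hG a (Finset.mem_insert_of_mem ha)) m hm
    obtain ⟨hnT, hA⟩ := hG n (Finset.mem_insert_self _ _)
    obtain ⟨B, l, Q, hB, hQ, hc, h1, h2, h3⟩ := hA (m * l₀) (Nat.mul_pos hm c₀.pos)
    have hlQ : 0 < l * Q := Nat.mul_pos hB.pos (by omega)
    obtain ⟨N, -, hN2, hN3⟩ := exists_param 1 (l * Q) one_pos hlQ (by simp) 0 (2 + n)
    have hN0 : (0 : ℤ) ≤ N := by positivity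
    have hc1 : Nat.Coprime (l * Q) m := Nat.Coprime.coprime_mul_right_right hc
    have hc2 : Nat.Coprime (l * Q) l₀ := Nat.Coprime.coprime_mul_left_right hc
    refine ⟨fun x => K₀ x + N * (B x / Q), l₀ * l * Q, ?_, ?_, ?_, ?_, ?_⟩
    · exact Chv.node c₀ hB N Q (by omega) hQ (Nat.Coprime.mul_left hc2.symm hN2)
    · rw [mul_assoc]
      exact Nat.Coprime.mul_left w₀ hc1
    · intro t ht
      have a1 := t₀ t ht
      have a2 := mul_nonneg hN0 (h1 t ht)
      show -(t : ℤ) ≤ K₀ t + N * (B t / Q)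
      linarith
    · intro a ha
      show 0 ≤ K₀ a + N * (B a / Q)
      rcases Finset.mem_insert.1 ha with rfl | ha
      · have a1 := t₀ a hnT
        have a2 := mul_le_mul_of_nonneg_left h2 hN0
        have a3 : (a : ℤ) ≤ N := by exact_mod_cast (by omega : a ≤ N)
        linarith
      · have a1 := n₀ a ha
        have a2 := mul_nonneg hN0 (h1 a (hG a (Finset.mem_insert_of_mem ha)).1)
        linarith
    · have a1 := mul_le_mul_of_nonneg_left h3 hN0
      show K₀ g + N * (B g / Q) ≤ -g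
      linarith

/-- certificates exist -/
theorem cert (T : AddSubmonoid ℕ) (G : Finset ℕ) (hG : ∀ n ∈ G, n ∈ T ∧ n ≠ 0)
    (hT : ∀ t ∈ T, t ∈ AddSubmonoid.closure (G : Set ℕ)) :
    ∀ g : ℕ, g ∉ T → Cert T g := by
  intro g
  induction g using Nat.strong_induction_on with
  | _ g ih =>
  intro hg m hm
  have hg0 : 0 < g := by
    rcases Nat.eq_zero_or_pos g with rfl | h
    · exact absurd T.zero_mem hg
    · exact h
  have hav : ∀ n ∈ G, n ∈ T ∧ Avail T n g 0 := by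
    intro n hn
    obtain ⟨hnT, hn0⟩ := hG n hn
    refine ⟨hnT, avail_zero (by omega) ?_⟩
    intro k hk
    rcases lt_or_ge ((g : ℤ) - k * n) 0 with h | h
    · exact cert_neg T _ h
    · obtain ⟨g', hg'⟩ := Int.eq_ofNat_of_zero_le h
      obtain ⟨k', rfl⟩ := Int.eq_ofNat_of_zero_le (by linarith : 0 ≤ k)
      rw [hg']
      have e : g = g' + k' * n := by
        have : (g : ℤ) = g' + k' * n := by linarith
        exact_mod_cast this
      have hk' : 1 ≤ k' := by exact_mod_cast hk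
      apply ih g'
      · have : 0 < k' * n := Nat.mul_pos (by omega) (by omega)
        omega
      · intro hg'T
        apply hg
        rw [e]
        exact T.add_mem hg'T (T.nsmul_mem hnT k')
  obtain ⟨K, l, h1, h2, h3, h4, h5⟩ := combine G hav m hm
  refine ⟨K, l, h1, h2, ?_, ?_⟩
  · intro t ht
    have := hT t ht
    induction this using AddSubmonoid.closure_induction with
    | mem x hx => exact h4 x hx
    | zero => simp [h1.zero]
    | add x y hx hy ihx ihy =>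
      have hGT : AddSubmonoid.closure (G : Set ℕ) ≤ T := by
        rw [AddSubmonoid.closure_le]
        intro n hn
        exact (hG n hn).1
      have a1 := ihx (hGT hx)
      have a2 := ihy (hGT hy)
      have a3 := h1.superadd x y
      push_cast
      linarith
  · have : (0 : ℤ) < g := by exact_mod_cast hg0
    linarith

end Pool.Agent.H2.CIQ
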