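import Mathlib
import Pool.Agent.H2.CIQ2

/-!
Every numerical semigroup is a quotient of a complete intersection numerical semigroup.
-/

set_option autoImplicit false

namespace Pool.Agent.H2.CIQ

lemma fg_of_cof {T : AddSubmonoid ℕ} {N : ℕ} (hN : ∀ x, N ≤ x → x ∈ T) :
    ∃ G : Finset ℕ, (∀ n ∈ G, n ∈ T ∧ n ≠ 0) ∧
      ∀ t ∈ T, t ∈ AddSubmonoid.closure (G : Set ℕ) := by
  classical
  refine ⟨(Finset.range (2 * N + 3)).filter (fun n => n ∈ T ∧ n ≠ 0), ?_, ?_⟩
  · intro n hn
    exact (Finset.mem_filter.1 hn).2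
  · intro t
    induction t using Nat.strong_induction_on with
    | _ t ih =>
    intro ht
    rcases Nat.eq_zero_or_pos t with rfl | htpos
    · exact AddSubmonoid.zero_mem _
    rcases Nat.lt_or_ge t (2 * N + 3) with h | h
    · apply AddSubmonoid.subset_closure
      rw [Finset.mem_coe, Finset.mem_filter, Finset.mem_range]
      exact ⟨h, ht, by omega⟩
    · have h1 := ih (N + 1) (by omega) (hN _ (by omega))
      have h2 := ih (t - (N + 1)) (by omega) (hN _ (by omega))
      have := AddSubmonoid.add_mem _ h1 h2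
      rwa [Nat.add_sub_cancel' (by omega)] at this

lemma gaps {T : AddSubmonoid ℕ} (hcert : ∀ g : ℕ, g ∉ T → Cert T g) (Γ : Finset ℕ)
    (Γ' : Finset ℕ) (hΓ' : ∀ g ∈ Γ', g ∉ T) :
    ∃ K l, Chv K l ∧ (∀ t ∈ T, 0 ≤ K t) ∧ (∀ g ∈ Γ', K g < 0 ∨ g ∉ Γ) ∧ ∀ x ∈ Γ, K x ≤ 0 := by
  classical
  induction Γ' using Finset.induction_on with
  | empty =>
    exact ⟨fun x => 0 * x, 1, Chv.lin 0, by simp, by simp, by simp⟩
  | insert g Γ' hg ih =>
    obtain ⟨K₀, l₀, c₀, t₀, g₀, x₀⟩ := ih (fun a ha => hΓ' a (Finset.mem_insert_of_mem ha))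
    obtain ⟨K₁, l₁, c₁, w₁, t₁, g₁⟩ := hcert g (hΓ' g (Finset.mem_insert_self _ _)) l₀ c₀.pos
    set b : ℕ := ∑ x ∈ Γ, (K₁ x).natAbs with hb
    obtain ⟨M, -, hM1, hM2⟩ := exists_param 1 l₀ one_pos c₀.pos (by simp) 0 (2 + b)
    have hM0 : (0 : ℤ) < M := by exact_mod_cast (by omega : 0 < M)
    have hlM : 0 < l₁ * M := Nat.mul_pos c₁.pos (by omega)
    obtain ⟨N, -, hN1, hN2⟩ := exists_param 1 (l₁ * M) one_pos hlM (by simp) 0 2
    have hN0 : (0 : ℤ) < N := by exact_mod_cast (by omega : 0 < N)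
    have hx : ∀ x ∈ Γ, K₁ x / M ≤ 0 := by
      intro x hx
      have h1 : (K₁ x).natAbs ≤ b := Finset.single_le_sum (f := fun x : ℕ => (K₁ x).natAbs)
        (fun _ _ => Nat.zero_le _) hx
      have h2 : K₁ x < M := by
        have : K₁ x ≤ ((K₁ x).natAbs : ℤ) := by
          rw [Int.natCast_natAbs]; exact le_abs_self _
        have h3 : (((K₁ x).natAbs : ℕ) : ℤ) < M := by exact_mod_cast (by omega : (K₁ x).natAbs < M)
        linarith
      have h4 : K₁ x / M < 1 := by
        rw [Int.ediv_lt_iff_lt_mul hM0]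
        linarith
      omega
    refine ⟨fun x => K₀ x + N * (K₁ x / M), _, Chv.node c₀ c₁ N M hN2 (by omega)
      (Nat.Coprime.mul_left (Nat.Coprime.mul_right w₁.symm hM1.symm) hN1), ?_, ?_, ?_⟩
    · intro t ht
      have a1 := t₀ t ht
      have a2 := mul_nonneg hN0.le (Int.ediv_nonneg (t₁ t ht) hM0.le)
      show 0 ≤ K₀ t + N * (K₁ t / M)
      linarith
    · intro a ha
      by_cases haΓ : a ∈ Γ
      · left
        show K₀ a + N * (K₁ a / M) < 0
        rcases Finset.mem_insert.1 ha with rfl | ha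
        · have a1 := x₀ a haΓ
          have a2 : K₁ a / M < 0 := Int.ediv_neg_of_neg_of_pos g₁ hM0
          have a3 := mul_neg_of_pos_of_neg hN0 a2
          linarith
        · have a1 := (g₀ a ha).resolve_right (fun h => h haΓ)
          have a2 := hx a haΓ
          have a3 := mul_nonpos_of_nonneg_of_nonpos hN0.le a2
          linarith
      · right; exact haΓ
    · intro x hxΓ
      have a1 := x₀ x hxΓ
      have a3 := mul_nonpos_of_nonneg_of_nonpos hN0.le (hx x hxΓ)
      show K₀ x + N * (K₁ x / M) ≤ 0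
      linarith

theorem main (T : AddSubmonoid ℕ) (hT : Cof T) :
    ∃ S : AddSubmonoid ℕ, Cof S ∧ CI S ∧ ∃ d : ℕ, 1 ≤ d ∧ ∀ x, x ∈ T ↔ d * x ∈ S := by
  classical
  obtain ⟨N, hN⟩ := hT
  obtain ⟨G, hG, hGT⟩ := fg_of_cof hN
  have hcert := cert T G hG hGT
  set Γ := (Finset.range N).filter (fun x => x ∉ T) with hΓ
  by_cases hne : Γ.Nonempty
  · obtain ⟨K, l, hK, h1, h2, h3⟩ := gaps hcert Γ Γ (fun g hg => (Finset.mem_filter.1 hg).2)
    obtain ⟨S, p, cof, ci, -, H⟩ := hK.realised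
    have hpos : ∀ x : ℕ, x ∈ T ↔ 0 ≤ K x := by
      intro x
      constructor
      · exact fun hx => h1 x hx
      · intro hx
        by_contra hxT
        have hxN : x < N := by
          by_contra h
          exact hxT (hN x (by omega))
        have hxΓ : x ∈ Γ := by rw [hΓ, Finset.mem_filter, Finset.mem_range]; exact ⟨hxN, hxT⟩
        rcases h2 x hxΓ with h | h
        · linarith
        · exact h hxΓ
    have H0 : ∀ x : ℕ, x ∈ T ↔ ∃ s ∈ S, (s : ℤ) = p * x := by
      intro x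
      rw [hpos, ← H x 0]
      simp
    -- `p > 0`
    have hp : 0 < p := by
      obtain ⟨g, hg⟩ := hne
      have hgT : g ∉ T := (Finset.mem_filter.1 hg).2
      obtain ⟨s, hs, hs'⟩ := (H0 (N + 1)).1 (hN _ (by omega))
      have hp0 : p ≠ 0 := by
        rintro rfl
        exact hgT ((H0 g).2 ⟨0, S.zero_mem, by simp⟩)
      have hN1 : (0 : ℤ) < ((N + 1 : ℕ) : ℤ) := by positivity
      have hs0 : (0 : ℤ) ≤ s := by positivity
      rw [hs'] at hs0
      have : 0 ≤ p := nonneg_of_mul_nonneg_left hs0 hN1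
      omega
    obtain ⟨d, rfl⟩ := Int.eq_ofNat_of_zero_le hp.le
    refine ⟨S, cof, ci, d, by exact_mod_cast hp, ?_⟩
    intro x
    rw [H0]
    constructor
    · rintro ⟨s, hs, hs'⟩
      have : s = d * x := by exact_mod_cast hs'
      rwa [← this]
    · intro h
      exact ⟨d * x, h, by push_cast; ring⟩
  · refine ⟨⊤, ⟨0, fun _ _ => trivial⟩, ci_top, 1, le_rfl, ?_⟩
    intro x
    constructor
    · intro _; trivial
    · intro _
      by_contra hxT
      have hxN : x < N := by
        by_contra h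
        exact hxT (hN x (by omega))
      exact hne ⟨x, by rw [hΓ, Finset.mem_filter, Finset.mem_range]; exact ⟨hxN, hxT⟩⟩

/-! ### the size of a presentation -/

/-- every presentation has at least `e - 1` elements -/
theorem lower {e : ℕ} (n : Fin e → ℕ) (hn : ∀ i, n i ≠ 0)
    (σ : Set ((Fin e → ℕ) × (Fin e → ℕ))) (hfin : σ.Finite)
    (hσ : ∀ a b : Fin e → ℕ, addConGen (fun x y => (x, y) ∈ σ) a b ↔
      ∑ i, a i * n i = ∑ i, b i * n i) : e - 1 ≤ σ.ncard := by
  classical
  rcases Nat.eq_zero_or_pos e with rfl | he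
  · simp
  set i₀ : Fin e := ⟨0, he⟩
  let ψ : (Fin e → ℕ) →+ (Fin e → ℚ) :=
    { toFun := fun a i => (a i : ℚ)
      map_zero' := by ext i; simp
      map_add' := by intro a b; ext i; simp }
  set W : Submodule ℚ (Fin e → ℚ) :=
    Submodule.span ℚ ((fun p : (Fin e → ℕ) × (Fin e → ℕ) => ψ p.1 - ψ p.2) '' σ) with hW
  have hcong : ∀ a b : Fin e → ℕ, ∑ i, a i * n i = ∑ i, b i * n i → ψ a - ψ b ∈ W := by
    intro a b hab
    have h1 := (hσ a b).2 hab
    let q : (Fin e → ℕ) →+ ((Fin e → ℚ) ⧸ W) := (W.mkQ.toAddMonoidHom).comp ψ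
    have h2 : addConGen (fun x y => (x, y) ∈ σ) ≤ AddCon.ker q := by
      rw [AddCon.addConGen_le]
      intro x y hxy
      show W.mkQ (ψ x) = W.mkQ (ψ y)
      rw [← sub_eq_zero, ← map_sub, Submodule.mkQ_apply, Submodule.Quotient.mk_eq_zero]
      exact Submodule.subset_span ⟨(x, y), hxy, rfl⟩
    have h3 : W.mkQ (ψ a) = W.mkQ (ψ b) := h2 h1
    rwa [← sub_eq_zero, ← map_sub, Submodule.mkQ_apply, Submodule.Quotient.mk_eq_zero] at h3
  have htop : W ⊔ Submodule.span ℚ {(Pi.single i₀ 1 : Fin e → ℚ)} = ⊤ := by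
    rw [eq_top_iff, ← (Pi.basisFun ℚ (Fin e)).span_eq, Submodule.span_le]
    rintro _ ⟨i, rfl⟩
    rw [Pi.basisFun_apply]
    have h1 : ψ (Pi.single i (n i₀)) - ψ (Pi.single i₀ (n i)) ∈ W := by
      apply hcong
      rw [Finset.sum_eq_single i, Finset.sum_eq_single i₀]
      · simp [mul_comm]
      · intro j _ hj; simp [Pi.single_eq_of_ne hj]
      · intro h; exact absurd (Finset.mem_univ _) h
      · intro j _ hj; simp [Pi.single_eq_of_ne hj]
      · intro h; exact absurd (Finset.mem_univ _) h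
    have e1 : ∀ (j : Fin e) (c : ℕ), ψ (Pi.single j c) = (c : ℚ) • (Pi.single j 1 : Fin e → ℚ) := by
      intro j c
      ext k
      by_cases hk : k = j
      · subst hk; simp [ψ]
      · simp [ψ, hk]
    rw [e1, e1] at h1
    have hne : (n i₀ : ℚ) ≠ 0 := by exact_mod_cast hn i₀
    have h2 : (Pi.single i 1 : Fin e → ℚ) =
        (n i₀ : ℚ)⁻¹ • ((n i₀ : ℚ) • (Pi.single i 1 : Fin e → ℚ) - (n i : ℚ) • Pi.single i₀ 1) +
        ((n i₀ : ℚ)⁻¹ * n i) • (Pi.single i₀ 1 : Fin e → ℚ) := by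
      rw [smul_sub, smul_smul, smul_smul, inv_mul_cancel₀ hne, one_smul, sub_add_cancel]
    rw [SetLike.mem_coe, h2]
    apply Submodule.add_mem_sup
    · exact W.smul_mem _ h1
    · exact Submodule.smul_mem _ _ (Submodule.mem_span_singleton_self _)
  have hWfin : Module.finrank ℚ W ≤ σ.ncard := by
    have h1 := finrank_span_finset_le_card (R := ℚ)
      (hfin.toFinset.image (fun p : (Fin e → ℕ) × (Fin e → ℕ) => ψ p.1 - ψ p.2))
    have h2 : ((hfin.toFinset.image (fun p : (Fin e → ℕ) × (Fin e → ℕ) => ψ p.1 - ψ p.2) :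
        Finset (Fin e → ℚ)) : Set (Fin e → ℚ)) =
        (fun p : (Fin e → ℕ) × (Fin e → ℕ) => ψ p.1 - ψ p.2) '' σ := by
      rw [Finset.coe_image, Set.Finite.coe_toFinset]
    rw [Set.finrank, h2, ← hW] at h1
    refine h1.trans (Finset.card_image_le.trans ?_)
    rw [← Set.ncard_eq_toFinset_card σ hfin]
  have hle := Submodule.finrank_add_le_finrank_add_finrank W
    (Submodule.span ℚ {(Pi.single i₀ 1 : Fin e → ℚ)})
  rw [htop, finrank_top, Module.finrank_fin_fun] at hle
  have h1 : Module.finrank ℚ (Submodule.span ℚ {(Pi.single i₀ 1 : Fin e → ℚ)}) ≤ 1 :=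
    (finrank_span_le_card _).trans (by simp)
  omega

/-- transport of the indexed data to `Fin e` and to sets of pairs -/
theorem CI.data {S : AddSubmonoid ℕ} (h : CI S) : ∃ (e : ℕ) (n : Fin e → ℕ), Function.Injective n ∧
    Set.range n = minGen S ∧ ∃ σ : Set ((Fin e → ℕ) × (Fin e → ℕ)), σ.Finite ∧ σ.ncard = e - 1 ∧
      ∀ a b : Fin e → ℕ, addConGen (fun x y => (x, y) ∈ σ) a b ↔
        ∑ i, a i * n i = ∑ i, b i * n i := by
  classical
  obtain ⟨ι, _, g, κ, _, ρ, inj, rg, mem, card, con⟩ := h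
  set e := Fintype.card ι with he
  let f : Fin e ≃ ι := (Fintype.equivFin ι).symm
  -- reindexing
  let F : (ι → ℕ) ≃+ (Fin e → ℕ) :=
    { toFun := fun a i => a (f i)
      invFun := fun a i => a (f.symm i)
      left_inv := by intro a; funext i; simp
      right_inv := by intro a; funext i; simp
      map_add' := by intro a b; rfl }
  have hsum : ∀ a : Fin e → ℕ, ∑ i, a i * g (f i) = phi g (F.symm a) := by
    intro a
    rw [phi_apply, ← Equiv.sum_comp f]
    apply Finset.sum_congr rfl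
    intro i _
    show a i * g (f i) = a (f.symm (f i)) * g (f i)
    rw [Equiv.symm_apply_apply]
  let σ : Set ((Fin e → ℕ) × (Fin e → ℕ)) := Set.range (fun k => (F (ρ k).1, F (ρ k).2))
  have hσfin : σ.Finite := Set.finite_range _
  have hσ : ∀ a b : Fin e → ℕ, addConGen (fun x y => (x, y) ∈ σ) a b ↔
        ∑ i, a i * g (f i) = ∑ i, b i * g (f i) := by
    intro a b
    rw [hsum, hsum]
    constructor
    · intro hab
      have h1 : addConGen (fun x y => (x, y) ∈ σ) ≤
          AddCon.ker ((phi g).comp F.symm.toAddMonoidHom) := by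
        rw [AddCon.addConGen_le]
        rintro x y ⟨k, hk⟩
        have hx : F (ρ k).1 = x := congrArg Prod.fst hk
        have hy : F (ρ k).2 = y := congrArg Prod.snd hk
        show phi g (F.symm x) = phi g (F.symm y)
        rw [← hx, ← hy, AddEquiv.symm_apply_apply, AddEquiv.symm_apply_apply]
        apply (con _ _).2
        exact AddConGen.Rel.of _ _ ⟨k, rfl⟩
      exact h1 hab
    · intro hab
      have h1 := (con _ _).1 hab
      have h2 : addConGen (fun x y => ∃ k, ρ k = (x, y)) ≤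
          (addConGen (fun x y => (x, y) ∈ σ)).comap F.toAddMonoidHom (map_add _) := by
        rw [AddCon.addConGen_le]
        rintro u v ⟨k, hk⟩
        show (addConGen (fun x y => (x, y) ∈ σ)) (F u) (F v)
        apply AddConGen.Rel.of
        exact ⟨k, by show (F (ρ k).1, F (ρ k).2) = _; rw [hk]⟩
      have h3 : (addConGen (fun x y => (x, y) ∈ σ)) (F (F.symm a)) (F (F.symm b)) := h2 h1
      rwa [AddEquiv.apply_symm_apply, AddEquiv.apply_symm_apply] at h3
  refine ⟨e, fun i => g (f i), inj.comp f.injective, ?_, σ, hσfin, ?_, hσ⟩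
  · rw [← rg]
    ext x
    constructor
    · rintro ⟨i, rfl⟩; exact ⟨f i, rfl⟩
    · rintro ⟨i, rfl⟩; exact ⟨f.symm i, by simp⟩
  · apply le_antisymm
    · have h1 : σ.ncard ≤ Fintype.card κ := by
        have : σ = (fun k => (F (ρ k).1, F (ρ k).2)) '' Set.univ := by
          rw [Set.image_univ]
        rw [this]
        refine (Set.ncard_image_le (Set.toFinite _)).trans ?_
        rw [Set.ncard_univ, Nat.card_eq_fintype_card]
      omega
    · apply lower _ _ σ hσfin hσ
      intro i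
      have : g (f i) ∈ minGen S := by rw [← rg]; exact ⟨_, rfl⟩
      exact this.2.1

end Pool.Agent.H2.CIQ
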