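import Pool.Agent.H2.CritDefs

namespace Pool.Agent.H2.Crit

universe u

section NC

variable {R : Type u} [NonUnitalRing R]

lemma eval_quot (I : TwoSidedIdeal R) (v : ℕ → R) (t : RTerm) :
    t.eval (fun n => ((v n : R) : I.ringCon.Quotient)) = ((t.eval v : R) : I.ringCon.Quotient) := by
  induction t with
  | var n => rfl
  | zero => rfl
  | add s t hs ht => simp only [RTerm.eval, hs, ht]; rfl
  | neg s hs => simp only [RTerm.eval, hs]; rfl
  | mul s t hs ht => simp only [RTerm.eval, hs, ht]; rfl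

lemma holds_quot_iff (I : TwoSidedIdeal R) (s t : RTerm) :
    IdentityHolds I.ringCon.Quotient s t ↔ ∀ v : ℕ → R, s.eval v - t.eval v ∈ I := by
  constructor
  · intro h v
    have h1 := h (fun n => ((v n : R) : I.ringCon.Quotient))
    rw [eval_quot, eval_quot] at h1
    have h2 := (RingCon.eq _).1 h1
    rwa [TwoSidedIdeal.rel_iff] at h2
  · intro h v
    obtain ⟨w, hw⟩ : ∃ w : ℕ → R, ∀ n, ((w n : R) : I.ringCon.Quotient) = v n := by
      choose w hw using fun n => Quotient.exists_rep (v n)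
      exact ⟨w, hw⟩
    have e : v = fun n => ((w n : R) : I.ringCon.Quotient) := by
      funext n; exact (hw n).symm
    rw [e, eval_quot, eval_quot]
    exact (RingCon.eq _).2 ((TwoSidedIdeal.rel_iff _ _ _).2 (h w))

/-- Some nonzero element lies in all nonzero ideals. -/
def SIe (R : Type u) [NonUnitalRing R] : Prop :=
  ∃ d : R, d ≠ 0 ∧ ∀ I : TwoSidedIdeal R, I ≠ ⊥ → d ∈ I

lemma exists_ne_zero_of_ne_bot {I : TwoSidedIdeal R} (h : I ≠ ⊥) : ∃ x ∈ I, x ≠ 0 := by
  by_contra hc
  push Not at hc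
  apply h
  apply le_antisymm
  · intro x hx
    rw [TwoSidedIdeal.mem_bot]
    exact hc x hx
  · exact bot_le

lemma SI_iff : SubdirectlyIrreducible R ↔ SIe R := by
  constructor
  · rintro ⟨M, hM, h⟩
    obtain ⟨d, hd, hd0⟩ := exists_ne_zero_of_ne_bot hM
    exact ⟨d, hd0, fun I hI => h I hI hd⟩
  · rintro ⟨d, hd, h⟩
    refine ⟨TwoSidedIdeal.span {d}, ?_, ?_⟩
    · intro hc
      have : d ∈ TwoSidedIdeal.span ({d} : Set R) := TwoSidedIdeal.subset_span (by simp)
      rw [hc, TwoSidedIdeal.mem_bot] at this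
      exact hd this
    · intro I hI
      rw [TwoSidedIdeal.span_le]
      intro x hx
      simp only [Set.mem_singleton_iff] at hx
      subst hx
      exact h I hI

lemma SIe_of_critical (h : Critical R) : SIe R := by
  obtain ⟨s, t, h1, h2⟩ := h
  unfold IdentityHolds at h2
  push Not at h2
  obtain ⟨v, hv⟩ := h2
  exact ⟨s.eval v - t.eval v, sub_ne_zero.2 hv, fun I hI => (holds_quot_iff I s t).1 (h1 I hI) v⟩

/-- Criticality from a term that takes values in all nonzero ideals and is not identically zero. -/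
lemma critical_of_term (t : RTerm) (h1 : ∀ I : TwoSidedIdeal R, I ≠ ⊥ → ∀ v : ℕ → R, t.eval v ∈ I)
    (h2 : ∃ v : ℕ → R, t.eval v ≠ 0) : Critical R := by
  refine ⟨t, .zero, fun I hI => (holds_quot_iff I t .zero).2 fun v => ?_, ?_⟩
  · simpa [RTerm.eval] using h1 I hI v
  · intro hc
    obtain ⟨v, hv⟩ := h2
    exact hv (hc v)

end NC

section Comm

variable {R : Type u} [NonUnitalCommRing R]

/-- The ideal generated by `x` in a commutative ring without identity. -/
def princ (x : R) : TwoSidedIdeal R :=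
  TwoSidedIdeal.mk' {y | ∃ (n : ℤ) (r : R), y = n • x + r * x}
    ⟨0, 0, by simp⟩
    (by
      rintro a b ⟨n, r, rfl⟩ ⟨m, s, rfl⟩
      exact ⟨n + m, r + s, by rw [add_smul, add_mul]; abel⟩)
    (by
      rintro a ⟨n, r, rfl⟩
      exact ⟨-n, -r, by rw [neg_smul, neg_mul]; abel⟩)
    (by
      rintro a b ⟨n, r, rfl⟩
      refine ⟨0, n • a + a * r, ?_⟩
      rw [mul_add, zero_smul, zero_add, add_mul, mul_smul_comm, smul_mul_assoc, mul_assoc])
    (by
      rintro a b ⟨n, r, rfl⟩
      refine ⟨0, n • b + b * r, ?_⟩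
      rw [mul_comm (n • x + r * x) b, mul_add, zero_smul, zero_add, add_mul, mul_smul_comm,
        smul_mul_assoc, mul_assoc])

lemma mem_princ {x y : R} : y ∈ princ x ↔ ∃ (n : ℤ) (r : R), y = n • x + r * x := by
  unfold princ
  rw [TwoSidedIdeal.mem_mk']
  rfl

lemma self_mem_princ (x : R) : x ∈ princ x := mem_princ.2 ⟨1, 0, by simp⟩

lemma princ_le {x : R} {I : TwoSidedIdeal R} (h : x ∈ I) : princ x ≤ I := by
  intro y hy
  obtain ⟨n, r, rfl⟩ := mem_princ.1 hy
  exact I.add_mem (I.zsmul_mem n h) (I.mul_mem_left _ _ h)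

/-- `d` lies in every nonzero ideal. -/
def InAll (d : R) : Prop := d ≠ 0 ∧ ∀ x : R, x ≠ 0 → ∃ (n : ℤ) (r : R), d = n • x + r * x

lemma SIe_iff : SIe R ↔ ∃ d : R, InAll d := by
  constructor
  · rintro ⟨d, hd, h⟩
    refine ⟨d, hd, fun x hx => mem_princ.1 (h (princ x) ?_)⟩
    intro hc
    have := self_mem_princ x
    rw [hc, TwoSidedIdeal.mem_bot] at this
    exact hx this
  · rintro ⟨d, hd, h⟩
    refine ⟨d, hd, fun I hI => ?_⟩
    obtain ⟨x, hx, hx0⟩ := exists_ne_zero_of_ne_bot hI
    exact princ_le hx (mem_princ.2 (h x hx0))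

lemma InAll.mem {d : R} (h : InAll d) (I : TwoSidedIdeal R) (hI : I ≠ ⊥) : d ∈ I := by
  obtain ⟨x, hx, hx0⟩ := exists_ne_zero_of_ne_bot hI
  exact princ_le hx (mem_princ.2 (h.2 x hx0))

lemma exists_identity [Finite R] {d : R} (h : InAll d) {a : R} (ha : a * d ≠ 0) :
    ∃ e : R, ∀ x : R, e * x = x := by
  obtain ⟨n, r, hb⟩ := h.2 _ ha
  set b : R := n • a + r * a with hbdef
  have hbd : b * d = d := by
    rw [hbdef, add_mul, smul_mul_assoc, mul_assoc]; exact hb.symm
  have inj : ∀ x : R, b * x = 0 → x = 0 := by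
    intro x hx
    by_contra hx0
    obtain ⟨m, s, hd⟩ := h.2 x hx0
    apply h.1
    rw [← hbd, hd, mul_add, mul_smul_comm, hx, mul_left_comm, hx]
    simp
  have inj2 : Function.Injective (fun x : R => b * x) := by
    intro x y hxy
    have : b * (x - y) = 0 := by rw [mul_sub]; exact sub_eq_zero.2 hxy
    exact sub_eq_zero.1 (inj _ this)
  obtain ⟨e, he⟩ := (Finite.injective_iff_surjective.1 inj2) b
  refine ⟨e, fun x => ?_⟩
  apply sub_eq_zero.1
  apply inj
  rw [mul_sub, ← mul_assoc]
  show b * e * x - b * x = 0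
  rw [show b * e = b from he, sub_self]

/-- Powers of a single element in a ring without identity. -/
lemma prodUpTo_const (a : R) (m j : ℕ) :
    prodUpTo (fun _ => a) (m + j + 1) = prodUpTo (fun _ => a) m * prodUpTo (fun _ => a) j := by
  induction j with
  | zero => rfl
  | succ j ih =>
    show prodUpTo (fun _ => a) (m + j + 1) * a = _ * (prodUpTo (fun _ => a) j * a)
    rw [ih, mul_assoc]

lemma inr_prodUpTo_const (a : R) (m : ℕ) :
    (Unitization.inr (prodUpTo (fun _ => a) m) : Unitization ℤ R) = (Unitization.inr a) ^ (m + 1) := by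
  induction m with
  | zero => simp [prodUpTo]
  | succ m ih =>
    show (Unitization.inr (prodUpTo (fun _ => a) m * a) : Unitization ℤ R) = _
    rw [Unitization.inr_mul, ih, pow_succ _ (m + 1)]

omit [NonUnitalCommRing R] in
lemma prod_nil {U : Type*} [CommRing U] {ι : Type*} [Finite ι] (f : ι → U)
    (hf : ∀ i, IsNilpotent (f i)) :
    ∃ N : ℕ, ∀ v : ℕ → ι, ∏ i ∈ Finset.range (N + 1), f (v i) = 0 := by
  set I : Ideal U := Ideal.span (Set.range f) with hI
  have fg : I.FG := Submodule.fg_span (Set.finite_range _)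
  have hn : IsNilpotent I := by
    rw [Ideal.FG.isNilpotent_iff_le_nilradical fg, hI, Ideal.span_le]
    rintro _ ⟨a, rfl⟩
    exact hf a
  obtain ⟨N, hN⟩ := hn
  have hN' : I ^ (N + 1) = 0 := by rw [pow_succ, hN, zero_mul]
  refine ⟨N, fun v => ?_⟩
  have mem : ∀ n, ∏ i ∈ Finset.range (n + 1), f (v i) ∈ I ^ (n + 1) := by
    intro n
    induction n with
    | zero => simpa using Ideal.subset_span (Set.mem_range_self (v 0))
    | succ n ih =>
      rw [Finset.prod_range_succ, pow_succ]
      exact Ideal.mul_mem_mul ih (Ideal.subset_span (Set.mem_range_self _))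
  have := mem N
  rw [hN'] at this
  simpa using this

lemma inr_prodUpTo (v : ℕ → R) (n : ℕ) :
    (Unitization.inr (prodUpTo v n) : Unitization ℤ R) =
      ∏ i ∈ Finset.range (n + 1), (Unitization.inr (v i) : Unitization ℤ R) := by
  induction n with
  | zero => simp [prodUpTo]
  | succ n ih =>
    rw [Finset.prod_range_succ, ← ih]
    show (Unitization.inr (prodUpTo v n * v (n + 1)) : Unitization ℤ R) = _
    rw [Unitization.inr_mul]

lemma isNilpotentRing_of [Finite R] {d : R} (h : InAll d) (ha : ∀ a : R, a * d = 0) :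
    IsNilpotentRing R := by
  have nil : ∀ a : R, IsNilpotent (Unitization.inr a : Unitization ℤ R) := by
    intro a
    obtain ⟨m, n, hmn, he⟩ := Finite.exists_ne_map_eq_of_infinite
      (fun k : ℕ => prodUpTo (fun _ => a) k)
    have key : ∀ m n : ℕ, m < n → prodUpTo (fun _ => a) m = prodUpTo (fun _ => a) n →
        prodUpTo (fun _ => a) m = 0 := by
      intro m n hlt he
      obtain ⟨j, rfl⟩ : ∃ j, n = m + j + 1 := ⟨n - m - 1, by omega⟩
      rw [prodUpTo_const] at he
      by_contra h0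
      obtain ⟨k, r, hd⟩ := h.2 _ h0
      have : prodUpTo (fun _ => a) j * d = d := by
        conv_lhs => rw [hd]
        rw [mul_add, mul_smul_comm, mul_comm _ (prodUpTo (fun _ => a) m), ← he,
          mul_left_comm, mul_comm (prodUpTo (fun _ => a) j), ← he, ← hd]
      rw [ha] at this
      exact h.1 this.symm
    have : ∃ m, prodUpTo (fun _ => a) m = 0 := by
      rcases lt_or_gt_of_ne hmn with h1 | h1
      · exact ⟨m, key m n h1 he⟩
      · exact ⟨n, key n m h1 he.symm⟩
    obtain ⟨m, hm⟩ := this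
    exact ⟨m + 1, by rw [← inr_prodUpTo_const, hm, Unitization.inr_zero]⟩
  obtain ⟨N, hN⟩ := prod_nil (fun a : R => (Unitization.inr a : Unitization ℤ R)) nil
  refine ⟨N, fun v => ?_⟩
  have h0 : (Unitization.inr (prodUpTo v N) : Unitization ℤ R) = 0 := by
    rw [inr_prodUpTo]; exact hN v
  exact Unitization.inr_injective (by rw [h0, Unitization.inr_zero])

end Comm

end Pool.Agent.H2.Crit
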