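import Mathlib

/-! Finite abelian groups with a smallest nonzero subgroup are cyclic of prime power order. -/

namespace Pool.Agent.H2.Crit

universe u

variable {A : Type u} [AddCommGroup A]

/-- Bezout: an element of prime order is a multiple of any nonzero multiple of itself. -/
lemma mul_back {q : ℕ} (hq : q.Prime) {a d : A} (hd : d ≠ 0) (ha : q • a = 0) {n : ℤ}
    (h : d = n • a) : ∃ u : ℤ, a = u • d := by
  have hn : ¬ (q : ℤ) ∣ n := by
    rintro ⟨k, rfl⟩
    apply hd
    rw [h, mul_comm, mul_smul, natCast_zsmul, ha, smul_zero]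
  have hc : IsCoprime (q : ℤ) n := (Prime.coprime_iff_not_dvd (Nat.prime_iff_prime_int.1 hq)).2 hn
  obtain ⟨w, u, hwu⟩ := hc
  refine ⟨u, ?_⟩
  calc a = (1 : ℤ) • a := (one_smul _ _).symm
    _ = (w * q + u * n) • a := by rw [hwu]
    _ = w • ((q : ℤ) • a) + u • (n • a) := by rw [add_smul, mul_smul, mul_smul]
    _ = u • d := by rw [natCast_zsmul, ha, smul_zero, zero_add, ← h]

lemma nsmul_d_eq_zero {q : ℕ} {a d : A} (ha : q • a = 0) {n : ℤ} (h : d = n • a) : q • d = 0 := by
  rw [h, smul_comm, ha, smul_zero]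

lemma cocyclic [Finite A] {d : A} (hd : d ≠ 0) (h : ∀ x : A, x ≠ 0 → ∃ n : ℤ, d = n • x) :
    IsAddCyclic A ∧ ∃ p k : ℕ, p.Prime ∧ 1 ≤ k ∧ Nat.card A = p ^ k := by
  classical
  haveI : Fintype A := Fintype.ofFinite A
  have prim : ∀ q : ℕ, q.Prime → (Finset.univ.filter fun a : A => q • a = 0).card ≤ q := by
    intro q hq
    have sub : (Finset.univ.filter fun a : A => q • a = 0) ⊆
        (Finset.range q).image (fun k : ℕ => k • d) := by
      intro a ha
      simp only [Finset.mem_filter, Finset.mem_univ, true_and] at ha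
      simp only [Finset.mem_image, Finset.mem_range]
      by_cases h0 : a = 0
      · exact ⟨0, hq.pos, by rw [h0, zero_smul]⟩
      obtain ⟨n, hn⟩ := h a h0
      obtain ⟨u, hu⟩ := mul_back hq hd ha hn
      have hqd := nsmul_d_eq_zero ha hn
      have hq0 : (0 : ℤ) < q := by exact_mod_cast hq.pos
      refine ⟨(u % q).toNat, ?_, ?_⟩
      · have := Int.emod_lt_of_pos u hq0
        have := Int.emod_nonneg u hq0.ne'
        omega
      · have e : (((u % q).toNat : ℕ) : ℤ) = u % q := Int.toNat_of_nonneg (Int.emod_nonneg u hq0.ne')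
        rw [← natCast_zsmul, e, hu]
        conv_rhs => rw [← Int.emod_add_mul_ediv u q, add_smul, mul_comm, mul_smul, natCast_zsmul,
          hqd, smul_zero, add_zero]
    calc _ ≤ ((Finset.range q).image (fun k : ℕ => k • d)).card := Finset.card_le_card sub
      _ ≤ (Finset.range q).card := Finset.card_image_le
      _ = q := Finset.card_range q
  have cnt : ∀ n : ℕ, 0 < n → (Finset.univ.filter fun a : A => n • a = 0).card ≤ n := by
    intro n
    induction n using Nat.strong_induction_on with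
    | _ n ih =>
      intro hn
      by_cases h1 : n = 1
      · subst h1
        have : (Finset.univ.filter fun a : A => 1 • a = 0) ⊆ {0} := by
          intro a ha
          simpa using ha
        exact (Finset.card_le_card this).trans (by simp)
      · have hq := Nat.minFac_prime h1
        set q := n.minFac with hqdef
        obtain ⟨m, hm⟩ := Nat.minFac_dvd n
        rw [← hqdef] at hm
        have hm0 : 0 < m := by
          rcases Nat.eq_zero_or_pos m with h0 | h0
          · rw [h0, mul_zero] at hm; omega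
          · exact h0
        have hmn : m < n := by
          rw [hm]; exact (Nat.lt_mul_iff_one_lt_left hm0).2 hq.one_lt
        have hfib := Finset.card_le_mul_card_image (f := fun a : A => q • a)
          (Finset.univ.filter fun a : A => n • a = 0) q (by
            intro b hb
            obtain ⟨a0, ha0, hb0⟩ := Finset.mem_image.1 hb
            simp only [Finset.mem_filter, Finset.mem_univ, true_and] at ha0
            refine le_trans ?_ (prim q hq)
            refine Finset.card_le_card_of_injOn (fun a => a - a0) ?_ ?_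
            · intro a ha
              simp only [Finset.coe_filter, Finset.mem_filter, Finset.mem_univ, true_and,
                Set.mem_setOf_eq] at ha ⊢
              rw [smul_sub, ha.2, hb0, sub_self]
            · intro a _ b _ hab
              exact sub_left_injective hab)
        refine hfib.trans ?_
        have h2 : (Finset.image (fun a : A => q • a) (Finset.univ.filter fun a : A => n • a = 0)).card
            ≤ m := by
          refine le_trans (Finset.card_le_card ?_) (ih m hmn hm0)
          intro b hb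
          obtain ⟨a0, ha0, hb0⟩ := Finset.mem_image.1 hb
          simp only [Finset.mem_filter, Finset.mem_univ, true_and] at ha0 ⊢
          rw [← hb0, ← mul_smul, mul_comm, ← hm, ha0]
        calc q * _ ≤ q * m := Nat.mul_le_mul_left q h2
          _ = n := hm.symm
  refine ⟨isAddCyclic_of_card_nsmul_eq_zero_le cnt, ?_⟩
  haveI : Nontrivial A := ⟨⟨d, 0, hd⟩⟩
  have hcard : 1 < Nat.card A := Finite.one_lt_card
  have hp := Nat.minFac_prime hcard.ne'
  set p := (Nat.card A).minFac with hpdef
  have horder : ∀ q : ℕ, q.Prime → q ∣ Nat.card A → q • d = 0 := by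
    intro q hq hqd
    haveI := Fact.mk hq
    rw [Nat.card_eq_fintype_card] at hqd
    obtain ⟨x, hx⟩ := exists_prime_addOrderOf_dvd_card (G := A) q hqd
    have hx0 : x ≠ 0 := by
      rintro rfl
      rw [addOrderOf_zero] at hx
      exact hq.one_lt.ne hx
    obtain ⟨n, hn⟩ := h x hx0
    exact nsmul_d_eq_zero (by rw [← hx]; exact addOrderOf_nsmul_eq_zero x) hn
  have hpd := horder p hp (Nat.minFac_dvd _)
  have huniq : ∀ {q : ℕ}, q.Prime → q ∣ Nat.card A → q = p := by
    intro q hq hqd
    by_contra hne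
    have hc : Nat.Coprime q p := (Nat.coprime_primes hq hp).2 hne
    have hqd0 := horder q hq hqd
    apply hd
    have h1 : addOrderOf d ∣ q := addOrderOf_dvd_of_nsmul_eq_zero hqd0
    have h2 : addOrderOf d ∣ p := addOrderOf_dvd_of_nsmul_eq_zero hpd
    have h3 := Nat.dvd_gcd h1 h2
    rw [hc] at h3
    exact AddMonoid.addOrderOf_eq_one_iff.1 (Nat.dvd_one.1 h3)
  have hpow := Nat.eq_prime_pow_of_unique_prime_dvd (by omega : Nat.card A ≠ 0) huniq
  refine ⟨p, _, hp, ?_, hpow⟩
  rcases Nat.eq_zero_or_pos (Nat.card A).primeFactorsList.length with h0 | h0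
  · rw [h0, pow_zero] at hpow; omega
  · exact h0

/-- Conversely, a cyclic group of order `p ^ k`, `k ≥ 1`, has an element `d ≠ 0` which is a
multiple of every nonzero element. -/
lemma cocyclic_conv [IsAddCyclic A] {p k : ℕ} (hp : p.Prime) (hk : 1 ≤ k)
    (hc : Nat.card A = p ^ k) : ∃ d : A, d ≠ 0 ∧ ∀ x : A, x ≠ 0 → ∃ n : ℤ, d = n • x := by
  obtain ⟨g, hg⟩ := IsAddCyclic.exists_generator (α := A)
  have hord : addOrderOf g = p ^ k := by
    rw [← hc]; exact addOrderOf_eq_card_of_forall_mem_zmultiples hg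
  obtain ⟨j, rfl⟩ : ∃ j, k = j + 1 := ⟨k - 1, by omega⟩
  refine ⟨p ^ j • g, ?_, ?_⟩
  · intro h0
    have := addOrderOf_dvd_of_nsmul_eq_zero h0
    rw [hord] at this
    exact absurd (Nat.le_of_dvd (pow_pos hp.pos _) this)
      (not_le.2 (Nat.pow_lt_pow_right hp.one_lt (Nat.lt_succ_self j)))
  · intro x hx
    obtain ⟨m, hm⟩ := hg x
    simp only at hm
    -- gcd(m, p^(j+1)) = p^a with a ≤ j
    obtain ⟨a, ha, hg'⟩ := (Nat.dvd_prime_pow hp).1 (Int.gcd_dvd_natAbs_right m ((p ^ (j + 1) : ℕ) : ℤ))
    have haj : a ≤ j := by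
      by_contra hcon
      have haj : a = j + 1 := by omega
      apply hx
      have hdvd : ((p ^ (j + 1) : ℕ) : ℤ) ∣ m := by
        have := Int.gcd_dvd_left m ((p ^ (j + 1) : ℕ) : ℤ)
        rw [hg', haj] at this
        exact this
      obtain ⟨c, rfl⟩ := hdvd
      rw [← hm, mul_comm, mul_smul, natCast_zsmul, ← hord, addOrderOf_nsmul_eq_zero, smul_zero]
    have hbez := Int.gcd_eq_gcd_ab m ((p ^ (j + 1) : ℕ) : ℤ)
    rw [hg'] at hbez
    refine ⟨(p ^ (j - a) : ℕ) * m.gcdA ((p ^ (j + 1) : ℕ) : ℤ), ?_⟩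
    have e1 : ((p ^ j : ℕ) : ℤ) = (p ^ (j - a) : ℕ) * ((p ^ a : ℕ) : ℤ) := by
      rw [← Nat.cast_mul, ← pow_add, Nat.sub_add_cancel haj]
    have e2 : ((p ^ (j + 1) : ℕ) : ℤ) • g = 0 := by
      rw [natCast_zsmul, ← hord, addOrderOf_nsmul_eq_zero]
    rw [← natCast_zsmul, e1, hbez, ← hm, ← mul_smul, mul_add, add_smul]
    have e3 : (((p ^ (j - a) : ℕ) : ℤ) * (((p ^ (j + 1) : ℕ) : ℤ) *
        m.gcdB ((p ^ (j + 1) : ℕ) : ℤ))) • g = 0 := by
      rw [show (((p ^ (j - a) : ℕ) : ℤ) * (((p ^ (j + 1) : ℕ) : ℤ) *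
        m.gcdB ((p ^ (j + 1) : ℕ) : ℤ))) = (((p ^ (j - a) : ℕ) : ℤ) *
        m.gcdB ((p ^ (j + 1) : ℕ) : ℤ)) * ((p ^ (j + 1) : ℕ) : ℤ) by ring, mul_smul, e2, smul_zero]
    rw [e3, add_zero]
    congr 1
    ring

end Pool.Agent.H2.Crit
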