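import Pool.Agent.H2.Crit1
import Pool.Agent.H2.Crit2

namespace Pool.Agent.H2.Crit

universe u

section Terms

/-- `x₀ x₁ ⋯ xₙ` -/
def prodT : ℕ → RTerm
  | 0 => .var 0
  | n + 1 => .mul (prodT n) (.var (n + 1))

/-- `k t` -/
def smulT (t : RTerm) : ℕ → RTerm
  | 0 => .zero
  | k + 1 => .add (smulT t k) t

/-- `t ^ (k + 1)` -/
def powT (t : RTerm) : ℕ → RTerm
  | 0 => t
  | k + 1 => .mul (powT t k) t

/-- `x₀ (x₁ ^ (q + 1) - x₁) ⋯ (xₛ ^ (q + 1) - xₛ)` -/
def locT (q : ℕ) : ℕ → RTerm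
  | 0 => .var 0
  | s + 1 => .mul (locT q s) (.add (powT (.var (s + 1)) q) (.neg (.var (s + 1))))

variable {R : Type u} [NonUnitalRing R]

lemma eval_prodT (v : ℕ → R) (n : ℕ) : (prodT n).eval v = prodUpTo v n := by
  induction n with
  | zero => rfl
  | succ n ih => simp only [prodT, RTerm.eval, ih, prodUpTo]

lemma eval_smulT (v : ℕ → R) (t : RTerm) (k : ℕ) : (smulT t k).eval v = k • t.eval v := by
  induction k with
  | zero => simp [smulT, RTerm.eval]
  | succ k ih => simp only [smulT, RTerm.eval, ih, succ_nsmul]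

lemma eval_powT {S : Type u} [CommRing S] (v : ℕ → S) (t : RTerm) (k : ℕ) :
    (powT t k).eval v = (t.eval v) ^ (k + 1) := by
  induction k with
  | zero => simp [powT]
  | succ k ih => simp only [powT, RTerm.eval, ih, pow_succ]

lemma eval_locT {S : Type u} [CommRing S] (v : ℕ → S) (q s : ℕ) :
    (locT q s).eval v = v 0 * ∏ i ∈ Finset.range s, (v (i + 1) ^ (q + 1) - v (i + 1)) := by
  induction s with
  | zero => simp [locT, RTerm.eval]
  | succ s ih =>
    simp only [locT, RTerm.eval, ih, Finset.prod_range_succ, eval_powT]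
    ring

end Terms

section Nil

variable {R : Type u} [NonUnitalCommRing R]

lemma prodUpTo_congr {v w : ℕ → R} : ∀ {n : ℕ}, (∀ i ≤ n, v i = w i) → prodUpTo v n = prodUpTo w n
  | 0, h => h 0 le_rfl
  | n + 1, h => by
    show prodUpTo v n * v (n + 1) = prodUpTo w n * w (n + 1)
    rw [prodUpTo_congr (fun i hi => h i (by omega)), h (n + 1) le_rfl]

lemma prodUpTo_mul (v : ℕ → R) (t : ℕ) (y : R) :
    ∃ w : ℕ → R, w 0 = v 0 ∧ prodUpTo w (t + 1) = prodUpTo v t * y := by
  refine ⟨fun i => if i ≤ t then v i else y, by simp, ?_⟩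
  show prodUpTo _ t * (if t + 1 ≤ t then v (t + 1) else y) = _
  rw [if_neg (by omega), prodUpTo_congr (w := v)]
  intro i hi
  simp [hi]

lemma critical_of_nil [Finite R] {d : R} (h : InAll d) (hN : IsNilpotentRing R) : Critical R := by
  classical
  obtain ⟨N, hN⟩ := hN
  have hex : ∃ n, ∀ v : ℕ → R, prodUpTo v n = 0 := ⟨N, hN⟩
  have hs := Nat.find_spec hex
  have hmin := fun m => Nat.find_min (m := m) hex
  set s := Nat.find hex
  obtain ⟨t, ht⟩ : ∃ t, s = t + 1 := by
    rcases Nat.eq_zero_or_pos s with h0 | h0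
    · rw [h0] at hs
      exact absurd (hs (fun _ => d)) h.1
    · exact ⟨s - 1, by omega⟩
  have hne := hmin t (by omega)
  rw [ht] at hs
  have hann : ∀ (v : ℕ → R) (y : R), prodUpTo v t * y = 0 := by
    intro v y
    obtain ⟨w, -, hw⟩ := prodUpTo_mul v t y
    rw [← hw]; exact hs w
  -- minimal exponent
  have hexK : ∃ K, 0 < K ∧ ∀ v : ℕ → R, K • prodUpTo v t = 0 := by
    haveI : Fintype R := Fintype.ofFinite R
    exact ⟨Fintype.card R, Fintype.card_pos_iff.2 ⟨0⟩, fun v => card_nsmul_eq_zero⟩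
  have hK := Nat.find_spec hexK
  have hKmin := fun m => Nat.find_min (m := m) hexK
  set K := Nat.find hexK
  have hK1 : K ≠ 1 := by
    intro h1
    apply hne
    intro v
    have := hK.2 v
    rwa [h1, one_smul] at this
  have hq := Nat.minFac_prime hK1
  set q := K.minFac with hqdef
  obtain ⟨K', hK'⟩ := Nat.minFac_dvd K
  rw [← hqdef] at hK'
  have hK'0 : 0 < K' := by
    rcases Nat.eq_zero_or_pos K' with h0 | h0
    · rw [h0, mul_zero] at hK'; omega
    · exact h0
  have hK'lt : K' < K := by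
    conv_rhs => rw [hK']
    exact (Nat.lt_mul_iff_one_lt_left hK'0).2 hq.one_lt
  have hK'ne := hKmin K' hK'lt
  push Not at hK'ne
  obtain ⟨v0, hv0⟩ := hK'ne hK'0
  refine critical_of_term (smulT (prodT t) K') ?_ ⟨v0, by rwa [eval_smulT, eval_prodT]⟩
  intro I hI v
  rw [eval_smulT, eval_prodT]
  have hd := h.mem I hI
  by_cases hw : K' • prodUpTo v t = 0
  · rw [hw]; exact I.zero_mem
  obtain ⟨n, r, hn⟩ := h.2 _ hw
  have hr : r * (K' • prodUpTo v t) = 0 := by
    rw [mul_smul_comm, mul_comm, hann, smul_zero]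
  rw [hr, add_zero] at hn
  obtain ⟨u, hu⟩ := mul_back hq h.1 (by rw [← mul_smul, ← hK']; exact hK.2 v) hn
  rw [hu]
  exact I.zsmul_mem u hd

lemma cyclic_ann_of_InAll [Finite R] {d : R} (h : InAll d) (hd : ∀ a : R, a * d = 0) :
    IsAddCyclic (annihilator R) ∧ ∃ p k : ℕ, p.Prime ∧ 1 ≤ k ∧ Nat.card (annihilator R) = p ^ k := by
  have hmem : d ∈ annihilator R := fun y => ⟨by rw [mul_comm]; exact hd y, hd y⟩
  refine cocyclic (d := (⟨d, hmem⟩ : annihilator R)) (fun hc => h.1 (congrArg Subtype.val hc)) ?_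
  rintro ⟨x, hx⟩ hx0
  have hx0' : x ≠ 0 := fun hc => hx0 (Subtype.ext hc)
  obtain ⟨n, r, hn⟩ := h.2 x hx0'
  refine ⟨n, Subtype.ext ?_⟩
  rw [(hx r).2, add_zero] at hn
  exact hn

lemma InAll_of_cyclic_ann (hN : IsNilpotentRing R) (hc : IsAddCyclic (annihilator R))
    (hp : ∃ p k : ℕ, p.Prime ∧ 1 ≤ k ∧ Nat.card (annihilator R) = p ^ k) : ∃ d : R, InAll d := by
  classical
  obtain ⟨p, k, hp, hk, hcard⟩ := hp
  obtain ⟨⟨d, hd⟩, hd0, hdall⟩ := cocyclic_conv hp hk hcard
  refine ⟨d, fun hc => hd0 (Subtype.ext hc), ?_⟩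
  intro x hx
  obtain ⟨N, hN⟩ := hN
  have hex : ∃ n, ∀ v : ℕ → R, v 0 = x → prodUpTo v n = 0 := ⟨N, fun v _ => hN v⟩
  have hs := Nat.find_spec hex
  have hmin := fun m => Nat.find_min (m := m) hex
  set s := Nat.find hex
  obtain ⟨t, ht⟩ : ∃ t, s = t + 1 := by
    rcases Nat.eq_zero_or_pos s with h0 | h0
    · rw [h0] at hs
      exact absurd (hs (fun _ => x) rfl) hx
    · exact ⟨s - 1, by omega⟩
  have hne := hmin t (by omega)
  push Not at hne
  obtain ⟨v, hv0, hv⟩ := hne
  rw [ht] at hs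
  have hann : ∀ y : R, prodUpTo v t * y = 0 := by
    intro y
    obtain ⟨w, hw0, hw⟩ := prodUpTo_mul v t y
    rw [← hw]; exact hs w (by rw [hw0, hv0])
  have hmem : prodUpTo v t ∈ annihilator R := fun y => ⟨hann y, by rw [mul_comm]; exact hann y⟩
  obtain ⟨n, hn⟩ := hdall ⟨prodUpTo v t, hmem⟩ (fun hc => hv (congrArg Subtype.val hc))
  have hn' : d = n • prodUpTo v t := congrArg Subtype.val hn
  have hpr : ∀ j, prodUpTo v j ∈ princ x := by
    intro j
    induction j with
    | zero => show v 0 ∈ _; rw [hv0]; exact self_mem_princ x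
    | succ j ih => exact (princ x).mul_mem_right _ _ ih
  rw [← mem_princ, hn']
  exact (princ x).zsmul_mem n (hpr t)

end Nil

section Loc

variable {S : Type u} [CommRing S] [Finite S]

lemma kill_of_nonunit {d : S} (h : InAll d) {a : S} (ha : ¬ IsUnit a) : a * d = 0 := by
  have : ∃ x : S, x ≠ 0 ∧ a * x = 0 := by
    by_contra hc
    push Not at hc
    have inj : Function.Injective (fun x : S => a * x) := by
      intro x y hxy
      by_contra hne
      exact hc (x - y) (sub_ne_zero.2 hne) (by rw [mul_sub]; exact sub_eq_zero.2 hxy)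
    obtain ⟨b, hb⟩ := (Finite.injective_iff_surjective.1 inj) 1
    exact ha (IsUnit.of_mul_eq_one b hb)
  obtain ⟨x, hx, hax⟩ := this
  obtain ⟨n, r, hd⟩ := h.2 x hx
  rw [hd, mul_add, mul_smul_comm, hax, mul_left_comm, hax]
  simp

lemma local_of_InAll {d : S} (h : InAll d) : IsLocalRing S := by
  haveI : Nontrivial S := ⟨⟨d, 0, h.1⟩⟩
  refine IsLocalRing.of_nonunits_add ?_
  intro a b ha hb hu
  have h1 := kill_of_nonunit h ha
  have h2 := kill_of_nonunit h hb
  have h3 : (a + b) * d = 0 := by rw [add_mul, h1, h2, add_zero]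
  exact h.1 (hu.mul_right_eq_zero.1 h3)

lemma unit_mult {d : S} [IsLocalRing S] (h : InAll d) {w : S} (hw : w ≠ 0)
    (hm : ∀ y ∈ IsLocalRing.maximalIdeal S, w * y = 0) : ∃ c : S, w = c * d := by
  obtain ⟨n, r, hd⟩ := h.2 w hw
  have hd' : d = ((n : S) + r) * w := by rw [add_mul, ← zsmul_eq_mul]; exact hd
  have hu : IsUnit ((n : S) + r) := by
    by_contra hc
    apply h.1
    rw [hd', mul_comm]
    exact hm _ ((IsLocalRing.mem_maximalIdeal _).2 hc)
  obtain ⟨c, hc⟩ := hu.exists_left_inv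
  exact ⟨c, by rw [hd', ← mul_assoc, hc, one_mul]⟩

lemma critical_of_local [IsLocalRing S] {d : S} (h : InAll d) : Critical S := by
  classical
  haveI : Finite (IsLocalRing.ResidueField S) :=
    Finite.of_surjective _ (IsLocalRing.residue_surjective (R := S))
  haveI : Fintype (IsLocalRing.ResidueField S) := Fintype.ofFinite _
  set q := Fintype.card (IsLocalRing.ResidueField S) with hq
  have hq2 : 1 < q := Fintype.one_lt_card
  obtain ⟨q', hq'⟩ : ∃ q', q = q' + 2 := ⟨q - 2, by omega⟩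
  have hmem : ∀ y : S, y ^ (q' + 2) - y ∈ IsLocalRing.maximalIdeal S := by
    intro y
    rw [← hq', ← IsLocalRing.residue_eq_zero_iff, map_sub, map_pow, hq, FiniteField.pow_card,
      sub_self]
  have hnil : ∃ N, IsLocalRing.maximalIdeal S ^ N = ⊥ := by
    haveI : IsArtinianRing S := inferInstance
    obtain ⟨N, hN⟩ := IsArtinianRing.isNilpotent_jacobson_bot (R := S)
    rw [IsLocalRing.jacobson_eq_maximalIdeal ⊥ bot_ne_top] at hN
    exact ⟨N, hN⟩
  obtain ⟨N, hN⟩ := hnil
  have hpm : ∀ (v : ℕ → S) (s : ℕ),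
      ∏ i ∈ Finset.range s, (v (i + 1) ^ (q' + 2) - v (i + 1)) ∈ IsLocalRing.maximalIdeal S ^ s := by
    intro v s
    induction s with
    | zero => simp
    | succ s ih =>
      rw [Finset.prod_range_succ, pow_succ]
      exact Ideal.mul_mem_mul ih (hmem _)
  have hex : ∃ s, ∀ v : ℕ → S, (locT (q' + 1) s).eval v = 0 := by
    refine ⟨N, fun v => ?_⟩
    rw [eval_locT]
    have := hpm v N
    rw [hN, Ideal.mem_bot] at this
    rw [this, mul_zero]
  have hs := Nat.find_spec hex
  have hmin := fun m => Nat.find_min (m := m) hex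
  set s := Nat.find hex
  obtain ⟨t, ht⟩ : ∃ t, s = t + 1 := by
    rcases Nat.eq_zero_or_pos s with h0 | h0
    · rw [h0] at hs
      exact absurd (hs (fun _ => d)) h.1
    · exact ⟨s - 1, by omega⟩
  have hne := hmin t (by omega)
  push Not at hne
  rw [ht] at hs
  refine critical_of_term (locT (q' + 1) t) ?_ hne
  intro I hI v
  have hd := h.mem I hI
  by_cases hw : (locT (q' + 1) t).eval v = 0
  · rw [hw]; exact I.zero_mem
  have hm : ∀ y ∈ IsLocalRing.maximalIdeal S, (locT (q' + 1) t).eval v * y = 0 := by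
    intro y hy
    have h1 := hs (fun i => if i ≤ t then v i else y)
    rw [eval_locT, Finset.prod_range_succ] at h1
    simp only [Nat.zero_le, if_true] at h1
    rw [if_neg (by omega)] at h1
    have h2 : ∏ i ∈ Finset.range t, ((if i + 1 ≤ t then v (i + 1) else y) ^ (q' + 1 + 1) -
        (if i + 1 ≤ t then v (i + 1) else y)) =
        ∏ i ∈ Finset.range t, (v (i + 1) ^ (q' + 1 + 1) - v (i + 1)) := by
      refine Finset.prod_congr rfl fun i hi => ?_
      rw [Finset.mem_range] at hi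
      rw [if_pos (by omega)]
    rw [h2, ← mul_assoc, ← eval_locT] at h1
    have hu : IsUnit (1 - y ^ (q' + 1)) := by
      by_contra hc
      have h4 : (1 - y ^ (q' + 1)) ∈ IsLocalRing.maximalIdeal S :=
        (IsLocalRing.mem_maximalIdeal _).2 hc
      have h5 : y ^ (q' + 1) ∈ IsLocalRing.maximalIdeal S :=
        Ideal.pow_mem_of_mem _ hy _ (Nat.succ_pos _)
      have h6 := Ideal.add_mem _ h4 h5
      rw [sub_add_cancel] at h6
      exact (Ideal.ne_top_iff_one _).1 (IsLocalRing.maximalIdeal.isMaximal S).ne_top h6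
    have h3 : (locT (q' + 1) t).eval v * y * (1 - y ^ (q' + 1)) = 0 := by
      have : (locT (q' + 1) t).eval v * y * (1 - y ^ (q' + 1)) =
        - ((locT (q' + 1) t).eval v * (y ^ (q' + 1 + 1) - y)) := by ring
      rw [this, h1, neg_zero]
    exact hu.mul_left_eq_zero.1 h3
  obtain ⟨c, hc⟩ := unit_mult h hw hm
  rw [hc]
  exact I.mul_mem_left _ _ hd

lemma atom_of_InAll [IsLocalRing S] {d : S} (h : InAll d) :
    IsAtom (IsLocalRing.maximalIdeal S).annihilator := by
  have hdA : d ∈ (IsLocalRing.maximalIdeal S).annihilator := by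
    rw [Submodule.mem_annihilator]
    intro a ha
    rw [smul_eq_mul, mul_comm]
    exact kill_of_nonunit h ((IsLocalRing.mem_maximalIdeal _).1 ha)
  refine ⟨?_, ?_⟩
  · intro hc
    rw [hc, Ideal.mem_bot] at hdA
    exact h.1 hdA
  · intro I hI
    by_contra hne
    obtain ⟨x, hx, hx0⟩ := Submodule.exists_mem_ne_zero_of_ne_bot hne
    obtain ⟨n, r, hd⟩ := h.2 x hx0
    have hdI : d ∈ I := by
      rw [hd, zsmul_eq_mul, ← add_mul]
      exact I.mul_mem_left _ hx
    apply hI.not_ge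
    intro w hw
    by_cases hw0 : w = 0
    · rw [hw0]; exact I.zero_mem
    rw [Submodule.mem_annihilator] at hw
    obtain ⟨c, hc⟩ := unit_mult h hw0 hw
    rw [hc]
    exact I.mul_mem_left _ hdI

lemma InAll_of_atom [IsLocalRing S] (h : IsAtom (IsLocalRing.maximalIdeal S).annihilator) :
    ∃ d : S, InAll d := by
  classical
  obtain ⟨d, hd, hd0⟩ := Submodule.exists_mem_ne_zero_of_ne_bot h.1
  refine ⟨d, hd0, fun x hx => ?_⟩
  obtain ⟨N, hN⟩ : ∃ N, IsLocalRing.maximalIdeal S ^ N = ⊥ := by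
    haveI : IsArtinianRing S := inferInstance
    obtain ⟨N, hN⟩ := IsArtinianRing.isNilpotent_jacobson_bot (R := S)
    rw [IsLocalRing.jacobson_eq_maximalIdeal ⊥ bot_ne_top] at hN
    exact ⟨N, hN⟩
  have hex : ∃ n, ∀ y ∈ IsLocalRing.maximalIdeal S ^ n, x * y = 0 := by
    refine ⟨N, fun y hy => ?_⟩
    rw [hN, Ideal.mem_bot] at hy
    rw [hy, mul_zero]
  have hs := Nat.find_spec hex
  have hmin := fun m => Nat.find_min (m := m) hex
  set s := Nat.find hex
  obtain ⟨t, ht⟩ : ∃ t, s = t + 1 := by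
    rcases Nat.eq_zero_or_pos s with h0 | h0
    · rw [h0, pow_zero] at hs
      exact absurd (by simpa using hs 1 (by simp)) hx
    · exact ⟨s - 1, by omega⟩
  have hne := hmin t (by omega)
  push Not at hne
  obtain ⟨y, hy, hxy⟩ := hne
  rw [ht] at hs
  have hA : x * y ∈ (IsLocalRing.maximalIdeal S).annihilator := by
    rw [Submodule.mem_annihilator]
    intro a ha
    rw [smul_eq_mul, mul_assoc]
    exact hs _ (by rw [pow_succ]; exact Ideal.mul_mem_mul hy ha)
  have hle : Ideal.span {x * y} ≤ (IsLocalRing.maximalIdeal S).annihilator := by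
    rw [Ideal.span_le]
    intro z hz
    rw [Set.mem_singleton_iff] at hz
    rw [hz]; exact hA
  have heq : Ideal.span {x * y} = (IsLocalRing.maximalIdeal S).annihilator := by
    by_contra hne
    have := h.2 _ (lt_of_le_of_ne hle hne)
    rw [Ideal.span_singleton_eq_bot] at this
    exact hxy this
  rw [← heq, Ideal.mem_span_singleton'] at hd
  obtain ⟨c, hc⟩ := hd
  exact ⟨0, c * y, by rw [zero_smul, zero_add, ← hc]; ring⟩

end Loc

end Pool.Agent.H2.Crit
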