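import Pool.Agent.H2.Crit3

namespace Pool.Agent.H2.Crit

universe u

/-- Commutative ring structure from an identity element. -/
@[reducible] def commRingOf (R : Type u) [NonUnitalCommRing R] (e : R) (he : ∀ x : R, e * x = x) :
    CommRing R :=
  { (inferInstance : NonUnitalCommRing R) with
    one := e
    one_mul := he
    mul_one := fun x => by
      rw [mul_comm]; exact he x }

lemma InAll_transfer {R S : Type u} [NonUnitalCommRing R] [NonUnitalCommRing S] (f : R ≃+* S)
    {d : S} (h : InAll d) : InAll (f.symm d) := by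
  refine ⟨fun hc => h.1 ((map_eq_zero_iff f.symm f.symm.injective).1 hc), fun x hx => ?_⟩
  obtain ⟨n, r, hd⟩ := h.2 (f x) (fun hc => hx ((map_eq_zero_iff f f.injective).1 hc))
  refine ⟨n, f.symm r, ?_⟩
  rw [hd, map_add, map_zsmul, map_mul, f.symm_apply_apply]

variable {R : Type u} [NonUnitalCommRing R] [Finite R]

theorem main1 {d : R} (h : InAll d) : Critical R ∧
    (IsLocalWithSimpleSocle R ∨ IsNilpotentWithCyclicAnnihilator R) := by
  by_cases ha : ∀ a : R, a * d = 0
  · have hN := isNilpotentRing_of h ha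
    exact ⟨critical_of_nil h hN, Or.inr ⟨hN, cyclic_ann_of_InAll h ha⟩⟩
  · push Not at ha
    obtain ⟨a, ha⟩ := ha
    obtain ⟨e, he⟩ := exists_identity h ha
    have key : ∀ (S : CommRing R), (S.toNonUnitalCommRing = (inferInstance : NonUnitalCommRing R)) →
        Critical R ∧ (IsLocalWithSimpleSocle R ∨ IsNilpotentWithCyclicAnnihilator R) := by
      intro S hS
      subst hS
      haveI := local_of_InAll h
      exact ⟨critical_of_local h, Or.inl ⟨R, S, local_of_InAll h, atom_of_InAll h,
        ⟨RingEquiv.refl R⟩⟩⟩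
    exact key (commRingOf R e he) rfl

theorem main2 (h : IsLocalWithSimpleSocle R) : ∃ d : R, InAll d := by
  obtain ⟨S, _, _, hat, ⟨f⟩⟩ := h
  haveI : Finite S := Finite.of_equiv R f.toEquiv
  obtain ⟨d, hd⟩ := InAll_of_atom hat
  exact ⟨f.symm d, InAll_transfer f hd⟩

theorem main3 (h : IsNilpotentWithCyclicAnnihilator R) : ∃ d : R, InAll d :=
  InAll_of_cyclic_ann h.1 h.2.1 h.2.2

theorem main (R : Type u) [NonUnitalCommRing R] [Finite R] :
    (Critical R ↔ SubdirectlyIrreducible R) ∧
    (Critical R ↔ (IsLocalWithSimpleSocle R ∨ IsNilpotentWithCyclicAnnihilator R)) := by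
  refine ⟨⟨fun h => SI_iff.2 (SIe_of_critical h), fun h => ?_⟩, ⟨fun h => ?_, fun h => ?_⟩⟩
  · obtain ⟨d, hd⟩ := SIe_iff.1 (SI_iff.1 h)
    exact (main1 hd).1
  · obtain ⟨d, hd⟩ := SIe_iff.1 (SIe_of_critical h)
    exact (main1 hd).2
  · obtain ⟨d, hd⟩ : ∃ d : R, InAll d := by
      rcases h with h | h
      · exact main2 h
      · exact main3 h
    exact (main1 hd).1

end Pool.Agent.H2.Crit
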