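import Mathlib

namespace Pool.Agent.H2.Crit

universe u

/-- Terms of the language `(+, -, 0, ·)` of rings, in the variables `x₀, x₁, …`. -/
inductive RTerm : Type
  | var : ℕ → RTerm
  | zero : RTerm
  | add : RTerm → RTerm → RTerm
  | neg : RTerm → RTerm
  | mul : RTerm → RTerm → RTerm

/-- Value of a term in an associative ring `R` (not assumed to have an identity). -/
def RTerm.eval {R : Type u} [NonUnitalRing R] (v : ℕ → R) : RTerm → R
  | .var n => v n
  | .zero => 0
  | .add s t => s.eval v + t.eval v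
  | .neg s => -(s.eval v)
  | .mul s t => s.eval v * t.eval v

/-- The identity `s = t` holds in `R`. -/
def IdentityHolds (R : Type u) [NonUnitalRing R] (s t : RTerm) : Prop :=
  ∀ v : ℕ → R, s.eval v = t.eval v

/-- `R` is critical: some identity holds in every quotient `R/I` by a nonzero two-sided ideal `I`
but fails in `R`. -/
def Critical (R : Type u) [NonUnitalRing R] : Prop :=
  ∃ s t : RTerm,
    (∀ I : TwoSidedIdeal R, I ≠ ⊥ → IdentityHolds I.ringCon.Quotient s t) ∧
      ¬ IdentityHolds R s t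

/-- `R` has a smallest nonzero two-sided ideal. -/
def SubdirectlyIrreducible (R : Type u) [NonUnitalRing R] : Prop :=
  ∃ M : TwoSidedIdeal R, M ≠ ⊥ ∧ ∀ I : TwoSidedIdeal R, I ≠ ⊥ → M ≤ I

/-- `R` is isomorphic to a commutative local ring `S` with identity in which the annihilator of the
maximal ideal (that is, the socle of `S`) is a minimal nonzero ideal. -/
def IsLocalWithSimpleSocle (R : Type u) [NonUnitalRing R] : Prop :=
  ∃ (S : Type u) (_ : CommRing S) (_ : IsLocalRing S),
    IsAtom (IsLocalRing.maximalIdeal S).annihilator ∧ Nonempty (R ≃+* S)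

/-- The product `v 0 * v 1 * ⋯ * v n`. -/
def prodUpTo {R : Type u} [NonUnitalRing R] (v : ℕ → R) : ℕ → R
  | 0 => v 0
  | n + 1 => prodUpTo v n * v (n + 1)

/-- `R` is nilpotent: for some `n` all products of `n + 1` elements vanish. -/
def IsNilpotentRing (R : Type u) [NonUnitalRing R] : Prop :=
  ∃ n : ℕ, ∀ v : ℕ → R, prodUpTo v n = 0

/-- The additive group `Ann R = {x : x R = R x = 0}`. -/
def annihilator (R : Type u) [NonUnitalRing R] : AddSubgroup R where
  carrier := {x | ∀ y : R, x * y = 0 ∧ y * x = 0}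
  zero_mem' := fun y => ⟨zero_mul y, mul_zero y⟩
  add_mem' := fun {a b} ha hb y =>
    ⟨by rw [add_mul, (ha y).1, (hb y).1, add_zero], by rw [mul_add, (ha y).2, (hb y).2, add_zero]⟩
  neg_mem' := fun {a} ha y =>
    ⟨by rw [neg_mul, (ha y).1, neg_zero], by rw [mul_neg, (ha y).2, neg_zero]⟩

/-- `R` is nilpotent and `Ann R` is a cyclic group of order `p ^ k` with `p` prime and `k ≥ 1`. -/
def IsNilpotentWithCyclicAnnihilator (R : Type u) [NonUnitalRing R] : Prop :=
  IsNilpotentRing R ∧ IsAddCyclic (annihilator R) ∧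
    ∃ p k : ℕ, p.Prime ∧ 1 ≤ k ∧ Nat.card (annihilator R) = p ^ k

end Pool.Agent.H2.Crit
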