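import Mathlib

/-!
# Two linear dependences that cannot be realised in one finite-dimensional representation (helper)
-/

set_option autoImplicit false

namespace Pool.Agent.H2.Env

universe u v w

open Polynomial

/-- In a vector space, a pair `x, y` is linearly independent as soon as `a x + b y = 0` forces
`a = b = 0`. -/
lemma pair_indep {F A : Type*} [Field F] [AddCommGroup A] [Module F A] (x y : A)
    (h : ∀ a b : F, a • x + b • y = 0 → a = 0 ∧ b = 0) :
    LinearIndependent F ![x, y] := by
  rw [LinearIndependent.pair_iff]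
  exact h

/-- the key computation -/
lemma key {k : Type u} [Field k] {F : Type v} [Field F] {A : Type w} [NonUnitalRing A] [Module F A]
    [IsScalarTower F A A] [SMulCommClass F A A] [Module k A]
    (φ : (k[X] × k[X]) →ₙₐ[k] A) (hφ : Function.Injective φ) :
    LinearIndependent F ![φ (X, X), φ (1, 1)] ∨ LinearIndependent F ![φ (X, X + 1), φ (1, 1)] := by
  set e₁ := φ (1, 0) with he₁
  set e₂ := φ (0, 1) with he₂
  have h1 : e₁ ≠ 0 := by
    intro h
    have := hφ (h.trans (map_zero φ).symm)
    simp at this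
  have h2 : e₂ ≠ 0 := by
    intro h
    have := hφ (h.trans (map_zero φ).symm)
    simp at this
  have m1 : φ (1, 1) * e₁ = e₁ := by rw [he₁, ← map_mul]; simp
  have m2 : φ (1, 1) * e₂ = e₂ := by rw [he₂, ← map_mul]; simp
  have t1 : φ (X, X) * e₁ = φ (X, 0) := by rw [he₁, ← map_mul]; simp
  have t2 : φ (X, X) * e₂ = φ (0, X) := by rw [he₂, ← map_mul]; simp
  have s1 : φ (X, X + 1) * e₁ = φ (X, 0) := by rw [he₁, ← map_mul]; simp
  have s2 : φ (X, X + 1) * e₂ = φ (0, X) + e₂ := by rw [he₂, ← map_mul, ← map_add]; simp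
  by_contra hcon
  push Not at hcon
  obtain ⟨c1, c2⟩ := hcon
  -- from a dependence we get a scalar
  have scalar : ∀ T : A, ¬ LinearIndependent F ![T, φ (1, 1)] → ∃ c : F, T = c • φ (1, 1) := by
    intro T hT
    rw [LinearIndependent.pair_iff] at hT
    push Not at hT
    obtain ⟨a, b, hab, hne⟩ := hT
    have ha : a ≠ 0 := by
      intro ha
      rw [ha, zero_smul, zero_add] at hab
      have h3 : b • e₁ = 0 := by rw [← m1, ← smul_mul_assoc, hab, zero_mul]
      exact hne ha ((smul_eq_zero.1 h3).resolve_right h1)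
    refine ⟨-(a⁻¹ * b), ?_⟩
    have h4 : a • T = -(b • φ (1, 1)) := eq_neg_of_add_eq_zero_left hab
    calc T = a⁻¹ • (a • T) := by rw [smul_smul, inv_mul_cancel₀ ha, one_smul]
      _ = -(a⁻¹ * b) • φ (1, 1) := by rw [h4, smul_neg, smul_smul, neg_smul]
  obtain ⟨c, hc⟩ := scalar _ c1
  obtain ⟨d, hd⟩ := scalar _ c2
  have a1 : φ (X, 0) = c • e₁ := by rw [← t1, hc, smul_mul_assoc, m1]
  have a2 : φ (0, X) = c • e₂ := by rw [← t2, hc, smul_mul_assoc, m2]
  have b1 : φ (X, 0) = d • e₁ := by rw [← s1, hd, smul_mul_assoc, m1]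
  have b2 : φ (0, X) + e₂ = d • e₂ := by rw [← s2, hd, smul_mul_assoc, m2]
  have hcd : c = d := by
    have h5 : (c - d) • e₁ = 0 := by rw [sub_smul, ← a1, ← b1, sub_self]
    exact sub_eq_zero.1 ((smul_eq_zero.1 h5).resolve_right h1)
  rw [a2, hcd] at b2
  have : e₂ = 0 := by
    have := b2
    rwa [add_eq_left] at this
  exact h2 this

/-- the representation `(p, q) ↦ (p, q(X - c))` of `k[X] × k[X]` in `K × K`, `K = k(X)` -/
noncomputable def rep (k : Type u) [Field k] (c : k) :
    (k[X] × k[X]) →ₐ[k] (RatFunc k × RatFunc k) :=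
  AlgHom.prod
    ((Algebra.ofId k[X] (RatFunc k)).restrictScalars k |>.comp (AlgHom.fst k _ _))
    (((Algebra.ofId k[X] (RatFunc k)).restrictScalars k).comp
      ((aeval (X - C c)).comp (AlgHom.snd k _ _)))

lemma rep_apply (k : Type u) [Field k] (c : k) (p q : k[X]) :
    rep k c (p, q) = (algebraMap k[X] (RatFunc k) p,
      algebraMap k[X] (RatFunc k) (aeval (X - C c) q)) := rfl

lemma rep_injective (k : Type u) [Field k] (c : k) : Function.Injective (rep k c) := by
  rw [injective_iff_map_eq_zero]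
  rintro ⟨p, q⟩ h
  rw [rep_apply, Prod.mk_eq_zero] at h
  have h1 : p = 0 := (map_eq_zero_iff _ (RatFunc.algebraMap_injective k)).1 h.1
  have h2 : aeval (X - C c) q = 0 := (map_eq_zero_iff _ (RatFunc.algebraMap_injective k)).1 h.2
  have h3 : q = 0 := by
    have h4 : q.comp (X - C c) = 0 := h2
    have h5 := congrArg (fun r => r.comp (X + C c)) h4
    simpa [comp_assoc] using h5
  rw [h1, h3]
  rfl

end Pool.Agent.H2.Env
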