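import Mathlib

open Finset

namespace Pool.Agent.H2.EvenRank

/-- The simsun numbers: `a m j` is `a_j(m)`.  They are `0` for `m = 0` (a value that is never
used), `a_0(1) = 1`, `a_j(1) = 0` for `j ≥ 1`, `a_0(m) = 0` for `m ≥ 2` and
`a_{j+1}(m+1) = (m - 2(j+1) + 2) a_j(m) + (j+1) a_{j+1}(m)` for `m ≥ 1`. -/
def a : ℕ → ℕ → ℤ
  | 0, _ => 0
  | 1, 0 => 1
  | 1, _ + 1 => 0
  | _ + 2, 0 => 0
  | m + 2, j + 1 =>
      (((m + 1 : ℕ) : ℤ) - 2 * ((j + 1 : ℕ) : ℤ) + 2) * a (m + 1) j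
        + ((j + 1 : ℕ) : ℤ) * a (m + 1) (j + 1)

/-- The numbers `b n i = b_i(n)`: zero outside `2 ≤ i ≤ n`, `b_2(n) = 1` for `n ≥ 2`, and the
alternating recursion for `3 ≤ i ≤ n` (here `t + 1` with `t : Fin n` runs through `1, …, n`). -/
def b (n i : ℕ) : ℤ :=
  if i < 2 ∨ n < i then 0
  else if i = 2 then 1
  else ∑ s ∈ range (i + 1), ((2 * n - 2 * i + s).choose s : ℤ) *
      ∑ t : Fin n, (-1 : ℤ) ^ ((t : ℕ) + 1 + 1) *
        (if 2 * ((t : ℕ) + 1) ≤ i then ((i - s).choose (i - 2 * ((t : ℕ) + 1)) : ℤ) else 0) *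
          b (n - ((t : ℕ) + 1)) (i - s)
termination_by n
decreasing_by
  have := t.isLt
  omega

/-- Clause by clause, what the problem demands of the array `a_j(m)` (`a m j`, `j ≥ 0`). -/
structure IsSimsunArray (a : ℕ → ℕ → ℤ) : Prop where
  start_one : a 1 0 = 1
  start_two : a 2 1 = 1
  zero_col : ∀ m, 1 < m → a m 0 = 0
  zero_big : ∀ m j, m < 2 * j → a m j = 0
  step : ∀ m, 1 ≤ m → ∀ j, 1 ≤ j →
    a (m + 1) j = ((m : ℤ) - 2 * j + 2) * a m (j - 1) + j * a m j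

/-- Clause by clause, what the problem demands of the array `b_i(n)` (`b n i`). -/
structure IsHomologyArray (b : ℕ → ℕ → ℤ) : Prop where
  two : ∀ n, 2 ≤ n → b n 2 = 1
  zero : ∀ n i, ¬ (2 ≤ i ∧ i ≤ n) → b n i = 0
  step : ∀ n i, 3 ≤ n → 3 ≤ i → i ≤ n →
    b n i = ∑ s ∈ range (i + 1), ((2 * n - 2 * i + s).choose s : ℤ) *
      ∑ t ∈ Icc 1 n, (-1 : ℤ) ^ (t + 1) *
        (if 2 * t ≤ i then ((i - s).choose (i - 2 * t) : ℤ) else 0) * b (n - t) (i - s)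

end Pool.Agent.H2.EvenRank
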