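import Mathlib
import Pool.Agent.H2.EvenRankDefs

open Finset

namespace Pool.Agent.H2.EvenRank

theorem a_step (m j : ℕ) : a (m + 2) (j + 1) =
      (((m + 1 : ℕ) : ℤ) - 2 * ((j + 1 : ℕ) : ℤ) + 2) * a (m + 1) j
        + ((j + 1 : ℕ) : ℤ) * a (m + 1) (j + 1) := by
  rw [a]

theorem a_zero_big : ∀ m j, m < 2 * j → a m j = 0 := by
  intro m
  induction m with
  | zero => intro j _; simp [a]
  | succ m ih =>
    intro j hj
    match m, j, hj, ih with
    | 0, 0, hj, _ => omega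
    | 0, j + 1, _, _ => simp [a]
    | m + 1, 0, hj, _ => omega
    | m + 1, j + 1, hj, ih =>
      rw [a_step, ih (j + 1) (by omega)]
      by_cases h : m + 1 < 2 * j
      · rw [ih j h]; simp
      · have : m + 2 = 2 * (j + 1) - 1 ∨ m + 2 < 2 * (j + 1) - 1 := by omega
        have h2 : m + 1 = 2 * j := by omega
        have h3 : (((m + 1 : ℕ) : ℤ) - 2 * ((j + 1 : ℕ) : ℤ) + 2) = 0 := by
          rw [h2]; push_cast; ring
        rw [h3]; simp

theorem a_nonneg : ∀ m j, 0 ≤ a m j := by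
  intro m
  induction m with
  | zero => intro j; simp [a]
  | succ m ih =>
    intro j
    match m, j, ih with
    | 0, 0, _ => simp [a]
    | 0, j + 1, _ => simp [a]
    | m + 1, 0, _ => simp [a]
    | m + 1, j + 1, ih =>
      rw [a_step]
      by_cases h : m + 1 < 2 * j
      · rw [a_zero_big _ _ h]
        have h1 := ih (j + 1)
        have h2 : (0 : ℤ) ≤ ((j + 1 : ℕ) : ℤ) := by positivity
        have h3 := mul_nonneg h2 h1
        linarith
      · have h1 := ih (j + 1)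
        have h2 := ih j
        have h3 : (0 : ℤ) ≤ (((m + 1 : ℕ) : ℤ) - 2 * ((j + 1 : ℕ) : ℤ) + 2) := by
          push_cast; omega
        have h4 : (0 : ℤ) ≤ ((j + 1 : ℕ) : ℤ) := by positivity
        have h5 := mul_nonneg h3 h2
        have h6 := mul_nonneg h4 h1
        linarith

theorem a_isSimsun : IsSimsunArray a where
  start_one := by simp [a]
  start_two := by simp [a]
  zero_col := by
    intro m hm
    match m, hm with
    | m + 2, _ => simp [a]
  zero_big := a_zero_big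
  step := by
    intro m hm j hj
    obtain ⟨m, rfl⟩ : ∃ k, m = k + 1 := ⟨m - 1, by omega⟩
    obtain ⟨j, rfl⟩ : ∃ k, j = k + 1 := ⟨j - 1, by omega⟩
    rw [a_step]; simp

theorem b_isHomology : IsHomologyArray b where
  two := by
    intro n hn
    rw [b]
    rw [if_neg (by omega), if_pos rfl]
  zero := by
    intro n i h
    rw [b]
    rw [if_pos (by omega)]
  step := by
    intro n i _ hi hin
    rw [b]
    rw [if_neg (by omega), if_neg (by omega)]
    refine Finset.sum_congr rfl fun s _ => ?_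
    congr 1
    have key : ∀ f : ℕ → ℤ, ∑ t : Fin n, f ((t : ℕ) + 1) = ∑ t ∈ Icc 1 n, f t := by
      intro f
      rw [Fin.sum_univ_eq_sum_range (fun t => f (t + 1)) n, Finset.range_eq_Ico,
        Finset.sum_Ico_add' f 0 n 1]
      rfl
    exact key (fun t => (-1 : ℤ) ^ (t + 1) *
        (if 2 * t ≤ i then ((i - s).choose (i - 2 * t) : ℤ) else 0) * b (n - t) (i - s))

/-- the two-step lower bounds -/
theorem a_diag (m j : ℕ) : (j : ℤ) ^ 2 * a m j ≤ a (m + 2) j := by
  match m, j with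
  | 0, j => simp [a]; exact a_nonneg _ _
  | m + 1, 0 => simp [a]
  | m + 1, j + 1 =>
    have e1 := a_step (m + 1) j
    have e2 := a_step m j
    have h0 := a_nonneg (m + 1 + 1) j
    have h1 := a_nonneg (m + 1) j
    have t1 : 0 ≤ (((m + 1 + 1 : ℕ) : ℤ) - 2 * ((j + 1 : ℕ) : ℤ) + 2) * a (m + 1 + 1) j := by
      by_cases h : m + 1 + 1 < 2 * j
      · rw [a_zero_big _ _ h]; simp
      · exact mul_nonneg (by push_cast; omega) h0
    have t2 : 0 ≤ (((m + 1 : ℕ) : ℤ) - 2 * ((j + 1 : ℕ) : ℤ) + 2) * a (m + 1) j := by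
      by_cases h : m + 1 < 2 * j
      · rw [a_zero_big _ _ h]; simp
      · exact mul_nonneg (by push_cast; omega) h1
    have h5 : (0 : ℤ) ≤ ((j + 1 : ℕ) : ℤ) := by positivity
    have h6 := mul_nonneg h5 t2
    rw [show m + 1 + 2 = m + 1 + 1 + 1 from rfl]
    rw [show m + 2 = m + 1 + 1 from rfl] at e2
    rw [e1, e2]
    nlinarith

theorem a_two (m j : ℕ) : a (m + 3) (j + 2) =
    ((m : ℤ) + 2 - 2 * j - 2) * ((m : ℤ) + 1 - 2 * j) * a (m + 1) j
    + (((m : ℤ) - 2 * j) * (j + 1) + (j + 2) * ((m : ℤ) - 1 - 2 * j)) * a (m + 1) (j + 1)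
    + ((j : ℤ) + 2) ^ 2 * a (m + 1) (j + 2) := by
  rw [show m + 3 = m + 1 + 2 from rfl, a_step (m + 1) (j + 1),
    show m + 1 + 1 = m + 2 from rfl, a_step m (j + 1), a_step m j]
  push_cast
  ring

theorem a_two' (r M : ℕ) : a (2 * r + M + 4) (r + 2) =
    ((M : ℤ) + 1) * ((M : ℤ) + 2) * a (2 * r + M + 2) r
    + (((M : ℤ) + 1) * (r + 1) + (r + 2) * (M : ℤ)) * a (2 * r + M + 2) (r + 1)
    + ((r : ℤ) + 2) ^ 2 * a (2 * r + M + 2) (r + 2) := by
  have h := a_two (2 * r + M + 1) r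
  rw [show 2 * r + M + 4 = 2 * r + M + 1 + 3 from rfl, h]
  push_cast
  ring

/-- two binomial facts -/
theorem choose_two_up (x q : ℕ) (h : q + 2 ≤ x) :
    2 * x.choose q ≤ x.choose (q + 2) * x ^ 2 := by
  have h1 := Nat.choose_succ_right_eq x q
  have h2 := Nat.choose_succ_right_eq x (q + 1)
  obtain ⟨y, rfl⟩ : ∃ y, x = q + 2 + y := ⟨x - (q + 2), by omega⟩
  rw [show q + 2 + y - q = y + 2 by omega] at h1
  rw [show q + 2 + y - (q + 1) = y + 1 by omega] at h2
  have h3 : (q + 2 + y).choose (q + 2) * ((q + 2) * (q + 1))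
      = (q + 2 + y).choose q * ((y + 2) * (y + 1)) := by
    have : (q + 2 + y).choose (q + 2) * (q + 2) * (q + 1)
      = (q + 2 + y).choose q * (y + 2) * (y + 1) := by
      rw [show q + 2 = q + 1 + 1 from rfl] at *
      rw [h2, ← h1]; ring
    linarith
  have h4 : (q + 2 + y).choose (q + 2) * ((q + 2) * (q + 1))
      ≤ (q + 2 + y).choose (q + 2) * (q + 2 + y) ^ 2 := by
    apply Nat.mul_le_mul_left
    nlinarith
  have h5 : (q + 2 + y).choose q * 2 ≤ (q + 2 + y).choose q * ((y + 2) * (y + 1)) := by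
    apply Nat.mul_le_mul_left
    nlinarith
  linarith

theorem choose_diag_one (M k : ℕ) :
    (k + 1) * (M + 1).choose (k + 1) = (M + 1) * M.choose k := by
  have := Nat.add_one_mul_choose_eq M k
  linarith

/-- the terms `A_t` in the shifted form -/
def A (w i t : ℕ) : ℤ :=
  ∑ s ∈ range (2 * t + 1), ((2 * w + s).choose s : ℤ) * ((i - s).choose (i - 2 * t) : ℤ) *
    a (2 * (i + w - t)) (i - s)

theorem A_succ (w q t : ℕ) (ht : 1 ≤ t) :
    2 * A w (q + 2 * t + 2) (t + 1) ≤ A w (q + 2 * t + 2) t := by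
  have e1 : A w (q + 2 * t + 2) (t + 1) =
      (∑ s ∈ range (2 * t + 1), ((2 * w + s).choose s : ℤ) * ((q + 2 * t + 2 - s).choose q : ℤ) *
        a (2 * q + (2 * w + 2 * t) + 2) (q + 2 * t + 2 - s))
      + ((2 * w + 2 * t + 1).choose (2 * t + 1) : ℤ) * ((q : ℤ) + 1) *
          a (2 * q + (2 * w + 2 * t) + 2) (q + 1)
      + ((2 * w + 2 * t + 2).choose (2 * t + 2) : ℤ) *
          a (2 * q + (2 * w + 2 * t) + 2) q := by
    unfold A
    rw [show 2 * (t + 1) + 1 = 2 * t + 1 + 1 + 1 by ring, Finset.sum_range_succ,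
      Finset.sum_range_succ]
    rw [show q + 2 * t + 2 - 2 * (t + 1) = q by omega,
      show 2 * (q + 2 * t + 2 + w - (t + 1)) = 2 * q + (2 * w + 2 * t) + 2 by omega,
      show q + 2 * t + 2 - (2 * t + 1) = q + 1 by omega,
      show q + 2 * t + 2 - (2 * t + 1 + 1) = q by omega]
    rw [Nat.choose_self, Nat.choose_succ_self_right]
    push_cast
    ring_nf
  have e2 : A w (q + 2 * t + 2) t =
      (∑ s ∈ range (2 * t), ((2 * w + s).choose s : ℤ) * ((q + 2 * t + 2 - s).choose (q + 2) : ℤ) *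
        a (2 * q + (2 * w + 2 * t) + 2 + 2) (q + 2 * t + 2 - s))
      + ((2 * w + 2 * t).choose (2 * t) : ℤ) *
          a (2 * q + (2 * w + 2 * t) + 4) (q + 2) := by
    unfold A
    rw [Finset.sum_range_succ]
    rw [show q + 2 * t + 2 - 2 * t = q + 2 by omega,
      show 2 * (q + 2 * t + 2 + w - t) = 2 * q + (2 * w + 2 * t) + 2 + 2 by omega]
    rw [Nat.choose_self]
    push_cast
    ring_nf
  rw [e1, e2, a_two']
  rw [Finset.sum_range_succ, show q + 2 * t + 2 - 2 * t = q + 2 by omega]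
  have hsum : 2 * (∑ s ∈ range (2 * t), ((2 * w + s).choose s : ℤ) *
        ((q + 2 * t + 2 - s).choose q : ℤ) *
        a (2 * q + (2 * w + 2 * t) + 2) (q + 2 * t + 2 - s)) ≤
      ∑ s ∈ range (2 * t), ((2 * w + s).choose s : ℤ) * ((q + 2 * t + 2 - s).choose (q + 2) : ℤ) *
        a (2 * q + (2 * w + 2 * t) + 2 + 2) (q + 2 * t + 2 - s) := by
    rw [Finset.mul_sum]
    refine Finset.sum_le_sum fun s hs => ?_
    rw [Finset.mem_range] at hs
    have h1 := choose_two_up (q + 2 * t + 2 - s) q (by omega)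
    have h2 := a_diag (2 * q + (2 * w + 2 * t) + 2) (q + 2 * t + 2 - s)
    have h3 := a_nonneg (2 * q + (2 * w + 2 * t) + 2) (q + 2 * t + 2 - s)
    set x := q + 2 * t + 2 - s
    have h1' : (2 : ℤ) * (x.choose q : ℤ) ≤ (x.choose (q + 2) : ℤ) * (x : ℤ) ^ 2 := by
      exact_mod_cast h1
    set c : ℤ := ((2 * w + s).choose s : ℤ) with hc
    have hc0 : 0 ≤ c := by positivity
    set α := a (2 * q + (2 * w + 2 * t) + 2) x
    set β := a (2 * q + (2 * w + 2 * t) + 2 + 2) x
    have hp : (0 : ℤ) ≤ (x.choose (q + 2) : ℤ) := by positivity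
    calc 2 * (c * (x.choose q : ℤ) * α) = c * ((2 * (x.choose q : ℤ)) * α) := by ring
      _ ≤ c * (((x.choose (q + 2) : ℤ) * (x : ℤ) ^ 2) * α) := by
          apply mul_le_mul_of_nonneg_left _ hc0
          exact mul_le_mul_of_nonneg_right h1' h3
      _ = c * ((x.choose (q + 2) : ℤ) * ((x : ℤ) ^ 2 * α)) := by ring
      _ ≤ c * ((x.choose (q + 2) : ℤ) * β) := by
          apply mul_le_mul_of_nonneg_left _ hc0
          exact mul_le_mul_of_nonneg_left h2 hp
      _ = _ := by ring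
  have d1 := choose_diag_one (2 * w + 2 * t) (2 * t)
  have d2 := choose_diag_one (2 * w + 2 * t + 1) (2 * t + 1)
  have d1' : ((2 * t + 1 : ℤ)) * ((2 * w + 2 * t + 1).choose (2 * t + 1) : ℤ)
      = (2 * w + 2 * t + 1) * ((2 * w + 2 * t).choose (2 * t) : ℤ) := by exact_mod_cast d1
  have d2' : ((2 * t + 2 : ℤ)) * ((2 * w + 2 * t + 2).choose (2 * t + 2) : ℤ)
      = (2 * w + 2 * t + 2) * ((2 * w + 2 * t + 1).choose (2 * t + 1) : ℤ) := by
    exact_mod_cast d2
  have h0 := a_nonneg (2 * q + (2 * w + 2 * t) + 2) q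
  have h1 := a_nonneg (2 * q + (2 * w + 2 * t) + 2) (q + 1)
  have h2 := a_nonneg (2 * q + (2 * w + 2 * t) + 2) (q + 2)
  set C0 : ℤ := ((2 * w + 2 * t).choose (2 * t) : ℤ)
  set C1 : ℤ := ((2 * w + 2 * t + 1).choose (2 * t + 1) : ℤ)
  set C2 : ℤ := ((2 * w + 2 * t + 2).choose (2 * t + 2) : ℤ)
  have hC0 : 0 ≤ C0 := by positivity
  have hC1 : 0 ≤ C1 := by positivity
  have hC2 : 0 ≤ C2 := by positivity
  set x0 := a (2 * q + (2 * w + 2 * t) + 2) q
  set x1 := a (2 * q + (2 * w + 2 * t) + 2) (q + 1)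
  set x2 := a (2 * q + (2 * w + 2 * t) + 2) (q + 2)
  have hcq := choose_two_up (q + 2) q le_rfl
  rw [Nat.choose_self] at hcq
  have hcq' : (2 : ℤ) * ((q + 2).choose q : ℤ) ≤ ((q : ℤ) + 2) ^ 2 := by
    have := hcq; zify at this; linarith
  have ht' : (1 : ℤ) ≤ t := by exact_mod_cast ht
  -- the three comparisons
  have k2 : 2 * (C0 * ((q + 2).choose q : ℤ) * x2) ≤ C0 * (((q : ℤ) + 2) ^ 2 * x2) := by
    have := mul_le_mul_of_nonneg_left (mul_le_mul_of_nonneg_right hcq' h2) hC0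
    linarith
  have k1 : 2 * (C1 * ((q : ℤ) + 1) * x1) ≤
      C0 * (((2 * w + 2 * t : ℕ) : ℤ) + 1) * ((q : ℤ) + 1) * x1 := by
    have e : C0 * (((2 * w + 2 * t : ℕ) : ℤ) + 1) = (2 * t + 1) * C1 := by
      rw [d1']; push_cast; ring
    rw [e]
    have h5 : 0 ≤ C1 * ((q : ℤ) + 1) * x1 := by positivity
    nlinarith
  have k0 : 2 * (C2 * x0) ≤
      C0 * ((((2 * w + 2 * t : ℕ) : ℤ) + 1) * (((2 * w + 2 * t : ℕ) : ℤ) + 2)) * x0 := by
    have e : C0 * ((((2 * w + 2 * t : ℕ) : ℤ) + 1) * (((2 * w + 2 * t : ℕ) : ℤ) + 2))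
        = (2 * t + 1) * ((2 * t + 2) * C2) := by
      rw [d2']
      have : (2 * (t : ℤ) + 1) * ((2 * w + 2 * t + 2) * C1)
        = (2 * w + 2 * t + 2) * ((2 * t + 1) * C1) := by ring
      rw [this, d1']; push_cast; ring
    rw [e]
    have h5 : 0 ≤ C2 * x0 := by positivity
    have h6 : (2 : ℤ) ≤ (2 * t + 1) * (2 * t + 2) := by nlinarith
    have h7 := mul_le_mul_of_nonneg_right h6 h5
    linarith
  have k3 : 0 ≤ C0 * (((q : ℤ) + 2) * ((2 * w + 2 * t : ℕ) : ℤ)) * x1 := by positivity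
  nlinarith

theorem A_one (w r : ℕ) :
    2 * (a (2 * (r + 2 + w)) (r + 2) - A w (r + 2) 1) =
      (2 * w + 1) * (2 * w + 2) * a (2 * r + 2 * w + 2) r
      + 2 * ((2 * w) * (r + 2)) * a (2 * r + 2 * w + 2) (r + 1)
      + (r + 2) * (r + 3) * a (2 * r + 2 * w + 2) (r + 2) := by
  unfold A
  rw [Finset.sum_range_succ, Finset.sum_range_succ, Finset.sum_range_succ, Finset.sum_range_zero]
  rw [show 2 * (r + 2 + w) = 2 * r + 2 * w + 4 by ring, a_two']
  rw [show 2 * (r + 2 + w - 1) = 2 * r + 2 * w + 2 by omega,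
    show r + 2 - 2 * 1 = r by omega, show r + 2 - 0 = r + 2 by omega,
    show r + 2 - 1 = r + 1 by omega, show 2 * 1 = 2 from rfl]
  have c1 := choose_diag_one (2 * w + 1) 1
  have c2 : (2 * (2 * w + 2).choose 2 : ℤ) = (2 * w + 2) * (2 * w + 1) := by
    have : 2 * (2 * w + 2).choose 2 = (2 * w + 2) * (2 * w + 1) := by
      have h := choose_diag_one (2 * w + 1) 1
      simpa using h
    exact_mod_cast this
  have c3 : (2 * (r + 2).choose r : ℤ) = (r + 2) * (r + 1) := by
    have : 2 * (r + 2).choose r = (r + 2) * (r + 1) := by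
      rw [Nat.choose_symm_add]
      have h := choose_diag_one (r + 1) 1
      simpa using h
    exact_mod_cast this
  simp only [Nat.choose_zero_right, Nat.choose_one_right, Nat.choose_self,
    Nat.choose_succ_self_right]
  push_cast
  linear_combination (-(a (2 * r + 2 * w + 2) (r + 2))) * c3
    - (a (2 * r + 2 * w + 2) r) * c2

theorem poly1 (q : ℤ) (hq : 0 ≤ q) : (q + 2) * (q + 1) ≤ (q + 3) ^ 2 := by nlinarith
theorem poly2 (q : ℤ) (hq : 0 ≤ q) : (q + 3) * (q + 2) ≤ (q + 4) ^ 2 := by nlinarith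
theorem poly3 (q : ℤ) (hq : 0 ≤ q) : (q + 4) * (q + 1) ≤ (q + 4) * (q + 5) := by nlinarith
theorem poly4 (q : ℤ) (hq : 0 ≤ q) : (q + 2) * (q + 1) ≤ (q + 2) ^ 2 := by nlinarith

theorem A_two (w q : ℕ) :
    A w (q + 4) 1 + 2 * A w (q + 4) 2 ≤ a (2 * (q + 4 + w)) (q + 4) := by
  have h := A_one w (q + 2)
  rw [show q + 2 + 2 = q + 4 from rfl, show 2 * (q + 2) + 2 * w + 2 = 2 * q + (2 * w + 2) + 4 by ring,
    a_two', show q + 2 + 1 = q + 3 from rfl] at h
  have g3 := a_diag (2 * q + (2 * w + 2) + 2) (q + 3)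
  have g4 := a_diag (2 * q + (2 * w + 2) + 2) (q + 4)
  rw [show 2 * q + (2 * w + 2) + 2 + 2 = 2 * q + (2 * w + 2) + 4 from rfl] at g3 g4
  have e : A w (q + 4) 2 =
      ((q + 4).choose q : ℤ) * a (2 * q + (2 * w + 2) + 2) (q + 4)
      + (2 * w + 1) * ((q + 3).choose q : ℤ) * a (2 * q + (2 * w + 2) + 2) (q + 3)
      + ((2 * w + 2).choose 2 : ℤ) * ((q + 2).choose q : ℤ) *
          a (2 * q + (2 * w + 2) + 2) (q + 2)
      + ((2 * w + 3).choose 3 : ℤ) * (q + 1) * a (2 * q + (2 * w + 2) + 2) (q + 1)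
      + ((2 * w + 4).choose 4 : ℤ) * a (2 * q + (2 * w + 2) + 2) q := by
    unfold A
    rw [Finset.sum_range_succ, Finset.sum_range_succ, Finset.sum_range_succ,
      Finset.sum_range_succ, Finset.sum_range_succ, Finset.sum_range_zero]
    rw [show 2 * (q + 4 + w - 2) = 2 * q + (2 * w + 2) + 2 by omega,
      show q + 4 - 2 * 2 = q by omega, show q + 4 - 0 = q + 4 by omega,
      show q + 4 - 1 = q + 3 by omega, show q + 4 - 2 = q + 2 by omega,
      show q + 4 - 3 = q + 1 by omega, show 2 * 2 = 4 from rfl]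
    simp only [Nat.choose_zero_right, Nat.choose_one_right, Nat.choose_self,
      Nat.choose_succ_self_right]
    push_cast
    ring
  have p0 := a_nonneg (2 * q + (2 * w + 2) + 2) q
  have p1 := a_nonneg (2 * q + (2 * w + 2) + 2) (q + 1)
  have p2 := a_nonneg (2 * q + (2 * w + 2) + 2) (q + 2)
  have p3 := a_nonneg (2 * q + (2 * w + 2) + 2) (q + 3)
  have p4 := a_nonneg (2 * q + (2 * w + 2) + 2) (q + 4)
  have z3 : w = 0 → a (2 * q + (2 * w + 2) + 2) (q + 3) = 0 := by
    intro hw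
    apply a_zero_big
    omega
  have w2 : (2 * (2 * w + 2).choose 2 : ℤ) = (2 * w + 2) * (2 * w + 1) := by
    have : 2 * (2 * w + 2).choose 2 = (2 * w + 2) * (2 * w + 1) := by
      have h := choose_diag_one (2 * w + 1) 1
      simpa using h
    exact_mod_cast this
  have w3 : (3 * (2 * w + 3).choose 3 : ℤ) = (2 * w + 3) * ((2 * w + 2).choose 2 : ℤ) := by
    exact_mod_cast choose_diag_one (2 * w + 2) 2
  have w4 : (4 * (2 * w + 4).choose 4 : ℤ) = (2 * w + 4) * ((2 * w + 3).choose 3 : ℤ) := by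
    exact_mod_cast choose_diag_one (2 * w + 3) 3
  have q2 : (2 * (q + 2).choose q : ℤ) = (q + 2) * (q + 1) := by
    have : 2 * (q + 2).choose q = (q + 2) * (q + 1) := by
      rw [Nat.choose_symm_add]
      have h := choose_diag_one (q + 1) 1
      simpa using h
    exact_mod_cast this
  have q3 : (3 * (q + 3).choose q : ℤ) = (q + 3) * ((q + 2).choose q : ℤ) := by
    rw [Nat.choose_symm_add, Nat.choose_symm_add]
    exact_mod_cast choose_diag_one (q + 2) 2
  have q4 : (4 * (q + 4).choose q : ℤ) = (q + 4) * ((q + 3).choose q : ℤ) := by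
    rw [Nat.choose_symm_add, Nat.choose_symm_add]
    exact_mod_cast choose_diag_one (q + 3) 3
  set m := 2 * q + (2 * w + 2) + 2
  set m4 := 2 * q + (2 * w + 2) + 4
  set W2 : ℤ := ((2 * w + 2).choose 2 : ℤ)
  set W3 : ℤ := ((2 * w + 3).choose 3 : ℤ)
  set W4 : ℤ := ((2 * w + 4).choose 4 : ℤ)
  set Q2 : ℤ := ((q + 2).choose q : ℤ)
  set Q3 : ℤ := ((q + 3).choose q : ℤ)
  set Q4 : ℤ := ((q + 4).choose q : ℤ)
  set x0 := a m q
  set x1 := a m (q + 1)
  set x2 := a m (q + 2)
  set x3 := a m (q + 3)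
  set x4 := a m (q + 4)
  have hW2 : 0 ≤ W2 := by positivity
  have hW3 : 0 ≤ W3 := by positivity
  have hW4 : 0 ≤ W4 := by positivity
  have hQ2 : 0 ≤ Q2 := by positivity
  have hQ3 : 0 ≤ Q3 := by positivity
  have hQ4 : 0 ≤ Q4 := by positivity
  -- each comparison
  have k0 : 4 * (W4 * x0) ≤
      (2 * w + 1) * (2 * w + 2) * (((2 * w + 2 : ℕ) : ℤ) + 1) * (((2 * w + 2 : ℕ) : ℤ) + 2) * x0 := by
    have : (2 * (w : ℤ) + 1) * (2 * w + 2) * (((2 * w + 2 : ℕ) : ℤ) + 1) *
        (((2 * w + 2 : ℕ) : ℤ) + 2) = 24 * W4 := by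
      push_cast
      linear_combination (-(2 * (w : ℤ) + 4) * (2 * w + 3)) * w2 - (2 * (w : ℤ) + 4) * 2 * w3 - 6 * w4
    rw [this]
    have := mul_nonneg hW4 p0
    linarith
  have k1 : 4 * (W3 * (q + 1) * x1) ≤
      (2 * w + 1) * (2 * w + 2) * ((((2 * w + 2 : ℕ) : ℤ) + 1) * (q + 1)) * x1 := by
    have : (2 * (w : ℤ) + 1) * (2 * w + 2) * ((((2 * w + 2 : ℕ) : ℤ) + 1) * (q + 1))
        = 6 * W3 * (q + 1) := by
      push_cast
      linear_combination (-(2 * (w : ℤ) + 3) * (q + 1)) * w2 - 2 * (q + 1) * w3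
    rw [this]
    have : 0 ≤ W3 * (q + 1) * x1 := by positivity
    linarith
  have k2 : 4 * (W2 * Q2 * x2) ≤ (2 * w + 1) * (2 * w + 2) * (((q : ℤ) + 2) ^ 2) * x2 := by
    have e1 : (2 * (w : ℤ) + 1) * (2 * w + 2) = 2 * W2 := by linarith
    rw [e1]
    have : 2 * Q2 ≤ ((q : ℤ) + 2) ^ 2 := by rw [q2]; exact poly4 q (by positivity)
    have h1 := mul_le_mul_of_nonneg_right this p2
    have h2 := mul_le_mul_of_nonneg_left h1 hW2
    linarith
  have k3 : 4 * ((2 * w + 1) * Q3 * x3) ≤ 2 * ((2 * w) * ((q : ℤ) + 4)) * a m4 (q + 3) := by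
    by_cases hw : w = 0
    · rw [z3 hw, hw]; simp
    · have hw' : (1 : ℤ) ≤ w := by
        have : 1 ≤ w := by omega
        exact_mod_cast this
      have s1 : 6 * Q3 = (q + 3) * (q + 2) * (q + 1) := by
        linear_combination 2 * q3 + (q + 3) * q2
      have s2 : 6 * Q3 ≤ ((q : ℤ) + 3) ^ 3 := by
        rw [s1]
        have hq : (0 : ℤ) ≤ q := by positivity
        have u1 := poly1 q hq
        have u2 := mul_le_mul_of_nonneg_left u1 (show (0 : ℤ) ≤ q + 3 by linarith)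
        linarith
      have s3 : (2 * w + 1) * Q3 ≤ w * ((q + 4) * ((q : ℤ) + 3) ^ 2) := by
        have hq : (0 : ℤ) ≤ q := by positivity
        have s4 : ((q : ℤ) + 3) ^ 3 ≤ (q + 4) * ((q : ℤ) + 3) ^ 2 := by
          have : (0 : ℤ) ≤ ((q : ℤ) + 3) ^ 2 := by positivity
          linarith
        have s5 : 6 * Q3 ≤ (q + 4) * ((q : ℤ) + 3) ^ 2 := by linarith
        have s6 : (2 * (w : ℤ) + 1) ≤ 3 * w := by linarith
        have s7 : (2 * (w : ℤ) + 1) * Q3 ≤ 3 * w * Q3 := mul_le_mul_of_nonneg_right s6 hQ3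
        have s8 : (w : ℤ) * (6 * Q3) ≤ w * ((q + 4) * ((q : ℤ) + 3) ^ 2) :=
          mul_le_mul_of_nonneg_left s5 (by linarith)
        have s9 : 0 ≤ (w : ℤ) * Q3 := by positivity
        linarith
      have s10 := mul_le_mul_of_nonneg_right s3 p3
      have s11 : (w : ℤ) * ((q : ℤ) + 4) * (((q + 3 : ℕ) : ℤ) ^ 2 * x3) ≤
          w * ((q : ℤ) + 4) * a m4 (q + 3) :=
        mul_le_mul_of_nonneg_left g3 (by positivity)
      push_cast at s11
      linarith
  have k4 : 4 * (Q4 * x4) ≤ ((q : ℤ) + 4) * (q + 5) * a m4 (q + 4) := by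
    have hq : (0 : ℤ) ≤ q := by positivity
    have s1 : 24 * Q4 = (q + 4) * (q + 3) * (q + 2) * (q + 1) := by
      linear_combination 6 * q4 + 2 * (q + 4) * q3 + (q + 4) * (q + 3) * q2
    have s2 : 4 * Q4 ≤ (q + 4) * (q + 5) * ((q : ℤ) + 4) ^ 2 := by
      have : 24 * Q4 ≤ (q + 4) * (q + 5) * ((q : ℤ) + 4) ^ 2 := by
        rw [s1]
        have t1 := poly2 q hq
        have t2 := poly3 q hq
        have t3 := mul_le_mul t2 t1 (by positivity) (by positivity)
        linarith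
      linarith
    have s10 := mul_le_mul_of_nonneg_right s2 p4
    have s11 : ((q : ℤ) + 4) * (q + 5) * (((q + 4 : ℕ) : ℤ) ^ 2 * x4) ≤
        ((q : ℤ) + 4) * (q + 5) * a m4 (q + 4) :=
      mul_le_mul_of_nonneg_left g4 (by positivity)
    push_cast at s11
    linarith
  have k5 : 0 ≤ (2 * (w : ℤ) + 1) * (2 * w + 2) * ((q + 2) * ((2 * w + 2 : ℕ) : ℤ)) * x1 := by
    positivity
  push_cast at h k0 k1 k5
  rw [e]
  generalize a (2 * (q + 4 + w)) (q + 4) = top at *
  generalize A w (q + 4) 1 = A1 at *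
  generalize a m4 (q + 3) = y3 at *
  generalize a m4 (q + 4) = y4 at *
  clear e g3 g4 z3 w2 w3 w4 q2 q3 q4
  linarith

theorem A_nonneg (w i t : ℕ) : 0 ≤ A w i t := by
  unfold A
  refine Finset.sum_nonneg fun s _ => ?_
  have := a_nonneg (2 * (i + w - t)) (i - s)
  positivity

/-- `A_t`, extended by zero for `2 t > i` -/
def A' (w i t : ℕ) : ℤ := if 2 * t ≤ i then A w i t else 0

theorem A'_nonneg (w i t : ℕ) : 0 ≤ A' w i t := by
  unfold A'
  split_ifs
  · exact A_nonneg w i t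
  · exact le_rfl

theorem A'_succ (w i t : ℕ) (ht : 1 ≤ t) : 2 * A' w i (t + 1) ≤ A' w i t := by
  by_cases h : 2 * (t + 1) ≤ i
  · obtain ⟨q, rfl⟩ : ∃ q, i = q + 2 * t + 2 := ⟨i - (2 * t + 2), by omega⟩
    unfold A'
    rw [if_pos h, if_pos (by omega)]
    exact A_succ w q t ht
  · have : A' w i (t + 1) = 0 := by unfold A'; rw [if_neg h]
    rw [this]
    simpa using A'_nonneg w i t

theorem A'_base (w i : ℕ) (hi : 3 ≤ i) : A' w i 1 + 2 * A' w i 2 ≤ a (2 * (i + w)) i := by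
  by_cases h : 4 ≤ i
  · obtain ⟨q, rfl⟩ : ∃ q, i = q + 4 := ⟨i - 4, by omega⟩
    unfold A'
    rw [if_pos (by omega), if_pos (by omega)]
    exact A_two w q
  · obtain rfl : i = 3 := by omega
    unfold A'
    rw [if_pos (by omega), if_neg (by omega)]
    have h1 := A_one w 1
    have p0 := a_nonneg (2 * 1 + 2 * w + 2) 1
    have p1 := a_nonneg (2 * 1 + 2 * w + 2) (1 + 1)
    have p2 := a_nonneg (2 * 1 + 2 * w + 2) (1 + 2)
    rw [show (1 : ℕ) + 2 = 3 from rfl] at h1 p2
    have q0 : 0 ≤ (2 * (w : ℤ) + 1) * (2 * w + 2) * a (2 * 1 + 2 * w + 2) 1 := by positivity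
    have q1 : 0 ≤ 2 * (2 * (w : ℤ) * ((1 : ℕ) + 2)) * a (2 * 1 + 2 * w + 2) (1 + 1) := by
      positivity
    have q2 : 0 ≤ (((1 : ℕ) : ℤ) + 2) * ((1 : ℕ) + 3) * a (2 * 1 + 2 * w + 2) 3 := by positivity
    linarith

theorem A'_sum (w i : ℕ) (hi : 3 ≤ i) (n : ℕ) (hn : 2 ≤ n) :
    ∑ t ∈ Icc 1 n, A' w i t ≤ a (2 * (i + w)) i := by
  have key : ∀ U, 2 ≤ U → ∑ t ∈ Icc 1 U, A' w i t + A' w i U ≤ A' w i 1 + 2 * A' w i 2 := by
    intro U hU
    induction U, hU using Nat.le_induction with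
    | base =>
      rw [Finset.sum_Icc_succ_top (by omega), Finset.Icc_self, Finset.sum_singleton]
      simp only [Nat.reduceAdd]
      linarith
    | succ U hU ih =>
      rw [Finset.sum_Icc_succ_top (by omega)]
      have := A'_succ w i U (by omega)
      linarith
  have h1 := key n hn
  have h2 := A'_nonneg w i n
  have h3 := A'_base w i hi
  linarith

theorem a_col_one : ∀ m, a (m + 2) 1 = 1 := by
  intro m
  induction m with
  | zero => simp [a]
  | succ m ih => rw [a_step, ih]; simp [a]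

theorem a_col_two : ∀ m, 1 ≤ a (m + 4) 2 := by
  intro m
  rw [show m + 4 = m + 2 + 2 from rfl, a_step, a_col_one (m + 1)]
  have := a_nonneg (m + 2 + 1) 2
  push_cast
  nlinarith

theorem abs_b_le : ∀ n i, |b n i| ≤ a (2 * n) i := by
  intro n
  induction n using Nat.strong_induction_on with
  | _ n ih =>
    intro i
    by_cases h1 : 2 ≤ i ∧ i ≤ n
    swap
    · rw [b_isHomology.zero n i h1]
      simpa using a_nonneg (2 * n) i
    · by_cases h2 : i = 2
      · subst h2
        rw [b_isHomology.two n h1.2]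
        obtain ⟨k, rfl⟩ : ∃ k, n = k + 2 := ⟨n - 2, by omega⟩
        rw [show 2 * (k + 2) = 2 * k + 4 by ring]
        simpa using a_col_two (2 * k)
      · have hi : 3 ≤ i := by omega
        obtain ⟨w, rfl⟩ : ∃ w, n = i + w := ⟨n - i, by omega⟩
        have e1 := b_isHomology.step (i + w) i (by omega) hi (by omega)
        have e2 : |b (i + w) i| ≤ ∑ s ∈ range (i + 1), ((2 * w + s).choose s : ℤ) *
            ∑ t ∈ Icc 1 (i + w), (if 2 * t ≤ i then ((i - s).choose (i - 2 * t) : ℤ) else 0) *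
              a (2 * (i + w - t)) (i - s) := by
          rw [e1]
          refine (Finset.abs_sum_le_sum_abs _ _).trans (Finset.sum_le_sum fun s _ => ?_)
          rw [show 2 * (i + w) - 2 * i + s = 2 * w + s by omega, abs_mul]
          rw [abs_of_nonneg (show (0 : ℤ) ≤ ((2 * w + s).choose s : ℤ) by positivity)]
          refine mul_le_mul_of_nonneg_left ?_ (by positivity)
          refine (Finset.abs_sum_le_sum_abs _ _).trans (Finset.sum_le_sum fun t ht => ?_)
          rw [Finset.mem_Icc] at ht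
          rw [abs_mul, abs_mul, abs_pow, abs_neg, abs_one, one_pow, one_mul]
          have h3 := ih (i + w - t) (by omega) (i - s)
          have h4 : (0 : ℤ) ≤ (if 2 * t ≤ i then ((i - s).choose (i - 2 * t) : ℤ) else 0) := by
            split_ifs
            · positivity
            · exact le_rfl
          rw [abs_of_nonneg h4]
          exact mul_le_mul_of_nonneg_left h3 h4
        refine e2.trans ?_
        refine le_trans (le_of_eq ?_) (A'_sum w i hi (i + w) (by omega))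
        simp_rw [Finset.mul_sum]
        rw [Finset.sum_comm]
        refine Finset.sum_congr rfl fun t _ => ?_
        unfold A'
        split_ifs with h5
        · unfold A
          symm
          have : range (2 * t + 1) ⊆ range (i + 1) := by
            intro x hx
            rw [Finset.mem_range] at *
            omega
          refine (Finset.sum_subset this ?_).trans ?_
          · intro s hs hs'
            rw [Finset.mem_range] at *
            rw [Nat.choose_eq_zero_of_lt (show i - s < i - 2 * t by omega)]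
            simp
          · refine Finset.sum_congr rfl fun s _ => ?_
            ring
        · simp

end Pool.Agent.H2.EvenRank
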