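import Pool.Agent.H2.ExPairDefs

namespace Pool.Agent.H2.ExPair

open Classical in
theorem ncard_fiber {G : Type} [Group G] [Fintype G] (A B : Finset G) (g h : G) :
    Set.ncard ((fun a => g⁻¹ * a * h) '' (A : Set G) ∩ (B : Set G)) =
      ((A ×ˢ B).filter (fun p => p.1⁻¹ * g * p.2 = h)).card := by
  have e : ((fun a => g⁻¹ * a * h) '' (A : Set G) ∩ (B : Set G)) =
      ((((A ×ˢ B).filter (fun p => p.1⁻¹ * g * p.2 = h)).image Prod.snd : Finset G) : Set G) := by
    ext x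
    simp only [Set.mem_inter_iff, Set.mem_image, Finset.mem_coe, Finset.mem_image,
      Finset.mem_filter, Finset.mem_product, Prod.exists]
    constructor
    · rintro ⟨⟨a, ha, rfl⟩, hx⟩
      exact ⟨a, _, ⟨⟨ha, hx⟩, by group⟩, rfl⟩
    · rintro ⟨a, b, ⟨⟨ha, hb⟩, hh⟩, rfl⟩
      refine ⟨⟨a, ha, ?_⟩, hb⟩
      rw [← hh]
      group
  rw [e, Set.ncard_coe_finset, Finset.card_image_of_injOn]
  rintro ⟨a, b⟩ hp ⟨a', b'⟩ hq hpq
  simp only [Finset.coe_filter, Set.mem_setOf_eq] at hp hq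
  simp only at hpq
  subst hpq
  have h1 : a⁻¹ * g * b = a'⁻¹ * g * b := by rw [hp.2, hq.2]
  have h2 : a = a' := by
    have h3 := mul_right_cancel (mul_right_cancel h1)
    exact inv_injective h3
  rw [h2]

theorem criterion {G : Type} [Group G] [Finite G] (A B : Set G) :
    TwoSidedExact A B ↔ (A.ncard * B.ncard = Nat.card G ∧
      ∀ a ∈ A, ∀ a' ∈ A, ∀ b ∈ B, ∀ b' ∈ B, a ≠ a' → b ≠ b' →
        ¬ IsConj (a * a'⁻¹) (b * b'⁻¹)) := by
  classical
  haveI : Fintype G := Fintype.ofFinite G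
  obtain ⟨A, rfl⟩ : ∃ A' : Finset G, A = (A' : Set G) := ⟨A.toFinset, by simp⟩
  obtain ⟨B, rfl⟩ : ∃ B' : Finset G, B = (B' : Set G) := ⟨B.toFinset, by simp⟩
  have hsum : ∀ g : G, (A : Set G).ncard * (B : Set G).ncard =
      ∑ h : G, ((A ×ˢ B).filter (fun p => p.1⁻¹ * g * p.2 = h)).card := by
    intro g
    rw [Set.ncard_coe_finset, Set.ncard_coe_finset, ← Finset.card_product]
    exact Finset.card_eq_sum_card_fiberwise (fun p _ => Finset.mem_coe.mpr (Finset.mem_univ _))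
  constructor
  · intro hex
    refine ⟨?_, ?_⟩
    · rw [hsum 1]
      have : ∀ h : G, ((A ×ˢ B).filter (fun p => p.1⁻¹ * 1 * p.2 = h)).card = 1 := by
        intro h
        rw [← ncard_fiber]
        exact hex 1 h
      rw [Finset.sum_congr rfl (fun h _ => this h)]
      simp [Nat.card_eq_fintype_card]
    · intro a ha a' ha' b hb b' hb' hne hne' hconj
      obtain ⟨x, hx⟩ := isConj_iff.mp hconj
      -- x * (a * a'⁻¹) * x⁻¹ = b * b'⁻¹
      have h1 := hex x⁻¹ (a⁻¹ * x⁻¹ * b)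
      rw [Set.ncard_eq_one] at h1
      obtain ⟨y, hy⟩ := h1
      have hb1 : b ∈ ((fun c => x⁻¹⁻¹ * c * (a⁻¹ * x⁻¹ * b)) '' (A : Set G) ∩ (B : Set G)) := by
        refine ⟨⟨a, ha, ?_⟩, hb⟩
        group
      have hb2 : b' ∈ ((fun c => x⁻¹⁻¹ * c * (a⁻¹ * x⁻¹ * b)) '' (A : Set G) ∩ (B : Set G)) := by
        refine ⟨⟨a', ha', ?_⟩, hb'⟩
        have e1 : x⁻¹⁻¹ * a' * (a⁻¹ * x⁻¹ * b) = (x * (a * a'⁻¹) * x⁻¹)⁻¹ * b := by group
        show x⁻¹⁻¹ * a' * (a⁻¹ * x⁻¹ * b) = b'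
        rw [e1, hx]
        group
      rw [hy, Set.mem_singleton_iff] at hb1 hb2
      exact hne' (hb1.trans hb2.symm)
  · rintro ⟨hcard, hconj⟩ g h
    rw [ncard_fiber]
    have hle : ∀ h ∈ (Finset.univ : Finset G),
        ((A ×ˢ B).filter (fun p => p.1⁻¹ * g * p.2 = h)).card ≤ 1 := by
      intro h _
      rw [Finset.card_le_one]
      rintro ⟨a, b⟩ hp ⟨a', b'⟩ hq
      simp only [Finset.mem_filter, Finset.mem_product] at hp hq
      obtain ⟨⟨ha, hb⟩, h1⟩ := hp
      obtain ⟨⟨ha', hb'⟩, h2⟩ := hq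
      have hbe : ∀ c d : G, c⁻¹ * g * d = h → d = g⁻¹ * c * h := by
        intro c d hcd
        rw [← hcd]
        group
      have e1 := hbe a b h1
      have e2 := hbe a' b' h2
      by_cases hab : a = a'
      · subst hab
        rw [e1, e2]
      · exfalso
        have hbb : b ≠ b' := by
          intro hbb
          apply hab
          rw [e1, e2] at hbb
          exact mul_left_cancel (mul_right_cancel hbb)
        apply hconj a ha a' ha' b hb b' hb' hab hbb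
        rw [isConj_iff]
        refine ⟨g⁻¹, ?_⟩
        rw [e1, e2]
        group
    have hs := hsum g
    rw [hcard, Nat.card_eq_fintype_card] at hs
    have h1 : ∑ h : G, ((A ×ˢ B).filter (fun p => p.1⁻¹ * g * p.2 = h)).card =
        ∑ _h : G, 1 := by
      rw [← hs]; simp
    exact (Finset.sum_eq_sum_iff_of_le hle).mp h1 h (Finset.mem_univ _)

theorem swap {G : Type} [Group G] [Finite G] {A B : Set G} (h : TwoSidedExact A B) :
    TwoSidedExact B A := by
  rw [criterion] at h ⊢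
  refine ⟨by rw [mul_comm]; exact h.1, ?_⟩
  intro b hb b' hb' a ha a' ha' hne hne' hc
  exact h.2 a ha a' ha' b hb b' hb' hne' hne hc.symm

theorem invA {G : Type} [Group G] [Finite G] {A B : Set G} (h : TwoSidedExact A B) :
    TwoSidedExact ((fun a => a⁻¹) '' A) B := by
  rw [criterion] at h ⊢
  refine ⟨?_, ?_⟩
  · rw [Set.ncard_image_of_injective _ inv_injective]
    exact h.1
  · rintro _ ⟨a, ha, rfl⟩ _ ⟨a', ha', rfl⟩ b hb b' hb' hne hne' hc
    have hne2 : a' ≠ a := fun e => hne (by rw [e])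
    apply h.2 a' ha' a ha b hb b' hb' hne2 hne'
    refine IsConj.trans ?_ hc
    rw [isConj_iff]
    refine ⟨a⁻¹, ?_⟩
    group

open Classical in
/-- indicator function -/
noncomputable def ind {G : Type} (B : Set G) (x : G) : ℕ := if x ∈ B then 1 else 0

theorem exact_sum {G : Type} [Group G] [Finite G] [DecidableEq G] {A : Finset G} {B : Set G}
    (h : TwoSidedExact (A : Set G) B) (g k : G) : ∑ a ∈ A, ind B (g⁻¹ * a * k) = 1 := by
  classical
  have h1 := h g k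
  have e : ((fun a => g⁻¹ * a * k) '' (A : Set G) ∩ B) =
      (((A.filter (fun a => g⁻¹ * a * k ∈ B)).image (fun a => g⁻¹ * a * k) : Finset G) : Set G) := by
    ext x
    simp only [Set.mem_inter_iff, Set.mem_image, Finset.mem_coe, Finset.mem_image,
      Finset.mem_filter]
    constructor
    · rintro ⟨⟨a, ha, rfl⟩, hx⟩
      exact ⟨a, ⟨ha, hx⟩, rfl⟩
    · rintro ⟨a, ⟨ha, hx⟩, rfl⟩
      exact ⟨⟨a, ha, rfl⟩, hx⟩
  rw [e, Set.ncard_coe_finset, Finset.card_image_of_injective] at h1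
  · rw [← h1, Finset.card_filter]
    rfl
  · intro a b hab
    exact mul_left_cancel (mul_right_cancel hab)

section core
variable {G : Type} [Group G] [IsSimpleGroup G] {f : G → ℕ}

theorem inv_one (hf : ∃ x y, f x ≠ f y) {z : G} (hz : ∀ g y, f (g⁻¹ * z * g * y) = f y) :
    z = 1 := by
  by_contra hne
  let L : Subgroup G :=
    { carrier := {w | ∀ y, f (w * y) = f y}
      one_mem' := fun y => by rw [one_mul]
      mul_mem' := fun {a b} ha hb y => by rw [mul_assoc, ha, hb]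
      inv_mem' := fun {a} ha y => by
        have := ha (a⁻¹ * y)
        rw [mul_inv_cancel_left] at this
        exact this.symm }
  have hle : Subgroup.normalClosure {z} ≤ L := by
    unfold Subgroup.normalClosure
    rw [Subgroup.closure_le]
    intro w hw
    rw [Group.mem_conjugatesOfSet_iff] at hw
    obtain ⟨a, ha, hconj⟩ := hw
    rw [Set.mem_singleton_iff] at ha
    subst ha
    obtain ⟨g, hg⟩ := isConj_iff.mp hconj
    intro y
    have := hz g⁻¹ y
    rw [inv_inv, hg] at this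
    exact this
  rcases (inferInstance : (Subgroup.normalClosure {z}).Normal).eq_bot_or_eq_top with h | h
  · have : z ∈ Subgroup.normalClosure {z} := Subgroup.subset_normalClosure rfl
    rw [h, Subgroup.mem_bot] at this
    exact hne this
  · rw [h] at hle
    obtain ⟨x, y, hxy⟩ := hf
    apply hxy
    have h1 : x * y⁻¹ ∈ L := hle trivial
    have h2 := h1 y
    rw [inv_mul_cancel_right] at h2
    exact h2

def T3 (f : G → ℕ) (p q : G) : Prop := ∀ g x, f x + f (g⁻¹ * p * g * x) + f (g⁻¹ * q * g * x) = 1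
def D (f : G → ℕ) (v : G) : Prop := ∀ g x, f x + f (g⁻¹ * v * g * x) + f (g⁻¹ * v⁻¹ * g * x) = 1

omit [IsSimpleGroup G] in
theorem T3.conj {p q : G} (h : T3 f p q) (k : G) : T3 f (k⁻¹ * p * k) (k⁻¹ * q * k) := by
  intro g x
  have := h (k * g) x
  simpa [mul_assoc] using this

omit [IsSimpleGroup G] in
theorem D.conj {v : G} (h : D f v) (k : G) : D f (k⁻¹ * v * k) := by
  intro g x
  have := h (k * g) x
  simpa [mul_assoc] using this

omit [IsSimpleGroup G] in
theorem nonconst3 {p q : G} (h : T3 f p q) : ∃ x y, f x ≠ f y := by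
  by_contra hall
  push Not at hall
  have h1 := h 1 1
  rw [hall (1⁻¹ * p * 1 * 1) 1, hall (1⁻¹ * q * 1 * 1) 1] at h1
  omega

omit [IsSimpleGroup G] in
theorem D_of_T3 {p q : G} (h : T3 f p q) (h' : T3 f p⁻¹ q⁻¹) : D f (p⁻¹ * q) := by
  intro g x
  have e0 := h g x
  have e1 := h' g (g⁻¹ * p * g * x)
  have e2 := h' g (g⁻¹ * q * g * x)
  have s1 : g⁻¹ * p⁻¹ * g * (g⁻¹ * p * g * x) = x := by group
  have s2 : g⁻¹ * q⁻¹ * g * (g⁻¹ * p * g * x) = g⁻¹ * (p⁻¹ * q)⁻¹ * g * x := by group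
  have s3 : g⁻¹ * p⁻¹ * g * (g⁻¹ * q * g * x) = g⁻¹ * (p⁻¹ * q) * g * x := by group
  have s4 : g⁻¹ * q⁻¹ * g * (g⁻¹ * q * g * x) = x := by group
  rw [s1, s2] at e1
  rw [s3, s4] at e2
  omega

theorem cube {v : G} (h : D f v) (hf : ∃ x y, f x ≠ f y) : v * v * v = 1 := by
  apply inv_one hf
  intro g y
  have e1 := h g (g⁻¹ * v * g * y)
  have e2 := h g (g⁻¹ * v * g * (g⁻¹ * v * g * y))
  have s1 : g⁻¹ * v⁻¹ * g * (g⁻¹ * v * g * y) = y := by group
  have s2 : g⁻¹ * v⁻¹ * g * (g⁻¹ * v * g * (g⁻¹ * v * g * y)) = g⁻¹ * v * g * y := by group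
  have s3 : g⁻¹ * v * g * (g⁻¹ * v * g * (g⁻¹ * v * g * y)) = g⁻¹ * (v * v * v) * g * y := by group
  rw [s1] at e1
  rw [s2, s3] at e2
  omega

theorem q_eq {p q : G} (h : T3 f p q) (hd : D f p) : q * p = 1 := by
  apply inv_one (nonconst3 h)
  intro g y
  have e1 := h g (g⁻¹ * p * g * y)
  have e2 := hd g (g⁻¹ * p * g * y)
  have s1 : g⁻¹ * p⁻¹ * g * (g⁻¹ * p * g * y) = y := by group
  have s2 : g⁻¹ * q * g * (g⁻¹ * p * g * y) = g⁻¹ * (q * p) * g * y := by group
  rw [s2] at e1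
  rw [s1] at e2
  omega

end core

section main
variable {G : Type} [Group G] [Finite G]

theorem T3_of_exact [DecidableEq G] {x y z : G} {B : Set G} (hxy : x ≠ y) (hxz : x ≠ z)
    (hyz : y ≠ z) (h : TwoSidedExact (({x, y, z} : Finset G) : Set G) B) :
    T3 (ind B) (y * x⁻¹) (z * x⁻¹) := by
  intro g w
  have h1 := exact_sum h g (x⁻¹ * g * w)
  rw [Finset.sum_insert (by simp [hxy, hxz]), Finset.sum_insert (by simp [hyz]),
    Finset.sum_singleton] at h1
  have s1 : g⁻¹ * x * (x⁻¹ * g * w) = w := by group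
  have s2 : g⁻¹ * y * (x⁻¹ * g * w) = g⁻¹ * (y * x⁻¹) * g * w := by group
  have s3 : g⁻¹ * z * (x⁻¹ * g * w) = g⁻¹ * (z * x⁻¹) * g * w := by group
  rw [s1, s2, s3] at h1
  omega

theorem T3inv_of_exact [DecidableEq G] {x y z : G} {B : Set G} (hxy : x ≠ y) (hxz : x ≠ z)
    (hyz : y ≠ z) (h : TwoSidedExact (({x, y, z} : Finset G) : Set G) B) :
    T3 (ind B) (y * x⁻¹)⁻¹ (z * x⁻¹)⁻¹ := by
  have h1 := invA h
  have e : (fun a : G => a⁻¹) '' (({x, y, z} : Finset G) : Set G) =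
      (({x⁻¹, y⁻¹, z⁻¹} : Finset G) : Set G) := by
    simp [Set.image_insert_eq]
  rw [e] at h1
  have h2 := T3_of_exact (fun e => hxy (inv_injective e)) (fun e => hxz (inv_injective e))
    (fun e => hyz (inv_injective e)) h1
  have h3 := h2.conj x⁻¹
  have s1 : x⁻¹⁻¹ * (y⁻¹ * x⁻¹⁻¹) * x⁻¹ = (y * x⁻¹)⁻¹ := by group
  have s2 : x⁻¹⁻¹ * (z⁻¹ * x⁻¹⁻¹) * x⁻¹ = (z * x⁻¹)⁻¹ := by group
  rw [s1, s2] at h3
  exact h3

theorem three [IsSimpleGroup G] {x y z : G} {B : Set G} (hxy : x ≠ y) (hxz : x ≠ z) (hyz : y ≠ z)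
    (h : TwoSidedExact ({x, y, z} : Set G) B) : IsCoset ({x, y, z} : Set G) := by
  classical
  have h0 : TwoSidedExact (({x, y, z} : Finset G) : Set G) B := by
    simpa using h
  have h0' : TwoSidedExact (({z, x, y} : Finset G) : Set G) B := by
    have e : (({z, x, y} : Finset G) : Set G) = (({x, y, z} : Finset G) : Set G) := by
      ext w; simp; tauto
    rw [e]; exact h0
  have t := T3_of_exact hxy hxz hyz h0
  have t1 := T3_of_exact hxz.symm hyz.symm hxy h0'
  have t2 := T3inv_of_exact hxz.symm hyz.symm hxy h0'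
  -- base point `z`: `v = (x z⁻¹)⁻¹ (y z⁻¹) = z x⁻¹ y z⁻¹`
  have d := D_of_T3 t1 t2
  have d' : D (ind B) (y * x⁻¹) := by
    have := d.conj (z * x⁻¹)
    have s : (z * x⁻¹)⁻¹ * ((x * z⁻¹)⁻¹ * (y * z⁻¹)) * (z * x⁻¹) = y * x⁻¹ := by group
    rwa [s] at this
  have hq := q_eq t d'
  have hc := cube d' (nonconst3 t)
  have hr3 : (x⁻¹ * y) * (x⁻¹ * y) * (x⁻¹ * y) = 1 := by
    have : (x⁻¹ * y) * (x⁻¹ * y) * (x⁻¹ * y) = x⁻¹ * ((y * x⁻¹) * (y * x⁻¹) * (y * x⁻¹)) * x := by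
      group
    rw [this, hc]; group
  have hz : z = x * (x⁻¹ * y)⁻¹ := by
    have h1 : z * x⁻¹ = (y * x⁻¹)⁻¹ := eq_inv_of_mul_eq_one_left hq
    calc z = z * x⁻¹ * x := by group
      _ = (y * x⁻¹)⁻¹ * x := by rw [h1]
      _ = x * (x⁻¹ * y)⁻¹ := by group
  generalize hr : x⁻¹ * y = r at hr3 hz
  have hy : y = x * r := by rw [← hr]; group
  have hrr : r * r = r⁻¹ := eq_inv_of_mul_eq_one_left hr3
  have hrr' : r⁻¹ * r⁻¹ = r := by
    have := congrArg (fun w => w⁻¹) hrr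
    simpa using this
  refine ⟨{ carrier := {1, r, r⁻¹}, one_mem' := by simp, mul_mem' := ?_, inv_mem' := ?_ }, x, ?_⟩
  · rintro u v hu hv
    simp only [Set.mem_insert_iff, Set.mem_singleton_iff] at hu hv ⊢
    rcases hu with rfl | rfl | rfl <;> rcases hv with rfl | rfl | rfl <;> simp [hrr, hrr']
  · rintro u hu
    simp only [Set.mem_insert_iff, Set.mem_singleton_iff] at hu ⊢
    rcases hu with rfl | rfl | rfl <;> simp
  · show ({x, y, z} : Set G) = (fun y => x * y) '' ({1, r, r⁻¹} : Set G)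
    rw [Set.image_insert_eq, Set.image_insert_eq, Set.image_singleton, mul_one, ← hy, ← hz]

theorem two [IsSimpleGroup G] {x y : G} {B : Set G} (hxy : x ≠ y)
    (h : TwoSidedExact ({x, y} : Set G) B) : IsCoset ({x, y} : Set G) := by
  classical
  have h0 : TwoSidedExact (({x, y} : Finset G) : Set G) B := by
    simpa using h
  have t : ∀ g w, ind B w + ind B (g⁻¹ * (y * x⁻¹) * g * w) = 1 := by
    intro g w
    have h1 := exact_sum h0 g (x⁻¹ * g * w)
    rw [Finset.sum_insert (by simp [hxy]), Finset.sum_singleton] at h1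
    have s1 : g⁻¹ * x * (x⁻¹ * g * w) = w := by group
    have s2 : g⁻¹ * y * (x⁻¹ * g * w) = g⁻¹ * (y * x⁻¹) * g * w := by group
    rw [s1, s2] at h1
    exact h1
  have hf : ∃ u v, ind B u ≠ ind B v := by
    by_contra hall
    push Not at hall
    have h1 := t 1 1
    rw [hall (1⁻¹ * (y * x⁻¹) * 1 * 1) 1] at h1
    omega
  have hc : (y * x⁻¹) * (y * x⁻¹) = 1 := by
    apply inv_one hf
    intro g w
    have e1 := t g w
    have e2 := t g (g⁻¹ * (y * x⁻¹) * g * w)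
    have s : g⁻¹ * (y * x⁻¹) * g * (g⁻¹ * (y * x⁻¹) * g * w) =
        g⁻¹ * ((y * x⁻¹) * (y * x⁻¹)) * g * w := by group
    rw [s] at e2
    omega
  have hr2 : (x⁻¹ * y) * (x⁻¹ * y) = 1 := by
    have : (x⁻¹ * y) * (x⁻¹ * y) = x⁻¹ * ((y * x⁻¹) * (y * x⁻¹)) * x := by group
    rw [this, hc]; group
  generalize hr : x⁻¹ * y = r at hr2
  have hy : y = x * r := by rw [← hr]; group
  have hri : r⁻¹ = r := (eq_inv_of_mul_eq_one_left hr2).symm
  refine ⟨{ carrier := {1, r}, one_mem' := by simp, mul_mem' := ?_, inv_mem' := ?_ }, x, ?_⟩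
  · rintro u v hu hv
    simp only [Set.mem_insert_iff, Set.mem_singleton_iff] at hu hv ⊢
    rcases hu with rfl | rfl <;> rcases hv with rfl | rfl <;> simp [hr2]
  · rintro u hu
    simp only [Set.mem_insert_iff, Set.mem_singleton_iff] at hu ⊢
    rcases hu with rfl | rfl <;> simp [hri]
  · show ({x, y} : Set G) = (fun y => x * y) '' ({1, r} : Set G)
    rw [Set.image_pair, mul_one, ← hy]

theorem small [IsSimpleGroup G] {A B : Set G} (h : TwoSidedExact A B) (hA : A.ncard ≤ 3) :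
    IsCoset A := by
  have h0 : A.ncard ≠ 0 := by
    intro h0
    have hA0 : A = ∅ := (Set.ncard_eq_zero (Set.toFinite A)).mp h0
    have := h 1 1
    rw [hA0] at this
    simp at this
  have hcases : A.ncard = 1 ∨ A.ncard = 2 ∨ A.ncard = 3 := by omega
  rcases hcases with h1 | h2 | h3
  · obtain ⟨x, rfl⟩ := Set.ncard_eq_one.mp h1
    refine ⟨⊥, x, ?_⟩
    simp
  · obtain ⟨x, y, hxy, rfl⟩ := Set.ncard_eq_two.mp h2
    exact two hxy h
  · obtain ⟨x, y, z, hxy, hxz, hyz, rfl⟩ := Set.ncard_eq_three.mp h3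
    exact three hxy hxz hyz h

end main

end Pool.Agent.H2.ExPair
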