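import Mathlib

namespace Pool.Agent.H2.ExPair

/-- two-sided exact pair -/
def TwoSidedExact {G : Type} [Group G] (A B : Set G) : Prop :=
  ∀ g h : G, Set.ncard ((fun a => g⁻¹ * a * h) '' A ∩ B) = 1

/-- coset of a subgroup -/
def IsCoset {G : Type} [Group G] (A : Set G) : Prop :=
  ∃ H : Subgroup G, ∃ x : G, A = (fun y => x * y) '' (H : Set G)

end Pool.Agent.H2.ExPair
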