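import Mathlib

/-! A class of elements of order 3 in the simple group of order 504 all of whose commutators
have order 1 or 9. -/

namespace Pool.Agent.H2.GM

/-- the `i`-th four bit digit of `c` -/
def ap (c i : ℕ) : ℕ := Nat.land (Nat.shiftRight c (4 * i)) 15

/-- `c` codes the permutation `σ` -/
def R (σ : Equiv.Perm (Fin 9)) (c : ℕ) : Prop := ∀ i : Fin 9, ((σ i : Fin 9) : ℕ) = ap c i

def allN : ℕ → (ℕ → Bool) → Bool
  | 0, _ => true
  | n + 1, p => cond (p n) (allN n p) false

theorem allN_spec {n : ℕ} {p : ℕ → Bool} (h : allN n p = true) : ∀ k, k < n → p k = true := by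
  induction n with
  | zero => intro k hk; omega
  | succ n ih =>
    intro k hk
    rw [allN] at h
    cases hp : p n with
    | false => rw [hp] at h; simp at h
    | true =>
      rw [hp] at h
      simp only [cond_true] at h
      rcases Nat.lt_succ_iff_lt_or_eq.mp hk with h1 | h1
      · exact ih h k h1
      · rw [h1]; exact hp

def fo {α : Type} (n : ℕ) (f : ℕ → α) : α := Nat.rec (f 0) (fun m _ => f (Nat.succ m)) n

theorem fo_eq {α : Type} (n : ℕ) (f : ℕ → α) : fo n f = f n := by
  cases n <;> rfl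

def a : Equiv.Perm (Fin 9) := ⟨![1, 0, 3, 2, 5, 4, 7, 6, 8], ![1, 0, 3, 2, 5, 4, 7, 6, 8], by decide, by decide⟩
def ac : ℕ := 36092322561
def aci : ℕ := 36092322561
theorem Ra : R a ac := by unfold R; decide +kernel
theorem Rai : R a⁻¹ aci := by unfold R; decide +kernel

def b : Equiv.Perm (Fin 9) := ⟨![8, 1, 5, 6, 7, 2, 3, 4, 0], ![8, 1, 5, 6, 7, 2, 3, 4, 0], by decide, by decide⟩
def bc : ℕ := 1126655256
def bci : ℕ := 1126655256
theorem Rb : R b bc := by unfold R; decide +kernel
theorem Rbi : R b⁻¹ bci := by unfold R; decide +kernel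

def m : Equiv.Perm (Fin 9) := ⟨![0, 2, 4, 6, 3, 1, 7, 5, 8], ![0, 5, 1, 4, 2, 7, 3, 6, 8], by decide, by decide⟩
def mc : ℕ := 35820626976
def mci : ℕ := 36028170576
theorem Rm : R m mc := by unfold R; decide +kernel
theorem Rmi : R m⁻¹ mci := by unfold R; decide +kernel

def x : Equiv.Perm (Fin 9) := ⟨![8, 6, 0, 7, 3, 1, 5, 4, 2], ![2, 5, 8, 4, 7, 6, 1, 3, 0], by decide, by decide⟩
def xc : ℕ := 9748836456
def xci : ℕ := 828852306
theorem Rx : R x xc := by unfold R; decide +kernel
theorem Rxi : R x⁻¹ xci := by unfold R; decide +kernel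

/-- the class of `x` -/
def L : List ℕ := [14100553761, 30675372081, 22399707201, 13539755601, 31141155681, 21615494001, 879908481, 27166998786, 5761401666, 21495187266, 28037878866, 828852306, 6493193586, 22284867186, 10825897731, 17315558691, 23646455331, 1631749491, 9797981811, 18881781891, 22549784451, 10259363076, 31810801716, 4335306036, 31449088356, 4966413156, 594039156, 9933587316, 18825316101, 1686577461, 17204144181, 30876533061, 26075400261, 30402633861, 26596091781, 19347744006, 15116366886, 4415899686, 17490604086, 678511926, 4891018326, 13227796566, 26130719751, 26644840791, 2202084951, 13497356391, 9982973031, 10204959111, 14044632711, 5674267656, 22666416936, 17535362856, 30099727176, 27114280776, 9748836456, 13273203816]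

def S (σ : Equiv.Perm (Fin 9)) : Prop := ∃ k ∈ L, R σ k

def chkConj (g gi : ℕ) : Bool := L.all fun k => L.any fun k' =>
  allN 9 fun i => Nat.beq (ap k' i) (ap g (ap k (ap gi i)))

theorem conj_spec {g gi : ℕ} (h : chkConj g gi = true) {τ : Equiv.Perm (Fin 9)} (hτ : R τ g)
    (hτi : R τ⁻¹ gi) {σ : Equiv.Perm (Fin 9)} (hσ : S σ) : S (τ * σ * τ⁻¹) := by
  obtain ⟨k, hk, hR⟩ := hσ
  have h1 := List.all_eq_true.mp h k hk
  obtain ⟨k', hk', h2⟩ := List.any_eq_true.mp h1
  refine ⟨k', hk', ?_⟩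
  intro i
  have h3 := Nat.eq_of_beq_eq_true (allN_spec h2 i i.2)
  rw [Equiv.Perm.mul_apply, Equiv.Perm.mul_apply, hτ, hR, hτi, h3]

theorem ca : chkConj ac aci = true := by decide +kernel
theorem ca' : chkConj aci ac = true := by decide +kernel
theorem cb : chkConj bc bci = true := by decide +kernel
theorem cb' : chkConj bci bc = true := by decide +kernel
theorem cm : chkConj mc mci = true := by decide +kernel
theorem cm' : chkConj mci mc = true := by decide +kernel

/-- one application of the commutator of `x` and the permutation coded by `k` -/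
def t (k i : ℕ) : ℕ := ap xc (ap k (ap xci (ap k (ap k i))))

def it (k : ℕ) : ℕ → ℕ → ℕ
  | 0, i => i
  | n + 1, i => fo (t k i) fun j => it k n j

def chkComm : Bool := L.all fun k => allN 9 fun i =>
  and (Nat.beq (ap k (ap k (ap k i))) i) (Nat.beq (it k 9 i) i)

theorem comm_true : chkComm = true := by decide +kernel

theorem x_S : S x := by
  refine ⟨xc, ?_, Rx⟩
  decide +kernel

theorem comm_pow {σ : Equiv.Perm (Fin 9)} (hσ : S σ) : (x * σ * x⁻¹ * σ⁻¹) ^ 9 = 1 := by
  obtain ⟨k, hk, hR⟩ := hσ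
  have h1 := List.all_eq_true.mp comm_true k hk
  have h2 : ∀ i : Fin 9, ap k (ap k (ap k i)) = i ∧ it k 9 i = i := by
    intro i
    have h3 := allN_spec h1 i i.2
    rw [Bool.and_eq_true] at h3
    exact ⟨Nat.eq_of_beq_eq_true h3.1, Nat.eq_of_beq_eq_true h3.2⟩
  have hinv : ∀ i : Fin 9, ((σ⁻¹ i : Fin 9) : ℕ) = ap k (ap k i) := by
    intro i
    have h4 : σ (σ (σ i)) = i := by
      apply Fin.ext
      rw [hR, hR, hR]
      exact (h2 i).1
    have h5 : σ⁻¹ i = σ (σ i) := by
      rw [Equiv.Perm.inv_eq_iff_eq, h4]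
    rw [h5, hR, hR]
  have hstep : ∀ i : Fin 9, (((x * σ * x⁻¹ * σ⁻¹) i : Fin 9) : ℕ) = t k i := by
    intro i
    unfold t
    simp only [Equiv.Perm.mul_apply]
    rw [Rx, hR, Rxi, hinv]
  have hit : ∀ n : ℕ, ∀ i : Fin 9, ((((x * σ * x⁻¹ * σ⁻¹) ^ n) i : Fin 9) : ℕ) = it k n i := by
    intro n
    induction n with
    | zero => intro i; rfl
    | succ n ih =>
      intro i
      rw [it, fo_eq, ← hstep, ← ih, pow_succ, Equiv.Perm.mul_apply]
  apply Equiv.ext
  intro i
  apply Fin.ext
  rw [hit, (h2 i).2]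
  rfl

/-- the group -/
def G : Subgroup (Equiv.Perm (Fin 9)) := Subgroup.closure {a, b, m}

theorem conj_iff {τ : Equiv.Perm (Fin 9)} (hτ : τ ∈ G) : ∀ σ, S σ ↔ S (τ * σ * τ⁻¹) := by
  have key : ∀ {g gi : ℕ} {τ : Equiv.Perm (Fin 9)}, chkConj g gi = true → chkConj gi g = true →
      R τ g → R τ⁻¹ gi → ∀ σ, S σ ↔ S (τ * σ * τ⁻¹) := by
    intro g gi τ h1 h2 r1 r2 σ
    constructor
    · intro h
      exact conj_spec h1 r1 r2 h
    · intro h
      have := conj_spec h2 r2 (by rw [inv_inv]; exact r1) h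
      have e : τ⁻¹ * (τ * σ * τ⁻¹) * τ⁻¹⁻¹ = σ := by group
      rwa [e] at this
  induction hτ using Subgroup.closure_induction with
  | mem τ h =>
    simp only [Set.mem_insert_iff, Set.mem_singleton_iff] at h
    rcases h with rfl | rfl | rfl
    · exact key ca ca' Ra Rai
    · exact key cb cb' Rb Rbi
    · exact key cm cm' Rm Rmi
  | one => intro σ; simp
  | mul y z _ _ hy hz =>
    intro σ
    rw [hz, hy]
    have e : y * (z * σ * z⁻¹) * y⁻¹ = y * z * σ * (y * z)⁻¹ := by group
    rw [e]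
  | inv y _ hy =>
    intro σ
    rw [hy (y⁻¹ * σ * y⁻¹⁻¹)]
    have e : y * (y⁻¹ * σ * y⁻¹⁻¹) * y⁻¹ = σ := by group
    rw [e]

theorem a_mem : a ∈ G := Subgroup.subset_closure (by simp)
theorem b_mem : b ∈ G := Subgroup.subset_closure (by simp)
theorem m_mem : m ∈ G := Subgroup.subset_closure (by simp)

end Pool.Agent.H2.GM
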