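import Mathlib

set_option autoImplicit false

namespace Pool.Agent.H2.Hedgehog

abbrev E := Fin 3 → ℝ

noncomputable abbrev pr (k : Fin 3) : E →L[ℝ] ℝ := ContinuousLinearMap.proj k

/-- `f` has gradient `g` and Hessian `h` on `U`. -/
structure Jet (U : Set E) (f : E → ℝ) (g : Fin 3 → E → ℝ) (h : Fin 3 → Fin 3 → E → ℝ) : Prop where
  d1 : ∀ y ∈ U, HasFDerivAt f (∑ k, g k y • pr k) y
  d2 : ∀ k, ∀ y ∈ U, HasFDerivAt (g k) (∑ l, h k l y • pr l) y

theorem Jet.fderiv2 {U : Set E} {f : E → ℝ} {g : Fin 3 → E → ℝ} {h : Fin 3 → Fin 3 → E → ℝ}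
    (J : Jet U f g h) (hU : IsOpen U) {x : E} (hx : x ∈ U) (i j : Fin 3) :
    fderiv ℝ (fderiv ℝ f) x (Pi.single i 1) (Pi.single j 1) = h j i x := by
  have h1 : fderiv ℝ f =ᶠ[nhds x] fun y => ∑ k, g k y • pr k := by
    filter_upwards [hU.mem_nhds hx] with y hy
    exact (J.d1 y hy).fderiv
  have h2 : HasFDerivAt (fun y => ∑ k, g k y • pr k)
      (∑ k, ((∑ l, h k l x • pr l).smulRight (pr k))) x := by
    apply HasFDerivAt.fun_sum
    intro k _
    exact (J.d2 k x hx).smul_const (pr k)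
  rw [h1.fderiv_eq, h2.fderiv]
  simp [Fin.sum_univ_three]
  fin_cases i <;> fin_cases j <;> simp [pr]

theorem Jet.add {U : Set E} {f1 f2 : E → ℝ} {g1 g2 : Fin 3 → E → ℝ}
    {h1 h2 : Fin 3 → Fin 3 → E → ℝ} (J1 : Jet U f1 g1 h1) (J2 : Jet U f2 g2 h2) :
    Jet U (fun y => f1 y + f2 y) (fun k y => g1 k y + g2 k y) (fun k l y => h1 k l y + h2 k l y) where
  d1 := by
    intro y hy
    have := (J1.d1 y hy).fun_add (J2.d1 y hy)
    refine this.congr_fderiv ?_
    rw [← Finset.sum_add_distrib]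
    exact Finset.sum_congr rfl fun k _ => (add_smul _ _ _).symm
  d2 := by
    intro k y hy
    have := (J1.d2 k y hy).fun_add (J2.d2 k y hy)
    refine this.congr_fderiv ?_
    rw [← Finset.sum_add_distrib]
    exact Finset.sum_congr rfl fun k _ => (add_smul _ _ _).symm

theorem Jet.const (U : Set E) (c : ℝ) : Jet U (fun _ => c) (fun _ _ => 0) (fun _ _ _ => 0) where
  d1 := by
    intro y hy
    refine (hasFDerivAt_const c y).congr_fderiv ?_
    simp
  d2 := by
    intro k y hy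
    refine (hasFDerivAt_const (0:ℝ) y).congr_fderiv ?_
    simp

theorem Jet.coord (U : Set E) (i : Fin 3) :
    Jet U (fun y => y i) (fun k _ => if k = i then 1 else 0) (fun _ _ _ => 0) where
  d1 := by
    intro y hy
    have := (pr i).hasFDerivAt (x := y)
    refine this.congr_fderiv ?_
    simp
  d2 := by
    intro k y hy
    refine (hasFDerivAt_const (if k = i then (1:ℝ) else 0) y).congr_fderiv ?_
    simp

theorem Jet.mul {U : Set E} {f1 f2 : E → ℝ} {g1 g2 : Fin 3 → E → ℝ}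
    {h1 h2 : Fin 3 → Fin 3 → E → ℝ} (J1 : Jet U f1 g1 h1) (J2 : Jet U f2 g2 h2) :
    Jet U (fun y => f1 y * f2 y) (fun k y => f1 y * g2 k y + f2 y * g1 k y)
      (fun k l y => f1 y * h2 k l y + g2 k y * g1 l y + (f2 y * h1 k l y + g1 k y * g2 l y)) where
  d1 := by
    intro y hy
    have := (J1.d1 y hy).fun_mul (J2.d1 y hy)
    refine this.congr_fderiv ?_
    rw [Finset.smul_sum, Finset.smul_sum, ← Finset.sum_add_distrib]
    refine Finset.sum_congr rfl fun k _ => ?_
    rw [add_smul, mul_smul, mul_smul]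
  d2 := by
    intro k y hy
    have := ((J1.d1 y hy).fun_mul (J2.d2 k y hy)).fun_add ((J2.d1 y hy).fun_mul (J1.d2 k y hy))
    refine this.congr_fderiv ?_
    rw [Finset.smul_sum, Finset.smul_sum, Finset.smul_sum, Finset.smul_sum,
      ← Finset.sum_add_distrib, ← Finset.sum_add_distrib, ← Finset.sum_add_distrib]
    refine Finset.sum_congr rfl fun k _ => ?_
    simp only [add_smul, mul_smul]

theorem Jet.comp {U : Set E} {f : E → ℝ} {g : Fin 3 → E → ℝ}
    {h : Fin 3 → Fin 3 → E → ℝ} (J : Jet U f g h) (φ φ' φ'' : ℝ → ℝ)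
    (hφ : ∀ y ∈ U, HasDerivAt φ (φ' (f y)) (f y))
    (hφ' : ∀ y ∈ U, HasDerivAt φ' (φ'' (f y)) (f y)) :
    Jet U (fun y => φ (f y)) (fun k y => φ' (f y) * g k y)
      (fun k l y => φ' (f y) * h k l y + g k y * (φ'' (f y) * g l y)) where
  d1 := by
    intro y hy
    have := (hφ y hy).comp_hasFDerivAt y (J.d1 y hy)
    refine this.congr_fderiv ?_
    rw [Finset.smul_sum]
    refine Finset.sum_congr rfl fun k _ => ?_
    rw [mul_smul]
  d2 := by
    intro k y hy
    have h1 := (hφ' y hy).comp_hasFDerivAt y (J.d1 y hy)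
    have := h1.fun_mul (J.d2 k y hy)
    refine this.congr_fderiv ?_
    rw [Finset.smul_sum, Finset.smul_sum, Finset.smul_sum, ← Finset.sum_add_distrib]
    refine Finset.sum_congr rfl fun k _ => ?_
    simp only [add_smul, mul_smul, Function.comp]

end Pool.Agent.H2.Hedgehog
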