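import Pool.Agent.H2.Hedgehog

set_option autoImplicit false

open Real
namespace Pool.Agent.H2.Hedgehog

def Q (x : E) : ℝ := 4 * (x 0 * x 0 + x 1 * x 1) + 3 * (x 2 * x 2)
def W (x : E) : ℝ := x 0 * x 0 + x 1 * x 1 + x 2 * x 2
def N (x : E) : ℝ := 6 * ((x 0 * x 0 + x 1 * x 1) * (x 0 * x 0 + x 1 * x 1)) + 6 * ((x 0 * x 0 + x 1 * x 1) * (x 2 * x 2)) + (x 2 * x 2) * (x 2 * x 2)
def P (x : E) : ℝ := x 0 * (x 0 * x 0) + (-3) * (x 0 * (x 1 * x 1))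

noncomputable def F (x : E) : ℝ := N x * (Q x) ^ (-(3/2) : ℝ)
noncomputable def G (x : E) : ℝ := P x * (W x)⁻¹

abbrev U : Set E := {x | x ≠ 0}

theorem isOpen_U : IsOpen U := isOpen_ne

theorem W_pos {x : E} (hx : x ∈ U) : 0 < W x := by
  have h : x ≠ 0 := hx
  by_contra hle
  apply h
  unfold W at hle
  have h0 : x 0 = 0 := by nlinarith [mul_self_nonneg (x 0), mul_self_nonneg (x 1), mul_self_nonneg (x 2)]
  have h1 : x 1 = 0 := by nlinarith [mul_self_nonneg (x 0), mul_self_nonneg (x 1), mul_self_nonneg (x 2)]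
  have h2 : x 2 = 0 := by nlinarith [mul_self_nonneg (x 0), mul_self_nonneg (x 1), mul_self_nonneg (x 2)]
  funext i
  fin_cases i <;> simp [h0, h1, h2]

theorem Q_pos {x : E} (hx : x ∈ U) : 0 < Q x := by
  have := W_pos hx
  unfold W at this
  unfold Q
  nlinarith [mul_self_nonneg (x 0), mul_self_nonneg (x 1), mul_self_nonneg (x 2)]

theorem Jet.congr {U : Set E} {f : E → ℝ} {g g' : Fin 3 → E → ℝ}
    {h h' : Fin 3 → Fin 3 → E → ℝ} (J : Jet U f g h) (hg : ∀ k y, g k y = g' k y)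
    (hh : ∀ k l y, h k l y = h' k l y) : Jet U f g' h' := by
  have e1 : g = g' := by funext k y; exact hg k y
  have e2 : h = h' := by funext k l y; exact hh k l y
  rwa [e1, e2] at J

def gQ (k : Fin 3) (x : E) : ℝ := ![8 * x 0, 8 * x 1, 6 * x 2] k
def hQ (k l : Fin 3) (_ : E) : ℝ := ![![8, 0, 0], ![0, 8, 0], ![0, 0, 6]] k l
def gW (k : Fin 3) (x : E) : ℝ := ![2 * x 0, 2 * x 1, 2 * x 2] k
def hW (k l : Fin 3) (_ : E) : ℝ := ![![2, 0, 0], ![0, 2, 0], ![0, 0, 2]] k l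
def gN (k : Fin 3) (x : E) : ℝ :=
  ![24 * x 0 * (x 0 ^ 2 + x 1 ^ 2) + 12 * x 0 * x 2 ^ 2,
    24 * x 1 * (x 0 ^ 2 + x 1 ^ 2) + 12 * x 1 * x 2 ^ 2,
    12 * x 2 * (x 0 ^ 2 + x 1 ^ 2) + 4 * x 2 ^ 3] k
def hN (k l : Fin 3) (x : E) : ℝ :=
  ![![24 * (x 0 ^ 2 + x 1 ^ 2) + 48 * x 0 ^ 2 + 12 * x 2 ^ 2, 48 * x 0 * x 1, 24 * x 0 * x 2],
    ![48 * x 0 * x 1, 24 * (x 0 ^ 2 + x 1 ^ 2) + 48 * x 1 ^ 2 + 12 * x 2 ^ 2, 24 * x 1 * x 2],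
    ![24 * x 0 * x 2, 24 * x 1 * x 2, 12 * (x 0 ^ 2 + x 1 ^ 2) + 12 * x 2 ^ 2]] k l
def gP (k : Fin 3) (x : E) : ℝ := ![3 * x 0 ^ 2 - 3 * x 1 ^ 2, -6 * x 0 * x 1, 0] k
def hP (k l : Fin 3) (x : E) : ℝ :=
  ![![6 * x 0, -6 * x 1, 0], ![-6 * x 1, -6 * x 0, 0], ![0, 0, 0]] k l

theorem jQ : Jet U Q gQ hQ := by
  have c0 := Jet.coord U 0
  have c1 := Jet.coord U 1
  have c2 := Jet.coord U 2
  have jS := (c0.mul c0).add (c1.mul c1)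
  have jZ := c2.mul c2
  have jQ : Jet U Q _ _ := ((Jet.const U 4).mul jS).add ((Jet.const U 3).mul jZ)
  refine jQ.congr ?_ ?_
  · intro k y
    fin_cases k <;> simp [gQ] <;> ring
  · intro k l y
    fin_cases k <;> fin_cases l <;> simp [hQ] <;> norm_num

theorem jW : Jet U W gW hW := by
  have c0 := Jet.coord U 0
  have c1 := Jet.coord U 1
  have c2 := Jet.coord U 2
  have jQ : Jet U W _ _ := ((c0.mul c0).add (c1.mul c1)).add (c2.mul c2)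
  refine jQ.congr ?_ ?_
  · intro k y
    fin_cases k <;> simp [gW] <;> ring
  · intro k l y
    fin_cases k <;> fin_cases l <;> simp [hW] <;> norm_num

theorem jN : Jet U N gN hN := by
  have c0 := Jet.coord U 0
  have c1 := Jet.coord U 1
  have c2 := Jet.coord U 2
  have jS := (c0.mul c0).add (c1.mul c1)
  have jZ := c2.mul c2
  have jN : Jet U N _ _ := (((Jet.const U 6).mul (jS.mul jS)).add ((Jet.const U 6).mul (jS.mul jZ))).add (jZ.mul jZ)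
  refine jN.congr ?_ ?_
  · intro k y
    fin_cases k <;> simp [gN] <;> ring
  · intro k l y
    fin_cases k <;> fin_cases l <;> simp [hN] <;> ring

theorem jP : Jet U P gP hP := by
  have c0 := Jet.coord U 0
  have c1 := Jet.coord U 1
  have c2 := Jet.coord U 2
  have jP : Jet U P _ _ := (c0.mul (c0.mul c0)).add ((Jet.const U (-3)).mul (c0.mul (c1.mul c1)))
  refine jP.congr ?_ ?_
  · intro k y
    fin_cases k <;> simp [gP] <;> ring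
  · intro k l y
    fin_cases k <;> fin_cases l <;> simp [hP] <;> ring

noncomputable def hF (k l : Fin 3) (x : E) : ℝ :=
  (Q x) ^ (-(7/2) : ℝ) * (hN k l x * Q x ^ 2 - 3/2 * (gN k x * gQ l x + gN l x * gQ k x + N x * hQ k l x) * Q x
    + 15/4 * N x * gQ k x * gQ l x)

noncomputable def hG (k l : Fin 3) (x : E) : ℝ :=
  (W x)⁻¹ ^ 3 * (hP k l x * W x ^ 2 - (gP k x * gW l x + gP l x * gW k x + P x * hW k l x) * W x
    + 2 * P x * gW k x * gW l x)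

theorem Jet.congrOn {U : Set E} (hU : IsOpen U) {f : E → ℝ} {g : Fin 3 → E → ℝ}
    {h h' : Fin 3 → Fin 3 → E → ℝ} (J : Jet U f g h)
    (hh : ∀ k l, ∀ y ∈ U, h k l y = h' k l y) : Jet U f g h' where
  d1 := J.d1
  d2 := by
    intro k y hy
    refine (J.d2 k y hy).congr_fderiv ?_
    exact Finset.sum_congr rfl fun l _ => by rw [hh k l y hy]

theorem jF : ∃ g, Jet U F g hF := by
  have jφ := jQ.comp (fun q => q ^ (-(3/2) : ℝ)) (fun q => (-(3/2) : ℝ) * q ^ (-(3/2) - 1 : ℝ))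
    (fun q => (-(3/2) : ℝ) * ((-(3/2) - 1 : ℝ) * q ^ (-(3/2) - 1 - 1 : ℝ))) (by
      intro y hy
      exact Real.hasDerivAt_rpow_const (Or.inl (Q_pos hy).ne')) (by
      intro y hy
      exact (Real.hasDerivAt_rpow_const (Or.inl (Q_pos hy).ne')).const_mul _)
  have jF : Jet U F _ _ := jN.mul jφ
  refine ⟨_, jF.congrOn isOpen_U ?_⟩
  intro k l y hy
  have hq := Q_pos hy
  have e1 : (Q y) ^ (-(3/2) : ℝ) = (Q y) ^ (-(7/2) : ℝ) * Q y ^ 2 := by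
    rw [← Real.rpow_natCast, ← Real.rpow_add hq]; norm_num
  have e2 : (Q y) ^ (-(3/2) - 1 : ℝ) = (Q y) ^ (-(7/2) : ℝ) * Q y := by
    nth_rewrite 3 [← Real.rpow_one (Q y)]
    rw [← Real.rpow_add hq]; norm_num
  have e3 : (Q y) ^ (-(3/2) - 1 - 1 : ℝ) = (Q y) ^ (-(7/2) : ℝ) := by norm_num
  simp only [e1, e2, e3, hF]
  ring

theorem jG : ∃ g, Jet U G g hG := by
  have jφ := jW.comp (fun q => q⁻¹) (fun q => -(q ^ 2)⁻¹)
    (fun q => 2 * (q ^ 3)⁻¹) (by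
      intro y hy
      exact hasDerivAt_inv (W_pos hy).ne') (by
      intro y hy
      have hw := (W_pos hy).ne'
      have := (((hasDerivAt_id (W y)).pow 2).inv (by simpa using hw)).neg
      refine this.congr_deriv ?_
      simp
      field_simp)
  have jG : Jet U G _ _ := jP.mul jφ
  refine ⟨_, jG.congrOn isOpen_U ?_⟩
  intro k l y hy
  have hw := (W_pos hy).ne'
  simp only [hG]
  field_simp
  ring

def pA (i j : Fin 3) (x : E) : ℝ :=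
  ![![(96) * (x 0)^4 * (x 1)^2 + (-24) * (x 0)^4 * (x 2)^2 + (192) * (x 0)^2 * (x 1)^4 + (240) * (x 0)^2 * (x 1)^2 * (x 2)^2 + (48) * (x 0)^2 * (x 2)^4 + (96) * (x 1)^6 + (264) * (x 1)^4 * (x 2)^2 + (240) * (x 1)^2 * (x 2)^4 + (72) * (x 2)^6,
      (-96) * (x 0)^5 * (x 1)^1 + (-192) * (x 0)^3 * (x 1)^3 + (-288) * (x 0)^3 * (x 1)^1 * (x 2)^2 + (-96) * (x 0)^1 * (x 1)^5 + (-288) * (x 0)^1 * (x 1)^3 * (x 2)^2 + (-192) * (x 0)^1 * (x 1)^1 * (x 2)^4,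
      (24) * (x 0)^5 * (x 2)^1 + (48) * (x 0)^3 * (x 1)^2 * (x 2)^1 + (-48) * (x 0)^3 * (x 2)^3 + (24) * (x 0)^1 * (x 1)^4 * (x 2)^1 + (-48) * (x 0)^1 * (x 1)^2 * (x 2)^3 + (-72) * (x 0)^1 * (x 2)^5] j,
    ![(-96) * (x 0)^5 * (x 1)^1 + (-192) * (x 0)^3 * (x 1)^3 + (-288) * (x 0)^3 * (x 1)^1 * (x 2)^2 + (-96) * (x 0)^1 * (x 1)^5 + (-288) * (x 0)^1 * (x 1)^3 * (x 2)^2 + (-192) * (x 0)^1 * (x 1)^1 * (x 2)^4,
      (96) * (x 0)^6 + (192) * (x 0)^4 * (x 1)^2 + (264) * (x 0)^4 * (x 2)^2 + (96) * (x 0)^2 * (x 1)^4 + (240) * (x 0)^2 * (x 1)^2 * (x 2)^2 + (240) * (x 0)^2 * (x 2)^4 + (-24) * (x 1)^4 * (x 2)^2 + (48) * (x 1)^2 * (x 2)^4 + (72) * (x 2)^6,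
      (24) * (x 0)^4 * (x 1)^1 * (x 2)^1 + (48) * (x 0)^2 * (x 1)^3 * (x 2)^1 + (-48) * (x 0)^2 * (x 1)^1 * (x 2)^3 + (24) * (x 1)^5 * (x 2)^1 + (-48) * (x 1)^3 * (x 2)^3 + (-72) * (x 1)^1 * (x 2)^5] j,
    ![(24) * (x 0)^5 * (x 2)^1 + (48) * (x 0)^3 * (x 1)^2 * (x 2)^1 + (-48) * (x 0)^3 * (x 2)^3 + (24) * (x 0)^1 * (x 1)^4 * (x 2)^1 + (-48) * (x 0)^1 * (x 1)^2 * (x 2)^3 + (-72) * (x 0)^1 * (x 2)^5,
      (24) * (x 0)^4 * (x 1)^1 * (x 2)^1 + (48) * (x 0)^2 * (x 1)^3 * (x 2)^1 + (-48) * (x 0)^2 * (x 1)^1 * (x 2)^3 + (24) * (x 1)^5 * (x 2)^1 + (-48) * (x 1)^3 * (x 2)^3 + (-72) * (x 1)^1 * (x 2)^5,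
      (-24) * (x 0)^6 + (-72) * (x 0)^4 * (x 1)^2 + (48) * (x 0)^4 * (x 2)^2 + (-72) * (x 0)^2 * (x 1)^4 + (96) * (x 0)^2 * (x 1)^2 * (x 2)^2 + (72) * (x 0)^2 * (x 2)^4 + (-24) * (x 1)^6 + (48) * (x 1)^4 * (x 2)^2 + (72) * (x 1)^2 * (x 2)^4] j] i
def pB (i j : Fin 3) (x : E) : ℝ :=
  ![![(-8) * (x 0)^3 * (x 1)^2 + (-2) * (x 0)^3 * (x 2)^2 + (24) * (x 0)^1 * (x 1)^4 + (30) * (x 0)^1 * (x 1)^2 * (x 2)^2 + (6) * (x 0)^1 * (x 2)^4,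
      (8) * (x 0)^4 * (x 1)^1 + (-24) * (x 0)^2 * (x 1)^3 + (-6) * (x 0)^2 * (x 1)^1 * (x 2)^2 + (-6) * (x 1)^3 * (x 2)^2 + (-6) * (x 1)^1 * (x 2)^4,
      (2) * (x 0)^4 * (x 2)^1 + (-24) * (x 0)^2 * (x 1)^2 * (x 2)^1 + (-6) * (x 0)^2 * (x 2)^3 + (6) * (x 1)^4 * (x 2)^1 + (6) * (x 1)^2 * (x 2)^3] j,
    ![(8) * (x 0)^4 * (x 1)^1 + (-24) * (x 0)^2 * (x 1)^3 + (-6) * (x 0)^2 * (x 1)^1 * (x 2)^2 + (-6) * (x 1)^3 * (x 2)^2 + (-6) * (x 1)^1 * (x 2)^4,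
      (-8) * (x 0)^5 + (24) * (x 0)^3 * (x 1)^2 + (-14) * (x 0)^3 * (x 2)^2 + (18) * (x 0)^1 * (x 1)^2 * (x 2)^2 + (-6) * (x 0)^1 * (x 2)^4,
      (20) * (x 0)^3 * (x 1)^1 * (x 2)^1 + (-12) * (x 0)^1 * (x 1)^3 * (x 2)^1 + (12) * (x 0)^1 * (x 1)^1 * (x 2)^3] j,
    ![(2) * (x 0)^4 * (x 2)^1 + (-24) * (x 0)^2 * (x 1)^2 * (x 2)^1 + (-6) * (x 0)^2 * (x 2)^3 + (6) * (x 1)^4 * (x 2)^1 + (6) * (x 1)^2 * (x 2)^3,
      (20) * (x 0)^3 * (x 1)^1 * (x 2)^1 + (-12) * (x 0)^1 * (x 1)^3 * (x 2)^1 + (12) * (x 0)^1 * (x 1)^1 * (x 2)^3,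
      (-2) * (x 0)^5 + (4) * (x 0)^3 * (x 1)^2 + (6) * (x 0)^3 * (x 2)^2 + (6) * (x 0)^1 * (x 1)^4 + (-18) * (x 0)^1 * (x 1)^2 * (x 2)^2] j] i

theorem pA_eq (i j : Fin 3) (x : E) :
    hN i j x * Q x ^ 2 - 3/2 * (gN i x * gQ j x + gN j x * gQ i x + N x * hQ i j x) * Q x
    + 15/4 * N x * gQ i x * gQ j x = pA i j x := by
  fin_cases i <;> fin_cases j <;> simp [gQ, hQ, gN, hN, Q, N, pA] <;> ring

theorem pB_eq (i j : Fin 3) (x : E) :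
    hP i j x * W x ^ 2 - (gP i x * gW j x + gP j x * gW i x + P x * hW i j x) * W x
    + 2 * P x * gW i x * gW j x = pB i j x := by
  fin_cases i <;> fin_cases j <;> simp [gW, hW, gP, hP, W, P, pB] <;> ring

theorem hF_eq (i j : Fin 3) (x : E) : hF i j x = (Q x) ^ (-(7/2) : ℝ) * pA i j x := by
  rw [hF, pA_eq]

theorem hG_eq (i j : Fin 3) (x : E) : hG i j x = (W x)⁻¹ ^ 3 * pB i j x := by
  rw [hG, pB_eq]

theorem mixed_poly (x : E) :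
    ∑ i : Fin 3, ∑ j : Fin 3, (pA i i x * pB j j x + pB i i x * pA j j x
      - pA j i x * pB i j x - pB j i x * pA i j x) = 0 := by
  simp only [Fin.sum_univ_three]
  simp [pA, pB]
  ring

theorem mixed (x : E) :
    ∑ i : Fin 3, ∑ j : Fin 3, (hF i i x * hG j j x + hG i i x * hF j j x
      - hF j i x * hG i j x - hG j i x * hF i j x) = 0 := by
  rw [← mul_zero ((Q x) ^ (-(7/2) : ℝ) * (W x)⁻¹ ^ 3), ← mixed_poly x, Finset.mul_sum]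
  refine Finset.sum_congr rfl fun i _ => ?_
  rw [Finset.mul_sum]
  refine Finset.sum_congr rfl fun j _ => ?_
  rw [hF_eq, hF_eq, hF_eq, hF_eq, hG_eq, hG_eq, hG_eq, hG_eq]
  ring

end Pool.Agent.H2.Hedgehog
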