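import Pool.Agent.H2.PsiData

/-! A permutation group of order 6048 on 28 points (the simple group `U₃(3)`): coding of
permutations by natural numbers, five bits per point, and the kernel checks. -/

namespace Pool.Agent.H2.Psi

/-- the `i`-th five bit digit of `c` -/
def ap (c i : ℕ) : ℕ := Nat.land (Nat.shiftRight c (5 * i)) 31

/-- `c` codes the permutation `σ` -/
def R (σ : Equiv.Perm (Fin 28)) (c : ℕ) : Prop := ∀ i : Fin 28, ((σ i : Fin 28) : ℕ) = ap c i

theorem R.unique {σ τ : Equiv.Perm (Fin 28)} {c : ℕ} (h : R σ c) (h' : R τ c) : σ = τ := by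
  ext i
  rw [h i, h' i]

/-- bounded universal quantifier, as a Boolean function -/
def allN : ℕ → (ℕ → Bool) → Bool
  | 0, _ => true
  | n + 1, p => cond (p n) (allN n p) false

theorem allN_spec {n : ℕ} {p : ℕ → Bool} (h : allN n p = true) : ∀ k, k < n → p k = true := by
  induction n with
  | zero => intro k hk; omega
  | succ n ih =>
    intro k hk
    rw [allN] at h
    cases hp : p n with
    | false => rw [hp] at h; simp at h
    | true =>
      rw [hp] at h
      simp only [cond_true] at h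
      rcases Nat.lt_succ_iff_lt_or_eq.mp hk with h1 | h1
      · exact ih h k h1
      · rw [h1]; exact hp

/-- bounded sum -/
def sumN : ℕ → (ℕ → ℕ) → ℕ
  | 0, _ => 0
  | n + 1, f => Nat.add (f n) (sumN n f)

theorem sumN_eq (n : ℕ) (f : ℕ → ℕ) : sumN n f = ∑ i ∈ Finset.range n, f i := by
  induction n with
  | zero => rfl
  | succ n ih =>
    rw [sumN, ih, Finset.sum_range_succ]
    exact Nat.add_comm _ _

/-- force the evaluation of a natural number -/
def fo {α : Type} (n : ℕ) (f : ℕ → α) : α := Nat.rec (f 0) (fun m _ => f (Nat.succ m)) n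

theorem fo_eq {α : Type} (n : ℕ) (f : ℕ → α) : fo n f = f n := by
  cases n <;> rfl

def M140 : ℕ := 1393796574908163946345982392040522594123775
def M216 : ℕ := 105312291668557186697918027683670432318895095400549111254310977535

/-- code of the `i`-th transversal element of the stabilizer of 0 -/
def T1 (i : ℕ) : ℕ := Nat.land (Nat.shiftRight T1B (140 * i)) M140
def T2 (i : ℕ) : ℕ := Nat.land (Nat.shiftRight T2B (140 * i)) M140
def CC (i : ℕ) : ℕ := Nat.land (Nat.shiftRight CB (140 * i)) M140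

/-- the first generator -/
def a : Equiv.Perm (Fin 28) := ⟨pa, pa', by decide, by decide⟩
/-- the second generator -/
def b : Equiv.Perm (Fin 28) := ⟨pb, pb', by decide, by decide⟩

theorem Ra : R a ca := by unfold R; decide +kernel
theorem Rb : R b cb := by unfold R; decide +kernel

/-- the permutation given by a word -/
def wp : List Bool → Equiv.Perm (Fin 28)
  | [] => 1
  | x :: l => (cond x a b) * wp l

def cw : List Bool → ℕ → ℕ
  | [], p => p
  | x :: l, p => fo (cw l p) (fun r => ap (cond x ca cb) r)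

theorem cw_spec (l : List Bool) (p : Fin 28) : ((wp l p : Fin 28) : ℕ) = cw l p := by
  induction l with
  | nil => rfl
  | cons x l ih =>
    rw [cw, fo_eq, ← ih, wp, Equiv.Perm.mul_apply]
    cases x
    · exact Rb _
    · exact Ra _

def t1 (i : ℕ) : Equiv.Perm (Fin 28) := wp (W1.getD i [])
def t2 (i : ℕ) : Equiv.Perm (Fin 28) := wp (W2.getD i [])
def c : Equiv.Perm (Fin 28) := wp Wc

def chkW (n : ℕ) (W : List (List Bool)) (T : ℕ → ℕ) : Bool :=
  allN n fun i => fo (T i) fun t => allN 28 fun p => Nat.beq (cw (W.getD i []) p) (ap t p)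

theorem chkW1 : chkW 28 W1 T1 = true := by decide +kernel
theorem chkW2 : chkW 27 W2 T2 = true := by decide +kernel
theorem chkWc : chkW 1 [Wc] (fun _ => CC 1) = true := by decide +kernel

theorem chkW_spec {n : ℕ} {W : List (List Bool)} {T : ℕ → ℕ} (h : chkW n W T = true) (i : ℕ)
    (hi : i < n) : R (wp (W.getD i [])) (T i) := by
  intro p
  have h1 := allN_spec h i hi
  rw [fo_eq] at h1
  have h2 := allN_spec h1 p p.2
  rw [cw_spec]
  exact Nat.eq_of_beq_eq_true h2

theorem Rt1 {i : ℕ} (hi : i < 28) : R (t1 i) (T1 i) := chkW_spec chkW1 i hi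
theorem Rt2 {i : ℕ} (hi : i < 27) : R (t2 i) (T2 i) := chkW_spec chkW2 i hi
theorem Rc : R c (CC 1) := chkW_spec chkWc 0 (by norm_num)

def chkC : Bool := allN 8 fun k => allN 28 fun p =>
  Nat.beq (ap (CC 1) (ap (CC k) p)) (ap (CC ((k + 1) % 8)) p)
def chkC0 : Bool := allN 28 fun p => Nat.beq p (ap (CC 0) p)

theorem chkC_true : chkC = true := by decide +kernel
theorem chkC0_true : chkC0 = true := by decide +kernel

theorem Rc0 : R 1 (CC 0) := by
  intro p
  exact Nat.eq_of_beq_eq_true (allN_spec chkC0_true p p.2)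

theorem Rcs {σ : Equiv.Perm (Fin 28)} {k : ℕ} (hk : k < 8) (h : R σ (CC k)) :
    R (c * σ) (CC ((k + 1) % 8)) := by
  intro p
  have h1 := Nat.eq_of_beq_eq_true (allN_spec (allN_spec chkC_true k hk) p p.2)
  rw [← h1, Equiv.Perm.mul_apply, Rc, h p]

theorem Rck {k : ℕ} : R (c ^ k) (CC (k % 8)) := by
  induction k with
  | zero => exact Rc0
  | succ k ih =>
    have := Rcs (Nat.mod_lt k (by norm_num)) ih
    rw [pow_succ']
    have e : (k % 8 + 1) % 8 = (k + 1) % 8 := by omega
    rw [e] at this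
    exact this

theorem c8 (k : ℕ) : c ^ k = c ^ (k % 8) := by
  apply R.unique (c := CC (k % 8))
  · exact Rck
  · have := @Rck (k % 8)
    rwa [Nat.mod_mod] at this

/-- the base images -/
theorem t1_0 {i : ℕ} (hi : i < 28) : ((t1 i 0 : Fin 28) : ℕ) = i := by
  rw [Rt1 hi]
  have h : allN 28 (fun i => Nat.beq (ap (T1 i) 0) i) = true := by decide +kernel
  exact Nat.eq_of_beq_eq_true (allN_spec h i hi)

theorem t2_0 {i : ℕ} (hi : i < 27) : t2 i 0 = 0 := by
  apply Fin.ext
  rw [Rt2 hi]
  have h : allN 27 (fun i => Nat.beq (ap (T2 i) 0) 0) = true := by decide +kernel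
  exact Nat.eq_of_beq_eq_true (allN_spec h i hi)

theorem t2_1 {i : ℕ} (hi : i < 27) : ((t2 i 1 : Fin 28) : ℕ) = i + 1 := by
  rw [Rt2 hi]
  have h : allN 27 (fun i => Nat.beq (ap (T2 i) 1) (i + 1)) = true := by decide +kernel
  exact Nat.eq_of_beq_eq_true (allN_spec h i hi)

theorem c_0 (k : ℕ) : (c ^ k) 0 = 0 := by
  apply Fin.ext
  rw [Rck]
  have h : allN 8 (fun i => Nat.beq (ap (CC i) 0) 0) = true := by decide +kernel
  exact Nat.eq_of_beq_eq_true (allN_spec h _ (Nat.mod_lt k (by norm_num)))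

theorem c_1 (k : ℕ) : (c ^ k) 1 = 1 := by
  apply Fin.ext
  rw [Rck]
  have h : allN 8 (fun i => Nat.beq (ap (CC i) 1) 1) = true := by decide +kernel
  exact Nat.eq_of_beq_eq_true (allN_spec h _ (Nat.mod_lt k (by norm_num)))

theorem c_2 {k l : ℕ} (hk : k < 8) (hl : l < 8) (h : (c ^ k) 2 = (c ^ l) 2) : k = l := by
  have h0 : ∀ k < 8, ∀ l < 8, ap (CC k) 2 = ap (CC l) 2 → k = l := by decide +kernel
  apply h0 k hk l hl
  have h1 := @Rck k 2
  have h2 := @Rck l 2
  rw [Nat.mod_eq_of_lt hk] at h1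
  rw [Nat.mod_eq_of_lt hl] at h2
  have e : (((2 : Fin 28) : Fin 28) : ℕ) = 2 := rfl
  rw [e] at h1 h2
  rw [← h1, ← h2, h]

theorem t1_z : t1 0 = 1 := rfl
theorem t2_z : t2 0 = 1 := rfl

/-- the transition check -/
def stepOK (g tab : ℕ) : Bool :=
  allN 28 fun i => fo (Nat.land (Nat.shiftRight tab (216 * i)) M216) fun row =>
    fo (T1 i) fun t => fo (ap g i) fun i' => cond (Nat.blt i' 28)
      (fo (T1 i') fun t' => allN 27 fun j =>
        fo (Nat.land (Nat.shiftRight row (8 * j)) 255) fun d => fo (T2 j) fun u =>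
          cond (Nat.blt (d / 8) 27) (fo (T2 (d / 8)) fun u' => fo (CC (d % 8)) fun v =>
            allN 28 fun p => Nat.beq (ap g (ap t (ap u p))) (ap t' (ap u' (ap v p)))) false) false

theorem stepOK_spec {g tab : ℕ} (h : stepOK g tab = true) {σ : Equiv.Perm (Fin 28)}
    (hσ : R σ g) {i j : ℕ} (hi : i < 28) (hj : j < 27) :
    ∃ i' < 28, ∃ j' < 27, ∃ e, σ * t1 i * t2 j = t1 i' * t2 j' * c ^ e := by
  have h1 := allN_spec h i hi
  simp only [fo_eq] at h1
  cases hb : Nat.blt (ap g i) 28 with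
  | false => rw [hb] at h1; simp at h1
  | true =>
    rw [hb] at h1
    simp only [cond_true] at h1
    have h2 := allN_spec h1 j hj
    generalize hd : Nat.land (Nat.shiftRight (Nat.land (Nat.shiftRight tab (216 * i)) M216) (8 * j)) 255 = d at h2
    cases hb2 : Nat.blt (d / 8) 27 with
    | false => rw [hb2] at h2; simp at h2
    | true =>
      rw [hb2] at h2
      simp only [cond_true] at h2
      have hb' : ap g i < 28 := by
        simpa [Nat.blt] using hb
      have hb2' : d / 8 < 27 := by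
        simpa [Nat.blt] using hb2
      refine ⟨ap g i, hb', d / 8, hb2', d % 8, ?_⟩
      apply Equiv.ext
      intro p
      apply Fin.ext
      have h3 := Nat.eq_of_beq_eq_true (allN_spec h2 p p.2)
      have hc := @Rck (d % 8)
      rw [Nat.mod_mod] at hc
      simp only [Equiv.Perm.mul_apply]
      rw [hσ, Rt1 hi, Rt2 hj, h3, Rt1 hb', Rt2 hb2', hc]

end Pool.Agent.H2.Psi
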