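import Pool.Agent.H2.Psi1

/-! Kernel check: the transition tables. -/

namespace Pool.Agent.H2.Psi

theorem stepA : stepOK ca tabA = true := by decide +kernel

theorem stepB : stepOK cb tabB = true := by decide +kernel

end Pool.Agent.H2.Psi
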