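import Pool.Agent.H2.Psi1

/-! Kernel check: the sum of the totients of the element orders. -/

namespace Pool.Agent.H2.Psi

/-- value of a product of three coded permutations -/
def se (t u v p : ℕ) : ℕ := ap t (ap u (ap v p))

/-- order computation by following the base points `0, 1, 2` -/
def ordc (t u v : ℕ) : ℕ → ℕ → ℕ → ℕ → ℕ → ℕ
  | 0, _, _, _, _ => 0
  | n + 1, r, x, y, z =>
    cond (and (Nat.beq x 0) (and (Nat.beq y 1) (Nat.beq z 2))) r
      (fo (se t u v x) fun x' => fo (se t u v y) fun y' => fo (se t u v z) fun z' =>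
        ordc t u v n (Nat.succ r) x' y' z')

def ord3 (t u v : ℕ) : ℕ :=
  fo (se t u v 0) fun x' => fo (se t u v 1) fun y' => fo (se t u v 2) fun z' =>
    ordc t u v 12 1 x' y' z'

/-- totient table -/
def tt (m : ℕ) : ℕ := cond (Nat.beq m 0) 1000000 (Nat.land (Nat.shiftRight 1306650959028496 (4 * m)) 15)

def total : ℕ :=
  sumN 28 fun i => fo (T1 i) fun t => sumN 27 fun j => fo (T2 j) fun u =>
    sumN 8 fun k => fo (CC k) fun v => fo (ord3 t u v) tt

end Pool.Agent.H2.Psi
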