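import Pool.Agent.H2.Psi3

/-! Kernel check: the sum of the totients of the element orders. -/

namespace Pool.Agent.H2.Psi

theorem total_eq : total = 23984 := by decide +kernel

end Pool.Agent.H2.Psi
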