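import Pool.Agent.H2.Psi2
import Pool.Agent.H2.Psi4

/-! The group of order 6048: coordinates, orders of elements, simplicity. -/

open scoped Pointwise

namespace Pool.Agent.H2.Psi

/-- the general element -/
def elt (i j k : ℕ) : Equiv.Perm (Fin 28) := t1 i * t2 j * c ^ k

/-- the group -/
def G : Subgroup (Equiv.Perm (Fin 28)) := Subgroup.closure {a, b}

theorem a_mem : a ∈ G := Subgroup.subset_closure (by simp)
theorem b_mem : b ∈ G := Subgroup.subset_closure (by simp)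

theorem wp_mem (l : List Bool) : wp l ∈ G := by
  induction l with
  | nil => exact G.one_mem
  | cons x l ih =>
    rw [wp]
    apply G.mul_mem _ ih
    cases x
    · exact b_mem
    · exact a_mem

theorem elt_mem (i j k : ℕ) : elt i j k ∈ G :=
  G.mul_mem (G.mul_mem (wp_mem _) (wp_mem _)) (G.pow_mem (wp_mem _) k)

def S : Set (Equiv.Perm (Fin 28)) := {σ | ∃ i < 28, ∃ j < 27, ∃ k < 8, σ = elt i j k}

theorem S_step {g : Equiv.Perm (Fin 28)} (hg : g = a ∨ g = b) {σ : Equiv.Perm (Fin 28)}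
    (hσ : σ ∈ S) : g * σ ∈ S := by
  obtain ⟨i, hi, j, hj, k, hk, rfl⟩ := hσ
  have h : ∃ i' < 28, ∃ j' < 27, ∃ e, g * t1 i * t2 j = t1 i' * t2 j' * c ^ e := by
    rcases hg with rfl | rfl
    · exact stepOK_spec stepA Ra hi hj
    · exact stepOK_spec stepB Rb hi hj
  obtain ⟨i', hi', j', hj', e, he⟩ := h
  refine ⟨i', hi', j', hj', (e + k) % 8, Nat.mod_lt _ (by norm_num), ?_⟩
  unfold elt
  rw [← c8 (e + k)]
  calc g * (t1 i * t2 j * c ^ k) = (g * t1 i * t2 j) * c ^ k := by simp only [mul_assoc]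
    _ = t1 i' * t2 j' * c ^ e * c ^ k := by rw [he]
    _ = t1 i' * t2 j' * c ^ (e + k) := by rw [pow_add]; simp only [mul_assoc]

theorem S_one : (1 : Equiv.Perm (Fin 28)) ∈ S :=
  ⟨0, by norm_num, 0, by norm_num, 0, by norm_num, by
    unfold elt
    rw [t1_z, t2_z, pow_zero, one_mul, one_mul]⟩

theorem G_S {σ : Equiv.Perm (Fin 28)} (hσ : σ ∈ G) : σ ∈ S := by
  have h : G ≤ MulAction.stabilizer (Equiv.Perm (Fin 28)) S := by
    apply (Subgroup.closure_le _).mpr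
    intro g hg
    have hg' : g = a ∨ g = b := by simpa using hg
    exact (MulAction.mem_stabilizer_set' (Set.toFinite S)).mpr (fun s hs => S_step hg' hs)
  have h1 := (MulAction.mem_stabilizer_set' (Set.toFinite S)).mp (h hσ) S_one
  rwa [smul_eq_mul, mul_one] at h1

theorem elt_0 {i j k : ℕ} (hi : i < 28) (hj : j < 27) : ((elt i j k 0 : Fin 28) : ℕ) = i := by
  unfold elt
  rw [Equiv.Perm.mul_apply, Equiv.Perm.mul_apply, c_0, t2_0 hj, t1_0 hi]

theorem base {σ : Equiv.Perm (Fin 28)} (hσ : σ ∈ G) (h0 : σ 0 = 0) (h1 : σ 1 = 1) (h2 : σ 2 = 2) :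
    σ = 1 := by
  obtain ⟨i, hi, j, hj, k, hk, rfl⟩ := G_S hσ
  have e0 : i = 0 := by
    have := elt_0 (i := i) (j := j) (k := k) hi hj
    rw [h0] at this
    exact this.symm
  subst e0
  have e1 : j = 0 := by
    have := t2_1 hj
    unfold elt at h1
    rw [t1_z, one_mul, Equiv.Perm.mul_apply, c_1] at h1
    rw [h1] at this
    have h' : (((1 : Fin 28)) : ℕ) = 1 := rfl
    omega
  subst e1
  have e2 : k = 0 := by
    apply c_2 hk (by norm_num)
    unfold elt at h2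
    rw [t1_z, t2_z, one_mul, one_mul] at h2
    rw [h2, pow_zero, Equiv.Perm.one_apply]
  subst e2
  unfold elt
  rw [t1_z, t2_z, pow_zero, one_mul, one_mul]

theorem elt_inj {i j k i' j' k' : ℕ} (hi : i < 28) (hj : j < 27) (hk : k < 8) (hi' : i' < 28)
    (hj' : j' < 27) (hk' : k' < 8) (h : elt i j k = elt i' j' k') : i = i' ∧ j = j' ∧ k = k' := by
  have e0 : i = i' := by rw [← elt_0 (k := k) hi hj, h, elt_0 hi' hj']
  subst e0
  unfold elt at h
  rw [mul_assoc, mul_assoc] at h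
  have h1 := mul_left_cancel h
  have e1 : j = j' := by
    have h2 := congrArg (fun σ : Equiv.Perm (Fin 28) => ((σ 1 : Fin 28) : ℕ)) h1
    simp only [Equiv.Perm.mul_apply, c_1] at h2
    rw [t2_1 hj, t2_1 hj'] at h2
    omega
  subst e1
  have h3 := mul_left_cancel h1
  refine ⟨rfl, rfl, c_2 hk hk' ?_⟩
  rw [h3]

noncomputable def eqv : Fin 28 × Fin 27 × Fin 8 ≃ G :=
  Equiv.ofBijective (fun x => ⟨elt x.1 x.2.1 x.2.2, elt_mem _ _ _⟩) (by
    constructor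
    · rintro ⟨i, j, k⟩ ⟨i', j', k'⟩ h
      have h1 := congrArg Subtype.val h
      obtain ⟨e0, e1, e2⟩ := elt_inj i.2 j.2 k.2 i'.2 j'.2 k'.2 h1
      simp only [Prod.mk.injEq]
      exact ⟨Fin.ext e0, Fin.ext e1, Fin.ext e2⟩
    · rintro ⟨σ, hσ⟩
      obtain ⟨i, hi, j, hj, k, hk, rfl⟩ := G_S hσ
      exact ⟨⟨⟨i, hi⟩, ⟨j, hj⟩, ⟨k, hk⟩⟩, rfl⟩)

theorem card_G : Nat.card G = 6048 := by
  rw [← Nat.card_congr eqv]
  simp

/-- the order computation is correct -/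
theorem ordc_spec {σ : Equiv.Perm (Fin 28)} {t u v : ℕ}
    (h : ∀ p : Fin 28, ((σ p : Fin 28) : ℕ) = se t u v p) : ∀ n r m : ℕ,
    ordc t u v n r (((σ ^ r) 0 : Fin 28) : ℕ) (((σ ^ r) 1 : Fin 28) : ℕ)
      (((σ ^ r) 2 : Fin 28) : ℕ) = m → m ≠ 0 →
    (m < r + n ∧ ((σ ^ m) 0 = 0 ∧ (σ ^ m) 1 = 1 ∧ (σ ^ m) 2 = 2) ∧
      ∀ q, r ≤ q → q < m → ¬ ((σ ^ q) 0 = 0 ∧ (σ ^ q) 1 = 1 ∧ (σ ^ q) 2 = 2)) := by
  intro n
  induction n with
  | zero =>
    intro r m hm hm0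
    rw [ordc] at hm
    exact absurd hm.symm hm0
  | succ n ih =>
    intro r m hm hm0
    rw [ordc] at hm
    by_cases hf : ((σ ^ r) 0 = 0 ∧ (σ ^ r) 1 = 1 ∧ (σ ^ r) 2 = 2)
    · obtain ⟨f0, f1, f2⟩ := hf
      rw [f0, f1, f2] at hm
      have hm' : r = m := hm
      subst hm'
      refine ⟨by omega, ⟨f0, f1, f2⟩, ?_⟩
      intro q h1 h2
      omega
    · have hc : (and (Nat.beq (((σ ^ r) 0 : Fin 28) : ℕ) 0) (and (Nat.beq (((σ ^ r) 1 : Fin 28) : ℕ) 1)
          (Nat.beq (((σ ^ r) 2 : Fin 28) : ℕ) 2))) = false := by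
        by_contra hne
        rw [Bool.not_eq_false, Bool.and_eq_true, Bool.and_eq_true] at hne
        obtain ⟨f0, f1, f2⟩ := hne
        exact hf ⟨Fin.ext (Nat.eq_of_beq_eq_true f0), Fin.ext (Nat.eq_of_beq_eq_true f1),
          Fin.ext (Nat.eq_of_beq_eq_true f2)⟩
      rw [hc, cond_false, fo_eq, fo_eq, fo_eq, ← h, ← h, ← h] at hm
      have hs : ∀ x, σ ((σ ^ r) x) = (σ ^ (r + 1)) x := by
        intro x
        rw [pow_succ', Equiv.Perm.mul_apply]
      rw [hs, hs, hs] at hm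
      obtain ⟨h1, h2, h3⟩ := ih (r + 1) m hm hm0
      refine ⟨by omega, h2, ?_⟩
      intro q hq1 hq2
      rcases Nat.eq_or_lt_of_le hq1 with hq | hq
      · rw [← hq]; exact hf
      · exact h3 q hq hq2

theorem se_elt {i j k : ℕ} (hi : i < 28) (hj : j < 27) (hk : k < 8) (p : Fin 28) :
    ((elt i j k p : Fin 28) : ℕ) = se (T1 i) (T2 j) (CC k) p := by
  unfold elt se
  have := @Rck k p
  rw [Nat.mod_eq_of_lt hk] at this
  rw [Equiv.Perm.mul_apply, Equiv.Perm.mul_apply, Rt1 hi, Rt2 hj, this]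

theorem tt_eq (m : ℕ) (h0 : m ≠ 0) (h : m < 13) : tt m = Nat.totient m := by
  have : ∀ m < 13, m ≠ 0 → tt m = Nat.totient m := by decide +kernel
  exact this m h h0

theorem order_eq {i j k : ℕ} (hi : i < 28) (hj : j < 27) (hk : k < 8)
    (h0 : ord3 (T1 i) (T2 j) (CC k) ≠ 0) :
    tt (ord3 (T1 i) (T2 j) (CC k)) = Nat.totient (orderOf (elt i j k)) := by
  have hse := se_elt hi hj hk
  have h1 : ord3 (T1 i) (T2 j) (CC k) = ordc (T1 i) (T2 j) (CC k) 12 1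
      (((elt i j k ^ 1) 0 : Fin 28) : ℕ) (((elt i j k ^ 1) 1 : Fin 28) : ℕ)
      (((elt i j k ^ 1) 2 : Fin 28) : ℕ) := by
    unfold ord3
    rw [fo_eq, fo_eq, fo_eq, pow_one, hse, hse, hse]
    rfl
  generalize hm : ord3 (T1 i) (T2 j) (CC k) = m at h0 h1
  obtain ⟨h2, ⟨f0, f1, f2⟩, h4⟩ := ordc_spec hse 12 1 m h1.symm h0
  have ho : orderOf (elt i j k) = m := by
    rw [orderOf_eq_iff (Nat.pos_of_ne_zero h0)]
    refine ⟨base (G.pow_mem (elt_mem _ _ _) m) f0 f1 f2, ?_⟩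
    intro q hq hq0 hq1
    apply h4 q hq0 hq
    rw [hq1]
    exact ⟨rfl, rfl, rfl⟩
  rw [ho]
  exact tt_eq m h0 (by omega)

theorem psi_G [Fintype G] : ∑ g : G, Nat.totient (orderOf g) = 23984 := by
  rw [← Equiv.sum_comp eqv, Fintype.sum_prod_type]
  simp only [Fintype.sum_prod_type]
  have key : (∑ i ∈ Finset.range 28, ∑ j ∈ Finset.range 27, ∑ k ∈ Finset.range 8,
      tt (ord3 (T1 i) (T2 j) (CC k))) = 23984 := by
    rw [← total_eq]
    unfold total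
    simp only [sumN_eq, fo_eq]
  have hz : ∀ i < 28, ∀ j < 27, ∀ k < 8, ord3 (T1 i) (T2 j) (CC k) ≠ 0 := by
    intro i hi j hj k hk h0
    have l1 : tt (ord3 (T1 i) (T2 j) (CC k)) ≤
        ∑ k ∈ Finset.range 8, tt (ord3 (T1 i) (T2 j) (CC k)) :=
      Finset.single_le_sum (f := fun k => tt (ord3 (T1 i) (T2 j) (CC k)))
        (fun _ _ => Nat.zero_le _) (Finset.mem_range.mpr hk)
    have l2 : (∑ k ∈ Finset.range 8, tt (ord3 (T1 i) (T2 j) (CC k))) ≤
        ∑ j ∈ Finset.range 27, ∑ k ∈ Finset.range 8, tt (ord3 (T1 i) (T2 j) (CC k)) :=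
      Finset.single_le_sum (f := fun j => ∑ k ∈ Finset.range 8, tt (ord3 (T1 i) (T2 j) (CC k)))
        (fun _ _ => Nat.zero_le _) (Finset.mem_range.mpr hj)
    have l3 : (∑ j ∈ Finset.range 27, ∑ k ∈ Finset.range 8, tt (ord3 (T1 i) (T2 j) (CC k))) ≤
        ∑ i ∈ Finset.range 28, ∑ j ∈ Finset.range 27, ∑ k ∈ Finset.range 8,
          tt (ord3 (T1 i) (T2 j) (CC k)) :=
      Finset.single_le_sum (f := fun i => ∑ j ∈ Finset.range 27, ∑ k ∈ Finset.range 8,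
        tt (ord3 (T1 i) (T2 j) (CC k))) (fun _ _ => Nat.zero_le _) (Finset.mem_range.mpr hi)
    rw [key] at l3
    have e : tt 0 = 1000000 := rfl
    rw [h0, e] at l1
    omega
  rw [← key]
  simp only [Finset.sum_range]
  refine Finset.sum_congr rfl fun i _ => Finset.sum_congr rfl fun j _ =>
    Finset.sum_congr rfl fun k _ => ?_
  rw [order_eq i.2 j.2 k.2 (hz i i.2 j j.2 k k.2)]
  congr 1
  have : orderOf (((eqv (i, j, k) : G) : Equiv.Perm (Fin 28))) = orderOf (eqv (i, j, k)) :=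
    Subgroup.orderOf_coe _
  rw [← this]
  rfl

end Pool.Agent.H2.Psi
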