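import Pool.Agent.H2.Psi5

/-! Simplicity of the group of order 6048. -/

namespace Pool.Agent.H2.Psi

theorem a7 : a ^ 7 = 1 := by
  apply Equiv.ext
  decide +kernel

theorem b7 : b ^ 7 = 1 := by
  apply Equiv.ext
  decide +kernel

/-- every point is reached from `0` inside a nontrivial normal subgroup -/
theorem trans_N (N : Subgroup G) (hN : N.Normal) (hne : N ≠ ⊥) (z : Fin 28) :
    ∃ n : N, ((n : G) : Equiv.Perm (Fin 28)) 0 = z := by
  by_cases hz : z = 0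
  · exact ⟨1, hz.symm⟩
  obtain ⟨n, hn, hn1⟩ : ∃ n : G, n ∈ N ∧ n ≠ 1 := by
    obtain ⟨x, hx⟩ := Subgroup.ne_bot_iff_exists_ne_one.mp hne
    exact ⟨x.1, x.2, fun h => hx (Subtype.ext h)⟩
  have hx : ∃ x, (n : Equiv.Perm (Fin 28)) x ≠ x := by
    by_contra hall
    push Not at hall
    apply hn1
    apply Subtype.ext
    exact Equiv.ext hall
  obtain ⟨x, hx⟩ := hx
  -- move `x` to `0`
  let g : G := ⟨t1 x, wp_mem _⟩
  have hg0 : (g : Equiv.Perm (Fin 28)) 0 = x := Fin.ext (t1_0 x.2)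
  have hm : g⁻¹ * n * g ∈ N := by
    have := hN.conj_mem n hn g⁻¹
    rwa [inv_inv] at this
  generalize hmm : g⁻¹ * n * g = m at hm
  have hu : (m : Equiv.Perm (Fin 28)) 0 ≠ 0 := by
    intro h
    apply hx
    rw [← hmm] at h
    have h' : (g : Equiv.Perm (Fin 28))⁻¹ ((n : Equiv.Perm (Fin 28)) ((g : Equiv.Perm (Fin 28)) 0)) = 0 := h
    rw [hg0, Equiv.Perm.inv_eq_iff_eq, hg0] at h'
    exact h'
  generalize hud : (m : Equiv.Perm (Fin 28)) 0 = u at hu
  have hpos : ∀ y : Fin 28, y ≠ 0 → ∃ j < 27, y = t2 j 1 := by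
    intro y hy
    have : (y : ℕ) ≠ 0 := fun h => hy (Fin.ext h)
    refine ⟨(y : ℕ) - 1, by omega, Fin.ext ?_⟩
    rw [t2_1 (by omega)]
    omega
  obtain ⟨j, hj, hju⟩ := hpos u hu
  obtain ⟨l, hl, hlz⟩ := hpos z hz
  let h : G := ⟨t2 l * (t2 j)⁻¹, G.mul_mem (wp_mem _) (G.inv_mem (wp_mem _))⟩
  refine ⟨⟨h * m * h⁻¹, hN.conj_mem m hm h⟩, ?_⟩
  have e1 : (h : Equiv.Perm (Fin 28))⁻¹ 0 = 0 := by
    rw [Equiv.Perm.inv_eq_iff_eq]
    show (0 : Fin 28) = (t2 l * (t2 j)⁻¹) 0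
    rw [Equiv.Perm.mul_apply]
    have : (t2 j)⁻¹ 0 = 0 := by
      rw [Equiv.Perm.inv_eq_iff_eq, t2_0 hj]
    rw [this, t2_0 hl]
  have e2 : (h : Equiv.Perm (Fin 28)) u = z := by
    show (t2 l * (t2 j)⁻¹) u = z
    rw [Equiv.Perm.mul_apply]
    have : (t2 j)⁻¹ u = 1 := by
      rw [Equiv.Perm.inv_eq_iff_eq, ← hju]
    rw [this, ← hlz]
  show (h : Equiv.Perm (Fin 28)) ((m : Equiv.Perm (Fin 28)) ((h : Equiv.Perm (Fin 28))⁻¹ 0)) = z
  rw [e1, hud, e2]

theorem simple_G : IsSimpleGroup G := by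
  haveI : Nontrivial G := by
    refine ⟨⟨1, ⟨a, a_mem⟩, ?_⟩⟩
    intro h
    have h1 := congrArg (fun x : G => (x : Equiv.Perm (Fin 28)) 0) h
    revert h1
    show ((1 : Equiv.Perm (Fin 28)) 0 = a 0) → False
    decide
  constructor
  intro N hN
  by_cases hne : N = ⊥
  · exact Or.inl hne
  right
  have ht := trans_N N hN hne
  haveI : MulAction.IsPretransitive N (Fin 28) := by
    rw [MulAction.isPretransitive_iff_base (0 : Fin 28)]
    intro z
    obtain ⟨n, hn⟩ := ht z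
    exact ⟨n, hn⟩
  have h28 : 28 ∣ Nat.card N := by
    have h1 := MulAction.index_stabilizer_of_transitive N (0 : Fin 28)
    have h2 := Subgroup.index_dvd_card (MulAction.stabilizer N (0 : Fin 28))
    rw [h1] at h2
    simpa using h2
  obtain ⟨m, hm⟩ := h28
  have hidx := N.card_mul_index
  rw [card_G, hm] at hidx
  have h216 : N.index ∣ 216 := ⟨m, by nlinarith⟩
  obtain ⟨r, hr⟩ := h216
  have hpow : ∀ g : G, g ^ 7 = 1 → g ∈ N := by
    intro g hg
    have h1 : g ^ 216 ∈ N := by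
      rw [hr, pow_mul]
      exact N.pow_mem (N.pow_index_mem g) r
    have h2 : (g ^ 216) ^ 6 = g := by
      rw [← pow_mul]
      have : g ^ (216 * 6) = (g ^ 7) ^ 185 * g := by
        rw [← pow_mul, ← pow_succ]
      rw [this, hg, one_pow, one_mul]
    rw [← h2]
    exact N.pow_mem h1 6
  rw [eq_top_iff]
  have hcl : Subgroup.closure ((fun g : G => (g : Equiv.Perm (Fin 28))) ⁻¹'
      ({a, b} : Set (Equiv.Perm (Fin 28)))) = ⊤ :=
    Subgroup.closure_closure_coe_preimage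
  rw [← hcl]
  apply (Subgroup.closure_le _).mpr
  intro g hg
  have hg' : (g : Equiv.Perm (Fin 28)) = a ∨ (g : Equiv.Perm (Fin 28)) = b := by simpa using hg
  apply hpow
  apply Subtype.ext
  rcases hg' with h | h
  · show (g : Equiv.Perm (Fin 28)) ^ 7 = 1
    rw [h, a7]
  · show (g : Equiv.Perm (Fin 28)) ^ 7 = 1
    rw [h, b7]

end Pool.Agent.H2.Psi
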