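import Mathlib

/-! The solvable group `S₄ × AGL(1,7) × C₆` of order 6048. -/

namespace Pool.Agent.H2.Psi

/-- powers of the primitive root 3 modulo 7 -/
def pr (k : ZMod 6) : ZMod 7 := (3 : ZMod 7) ^ (k.val)

theorem pr_add : ∀ k l : ZMod 6, pr (k + l) = pr k * pr l := by decide
theorem pr_zero : pr 0 = 1 := by decide
theorem pr_neg : ∀ k : ZMod 6, pr (-k) * pr k = 1 := by decide

/-- the affine group of the line over the field with 7 elements -/
structure K where
  x : ZMod 7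
  k : ZMod 6
deriving DecidableEq

namespace K

instance : Mul K := ⟨fun a b => ⟨a.x + pr a.k * b.x, a.k + b.k⟩⟩
instance : One K := ⟨⟨0, 0⟩⟩
instance : Inv K := ⟨fun a => ⟨-(pr (-a.k) * a.x), -a.k⟩⟩

theorem mul_def (a b : K) : a * b = ⟨a.x + pr a.k * b.x, a.k + b.k⟩ := rfl
theorem one_def : (1 : K) = ⟨0, 0⟩ := rfl
theorem inv_def (a : K) : a⁻¹ = ⟨-(pr (-a.k) * a.x), -a.k⟩ := rfl

instance : Group K :=
  Group.ofLeftAxioms
    (by
      intro a b c
      simp only [mul_def, pr_add, K.mk.injEq]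
      exact ⟨by ring, by ring⟩)
    (by
      intro a
      simp only [mul_def, one_def, pr_zero]
      cases a
      simp)
    (by
      intro a
      simp only [mul_def, one_def, inv_def, K.mk.injEq]
      exact ⟨by ring, by ring⟩)

def e : ZMod 7 × ZMod 6 ≃ K := ⟨fun p => ⟨p.1, p.2⟩, fun a => (a.x, a.k), fun _ => rfl, fun _ => rfl⟩

instance : Fintype K := Fintype.ofEquiv _ e

end K

/-- order of an element of order at most 7 -/
def ofn {A : Type} [Group A] [DecidableEq A] (x : A) : ℕ :=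
  if x = 1 then 1 else if x ^ 2 = 1 then 2 else if x ^ 3 = 1 then 3 else if x ^ 4 = 1 then 4
  else if x ^ 6 = 1 then 6 else 7

theorem orderOf_eq_ofn {A : Type} [Group A] [Fintype A] [DecidableEq A]
    (h : ∀ x : A, x ^ ofn x = 1 ∧ ∀ m < ofn x, 0 < m → x ^ m ≠ 1) (x : A) : orderOf x = ofn x := by
  rw [orderOf_eq_iff]
  · exact h x
  · unfold ofn
    split_ifs <;> norm_num

theorem ordS (x : Equiv.Perm (Fin 4)) : orderOf x = ofn x :=
  orderOf_eq_ofn (by decide +kernel) x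

theorem ordK (x : K) : orderOf x = ofn x :=
  orderOf_eq_ofn (by decide +kernel) x

theorem ordZ (x : Multiplicative (ZMod 6)) : orderOf x = ofn x :=
  orderOf_eq_ofn (by decide +kernel) x

theorem sum_prof {A : Type} [Group A] [Fintype A] [DecidableEq A] (l : List ℕ)
    (h : (Finset.univ : Finset A).val.map ofn = (l : Multiset ℕ)) (F : ℕ → ℕ) :
    ∑ x : A, F (ofn x) = (l.map F).sum := by
  have : ∑ x : A, F (ofn x) = (((Finset.univ : Finset A).val.map ofn).map F).sum := by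
    rw [Multiset.map_map]
    rfl
  rw [this, h]
  simp

theorem profS (F : ℕ → ℕ) : ∑ x : Equiv.Perm (Fin 4), F (orderOf x) =
    F 1 + 9 * F 2 + 8 * F 3 + 6 * F 4 := by
  simp only [ordS]
  rw [sum_prof [1,2,2,2,2,2,2,2,2,2,3,3,3,3,3,3,3,3,4,4,4,4,4,4] (by decide +kernel)]
  simp only [List.map_cons, List.map_nil, List.sum_cons, List.sum_nil]
  ring

theorem profK (F : ℕ → ℕ) : ∑ x : K, F (orderOf x) =
    F 1 + 7 * F 2 + 14 * F 3 + 14 * F 6 + 6 * F 7 := by
  simp only [ordK]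
  rw [sum_prof [1,2,2,2,2,2,2,2,3,3,3,3,3,3,3,3,3,3,3,3,3,3,6,6,6,6,6,6,6,6,6,6,6,6,6,6,7,7,7,7,7,7]
    (by decide +kernel)]
  simp only [List.map_cons, List.map_nil, List.sum_cons, List.sum_nil]
  ring

theorem profZ (F : ℕ → ℕ) : ∑ x : Multiplicative (ZMod 6), F (orderOf x) =
    F 1 + F 2 + 2 * F 3 + 2 * F 6 := by
  simp only [ordZ]
  rw [sum_prof [1,2,3,3,6,6] (by decide +kernel)]
  simp only [List.map_cons, List.map_nil, List.sum_cons, List.sum_nil]
  ring

abbrev H : Type := Equiv.Perm (Fin 4) × K × Multiplicative (ZMod 6)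

theorem card_H [Fintype H] : Fintype.card H = 6048 := by
  rw [← Nat.card_eq_fintype_card, Nat.card_prod, Nat.card_prod]
  have h1 : Nat.card (Equiv.Perm (Fin 4)) = 24 := by
    rw [Nat.card_eq_fintype_card]; decide +kernel
  have h2 : Nat.card K = 42 := by
    rw [Nat.card_eq_fintype_card]; decide +kernel
  have h3 : Nat.card (Multiplicative (ZMod 6)) = 6 := by
    rw [Nat.card_eq_fintype_card]; decide +kernel
  rw [h1, h2, h3]

def FZ (m n : ℕ) : ℕ := Nat.totient (m.lcm (n.lcm 1)) + Nat.totient (m.lcm (n.lcm 2)) +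
  2 * Nat.totient (m.lcm (n.lcm 3)) + 2 * Nat.totient (m.lcm (n.lcm 6))

def FK (m : ℕ) : ℕ := FZ m 1 + 7 * FZ m 2 + 14 * FZ m 3 + 14 * FZ m 6 + 6 * FZ m 7

theorem psi_H : ∑ g : H, Nat.totient (orderOf g) = 23984 := by
  rw [Fintype.sum_prod_type]
  simp only [Fintype.sum_prod_type, Prod.orderOf]
  have hZ : ∀ m n : ℕ, ∑ z : Multiplicative (ZMod 6), Nat.totient (m.lcm (n.lcm (orderOf z))) =
      FZ m n := fun m n => profZ (fun r => Nat.totient (m.lcm (n.lcm r)))
  simp only [hZ]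
  have hK : ∀ m : ℕ, ∑ y : K, FZ m (orderOf y) = FK m := fun m => profK (FZ m)
  simp only [hK]
  rw [profS FK]
  decide +kernel

theorem not_simple_H : ¬ IsSimpleGroup H := by
  intro hs
  have h := hs.eq_bot_or_eq_top_of_normal (MonoidHom.fst (Equiv.Perm (Fin 4)) (K × Multiplicative (ZMod 6))).ker
    inferInstance
  rcases h with h | h
  · have h1 : ((1, (⟨1, 0⟩, 1)) : H) ∈ (MonoidHom.fst (Equiv.Perm (Fin 4)) (K × Multiplicative (ZMod 6))).ker := rfl
    rw [h, Subgroup.mem_bot] at h1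
    revert h1
    decide
  · have h1 : ((Equiv.swap 0 1, (1, 1)) : H) ∈ (MonoidHom.fst (Equiv.Perm (Fin 4)) (K × Multiplicative (ZMod 6))).ker := by
      rw [h]; trivial
    rw [MonoidHom.mem_ker] at h1
    revert h1
    show (Equiv.swap (0 : Fin 4) 1 = 1) → False
    decide

end Pool.Agent.H2.Psi
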