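import Pool.Agent.H2.RigidTree

set_option autoImplicit false

open Set

namespace Pool.Agent.H2.Rigid

variable {E : ℕ × ℕ → Set ℝ}

/-- A strictly monotone map between chains is an order embedding. -/
theorem emb_of_strictMono {α β : Type} [PartialOrder α] [PartialOrder β] {A : Set α} {B : Set β}
    (hA : IsChain (· ≤ ·) A) (φ : A → B) (h : StrictMono φ) : Nonempty (A ↪o B) := by
  refine ⟨OrderEmbedding.ofMapLEIff φ (fun a b => ⟨fun hab => ?_, fun hab => h.monotone hab⟩)⟩
  rcases hA.total a.2 b.2 with h1 | h1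
  · exact h1
  · by_cases he : a = b
    · exact he.le
    · have h2 : b < a := lt_of_le_of_ne h1 (Ne.symm he)
      exact absurd (h h2) (not_lt_of_ge hab)

theorem F_mono {a a' b' : ℕ} (h : a' ≤ b') : F E (a, a') ⊆ F E (a, b') := by
  rintro x ⟨j, hj, hx⟩
  exact ⟨j, hj.trans h, hx⟩

def θ (g : ℕ → ℕ) (N : ℕ) : Pos → Pos
  | .u i c => .u (i + N + 1) c
  | .t l => if l.length ≤ N then .u (N - l.length) (Nat.pair (Pos.t l).lab.1 (Pos.t l).lab.2)
      else .t (hist g l.length)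

theorem θ_u (g : ℕ → ℕ) (N i c : ℕ) : θ g N (.u i c) = .u (i + N + 1) c := rfl

theorem θ_t (g : ℕ → ℕ) (N : ℕ) (l : List ℕ) : θ g N (.t l) =
    if l.length ≤ N then .u (N - l.length) (Nat.pair (Pos.t l).lab.1 (Pos.t l).lab.2)
      else .t (hist g l.length) := rfl

theorem θ_br (g : ℕ → ℕ) (N : ℕ) (p : Pos) : θ g N p ∈ br g := by
  rcases p with (⟨i, c⟩ | l)
  · exact Or.inl ⟨_, _, rfl⟩
  · rw [θ_t]
    by_cases h : l.length ≤ N
    · rw [if_pos h]; exact Or.inl ⟨_, _, rfl⟩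
    · rw [if_neg h]; exact Or.inr ⟨_, rfl⟩

theorem θ_lab {f g : ℕ → ℕ} {N : ℕ} (hN : ∀ n, N ≤ n → f n ≤ g n) {p : Pos} (hp : p ∈ br f) :
    F E p.lab ⊆ F E (θ g N p).lab := by
  rcases hp with ⟨i, c, rfl⟩ | ⟨n, rfl⟩
  · exact Subset.rfl
  · rw [θ_t, hist_length]
    by_cases h : n ≤ N
    · rw [if_pos h]
      simp [Pos.lab]
    · rw [if_neg h]
      obtain ⟨m, rfl⟩ : ∃ m, n = m + 1 := ⟨n - 1, by omega⟩
      simp only [hist, Pos.lab]
      rw [hist_length, hist_length]
      exact F_mono (hN m (by omega))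

theorem θ_lt {f : ℕ → ℕ} (g : ℕ → ℕ) (N : ℕ) {p q : Pos} (hp : p ∈ br f) (hq : q ∈ br f) (h : p < q) :
    θ g N p < θ g N q := by
  have aux : ∀ {a b : Pos}, a ≤ b → a ≠ b → a < b := fun h1 h2 => lt_of_le_of_ne h1 h2
  rcases hp with ⟨i, c, rfl⟩ | ⟨n, rfl⟩ <;> rcases hq with ⟨i', c', rfl⟩ | ⟨n', rfl⟩
  · have h1 := Pos.le_uu.mp h.le
    have h2 : ¬ (i = i' ∧ c = c') := by
      rintro ⟨rfl, rfl⟩; exact lt_irrefl _ h
    refine aux (Pos.le_uu.mpr (by omega)) ?_
    intro he
    simp only [θ, Pos.u.injEq] at he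
    omega
  · rw [θ_u, θ_t, hist_length]
    by_cases h' : n' ≤ N
    · rw [if_pos h']
      refine aux (Pos.le_uu.mpr (by omega)) ?_
      intro he
      simp only [Pos.u.injEq] at he
      omega
    · rw [if_neg h']
      exact aux Pos.le_ut (by simp)
  · exact absurd h.le Pos.not_le_tu
  · have hnn : n < n' := by
      by_contra hcon
      exact absurd h (not_lt_of_ge (hist_suffix f (not_lt.mp hcon)))
    rw [θ_t, θ_t, hist_length, hist_length]
    by_cases h1 : n' ≤ N
    · rw [if_pos h1, if_pos (by omega)]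
      refine aux (Pos.le_uu.mpr (by omega)) ?_
      intro he
      simp only [Pos.u.injEq] at he
      omega
    · rw [if_neg h1]
      by_cases h2 : n ≤ N
      · rw [if_pos h2]
        exact aux Pos.le_ut (by simp)
      · rw [if_neg h2]
        refine aux (hist_suffix g hnn.le) ?_
        intro he
        simp only [Pos.t.injEq] at he
        have := congrArg List.length he
        rw [hist_length, hist_length] at this
        omega

theorem emb_of_le (hE : Fam E) {f g : ℕ → ℕ} {N : ℕ} (hN : ∀ n, N ≤ n → f n ≤ g n) :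
    Nonempty (B E f ↪o B E g) := by
  refine emb_of_strictMono (B_max hE f).1
    (fun x => ⟨⟨θ g N x.1.p, x.1.z, θ_lab hN x.2 x.1.hz⟩, θ_br g N _⟩) ?_
  intro x y hxy
  have hxy' : x.1 < y.1 := hxy
  show (⟨θ g N x.1.p, x.1.z, _⟩ : T E) < ⟨θ g N y.1.p, y.1.z, _⟩
  by_cases he : x.1.p = y.1.p
  · apply T.lt_of_z
    · simp only [he]
    · exact T.z_lt (x := x.1) (y := y.1) hxy' he
  · apply T.lt_of_pos
    exact θ_lt g N x.2 y.2 (lt_of_le_of_ne (T.pos_le hxy'.le) he)

theorem le_of_emb (hE : Fam E) {f g : ℕ → ℕ} (φ : B E f ↪o B E g) :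
    ∃ N, ∀ n, N ≤ n → f n ≤ g n := by
  classical
  -- points of the block with index n
  have hlab : ∀ (h : ℕ → ℕ) n, (Pos.t (hist h (n + 1))).lab = (n + 1, h n) := by
    intro h n
    simp [hist, Pos.lab, hist_length]
  have hmem : ∀ n, ∀ z ∈ E (n + 1, f n), z ∈ F E (Pos.t (hist f (n + 1))).lab := by
    intro n z hz
    rw [hlab]
    exact ⟨f n, le_refl _, hz⟩
  let pt : ∀ n, E (n + 1, f n) → B E f := fun n z =>
    ⟨⟨.t (hist f (n + 1)), z.1, hmem n z.1 z.2⟩, Or.inr ⟨n + 1, rfl⟩⟩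
  have hpt : ∀ n (z z' : E (n + 1, f n)), z.1 < z'.1 → pt n z < pt n z' := by
    intro n z z' h
    exact T.lt_of_z (x := (pt n z).1) (y := (pt n z').1) rfl h
  have key : ∀ n, ∃ z : E (n + 1, f n), ∃ i c, g n < f n →
      (φ (pt n z)).1.p = .u i c ∧ (Nat.unpair c).1 = n + 1 := by
    intro n
    by_cases hn : g n < f n
    swap
    · obtain ⟨x, hx, -⟩ := (hE.dense (n + 1, f n)).exists_between (zero_lt_one' ℝ)
      exact ⟨⟨x, hx⟩, 0, 0, fun h => absurd h hn⟩
    have hnc : ¬ Function.Injective (fun z : E (n + 1, f n) => (φ (pt n z)).1.p) := by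
      intro hinj
      exact hE.not_countable _ (Set.countable_coe_iff.mp hinj.countable)
    have : ∃ z z' : E (n + 1, f n), z.1 < z'.1 ∧ (φ (pt n z)).1.p = (φ (pt n z')).1.p := by
      simp only [Function.Injective] at hnc
      push Not at hnc
      obtain ⟨a, b, hab, hne⟩ := hnc
      rcases lt_trichotomy a.1 b.1 with h | h | h
      · exact ⟨a, b, h, hab⟩
      · exact absurd (Subtype.ext h) hne
      · exact ⟨b, a, h, hab.symm⟩
    obtain ⟨c, d, hcd, hpos⟩ := this
    have hconst : ∀ w (hw : w ∈ E (n + 1, f n)), w ∈ Icc c.1 d.1 →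
        (φ (pt n ⟨w, hw⟩)).1.p = (φ (pt n c)).1.p := by
      intro w hw hwI
      have hle : ∀ (z z' : E (n + 1, f n)), z.1 ≤ z'.1 → (φ (pt n z)).1.p ≤ (φ (pt n z')).1.p := by
        intro z z' h
        rcases h.lt_or_eq with h | h
        · exact T.pos_le (φ.monotone (hpt n z z' h).le)
        · rw [Subtype.ext h]
      apply le_antisymm
      · rw [hpos]; exact hle ⟨w, hw⟩ d hwI.2
      · exact hle c ⟨w, hw⟩ hwI.1
    have hst := hE.star (W := {w | w.1 = (φ (pt n c)).1.p.lab.1 ∧ w.2 ≤ (φ (pt n c)).1.p.lab.2})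
      hcd c.2 d.2 (fun w => if h : w ∈ E (n + 1, f n) then (φ (pt n ⟨w, h⟩)).1.z else 0) (by
        intro x hx y hy hxy
        simp only [hx.1, hy.1, dif_pos]
        apply T.z_lt
        · exact φ.strictMono (hpt n ⟨x, hx.1⟩ ⟨y, hy.1⟩ hxy)
        · rw [hconst x hx.1 hx.2, hconst y hy.1 hy.2]) (by
        intro x hx
        simp only [hx.1, dif_pos]
        obtain ⟨j, hj, hz⟩ := (φ (pt n ⟨x, hx.1⟩)).1.hz
        rw [hconst x hx.1 hx.2] at hj hz
        exact ⟨((φ (pt n c)).1.p.lab.1, j), ⟨rfl, hj⟩, hz⟩)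
    obtain ⟨h1, h2⟩ := hst
    rcases (φ (pt n c)).2 with ⟨i, k, hik⟩ | ⟨m, hm⟩
    · refine ⟨c, i, k, fun _ => ⟨hik, ?_⟩⟩
      rw [hik] at h1
      exact h1.symm
    · exfalso
      rw [hm] at h1 h2
      rcases m with _ | m
      · simp [hist, Pos.lab] at h1
      · rw [hlab] at h1 h2
        simp only at h1 h2
        have : m = n := by omega
        subst this
        omega
  by_contra hcon
  push Not at hcon
  choose z i c hicl using key
  have hic := fun n hn => (hicl n hn).1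
  have hlabc := fun n hn => (hicl n hn).2
  let S : Set ℕ := {n | g n < f n}
  have hlt : ∀ n ∈ S, ∀ m ∈ S, n < m → i m < i n ∨ (i m = i n ∧ c m < c n) := by
    intro n hn m hm hnm
    have h1 : pt n (z n) < pt m (z m) := by
      apply T.lt_of_pos (x := (pt n (z n)).1) (y := (pt m (z m)).1)
      refine lt_of_le_of_ne (hist_suffix f (by omega)) ?_
      intro he
      simp only [pt, Pos.t.injEq] at he
      have := congrArg List.length he
      rw [hist_length, hist_length] at this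
      omega
    have h2 := T.pos_le (φ.monotone h1.le)
    rw [hic n hn, hic m hm] at h2
    have h3 := Pos.le_uu.mp h2
    have h4 : c n ≠ c m := by
      intro he
      have := hlabc n hn
      rw [he, hlabc m hm] at this
      omega
    omega
  have hwf : WellFounded (Prod.Lex (fun a b : ℕ => a < b) (fun a b : ℕ => a < b)) :=
    WellFounded.prod_lex wellFounded_lt wellFounded_lt
  obtain ⟨n0, hn0, hfg0⟩ := hcon 0
  obtain ⟨q, ⟨n, hn, rfl⟩, hmin⟩ := hwf.has_min ((fun n => (i n, c n)) '' S) ⟨_, n0, hfg0, rfl⟩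
  obtain ⟨m, hm, hfgm⟩ := hcon (n + 1)
  refine hmin (i m, c m) ⟨m, hfgm, rfl⟩ ?_
  rw [Prod.lex_def]
  exact hlt n hn m hfgm (by omega)

end Pool.Agent.H2.Rigid
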