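import Mathlib

set_option autoImplicit false

open Set Cardinal

namespace Pool.Agent.H2.Rigid

/-- Monotone functions `ℝ → ℝ`: there are at most continuum many. -/
theorem card_mono : #{h : ℝ → ℝ // Monotone h} ≤ 𝔠 := by
  have h1 : #{t : Set (ℝ × ℝ) | MeasurableSet t} ≤ 𝔠 := by
    obtain ⟨b, hbc, hb⟩ := (inferInstance : MeasurableSpace.CountablyGenerated (ℝ × ℝ)).isCountablyGenerated
    have := MeasurableSpace.cardinal_measurableSet_le_continuum (s := b)
      (hbc.le_aleph0.trans aleph0_le_continuum)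
    rw [← hb] at this
    exact this
  refine le_trans ?_ h1
  let F : {h : ℝ → ℝ // Monotone h} → {t : Set (ℝ × ℝ) | MeasurableSet t} := fun h =>
    ⟨{p | p.2 ≤ h.1 p.1}, measurableSet_le measurable_snd (h.2.measurable.comp measurable_fst)⟩
  refine mk_le_of_injective (f := F) ?_
  intro h h' hh
  have h2 : {p : ℝ × ℝ | p.2 ≤ h.1 p.1} = {p : ℝ × ℝ | p.2 ≤ h'.1 p.1} := congrArg Subtype.val hh
  apply Subtype.ext
  funext x
  apply le_antisymm
  · have : (x, h.1 x) ∈ {p : ℝ × ℝ | p.2 ≤ h'.1 p.1} := by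
      rw [← h2]; exact (le_refl (h.1 x) : h.1 x ≤ h.1 x)
    exact this
  · have : (x, h'.1 x) ∈ {p : ℝ × ℝ | p.2 ≤ h.1 p.1} := by
      rw [h2]; exact (le_refl (h'.1 x) : h'.1 x ≤ h'.1 x)
    exact this

structure Task where
  h : ℝ → ℝ
  mono : Monotone h
  e : ℕ × ℕ
  a : ℝ
  b : ℝ
  hab : a < b
  sm : StrictMonoOn h (Ioo a b)

theorem card_task : #Task ≤ 𝔠 := by
  let F : Task → {h : ℝ → ℝ // Monotone h} × ((ℕ × ℕ) × (ℝ × ℝ)) := fun t =>
    (⟨t.h, t.mono⟩, (t.e, (t.a, t.b)))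
  have hF : Function.Injective F := by
    rintro ⟨h, m, e, a, b, hab, sm⟩ ⟨h', m', e', a', b', hab', sm'⟩ hh
    simp only [F, Prod.mk.injEq, Subtype.mk.injEq] at hh
    obtain ⟨rfl, rfl, rfl, rfl⟩ := hh
    rfl
  refine (mk_le_of_injective hF).trans ?_
  have h1 : #(((ℕ × ℕ) × (ℝ × ℝ))) ≤ 𝔠 := by
    rw [mk_prod, mk_prod, mk_prod]
    simp [mk_real]
  rw [mk_prod, lift_id, lift_id]
  calc _ ≤ 𝔠 * 𝔠 := mul_le_mul' card_mono h1
    _ = 𝔠 := continuum_mul_self

abbrev I : Type := (𝔠 : Cardinal.{0}).ord.ToType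

theorem exists_surj : ∃ f : I → Task, Function.Surjective f := by
  have : Nonempty Task := ⟨⟨id, monotone_id, (0, 0), 0, 1, zero_lt_one, strictMono_id.strictMonoOn _⟩⟩
  have h1 : #Task ≤ #I := by
    rw [mk_ord_toType]; exact card_task
  obtain ⟨g⟩ := h1
  exact ⟨Function.invFun g, Function.invFun_surjective g.injective⟩

theorem step (f : I → Task) (i : I) (prev : ∀ j, j < i → ℝ) :
    ∃ x ∈ Ioo (f i).a (f i).b, ∀ j (hj : j < i), x ≠ prev j hj ∧ x ≠ (f j).h (prev j hj) ∧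
      (f i).h x ≠ prev j hj := by
  by_contra hcon
  push Not at hcon
  have hcard : #(Iio i) < 𝔠 := mk_Iio_toType_ord_lt i
  let A : Set ℝ := range (fun j : Iio i => prev j.1 j.2)
  let B : Set ℝ := range (fun j : Iio i => (f j.1).h (prev j.1 j.2))
  let C : Set ℝ := {x | x ∈ Ioo (f i).a (f i).b ∧ (f i).h x ∈ A}
  have hsub : Ioo (f i).a (f i).b ⊆ A ∪ B ∪ C := by
    intro x hx
    obtain ⟨j, hj, h1⟩ := hcon x hx
    by_cases hA : x ∈ A
    · exact Or.inl (Or.inl hA)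
    by_cases hB : x ∈ B
    · exact Or.inl (Or.inr hB)
    refine Or.inr ⟨hx, ⟨⟨j, hj⟩, ?_⟩⟩
    refine (h1 ?_ ?_).symm
    · intro he
      exact hA ⟨⟨j, hj⟩, he.symm⟩
    · intro he
      exact hB ⟨⟨j, hj⟩, he.symm⟩
  have hA : #A < 𝔠 := mk_range_le.trans_lt hcard
  have hB : #B < 𝔠 := mk_range_le.trans_lt hcard
  have hC : #C < 𝔠 := by
    refine lt_of_le_of_lt ?_ hA
    refine mk_le_of_injective (f := fun x : C => (⟨(f i).h x.1, x.2.2⟩ : A)) ?_
    intro x y hxy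
    have := congrArg Subtype.val hxy
    exact Subtype.ext ((f i).sm.injOn x.2.1 y.2.1 this)
  have hI : #(Ioo (f i).a (f i).b) = 𝔠 := mk_Ioo_real (f i).hab
  have h1 : 𝔠 ≤ #(A ∪ B ∪ C : Set ℝ) := hI ▸ mk_le_mk_of_subset hsub
  have h2 : #(A ∪ B ∪ C : Set ℝ) < 𝔠 :=
    (mk_union_le _ _).trans_lt (add_lt_of_lt aleph0_le_continuum
      ((mk_union_le _ _).trans_lt (add_lt_of_lt aleph0_le_continuum hA hB)) hC)
  exact absurd h1 (not_le.mpr h2)

theorem exists_points (f : I → Task) : ∃ x : I → ℝ, (∀ i, x i ∈ Ioo (f i).a (f i).b) ∧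
    (∀ i j, j < i → x i ≠ x j ∧ x i ≠ (f j).h (x j) ∧ (f i).h (x i) ≠ x j) := by
  classical
  let wf : WellFounded (fun i j : I => i < j) := wellFounded_lt
  let x : I → ℝ := wf.fix (fun i prev => Classical.choose (step f i prev))
  have hx : ∀ i, x i = Classical.choose (step f i (fun j _ => x j)) := fun i => wf.fix_eq _ i
  have hs : ∀ i, _ := fun i => Classical.choose_spec (step f i (fun j _ => x j))
  refine ⟨x, ?_, ?_⟩
  · intro i
    rw [hx i]
    exact (hs i).1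
  · intro i j hj
    have := (hs i).2 j hj
    rw [← hx i] at this
    exact this

/-- A countable family of pairwise disjoint dense sets of reals with no monotone function
carrying a piece of one of them into the union of the others. -/
theorem exists_family : ∃ E : ℕ × ℕ → Set ℝ, (∀ e, Dense (E e)) ∧
    ∀ e (a b : ℝ), a < b → ∀ h : ℝ → ℝ, Monotone h → StrictMonoOn h (Ioo a b) →
      ∃ x ∈ Ioo a b ∩ E e, ∀ w, w ≠ e → h x ∉ E w := by
  obtain ⟨f, hf⟩ := exists_surj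
  obtain ⟨x, hx1, hx2⟩ := exists_points f
  let E : ℕ × ℕ → Set ℝ := fun e => {r | ∃ i, (f i).e = e ∧ x i = r}
  have key : ∀ e (a b : ℝ), a < b → ∀ h : ℝ → ℝ, Monotone h → StrictMonoOn h (Ioo a b) →
      ∃ x ∈ Ioo a b ∩ E e, ∀ w, w ≠ e → h x ∉ E w := by
    intro e a b hab h hm hs
    obtain ⟨i, hi⟩ := hf ⟨h, hm, e, a, b, hab, hs⟩
    refine ⟨x i, ⟨?_, i, ?_, rfl⟩, ?_⟩
    · have := hx1 i
      rw [hi] at this
      exact this
    · rw [hi]
    · rintro w hw ⟨j, hj, hxj⟩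
      rcases lt_trichotomy j i with h1 | h1 | h1
      · have := (hx2 i j h1).2.2
        rw [hi] at this
        exact this hxj.symm
      · subst h1
        rw [hi] at hj
        exact hw hj.symm
      · have := (hx2 j i h1).2.1
        rw [hi] at this
        exact this hxj
  refine ⟨E, ?_, key⟩
  intro e
  apply dense_of_exists_between
  intro a b hab
  obtain ⟨y, hy, -⟩ := key e a b hab id monotone_id (strictMono_id.strictMonoOn _)
  exact ⟨y, hy.2, hy.1⟩

end Pool.Agent.H2.Rigid
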