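import Pool.Agent.H2.RigidSets

set_option autoImplicit false

open Set

namespace Pool.Agent.H2.Rigid

/-- The properties of the family used below. -/
structure Fam (E : ℕ × ℕ → Set ℝ) : Prop where
  dense : ∀ e, Dense (E e)
  rigid : ∀ e (a b : ℝ), a < b → ∀ h : ℝ → ℝ, Monotone h → StrictMonoOn h (Ioo a b) →
      ∃ x ∈ Ioo a b ∩ E e, ∀ w, w ≠ e → h x ∉ E w

theorem Fam.star {E : ℕ × ℕ → Set ℝ} (hE : Fam E) {e : ℕ × ℕ} {W : Set (ℕ × ℕ)} {c d : ℝ}
    (hcd : c < d) (hc : c ∈ E e) (hd : d ∈ E e) (f : ℝ → ℝ)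
    (hf : StrictMonoOn f (E e ∩ Icc c d)) (hm : ∀ x ∈ E e ∩ Icc c d, ∃ w ∈ W, f x ∈ E w) :
    e ∈ W := by
  by_contra heW
  have hcS : c ∈ E e ∩ Icc c d := ⟨hc, le_refl _, hcd.le⟩
  have hdS : d ∈ E e ∩ Icc c d := ⟨hd, hcd.le, le_refl _⟩
  obtain ⟨g, hg, hfg⟩ := hf.monotoneOn.exists_monotone_extension
    ⟨f c, by rintro _ ⟨x, hx, rfl⟩; exact hf.monotoneOn hcS hx hx.2.1⟩
    ⟨f d, by rintro _ ⟨x, hx, rfl⟩; exact hf.monotoneOn hx hdS hx.2.2⟩
  have hs : StrictMonoOn g (Ioo c d) := by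
    intro x hx y hy hxy
    obtain ⟨p, hp, hxp, hpy⟩ := (hE.dense e).exists_between hxy
    obtain ⟨q, hq, hpq, hqy⟩ := (hE.dense e).exists_between hpy
    have hpS : p ∈ E e ∩ Icc c d := ⟨hp, (hx.1.trans hxp).le, (hpy.trans hy.2).le⟩
    have hqS : q ∈ E e ∩ Icc c d := ⟨hq, (hx.1.trans (hxp.trans hpq)).le, (hqy.trans hy.2).le⟩
    calc g x ≤ g p := hg hxp.le
      _ = f p := (hfg hpS).symm
      _ < f q := hf hpS hqS hpq
      _ = g q := hfg hqS
      _ ≤ g y := hg hqy.le
  obtain ⟨x, hx, hw⟩ := hE.rigid e c d hcd g hg hs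
  have hxS : x ∈ E e ∩ Icc c d := ⟨hx.2, hx.1.1.le, hx.1.2.le⟩
  obtain ⟨w, hwW, hfx⟩ := hm x hxS
  rw [hfg hxS] at hfx
  exact hw w (fun h => heW (h ▸ hwW)) hfx

theorem Fam.not_countable {E : ℕ × ℕ → Set ℝ} (hE : Fam E) (e : ℕ × ℕ) : ¬ (E e).Countable := by
  intro hc
  obtain ⟨e', he'⟩ : ∃ e' : ℕ × ℕ, e' ≠ e := ⟨(e.1 + 1, e.2), by
    intro h; have := congrArg Prod.fst h; simp at this⟩
  have : Countable (E e) := hc.to_subtype
  have : DenselyOrdered (E e') := by
    refine ⟨fun a b hab => ?_⟩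
    obtain ⟨c, hc, h1, h2⟩ := (hE.dense e').exists_between (show a.1 < b.1 from hab)
    exact ⟨⟨c, hc⟩, h1, h2⟩
  have : Nontrivial (E e') := by
    obtain ⟨a, ha, h1, h2⟩ := (hE.dense e').exists_between (zero_lt_one' ℝ)
    obtain ⟨b, hb, h3, h4⟩ := (hE.dense e').exists_between h1
    exact ⟨⟨⟨a, ha⟩, ⟨b, hb⟩, fun h => h4.ne' (congrArg Subtype.val h)⟩⟩
  obtain ⟨φ⟩ := Order.embedding_from_countable_to_dense (E e) (E e')
  obtain ⟨d, hd, h1, h2⟩ := (hE.dense e).exists_between (zero_lt_one' ℝ)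
  obtain ⟨c, hc, h3, h4⟩ := (hE.dense e).exists_between h1
  classical
  have := hE.star (W := {e'}) h4 hc hd (fun x => if h : x ∈ E e then (φ ⟨x, h⟩).1 else 0) (by
    intro x hx y hy hxy
    simp only [hx.1, hy.1, dif_pos]
    exact φ.strictMono (show (⟨x, hx.1⟩ : E e) < ⟨y, hy.1⟩ from hxy)) (by
    intro x hx
    refine ⟨e', rfl, ?_⟩
    simp only [hx.1, dif_pos]
    exact (φ ⟨x, hx.1⟩).2)
  exact he' this.symm

inductive Pos
  | u (i c : ℕ)
  | t (l : List ℕ)

namespace Pos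

def le : Pos → Pos → Prop
  | .u i c, .u i' c' => i' < i ∨ (i' = i ∧ c' ≤ c)
  | .u _ _, .t _ => True
  | .t _, .u _ _ => False
  | .t l, .t m => l <:+ m

instance : PartialOrder Pos where
  le := Pos.le
  le_refl := by
    rintro (⟨i, c⟩ | l)
    · exact Or.inr ⟨rfl, le_refl _⟩
    · exact List.suffix_refl l
  le_trans := by
    rintro (⟨i, c⟩ | l) (⟨i', c'⟩ | l') (⟨i'', c''⟩ | l'') h1 h2
    · simp only [le] at *
      omega
    · trivial
    · exact h2.elim
    · trivial
    · exact h1.elim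
    · exact h1.elim
    · exact h2.elim
    · exact List.IsSuffix.trans h1 h2
  le_antisymm := by
    rintro (⟨i, c⟩ | l) (⟨i', c'⟩ | l') h1 h2
    · simp only [le] at *
      have : i = i' := by omega
      have : c = c' := by omega
      simp [*]
    · exact h2.elim
    · exact h1.elim
    · exact congrArg _ (List.IsSuffix.eq_of_length h1 (le_antisymm h1.length_le h2.length_le))

theorem le_uu {i c i' c' : ℕ} : u i c ≤ u i' c' ↔ i' < i ∨ (i' = i ∧ c' ≤ c) := Iff.rfl
theorem le_ut {i c : ℕ} {l : List ℕ} : u i c ≤ t l := trivial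
theorem not_le_tu {i c : ℕ} {l : List ℕ} : ¬ t l ≤ u i c := fun h => h
theorem le_tt {l m : List ℕ} : t l ≤ t m ↔ l <:+ m := Iff.rfl

theorem down_chain {a b c : Pos} (h1 : a ≤ c) (h2 : b ≤ c) : a ≤ b ∨ b ≤ a := by
  rcases a with (⟨i, k⟩ | l) <;> rcases b with (⟨i', k'⟩ | l')
  · simp only [le_uu]; omega
  · exact Or.inl le_ut
  · exact Or.inr le_ut
  · rcases c with (⟨i'', k''⟩ | l'')
    · exact absurd h1 not_le_tu
    · exact List.suffix_or_suffix_of_suffix h1 h2

def lab : Pos → ℕ × ℕ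
  | .u _ c => Nat.unpair c
  | .t [] => (0, 0)
  | .t (k :: s) => (s.length + 1, k)

def code : Pos → (ℕ × ℕ) ⊕ List ℕ
  | .u i c => Sum.inl (i, c)
  | .t l => Sum.inr l

theorem code_inj : Function.Injective code := by
  rintro (⟨i, c⟩ | l) (⟨i', c'⟩ | l') h <;> simp_all [code]

instance : Countable Pos := code_inj.countable

instance : Nonempty Pos := ⟨.t []⟩

end Pos

def F (E : ℕ × ℕ → Set ℝ) (l : ℕ × ℕ) : Set ℝ := {x | ∃ j, j ≤ l.2 ∧ x ∈ E (l.1, j)}

structure T (E : ℕ × ℕ → Set ℝ) where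
  p : Pos
  z : ℝ
  hz : z ∈ F E p.lab

variable {E : ℕ × ℕ → Set ℝ}

instance : PartialOrder (T E) where
  le x y := x.p < y.p ∨ (x.p = y.p ∧ x.z ≤ y.z)
  le_refl x := Or.inr ⟨rfl, le_refl _⟩
  le_trans := by
    rintro x y z (h1 | ⟨h1, h1'⟩) (h2 | ⟨h2, h2'⟩)
    · exact Or.inl (h1.trans h2)
    · exact Or.inl (h2 ▸ h1)
    · exact Or.inl (h1 ▸ h2)
    · exact Or.inr ⟨h1.trans h2, h1'.trans h2'⟩
  le_antisymm := by
    rintro ⟨p, z, h⟩ ⟨p', z', h'⟩ (h1 | ⟨h1, h1'⟩) (h2 | ⟨h2, h2'⟩)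
    · exact absurd (h1.trans h2) (lt_irrefl _)
    · simp only at h1 h2; rw [h2] at h1; exact absurd h1 (lt_irrefl _)
    · simp only at h1 h2; rw [h1] at h2; exact absurd h2 (lt_irrefl _)
    · simp only at h1 h1' h2'
      subst h1
      have : z = z' := le_antisymm h1' h2'
      subst this
      rfl

theorem T.le_def {x y : T E} : x ≤ y ↔ x.p < y.p ∨ (x.p = y.p ∧ x.z ≤ y.z) := Iff.rfl

theorem T.pos_le {x y : T E} (h : x ≤ y) : x.p ≤ y.p := by
  rcases h with h | h
  · exact h.le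
  · exact h.1.le

theorem T.comp {x y : T E} (h : x.p ≤ y.p ∨ y.p ≤ x.p) : x ≤ y ∨ y ≤ x := by
  by_cases he : x.p = y.p
  · rcases le_total x.z y.z with h1 | h1
    · exact Or.inl (Or.inr ⟨he, h1⟩)
    · exact Or.inr (Or.inr ⟨he.symm, h1⟩)
  · rcases h with h | h
    · exact Or.inl (Or.inl (lt_of_le_of_ne h he))
    · exact Or.inr (Or.inl (lt_of_le_of_ne h (Ne.symm he)))

theorem T.lt_of_pos {x y : T E} (h : x.p < y.p) : x < y := by
  refine lt_of_le_of_ne (Or.inl h) ?_
  rintro rfl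
  exact lt_irrefl _ h

theorem T.lt_of_z {x y : T E} (h : x.p = y.p) (hz : x.z < y.z) : x < y := by
  refine lt_of_le_of_ne (Or.inr ⟨h, hz.le⟩) ?_
  rintro rfl
  exact lt_irrefl _ hz

theorem T.z_lt {x y : T E} (h : x < y) (hp : x.p = y.p) : x.z < y.z := by
  rcases lt_iff_le_and_ne.mp h with ⟨h1 | h1, h2⟩
  · rw [hp] at h1; exact absurd h1 (lt_irrefl _)
  · refine lt_of_le_of_ne h1.2 ?_
    intro hz
    apply h2
    rcases x with ⟨p, z, h⟩
    rcases y with ⟨p', z', h'⟩
    simp only at hp hz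
    subst hp
    subst hz
    rfl

theorem tree (x : T E) : IsChain (· ≤ ·) {y | y < x} := by
  intro y hy z hz _
  exact T.comp (Pos.down_chain (T.pos_le (le_of_lt hy)) (T.pos_le (le_of_lt hz)))

theorem union_chains : ∃ L : ℕ → Set (T E), (∀ n, IsChain (· ≤ ·) (L n)) ∧ ⋃ n, L n = univ := by
  obtain ⟨d, hd⟩ := exists_surjective_nat Pos
  refine ⟨fun n => {x | x.p = d n}, ?_, ?_⟩
  · intro n x hx y hy _
    exact T.comp (Or.inl ((show x.p = d n from hx).trans (show y.p = d n from hy).symm).le)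
  · apply eq_univ_of_forall
    intro x
    obtain ⟨n, hn⟩ := hd x.p
    exact mem_iUnion.mpr ⟨n, hn.symm⟩

def hist (f : ℕ → ℕ) : ℕ → List ℕ
  | 0 => []
  | n + 1 => f n :: hist f n

theorem hist_length (f : ℕ → ℕ) (n : ℕ) : (hist f n).length = n := by
  induction n with
  | zero => rfl
  | succ n ih => simp [hist, ih]

theorem hist_suffix (f : ℕ → ℕ) {m n : ℕ} (h : m ≤ n) : hist f m <:+ hist f n := by
  induction n, h using Nat.le_induction with
  | base => exact List.suffix_refl _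
  | succ n _ ih => exact ih.trans (List.suffix_cons _ _)

def br (f : ℕ → ℕ) : Set Pos := {p | (∃ i c, p = .u i c) ∨ ∃ n, p = .t (hist f n)}

theorem br_chain (f : ℕ → ℕ) {p q : Pos} (hp : p ∈ br f) (hq : q ∈ br f) : p ≤ q ∨ q ≤ p := by
  rcases hp with ⟨i, c, rfl⟩ | ⟨n, rfl⟩ <;> rcases hq with ⟨i', c', rfl⟩ | ⟨n', rfl⟩
  · simp only [Pos.le_uu]; omega
  · exact Or.inl Pos.le_ut
  · exact Or.inr Pos.le_ut
  · rcases le_total n n' with h | h
    · exact Or.inl (hist_suffix f h)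
    · exact Or.inr (hist_suffix f h)

def B (E : ℕ × ℕ → Set ℝ) (f : ℕ → ℕ) : Set (T E) := {x | x.p ∈ br f}

theorem F_nonempty (hE : Fam E) (l : ℕ × ℕ) : (F E l).Nonempty := by
  obtain ⟨x, hx, -⟩ := (hE.dense (l.1, 0)).exists_between (zero_lt_one' ℝ)
  exact ⟨x, 0, Nat.zero_le _, hx⟩

noncomputable def pick (hE : Fam E) (p : Pos) : T E :=
  ⟨p, (F_nonempty hE p.lab).some, (F_nonempty hE p.lab).some_mem⟩

theorem B_max (hE : Fam E) (f : ℕ → ℕ) : IsMaxChain (· ≤ ·) (B E f) := by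
  refine ⟨fun x hx y hy _ => T.comp (br_chain f hx hy), ?_⟩
  intro t ht hsub
  apply subset_antisymm hsub
  intro x hx
  show x.p ∈ br f
  rcases hp : x.p with (⟨i, c⟩ | l)
  · exact Or.inl ⟨i, c, rfl⟩
  · right
    refine ⟨l.length, ?_⟩
    have hy : pick hE (.t (hist f l.length)) ∈ t := hsub (Or.inr ⟨_, rfl⟩)
    have hc : x.p ≤ .t (hist f l.length) ∨ .t (hist f l.length) ≤ x.p := by
      rcases ht.total hx hy with h | h
      · exact Or.inl (T.pos_le h)
      · exact Or.inr (T.pos_le h)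
    rw [hp] at hc
    rcases hc with h | h
    · have := List.IsSuffix.eq_of_length (Pos.le_tt.mp h) (by rw [hist_length])
      rw [← this]
    · have := List.IsSuffix.eq_of_length (Pos.le_tt.mp h) (by rw [hist_length])
      rw [this]

theorem drop_suffix_len {m : List ℕ} {n : ℕ} (h : n ≤ m.length) :
    ∃ l, l <:+ m ∧ l.length = n :=
  ⟨m.drop (m.length - n), List.drop_suffix _ _, by rw [List.length_drop]; omega⟩

theorem mem_of_comp {A : Set (T E)} (hA : IsMaxChain (· ≤ ·) A) {x : T E}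
    (h : ∀ y ∈ A, x.p ≤ y.p ∨ y.p ≤ x.p) : x ∈ A := by
  have h1 : IsChain (· ≤ ·) (insert x A) := hA.1.insert (fun y hy _ => T.comp (h y hy))
  have h2 := hA.2 h1 (subset_insert x A)
  rw [h2]
  exact mem_insert x A

theorem classify (hE : Fam E) {A : Set (T E)} (hA : IsMaxChain (· ≤ ·) A) : ∃ f, A = B E f := by
  have hcomp : ∀ x ∈ A, ∀ y ∈ A, x.p ≤ y.p ∨ y.p ≤ x.p := by
    intro x hx y hy
    rcases hA.1.total hx hy with h | h
    · exact Or.inl (T.pos_le h)
    · exact Or.inr (T.pos_le h)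
  -- downward closed
  have hdown : ∀ y ∈ A, ∀ x : T E, x.p ≤ y.p → x ∈ A := by
    intro y hy x hxy
    apply mem_of_comp hA
    intro w hw
    rcases hcomp w hw y hy with h | h
    · exact Pos.down_chain hxy h
    · exact Or.inl (hxy.trans h)
  have hu : ∀ x : T E, (∃ i c, x.p = .u i c) → x ∈ A := by
    rintro x ⟨i, c, hx⟩
    apply mem_of_comp hA
    intro w _
    rcases hw : w.p with (⟨i', c'⟩ | l)
    · rw [hx]; simp only [Pos.le_uu]; omega
    · rw [hx]; exact Or.inl Pos.le_ut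
  have hlev : ∀ n, ∃ y ∈ A, ∃ l : List ℕ, y.p = .t l ∧ l.length = n := by
    intro n
    induction n with
    | zero =>
      refine ⟨pick hE (.t []), ?_, [], rfl, rfl⟩
      apply mem_of_comp hA
      intro w _
      rcases hw : w.p with (⟨i', c'⟩ | l)
      · exact Or.inr Pos.le_ut
      · exact Or.inl (List.nil_suffix)
    | succ n ih =>
      obtain ⟨y, hy, l, hl, hln⟩ := ih
      by_contra hcon
      push Not at hcon
      have : pick hE (.t (0 :: l)) ∈ A := by
        apply mem_of_comp hA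
        intro w hw
        rcases hwp : w.p with (⟨i', c'⟩ | m)
        · exact Or.inr Pos.le_ut
        · right
          rcases hcomp w hw y hy with h | h
          · rw [hwp, hl] at h
            exact (Pos.le_tt.mp h).trans (List.suffix_cons _ _)
          · rw [hwp, hl] at h
            by_cases hlen : m.length ≤ n
            · have := List.IsSuffix.eq_of_length (Pos.le_tt.mp h) (by
                have := (Pos.le_tt.mp h).length_le
                omega)
              rw [← this]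
              exact List.suffix_cons _ _
            · exfalso
              obtain ⟨m', hm', hm'l⟩ := drop_suffix_len (m := m) (n := n + 1) (by omega)
              refine hcon (pick hE (.t m')) ?_ m' rfl hm'l
              apply hdown w hw
              rw [hwp]
              exact hm'
      exact hcon _ this (0 :: l) rfl (by simp [hln])
  choose y hy l hl hln using hlev
  -- uniqueness of nodes at each level
  have huniq : ∀ x ∈ A, ∀ m : List ℕ, x.p = .t m → m = l m.length := by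
    intro x hx m hm
    have h1 := hcomp x hx (y m.length) (hy _)
    rw [hm, hl] at h1
    rcases h1 with h | h
    · exact List.IsSuffix.eq_of_length (Pos.le_tt.mp h) (by rw [hln])
    · exact (List.IsSuffix.eq_of_length (Pos.le_tt.mp h) (by rw [hln])).symm
  let f : ℕ → ℕ := fun n => (l (n + 1)).headD 0
  have hlf : ∀ n, l n = hist f n := by
    intro n
    induction n with
    | zero => exact List.length_eq_zero_iff.mp (hln 0)
    | succ n ih =>
      have h1 := hln (n + 1)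
      rcases h2 : l (n + 1) with _ | ⟨k, s⟩
      · rw [h2] at h1; simp at h1
      · have h3 : s.length = n := by rw [h2] at h1; simpa using h1
        have h4 : s = l n := by
          have := huniq (pick hE (.t s)) (by
            apply hdown (y (n + 1)) (hy _)
            rw [hl, h2]
            exact List.suffix_cons _ _) s rfl
          rw [h3] at this
          exact this
        have h5 : f n = k := by simp [f, h2]
        rw [hist, ← ih, h5, h4]
  refine ⟨f, ?_⟩
  ext x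
  constructor
  · intro hx
    show x.p ∈ br f
    rcases hp : x.p with (⟨i, c⟩ | m)
    · exact Or.inl ⟨i, c, rfl⟩
    · right
      refine ⟨m.length, ?_⟩
      rw [← hlf, ← huniq x hx m hp]
  · rintro (⟨i, c, hx⟩ | ⟨n, hx⟩)
    · exact hu x ⟨i, c, hx⟩
    · apply hdown (y n) (hy n)
      rw [hl, hx, hlf]

end Pool.Agent.H2.Rigid
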