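import Mathlib

set_option autoImplicit false

/-!
Definitions for `MP_d071c2_nt` (Shafarevich dimension of dynamical systems on projective space).
-/

namespace Pool.Agent.H2.Shaf

open MvPolynomial IsDedekindDomain

/-- An `(N+1)`-tuple of polynomials in `N+1` variables over `R`. -/
abbrev Tuple (N : ℕ) (R : Type) [CommRing R] : Type :=
  Fin (N + 1) → MvPolynomial (Fin (N + 1)) R

/-- `f = [f₀,…,f_N]` is a degree-`d` morphism `ℙ^N → ℙ^N` over the field `k`: every `fᵢ` is homogeneous of
degree `d` and the `fᵢ` have no common zero over an algebraic closure of `k`. -/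
def IsMorphism (N d : ℕ) {k : Type} [Field k] (f : Tuple N k) : Prop :=
  (∀ i, (f i).IsHomogeneous d) ∧
    ∀ x : Fin (N + 1) → AlgebraicClosure k, x ≠ 0 → ∃ i, aeval x (f i) ≠ 0

/-- The conjugate `f^φ = φ⁻¹ ∘ f ∘ φ` for `φ ∈ GL_{N+1}(k)`. -/
noncomputable def conj {N : ℕ} {k : Type} [Field k] (φ : GL (Fin (N + 1)) k) (f : Tuple N k) :
    Tuple N k :=
  fun i => ∑ j, C ((φ⁻¹).val i j) * bind₁ (fun a => ∑ b, C (φ.val a b) * X b) (f j)

/-- `f` (over `K`) reduces well with respect to the local ring `O ⊆ K`: after scaling by some `c ≠ 0` the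
coefficients of `f` lie in `O`, and the reduction modulo the maximal ideal is a degree-`d` morphism over
the residue field (in particular some coefficient is a unit). -/
def ReducesWell (N d : ℕ) (O K : Type) [CommRing O] [IsLocalRing O] [Field K] [Algebra O K]
    (f : Tuple N K) : Prop :=
  ∃ c : K, c ≠ 0 ∧ ∃ g : Tuple N O,
    (∀ i, MvPolynomial.map (algebraMap O K) (g i) = C c * f i) ∧
    IsMorphism N d (fun i => MvPolynomial.map (IsLocalRing.residue O) (g i))

section

variable {K : Type} [Field K] [NumberField K]

/-- Naive good reduction at the prime `v` of `K`: `f` reduces well with respect to the local ring at `v`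
(the valuation ring of the `v`-adic valuation of `K`). -/
def NaiveGoodReduction (N d : ℕ) (v : HeightOneSpectrum (NumberField.RingOfIntegers K))
    (f : Tuple N K) : Prop :=
  ReducesWell N d (v.valuation K).valuationSubring K f

/-- Good reduction at `v`: some `K`-conjugate has naive good reduction at `v`. -/
def GoodReduction (N d : ℕ) (v : HeightOneSpectrum (NumberField.RingOfIntegers K))
    (f : Tuple N K) : Prop :=
  ∃ φ : GL (Fin (N + 1)) K, NaiveGoodReduction N d v (conj φ f)

end

/-- Degree-`d` morphisms over the field `k`. -/
def End (N d : ℕ) (k : Type) [Field k] : Type := {f : Tuple N k // IsMorphism N d f}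

/-- The coefficients of a tuple. -/
noncomputable def coeffs {N : ℕ} {R : Type} [CommRing R] (f : Tuple N R) :
    Fin (N + 1) × (Fin (N + 1) →₀ ℕ) → R :=
  fun im => coeff im.2 (f im.1)

/-- The Zariski topology on `End N d k`: generated by the sets where a polynomial in the coefficients
does not vanish. -/
instance zariski (N d : ℕ) (k : Type) [Field k] : TopologicalSpace (End N d k) :=
  TopologicalSpace.generateFrom
    {U | ∃ P : MvPolynomial (Fin (N + 1) × (Fin (N + 1) →₀ ℕ)) k,
      U = {f : End N d k | eval (coeffs f.1) P ≠ 0}}

/-- Two tuples define conjugate endomorphisms of `ℙ^N`: they agree up to conjugation by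
`PGL_{N+1}(k)` and scaling of the homogeneous coordinates. -/
def Conjugate {N d : ℕ} {k : Type} [Field k] (f g : End N d k) : Prop :=
  ∃ (φ : GL (Fin (N + 1)) k) (c : k), c ≠ 0 ∧ ∀ i, g.1 i = C c * conj φ f.1 i

/-- The points of the moduli space `M_d^N = End_d^N / PGL_{N+1}` over an algebraically closed field `k`,
as a topological space with the quotient of the Zariski topology. -/
def Moduli (N d : ℕ) (k : Type) [Field k] : Type := Quot (Conjugate (N := N) (d := d) (k := k))

instance (N d : ℕ) (k : Type) [Field k] : TopologicalSpace (Moduli N d k) :=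
  inferInstanceAs (TopologicalSpace (Quot _))

/-- The set of points of `M_d^N` (over the algebraic closure of the number field `K`) that are classes of
morphisms defined over `K` with good reduction at all primes outside `S`. -/
def goodClasses (N d : ℕ) (K : Type) [Field K] [NumberField K]
    (S : Set (HeightOneSpectrum (NumberField.RingOfIntegers K))) :
    Set (Moduli N d (AlgebraicClosure K)) :=
  {m | ∃ f : Tuple N K, IsMorphism N d f ∧ (∀ v ∉ S, GoodReduction N d v f) ∧
    ∃ g : End N d (AlgebraicClosure K),
      (∀ i, g.1 i = MvPolynomial.map (algebraMap K (AlgebraicClosure K)) (f i)) ∧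
      m = Quot.mk _ g}

end Pool.Agent.H2.Shaf
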