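import Pool.Agent.H2.ShafFam

set_option autoImplicit false

namespace Pool.Agent.H2.Shaf

open MvPolynomial

section quart

variable {R : Type} [CommRing R]

noncomputable def exq (i : Fin 5) : Fin 2 →₀ ℕ :=
  Finsupp.single 0 (4 - (i : ℕ)) + Finsupp.single 1 (i : ℕ)

noncomputable def QQ (h : Fin 5 → R) : MvPolynomial (Fin 2) R := ∑ i, monomial (exq i) (h i)

theorem mon_eq (i : Fin 5) (c : R) : monomial (exq i) c = C c * (X 0 ^ (4 - (i : ℕ)) * X 1 ^ (i : ℕ)) := by
  rw [exq, X_pow_eq_monomial, X_pow_eq_monomial, monomial_mul, C_mul_monomial, mul_one, mul_one]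

theorem QQ_eq (h : Fin 5 → R) : QQ h = C (h 0) * X 0 ^ 4 + C (h 1) * (X 0 ^ 3 * X 1) +
    C (h 2) * (X 0 ^ 2 * X 1 ^ 2) + C (h 3) * (X 0 * X 1 ^ 3) + C (h 4) * X 1 ^ 4 := by
  rw [QQ, Fin.sum_univ_five]
  simp only [mon_eq]
  have e0 : ((0 : Fin 5) : ℕ) = 0 := rfl
  have e1 : ((1 : Fin 5) : ℕ) = 1 := rfl
  have e2 : ((2 : Fin 5) : ℕ) = 2 := rfl
  have e3 : ((3 : Fin 5) : ℕ) = 3 := rfl
  have e4 : ((4 : Fin 5) : ℕ) = 4 := rfl
  rw [e0, e1, e2, e3, e4]
  norm_num

theorem hom_QQ (h : Fin 5 → R) : (QQ h).IsHomogeneous 4 := by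
  apply IsHomogeneous.sum
  intro i _
  apply isHomogeneous_monomial
  rw [exq, map_add, Finsupp.degree_single, Finsupp.degree_single]
  omega

theorem hom_eq_QQ (f : MvPolynomial (Fin 2) R) (hf : f.IsHomogeneous 4) :
    f = QQ (fun i => coeff (exq i) f) := by
  ext m
  by_cases hm : m.degree = 4
  · have h01 : m 0 + m 1 = 4 := by
      have : m.degree = ∑ i, m i := Finsupp.degree_eq_sum m
      rw [this, Fin.sum_univ_two] at hm
      exact hm
    have hm1 : m 1 < 5 := by omega
    have hmeq : m = exq ⟨m 1, hm1⟩ := by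
      ext j
      fin_cases j
      · simp [exq]; omega
      · simp [exq]
    rw [QQ, coeff_sum, Finset.sum_eq_single (⟨m 1, hm1⟩ : Fin 5)]
    · rw [coeff_monomial, if_pos hmeq.symm, ← hmeq]
    · intro b _ hb
      rw [coeff_monomial, if_neg]
      intro hb'
      apply hb
      ext
      have := DFunLike.congr_fun hb' 1
      simpa [exq] using this
    · intro h; exact absurd (Finset.mem_univ _) h
  · rw [hf.coeff_eq_zero hm, (hom_QQ _).coeff_eq_zero hm]

theorem map_QQ {S : Type} [CommRing S] (φ : R →+* S) (h : Fin 5 → R) :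
    MvPolynomial.map φ (QQ h) = QQ (fun i => φ (h i)) := by
  simp [QQ]

def gg (α β c : R) : Fin 5 → R :=
  ![(α + β * c) ^ 3 * c - (α + β * c) * c ^ 3,
    (α + β * c) ^ 3 + 3 * (α + β * c) ^ 2 * β * c - 3 * (α + β * c) * c ^ 2 - β * c ^ 3,
    3 * (α + β * c) ^ 2 * β + 3 * (α + β * c) * β ^ 2 * c - 3 * (α + β * c) * c - 3 * β * c ^ 2,
    3 * (α + β * c) * β ^ 2 + β ^ 3 * c - (α + β * c) - 3 * β * c,
    β ^ 3 - β]

theorem GG_eq (p : Fin 10 → R) : GG p = QQ (gg (p 6) (p 7) (p 8)) := by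
  rw [QQ_eq]
  simp only [GG, XX, YY, gg, Matrix.cons_val_zero, Matrix.cons_val_one, Matrix.cons_val,
    map_add, map_mul, map_sub, map_pow, map_ofNat]
  ring

theorem FF_eq (p : Fin 10 → R) : FF p = bind₁ ![XX p, YY p]
    (QQ ![p 0, p 4, p 2 + p 3 - p 0 - p 1, p 2 - p 3 - p 4, p 1]) := by
  rw [QQ_eq]
  simp [FF]

end quart

theorem eval_univ {N : ℕ} {τ : Type} {k : Type} [Field k] (f : Tuple N (MvPolynomial τ k)) (x : τ → k)
    (P : MvPolynomial (Fin (N + 1) × (Fin (N + 1) →₀ ℕ)) k) :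
    eval x (aeval (coeffs f) P) = eval (coeffs (fun i => MvPolynomial.map (eval x) (f i))) P := by
  induction P using MvPolynomial.induction_on with
  | C a => simp [algebraMap_eq]
  | add p q hp hq => rw [map_add, map_add, hp, hq, map_add]
  | mul_X p j hp =>
    rw [map_mul, map_mul, aeval_X, map_mul, hp, eval_X]
    simp [coeffs, coeff_map]

section field

variable {k : Type} [Field k] [CharZero k]

theorem exists_param (F : Fin 5 → k) (w α β c s : k) (hα : α ≠ 0) :
    ∃ p : Fin 10 → k, fam p = ![QQ F, QQ (fun i => w * gg α β c i + s * F i)] := by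
  set G : MvPolynomial (Fin 2) k := bind₁ ![C α⁻¹ * (X 0 - C β * X 1),
    X 1 - C c * (C α⁻¹ * (X 0 - C β * X 1))] (QQ F) with hG
  have h0 : (X 0 : MvPolynomial (Fin 2) k).IsHomogeneous 1 := isHomogeneous_X _ _
  have h1 : (X 1 : MvPolynomial (Fin 2) k).IsHomogeneous 1 := isHomogeneous_X _ _
  have ha : (C α⁻¹ * (X 0 - C β * X 1) : MvPolynomial (Fin 2) k).IsHomogeneous 1 :=
    (h0.sub (h1.C_mul _)).C_mul _
  have hb : (X 1 - C c * (C α⁻¹ * (X 0 - C β * X 1)) : MvPolynomial (Fin 2) k).IsHomogeneous 1 :=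
    h1.sub (ha.C_mul _)
  have hhom : G.IsHomogeneous 4 := by
    rw [hG, QQ_eq]
    simp only [map_add, map_mul, map_pow, bind₁_X_right, bind₁_C_right, Matrix.cons_val_zero,
      Matrix.cons_val_one]
    have a4 := ha.pow 4
    have a3 := (ha.pow 3).mul hb
    have a2 := (ha.pow 2).mul (hb.pow 2)
    have a1 := ha.mul (hb.pow 3)
    have a0 := hb.pow 4
    norm_num at a4 a3 a2 a1 a0
    exact ((((a4.C_mul _).add (a3.C_mul _)).add (a2.C_mul _)).add (a1.C_mul _)).add (a0.C_mul _)
  set f' : Fin 5 → k := fun i => coeff (exq i) G with hf'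
  have hGQ : G = QQ f' := hom_eq_QQ G hhom
  set p : Fin 10 → k := ![f' 0, f' 4, (f' 0 + f' 1 + f' 2 + f' 3 + f' 4) / 2,
    (f' 0 - f' 1 + f' 2 - f' 3 + f' 4) / 2, f' 1, w, α, β, c, s] with hp
  have p0 : p 0 = f' 0 := rfl
  have p1 : p 1 = f' 4 := rfl
  have p2 : p 2 = (f' 0 + f' 1 + f' 2 + f' 3 + f' 4) / 2 := rfl
  have p3 : p 3 = (f' 0 - f' 1 + f' 2 - f' 3 + f' 4) / 2 := rfl
  have p4 : p 4 = f' 1 := rfl
  have p5 : p 5 = w := rfl
  have p6 : p 6 = α := rfl
  have p7 : p 7 = β := rfl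
  have p8 : p 8 = c := rfl
  have p9 : p 9 = s := rfl
  have hF : FF p = QQ F := by
    rw [FF_eq]
    have : (![p 0, p 4, p 2 + p 3 - p 0 - p 1, p 2 - p 3 - p 4, p 1] : Fin 5 → k) = f' := by
      funext i
      fin_cases i
      · exact p0
      · exact p4
      · show p 2 + p 3 - p 0 - p 1 = f' 2
        rw [p0, p1, p2, p3]; ring
      · show p 2 - p 3 - p 4 = f' 3
        rw [p2, p3, p4]; ring
      · exact p1
    rw [this, ← hGQ, hG, bind₁_bind₁]
    have hid : (fun i => bind₁ ![XX p, YY p] ((![C α⁻¹ * (X 0 - C β * X 1),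
        X 1 - C c * (C α⁻¹ * (X 0 - C β * X 1))] : Fin 2 → MvPolynomial (Fin 2) k) i)) = X := by
      have hx : C α⁻¹ * (XX p - C β * YY p) = (X 0 : MvPolynomial (Fin 2) k) := by
        have : (C α⁻¹ : MvPolynomial (Fin 2) k) * C α = 1 := by
          rw [← C_mul, inv_mul_cancel₀ hα, C_1]
        simp only [XX, YY, p6, p7, p8]
        linear_combination (X 0 : MvPolynomial (Fin 2) k) * this
      funext i
      fin_cases i
      · simpa using hx
      · have : bind₁ ![XX p, YY p] (X 1 - C c * (C α⁻¹ * (X 0 - C β * X 1))) = X 1 := by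
          simp only [map_sub, map_mul, bind₁_X_right, bind₁_C_right, Matrix.cons_val_zero,
            Matrix.cons_val_one]
          rw [hx]
          simp [YY, p8]
        exact this
    rw [hid]
    simp
  refine ⟨p, ?_⟩
  funext i
  fin_cases i
  · exact hF
  · show C (p 5) * GG p + C (p 9) * FF p = QQ (fun i => w * gg α β c i + s * F i)
    rw [hF, GG_eq, p5, p6, p7, p8, p9]
    simp only [QQ_eq, map_add, map_mul]
    ring

theorem vanish_step1 (P : MvPolynomial (Fin 2 × (Fin 2 →₀ ℕ)) k)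
    (hP : ∀ p : Fin 10 → k, eval (coeffs (fam p)) P = 0) (F : Fin 5 → k) (w α β c s : k)
    (hα : α ≠ 0) :
    eval (coeffs (![QQ F, QQ (fun i => w * gg α β c i + s * F i)] : Tuple 1 k)) P = 0 := by
  obtain ⟨p, hp⟩ := exists_param F w α β c s hα
  rw [← hp]
  exact hP p

noncomputable def Psi (F : Fin 5 → k) : Fin 5 → MvPolynomial (Fin 5) k :=
  fun i => X 0 * gg (X 1) (X 2) (X 3) i + X 4 * C (F i)

theorem gg_eval (θ : Fin 5 → k) (i : Fin 5) :
    eval θ (gg (X 1 : MvPolynomial (Fin 5) k) (X 2) (X 3) i) = gg (θ 1) (θ 2) (θ 3) i := by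
  fin_cases i <;> simp [gg]

theorem jac_det (F : Fin 5 → k) (hF : 3 * F 0 + F 2 + 3 * F 4 ≠ 0) :
    (Matrix.of fun i j => pderiv i (Psi F j)).det ≠ 0 := by
  intro h
  have h1 := congrArg (eval (![1, 1, 0, 0, 0] : Fin 5 → k)) h
  rw [map_zero, RingHom.map_det] at h1
  have h2 : (RingHom.mapMatrix (eval (![1, 1, 0, 0, 0] : Fin 5 → k)))
      (Matrix.of fun i j => pderiv i (Psi F j)) =
      !![0, 1, 0, -1, 0; 0, 3, 0, -1, 0; 0, 0, 3, 0, -1; 1, 0, -3, 0, 0;
        F 0, F 1, F 2, F 3, F 4] := by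
    ext i j
    fin_cases i <;> fin_cases j <;>
      simp [Psi, gg, pderiv_X, Derivation.leibniz, Derivation.leibniz_pow] <;> norm_num
  rw [h2] at h1
  apply hF
  simp [Matrix.det_succ_row_zero, Fin.sum_univ_succ, Fin.succAbove] at h1
  linear_combination (1 / 2 : k) * h1

theorem vanish_step2 (P : MvPolynomial (Fin 2 × (Fin 2 →₀ ℕ)) k)
    (hP : ∀ p : Fin 10 → k, eval (coeffs (fam p)) P = 0) (F : Fin 5 → k)
    (hF : 3 * F 0 + F 2 + 3 * F 4 ≠ 0) (H : Fin 5 → k) :
    eval (coeffs (![QQ F, QQ H] : Tuple 1 k)) P = 0 := by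
  set gen : Tuple 1 (MvPolynomial (Fin 5) k) := ![QQ (fun i => C (F i)), QQ (fun i => X i)] with hgen
  have hev : ∀ x : Fin 5 → k, eval x (aeval (coeffs gen) P) =
      eval (coeffs (![QQ F, QQ x] : Tuple 1 k)) P := by
    intro x
    rw [eval_univ]
    congr 2
    funext im
    simp only [coeffs]
    congr 1
    have : ∀ i : Fin 2, MvPolynomial.map (eval x) (gen i) = (![QQ F, QQ x] : Tuple 1 k) i := by
      intro i
      fin_cases i
      · simp [hgen, map_QQ]
      · simp [hgen, map_QQ]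
    exact this im.1
  have hzero : aeval (Psi F) (aeval (coeffs gen) P) = 0 := by
    have hmul : X 1 * aeval (Psi F) (aeval (coeffs gen) P) = 0 := by
      apply MvPolynomial.funext
      intro θ
      rw [map_mul, map_zero, eval_X]
      by_cases hθ : θ 1 = 0
      · rw [hθ, zero_mul]
      · have h1 : eval θ (aeval (Psi F) (aeval (coeffs gen) P)) =
            eval (fun i => eval θ (Psi F i)) (aeval (coeffs gen) P) := by
          induction (aeval (coeffs gen) P) using MvPolynomial.induction_on with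
          | C a => simp [algebraMap_eq]
          | add p q hp hq => rw [map_add, map_add, hp, hq, map_add]
          | mul_X p j hp => rw [map_mul, map_mul, aeval_X, map_mul, hp, eval_X]
        rw [h1, hev]
        have h2 : (fun i => eval θ (Psi F i)) =
            (fun i => θ 0 * gg (θ 1) (θ 2) (θ 3) i + θ 4 * F i) := by
          funext i
          rw [Psi, map_add, map_mul, map_mul, gg_eval, eval_X, eval_X, eval_C]
        rw [h2, vanish_step1 P hP F _ _ _ _ _ hθ, mul_zero]
    rcases mul_eq_zero.1 hmul with h | h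
    · exact absurd h (X_ne_zero 1)
    · exact h
  have hPF := jacobian_dominant (Psi F) (jac_det F hF) _ _ le_rfl hzero
  rw [← hev H, hPF, map_zero]

theorem vanish_step3 (P : MvPolynomial (Fin 2 × (Fin 2 →₀ ℕ)) k)
    (hP : ∀ p : Fin 10 → k, eval (coeffs (fam p)) P = 0) (F H : Fin 5 → k) :
    eval (coeffs (![QQ F, QQ H] : Tuple 1 k)) P = 0 := by
  set gen : Tuple 1 (MvPolynomial (Fin 1) k) :=
    ![QQ ![C (F 0) + X 0, C (F 1), C (F 2), C (F 3), C (F 4)], QQ (fun i => C (H i))] with hgen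
  have hev : ∀ x : Fin 1 → k, eval x (aeval (coeffs gen) P) =
      eval (coeffs (![QQ ![F 0 + x 0, F 1, F 2, F 3, F 4], QQ H] : Tuple 1 k)) P := by
    intro x
    rw [eval_univ]
    congr 2
    funext im
    simp only [coeffs]
    congr 1
    have : ∀ i : Fin 2, MvPolynomial.map (eval x) (gen i) =
        (![QQ ![F 0 + x 0, F 1, F 2, F 3, F 4], QQ H] : Tuple 1 k) i := by
      intro i
      fin_cases i
      · show MvPolynomial.map (eval x) (QQ ![C (F 0) + X 0, C (F 1), C (F 2), C (F 3), C (F 4)]) =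
          QQ ![F 0 + x 0, F 1, F 2, F 3, F 4]
        rw [map_QQ]
        congr 1
        funext j
        fin_cases j <;> simp
      · simp [hgen, map_QQ]
    exact this im.1
  have hmul : (C (3 * F 0 + F 2 + 3 * F 4) + C 3 * X 0) * aeval (coeffs gen) P = 0 := by
    apply MvPolynomial.funext
    intro x
    rw [map_mul, map_zero, hev]
    by_cases hx : 3 * (F 0 + x 0) + F 2 + 3 * F 4 = 0
    · have : eval x (C (3 * F 0 + F 2 + 3 * F 4) + C 3 * X 0) = 0 := by
        rw [map_add, map_mul, eval_C, eval_C, eval_X]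
        linear_combination hx
      rw [this, zero_mul]
    · rw [vanish_step2 P hP (![F 0 + x 0, F 1, F 2, F 3, F 4]) hx H, mul_zero]
  have hne : (C (3 * F 0 + F 2 + 3 * F 4) + C 3 * X 0 : MvPolynomial (Fin 1) k) ≠ 0 := by
    intro h
    have h1 := congrArg (eval (fun _ => (1 - (3 * F 0 + F 2 + 3 * F 4)) / 3)) h
    rw [map_add, map_mul, eval_C, eval_C, eval_X, map_zero] at h1
    have h3 : (3 : k) ≠ 0 := by norm_num
    field_simp at h1
    norm_num at h1
  have hz : aeval (coeffs gen) P = 0 := (mul_eq_zero.1 hmul).resolve_left hne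
  have h5 : (![F 0, F 1, F 2, F 3, F 4] : Fin 5 → k) = F := by
    funext j
    fin_cases j <;> rfl
  have := hev (fun _ => 0)
  rw [hz, map_zero, add_zero, h5] at this
  exact this.symm

/-- A polynomial in the coefficients vanishing on the whole family vanishes on all pairs of quartics. -/
theorem vanish_all (P : MvPolynomial (Fin 2 × (Fin 2 →₀ ℕ)) k)
    (hP : ∀ p : Fin 10 → k, eval (coeffs (fam p)) P = 0) (f : Tuple 1 k)
    (hf : ∀ i, (f i).IsHomogeneous 4) : eval (coeffs f) P = 0 := by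
  have h : f = ![QQ (fun i => coeff (exq i) (f 0)), QQ (fun i => coeff (exq i) (f 1))] := by
    funext i
    fin_cases i
    · exact hom_eq_QQ (f 0) (hf 0)
    · exact hom_eq_QQ (f 1) (hf 1)
  rw [h]
  exact vanish_step3 P hP _ _

/-- It is enough to vanish on the members with integral parameters, the first ones powers of two. -/
theorem vanish_int (P : MvPolynomial (Fin 2 × (Fin 2 →₀ ℕ)) k)
    (hP : ∀ p : Fin 10 → ℤ, (∀ j ∈ ({0, 1, 2, 3, 5, 6} : Finset (Fin 10)), ∃ e : ℕ, p j = 2 ^ e) →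
      eval (coeffs (fam (fun j => (p j : k)))) P = 0) (p : Fin 10 → k) :
    eval (coeffs (fam p)) P = 0 := by
  classical
  have hev : ∀ x : Fin 10 → k, eval x (aeval (coeffs (fam (X : Fin 10 → MvPolynomial (Fin 10) k))) P) =
      eval (coeffs (fam x)) P := by
    intro x
    rw [eval_univ]
    congr 2
    funext im
    simp only [coeffs]
    congr 1
    rw [map_fam]
    simp
  have hz : aeval (coeffs (fam (X : Fin 10 → MvPolynomial (Fin 10) k))) P = 0 := by
    apply MvPolynomial.funext_set (fun j : Fin 10 =>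
      if j ∈ ({0, 1, 2, 3, 5, 6} : Finset (Fin 10)) then Set.range (fun e : ℕ => (2 : k) ^ e)
      else Set.range (fun n : ℤ => (n : k)))
    · intro j
      split_ifs
      · apply Set.infinite_range_of_injective
        intro a b hab
        have : ((2 ^ a : ℕ) : k) = ((2 ^ b : ℕ) : k) := by push_cast; exact hab
        exact Nat.pow_right_injective le_rfl (Nat.cast_injective this)
      · exact Set.infinite_range_of_injective Int.cast_injective
    · intro x hx
      rw [map_zero, hev]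
      have hx' : ∀ j, ∃ n : ℤ, (n : k) = x j ∧
          (j ∈ ({0, 1, 2, 3, 5, 6} : Finset (Fin 10)) → ∃ e : ℕ, n = 2 ^ e) := by
        intro j
        have := hx j (Set.mem_univ j)
        by_cases hj : j ∈ ({0, 1, 2, 3, 5, 6} : Finset (Fin 10))
        · simp only [hj, if_true] at this
          obtain ⟨e, he⟩ := this
          exact ⟨2 ^ e, by push_cast; exact he, fun _ => ⟨e, rfl⟩⟩
        · simp only [hj, if_false] at this
          obtain ⟨n, hn⟩ := this
          exact ⟨n, hn, fun h => absurd h hj⟩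
      choose n hn1 hn2 using hx'
      have hxn : x = fun j => (n j : k) := by
        funext j
        exact (hn1 j).symm
      rw [hxn]
      exact hP n hn2
  rw [← hev p, hz, map_zero]

end field

end Pool.Agent.H2.Shaf
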