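import Mathlib

set_option autoImplicit false

/-!
Jacobian criterion for polynomial maps in characteristic zero (square case).
-/

namespace Pool.Agent.H2.Shaf

open MvPolynomial

variable {k : Type} [Field k]

theorem coeff_pderiv' {σ : Type} [DecidableEq σ] (i : σ) (P : MvPolynomial σ k) (m : σ →₀ ℕ) :
    coeff m (pderiv i P) = coeff (m + Finsupp.single i 1) P * ((m i : k) + 1) := by
  induction P using MvPolynomial.induction_on' with
  | monomial s a =>
    rw [pderiv_monomial, coeff_monomial, coeff_monomial]
    by_cases h : s = m + Finsupp.single i 1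
    · subst h
      simp
    · rw [if_neg h]
      split_ifs with h2
      · have hs : s i = 0 := by
          by_contra hs
          apply h
          ext j
          have hj := DFunLike.congr_fun h2 j
          simp only [Finsupp.coe_tsub, Pi.sub_apply] at hj
          by_cases hij : j = i
          · subst hij
            simp only [Finsupp.single_eq_same, Finsupp.coe_add, Pi.add_apply] at hj ⊢
            omega
          · simp only [Finsupp.coe_add, Pi.add_apply,
              Finsupp.single_eq_of_ne hij, Nat.sub_zero, Nat.add_zero] at hj ⊢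
            exact hj
        simp [hs]
      · simp
  | add p q hp hq =>
    rw [map_add, coeff_add, coeff_add, hp, hq]
    ring

theorem totalDegree_pderiv_le' {σ : Type} [DecidableEq σ] (i : σ) (P : MvPolynomial σ k) (N : ℕ)
    (h : P.totalDegree ≤ N + 1) : (pderiv i P).totalDegree ≤ N := by
  rw [totalDegree]
  apply Finset.sup_le
  intro m hm
  rw [mem_support_iff, coeff_pderiv'] at hm
  have h1 : coeff (m + Finsupp.single i 1) P ≠ 0 := left_ne_zero_of_mul hm
  have h2 : ((m + Finsupp.single i 1).sum fun _ e => e) ≤ P.totalDegree :=
    le_totalDegree (mem_support_iff.2 h1)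
  rw [Finsupp.sum_add_index' (fun _ => rfl) (fun _ _ _ => rfl),
    Finsupp.sum_single_index rfl] at h2
  omega

/-- Chain rule. -/
theorem pderiv_aeval' {σ τ : Type} [Fintype σ] (Ψ : σ → MvPolynomial τ k)
    (i : τ) (P : MvPolynomial σ k) :
    pderiv i (aeval Ψ P) = ∑ j, pderiv i (Ψ j) * aeval Ψ (pderiv j P) := by
  classical
  induction P using MvPolynomial.induction_on with
  | C a => simp
  | add p q hp hq =>
    simp only [map_add, hp, hq, mul_add, Finset.sum_add_distrib]
  | mul_X p j hp =>
    simp only [map_mul, aeval_X, Derivation.leibniz, smul_eq_mul, hp, map_add, pderiv_X, mul_add,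
      Finset.sum_add_distrib, Finset.mul_sum]
    congr 1
    · rw [Finset.sum_eq_single j]
      · simp; ring
      · intro b _ hb
        simp [Pi.single_eq_of_ne (Ne.symm hb)]
      · intro h; exact absurd (Finset.mem_univ j) h
    · apply Finset.sum_congr rfl
      intro b _
      ring

/-- If the Jacobian determinant of a square polynomial map is nonzero, then the map is dominant. -/
theorem jacobian_dominant [CharZero k] {n : ℕ} (Ψ : Fin n → MvPolynomial (Fin n) k)
    (hdet : (Matrix.of fun i j => pderiv i (Ψ j)).det ≠ 0) :
    ∀ (N : ℕ) (P : MvPolynomial (Fin n) k), P.totalDegree ≤ N → aeval Ψ P = 0 → P = 0 := by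
  intro N
  induction N with
  | zero =>
    intro P hP h
    have h0 : P = C (coeff 0 P) := totalDegree_eq_zero_iff_eq_C.1 (Nat.le_zero.1 hP)
    rw [h0, aeval_C] at h
    rw [h0]
    have : (C (coeff 0 P) : MvPolynomial (Fin n) k) = 0 := h
    exact this
  | succ N ih =>
    intro P hP h
    have hv : (Matrix.of fun i j => pderiv i (Ψ j)).mulVec (fun j => aeval Ψ (pderiv j P)) = 0 := by
      funext i
      have := pderiv_aeval' Ψ i P
      rw [h, map_zero] at this
      simpa [Matrix.mulVec, dotProduct] using this.symm
    have hz := Matrix.eq_zero_of_mulVec_eq_zero hdet hv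
    have hp : ∀ j, pderiv j P = 0 := fun j =>
      ih _ (totalDegree_pderiv_le' j P N hP) (congrFun hz j)
    have hC : P.totalDegree ≤ 0 := by
      rw [totalDegree]
      apply Finset.sup_le
      intro m hm
      by_contra hne
      have hm0 : m ≠ 0 := by
        rintro rfl
        exact hne (by simp)
      obtain ⟨j, hj⟩ := Finsupp.ne_iff.1 hm0
      have hj' : 1 ≤ m j := Nat.one_le_iff_ne_zero.2 hj
      have hc := coeff_pderiv' j P (m - Finsupp.single j 1)
      rw [hp j, coeff_zero] at hc
      have hm1 : m - Finsupp.single j 1 + Finsupp.single j 1 = m := by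
        apply tsub_add_cancel_of_le
        rw [Finsupp.single_le_iff]
        exact hj'
      rw [hm1] at hc
      have hcast : (((m - Finsupp.single j 1 : Fin n →₀ ℕ) j : ℕ) : k) + 1 ≠ 0 := by
        exact Nat.cast_add_one_ne_zero _
      exact (mul_ne_zero (mem_support_iff.1 hm) hcast) hc.symm
    exact ih P (hC.trans (Nat.zero_le _)) h

end Pool.Agent.H2.Shaf
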