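import Pool.Agent.H2.ShafDefs
import Pool.Agent.H2.ShafJac

set_option autoImplicit false

namespace Pool.Agent.H2.Shaf

open MvPolynomial IsDedekindDomain

section family

variable {R : Type} [CommRing R]

noncomputable def XX (p : Fin 10 → R) : MvPolynomial (Fin 2) R :=
  C (p 6) * X 0 + C (p 7) * (C (p 8) * X 0 + X 1)

noncomputable def YY (p : Fin 10 → R) : MvPolynomial (Fin 2) R := C (p 8) * X 0 + X 1

noncomputable def FF (p : Fin 10 → R) : MvPolynomial (Fin 2) R :=
  C (p 0) * XX p ^ 4 + C (p 4) * (XX p ^ 3 * YY p) +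
    C (p 2 + p 3 - p 0 - p 1) * (XX p ^ 2 * YY p ^ 2) +
    C (p 2 - p 3 - p 4) * (XX p * YY p ^ 3) + C (p 1) * YY p ^ 4

noncomputable def GG (p : Fin 10 → R) : MvPolynomial (Fin 2) R :=
  XX p ^ 3 * YY p - XX p * YY p ^ 3

noncomputable def fam (p : Fin 10 → R) : Tuple 1 R :=
  ![FF p, C (p 5) * GG p + C (p 9) * FF p]

theorem map_fam {S : Type} [CommRing S] (φ : R →+* S) (p : Fin 10 → R) (i : Fin 2) :
    MvPolynomial.map φ (fam p i) = fam (fun j => φ (p j)) i := by
  fin_cases i <;> simp [fam, FF, GG, XX, YY]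

theorem homXX (p : Fin 10 → R) : (XX p).IsHomogeneous 1 := by
  have h0 : (X 0 : MvPolynomial (Fin 2) R).IsHomogeneous 1 := isHomogeneous_X _ _
  have h1 : (X 1 : MvPolynomial (Fin 2) R).IsHomogeneous 1 := isHomogeneous_X _ _
  exact (h0.C_mul _).add (((h0.C_mul _).add h1).C_mul _)

theorem homYY (p : Fin 10 → R) : (YY p).IsHomogeneous 1 := by
  have h0 : (X 0 : MvPolynomial (Fin 2) R).IsHomogeneous 1 := isHomogeneous_X _ _
  have h1 : (X 1 : MvPolynomial (Fin 2) R).IsHomogeneous 1 := isHomogeneous_X _ _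
  exact (h0.C_mul _).add h1

theorem homFF (p : Fin 10 → R) : (FF p).IsHomogeneous 4 := by
  have hx := homXX p
  have hy := homYY p
  have a4 : (XX p ^ 4).IsHomogeneous 4 := by simpa using hx.pow 4
  have a3 : (XX p ^ 3 * YY p).IsHomogeneous 4 := by simpa using (hx.pow 3).mul hy
  have a2 : (XX p ^ 2 * YY p ^ 2).IsHomogeneous 4 := by simpa using (hx.pow 2).mul (hy.pow 2)
  have a1 : (XX p * YY p ^ 3).IsHomogeneous 4 := by simpa using hx.mul (hy.pow 3)
  have a0 : (YY p ^ 4).IsHomogeneous 4 := by simpa using hy.pow 4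
  exact ((((a4.C_mul _).add (a3.C_mul _)).add (a2.C_mul _)).add (a1.C_mul _)).add (a0.C_mul _)

theorem homGG (p : Fin 10 → R) : (GG p).IsHomogeneous 4 := by
  have hx := homXX p
  have hy := homYY p
  have a3 : (XX p ^ 3 * YY p).IsHomogeneous 4 := by simpa using (hx.pow 3).mul hy
  have a1 : (XX p * YY p ^ 3).IsHomogeneous 4 := by simpa using hx.mul (hy.pow 3)
  exact a3.sub a1

theorem hom_fam (p : Fin 10 → R) (i : Fin 2) : (fam p i).IsHomogeneous 4 := by
  fin_cases i
  · exact homFF p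
  · exact ((homGG p).C_mul _).add ((homFF p).C_mul _)

end family

theorem fam_isMorphism {k : Type} [Field k] (p : Fin 10 → k) (h2 : (2 : k) ≠ 0)
    (h0 : p 0 ≠ 0) (h1 : p 1 ≠ 0) (ht2 : p 2 ≠ 0) (ht3 : p 3 ≠ 0) (h5 : p 5 ≠ 0) (h6 : p 6 ≠ 0) :
    IsMorphism 1 4 (fam p) := by
  refine ⟨hom_fam p, ?_⟩
  intro x hx
  by_contra hcon
  push Not at hcon
  apply hx
  have e0 := hcon 0
  have e1 := hcon 1
  set q : Fin 10 → AlgebraicClosure k := fun j => algebraMap k _ (p j) with hq
  have inj : ∀ j, p j ≠ 0 → q j ≠ 0 := fun j hj => by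
    simpa [hq] using hj
  have q0 := inj 0 h0
  have q1 := inj 1 h1
  have q2 := inj 2 ht2
  have q3 := inj 3 ht3
  have q5 := inj 5 h5
  have q6 := inj 6 h6
  have h2' : (2 : AlgebraicClosure k) ≠ 0 := by
    have := (map_ne_zero (algebraMap k (AlgebraicClosure k))).2 h2
    rwa [map_ofNat] at this
  set A := q 6 * x 0 + q 7 * (q 8 * x 0 + x 1) with hA
  set B := q 8 * x 0 + x 1 with hB
  have f0 : q 0 * A ^ 4 + q 4 * (A ^ 3 * B) + (q 2 + q 3 - q 0 - q 1) * (A ^ 2 * B ^ 2) +
      (q 2 - q 3 - q 4) * (A * B ^ 3) + q 1 * B ^ 4 = 0 := by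
    simpa [fam, FF, XX, YY, hA, hB, hq] using e0
  have f1 : q 5 * (A ^ 3 * B - A * B ^ 3) + q 9 * (q 0 * A ^ 4 + q 4 * (A ^ 3 * B) +
      (q 2 + q 3 - q 0 - q 1) * (A ^ 2 * B ^ 2) +
      (q 2 - q 3 - q 4) * (A * B ^ 3) + q 1 * B ^ 4) = 0 := by
    simpa [fam, FF, GG, XX, YY, hA, hB, hq] using e1
  rw [f0, mul_zero, add_zero] at f1
  have g1 : A * B * (A - B) * (A + B) = 0 := by
    rcases mul_eq_zero.1 f1 with h | h
    · exact absurd h q5
    · linear_combination h
  have hAB : A = 0 ∧ B = 0 := by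
    rcases mul_eq_zero.1 g1 with h | h
    · rcases mul_eq_zero.1 h with h | h
      · rcases mul_eq_zero.1 h with h | h
        · rw [h] at f0
          have : q 1 * B ^ 4 = 0 := by linear_combination f0
          rcases mul_eq_zero.1 this with h' | h'
          · exact absurd h' q1
          · exact ⟨h, pow_eq_zero_iff (by norm_num) |>.1 h'⟩
        · rw [h] at f0
          have : q 0 * A ^ 4 = 0 := by linear_combination f0
          rcases mul_eq_zero.1 this with h' | h'
          · exact absurd h' q0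
          · exact ⟨pow_eq_zero_iff (by norm_num) |>.1 h', h⟩
      · have hh : A = B := sub_eq_zero.1 h
        rw [hh] at f0
        have : 2 * q 2 * B ^ 4 = 0 := by linear_combination f0
        rcases mul_eq_zero.1 this with h' | h'
        · exact absurd h' (mul_ne_zero h2' q2)
        · have := pow_eq_zero_iff (by norm_num) |>.1 h'
          exact ⟨hh.trans this, this⟩
    · have hh : A = -B := eq_neg_of_add_eq_zero_left h
      rw [hh] at f0
      have : 2 * q 3 * B ^ 4 = 0 := by linear_combination f0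
      rcases mul_eq_zero.1 this with h' | h'
      · exact absurd h' (mul_ne_zero h2' q3)
      · have := pow_eq_zero_iff (by norm_num) |>.1 h'
        exact ⟨by rw [hh, this, neg_zero], this⟩
  obtain ⟨hA0, hB0⟩ := hAB
  have hx0 : x 0 = 0 := by
    rw [hA, hB0, mul_zero, add_zero] at hA0
    rcases mul_eq_zero.1 hA0 with h | h
    · exact absurd h q6
    · exact h
  have hx1 : x 1 = 0 := by
    rw [hB, hx0, mul_zero, zero_add] at hB0
    exact hB0
  funext i
  fin_cases i
  · exact hx0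
  · exact hx1

end Pool.Agent.H2.Shaf
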