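import Pool.Agent.H2.ShafFam

set_option autoImplicit false

namespace Pool.Agent.H2.Shaf

open MvPolynomial IsDedekindDomain

theorem conj_one {N : ℕ} {k : Type} [Field k] (f : Tuple N k) : conj 1 f = f := by
  funext i
  have h1 : (fun a : Fin (N + 1) => ∑ b, C ((1 : GL (Fin (N + 1)) k).val a b) * X b) =
      (X : Fin (N + 1) → MvPolynomial (Fin (N + 1)) k) := by
    funext a
    simp [Matrix.one_apply]
  unfold conj
  rw [h1]
  simp [Matrix.one_apply, bind₁_X_left]

theorem fam_good {K : Type} [Field K] [NumberField K]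
    (v : HeightOneSpectrum (NumberField.RingOfIntegers K))
    (hv : ¬ v.asIdeal ∣ Ideal.span {(2 : NumberField.RingOfIntegers K)}) (p : Fin 10 → ℤ)
    (hp : ∀ j ∈ ({0, 1, 2, 3, 5, 6} : Finset (Fin 10)), ∃ e : ℕ, p j = 2 ^ e) :
    GoodReduction 1 4 v (fam (fun j => (p j : K))) := by
  refine ⟨1, 1, one_ne_zero, fam (fun j => ((p j : ℤ) : (v.valuation K).valuationSubring)), ?_, ?_⟩
  · intro i
    rw [conj_one, map_one, one_mul]
    rw [map_fam]
    simp
  · have hval : v.valuation K (2 : K) = 1 := by
      have h1 : v.valuation K (algebraMap (NumberField.RingOfIntegers K) K 2) ≤ 1 :=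
        HeightOneSpectrum.valuation_le_one v _
      have h2 : ¬ v.valuation K (algebraMap (NumberField.RingOfIntegers K) K 2) < 1 :=
        (HeightOneSpectrum.valuation_lt_one_iff_dvd v (K := K)
          (2 : NumberField.RingOfIntegers K)).not.2 hv
      rw [map_ofNat] at h1 h2
      exact le_antisymm h1 (not_lt.1 h2)
    have hunit : IsUnit (2 : (v.valuation K).valuationSubring) := by
      have hmem : (2 : K)⁻¹ ∈ (v.valuation K).valuationSubring := by
        rw [Valuation.mem_valuationSubring_iff, map_inv₀, hval, inv_one]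
      refine IsUnit.of_mul_eq_one ⟨(2 : K)⁻¹, hmem⟩ ?_
      apply Subtype.ext
      have h2K : (2 : K) ≠ 0 := by norm_num
      have hc : ((2 : (v.valuation K).valuationSubring) : K) = 2 :=
        map_ofNat (algebraMap (v.valuation K).valuationSubring K) 2
      change ((2 : (v.valuation K).valuationSubring) : K) * (2 : K)⁻¹ = 1
      rw [hc]
      exact mul_inv_cancel₀ h2K
    have h2 : (2 : IsLocalRing.ResidueField (v.valuation K).valuationSubring) ≠ 0 := by
      have := (IsLocalRing.residue_ne_zero_iff_isUnit (2 : (v.valuation K).valuationSubring)).2 hunit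
      rwa [map_ofNat] at this
    have hfun : (fun i => MvPolynomial.map (IsLocalRing.residue (v.valuation K).valuationSubring)
        (fam (fun j => ((p j : ℤ) : (v.valuation K).valuationSubring)) i)) =
        fam (fun j => ((p j : ℤ) : IsLocalRing.ResidueField (v.valuation K).valuationSubring)) := by
      funext i
      rw [map_fam]
      simp
    rw [hfun]
    have hne : ∀ j ∈ ({0, 1, 2, 3, 5, 6} : Finset (Fin 10)),
        ((p j : ℤ) : IsLocalRing.ResidueField (v.valuation K).valuationSubring) ≠ 0 := by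
      intro j hj
      obtain ⟨e, he⟩ := hp j hj
      rw [he]
      push_cast
      exact pow_ne_zero _ h2
    exact fam_isMorphism _ h2 (hne 0 (by decide)) (hne 1 (by decide)) (hne 2 (by decide))
      (hne 3 (by decide)) (hne 5 (by decide)) (hne 6 (by decide))

theorem fam_isMorphism_int {k : Type} [Field k] [CharZero k] (p : Fin 10 → ℤ)
    (hp : ∀ j ∈ ({0, 1, 2, 3, 5, 6} : Finset (Fin 10)), ∃ e : ℕ, p j = 2 ^ e) :
    IsMorphism 1 4 (fam (fun j => (p j : k))) := by
  have h2 : (2 : k) ≠ 0 := by norm_num
  have hne : ∀ j ∈ ({0, 1, 2, 3, 5, 6} : Finset (Fin 10)), (p j : k) ≠ 0 := by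
    intro j hj
    obtain ⟨e, he⟩ := hp j hj
    rw [he]
    push_cast
    exact pow_ne_zero _ h2
  exact fam_isMorphism _ h2 (hne 0 (by decide)) (hne 1 (by decide)) (hne 2 (by decide))
      (hne 3 (by decide)) (hne 5 (by decide)) (hne 6 (by decide))

end Pool.Agent.H2.Shaf
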