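import Pool.Agent.H2.ShafGood
import Pool.Agent.H2.ShafDom

set_option autoImplicit false

namespace Pool.Agent.H2.Shaf

open MvPolynomial IsDedekindDomain

/-- For every number field `K`, the degree-four maps with good reduction outside the primes above `2`
are Zariski dense in the moduli space. -/
theorem dense_quartic (K : Type) [Field K] [NumberField K] :
    ∃ S : Finset (HeightOneSpectrum (NumberField.RingOfIntegers K)),
      Dense (goodClasses 1 4 K (S : Set (HeightOneSpectrum (NumberField.RingOfIntegers K)))) := by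
  classical
  have h2 : Ideal.span {(2 : NumberField.RingOfIntegers K)} ≠ 0 := by
    rw [Ne, Ideal.zero_eq_bot, Ideal.span_singleton_eq_bot]
    norm_num
  have hfin := Ideal.finite_factors h2
  refine ⟨hfin.toFinset, ?_⟩
  set S := hfin.toFinset with hS
  -- density in `End`
  have hdense : Dense {g : End 1 4 (AlgebraicClosure K) | ∃ f : Tuple 1 K, IsMorphism 1 4 f ∧
      (∀ v ∉ (S : Set (HeightOneSpectrum (NumberField.RingOfIntegers K))), GoodReduction 1 4 v f) ∧
      ∀ i, g.1 i = MvPolynomial.map (algebraMap K (AlgebraicClosure K)) (f i)} := by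
    have hbasis : TopologicalSpace.IsTopologicalBasis
        {U | ∃ P : MvPolynomial (Fin (1 + 1) × (Fin (1 + 1) →₀ ℕ)) (AlgebraicClosure K),
          U = {f : End 1 4 (AlgebraicClosure K) | eval (coeffs f.1) P ≠ 0}} := by
      refine ⟨?_, ?_, rfl⟩
      · rintro U ⟨P, rfl⟩ V ⟨Q, rfl⟩ x ⟨hx1, hx2⟩
        refine ⟨{f | eval (coeffs f.1) (P * Q) ≠ 0}, ⟨P * Q, rfl⟩, ?_, ?_⟩
        · show eval (coeffs x.1) (P * Q) ≠ 0
          rw [map_mul]
          exact mul_ne_zero hx1 hx2
        · intro y hy
          have hy' : eval (coeffs y.1) (P * Q) ≠ 0 := hy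
          rw [map_mul] at hy'
          exact ⟨left_ne_zero_of_mul hy', right_ne_zero_of_mul hy'⟩
      · apply Set.eq_univ_of_forall
        intro x
        refine ⟨{f | eval (coeffs f.1) 1 ≠ 0}, ⟨1, rfl⟩, ?_⟩
        show eval (coeffs x.1) 1 ≠ 0
        rw [map_one]
        exact one_ne_zero
    rw [hbasis.dense_iff]
    rintro U ⟨P, rfl⟩ ⟨x, hx⟩
    by_contra hcon
    apply hx
    apply vanish_all P _ x.1 x.2.1
    intro p
    apply vanish_int P _ p
    intro q hq
    by_contra hne
    apply hcon
    have hmor := fam_isMorphism_int (k := AlgebraicClosure K) q hq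
    refine ⟨⟨fam (fun j => (q j : AlgebraicClosure K)), hmor⟩, hne,
      fam (fun j => (q j : K)), fam_isMorphism_int (k := K) q hq, ?_, ?_⟩
    · intro v hv
      apply fam_good v _ q hq
      intro hdvd
      apply hv
      rw [hS, Set.Finite.coe_toFinset]
      exact hdvd
    · intro i
      rw [map_fam]
      simp
  -- push to the quotient
  have hcont : Continuous (Quot.mk (Conjugate (N := 1) (d := 4) (k := AlgebraicClosure K))) :=
    continuous_quot_mk
  have hsurj : Function.Surjective
      (Quot.mk (Conjugate (N := 1) (d := 4) (k := AlgebraicClosure K))) := Quot.mk_surjective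
  have himg := hsurj.denseRange.dense_image hcont hdense
  refine himg.mono ?_
  rintro _ ⟨g, ⟨f, hf1, hf2, hf3⟩, rfl⟩
  exact ⟨f, hf1, hf2, g, hf3, rfl⟩

end Pool.Agent.H2.Shaf
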