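import Pool.Agent.H2.SylIntDefs

namespace Pool.Agent.H2.SylInt

variable {G : Type} [Group G] [Finite G]

/-- the same with Sylow 2-subgroups of `G` inside `⟨P, Q⟩` -/
def PropStar' (G : Type) [Group G] : Prop :=
  ∀ P Q : Sylow 2 G, ∃ S : Sylow 2 G, (S : Subgroup G) ≤ (P : Subgroup G) ⊔ Q ∧
    (P : Subgroup G) ⊓ Q ≤ S ∧
    ∀ s ∈ (S : Subgroup G), ∀ y ∈ (P : Subgroup G) ⊓ Q, s * y * s⁻¹ ∈ (P : Subgroup G) ⊓ Q

theorem star_iff : PropStar G ↔ PropStar' G := by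
  constructor
  · intro h P Q
    obtain ⟨S, hS1, hS2⟩ := h P Q
    have hcard : Nat.card (S : Subgroup ↥((P : Subgroup G) ⊔ (Q : Subgroup G))) = Nat.card P := by
      have e := (P.subtype (le_sup_left : (P : Subgroup G) ≤ (P : Subgroup G) ⊔ Q))
      have h1 : Nat.card (S : Subgroup ↥((P : Subgroup G) ⊔ (Q : Subgroup G))) =
          Nat.card ((P.subtype (le_sup_left : (P : Subgroup G) ≤ (P : Subgroup G) ⊔ Q) :
            Sylow 2 ↥((P : Subgroup G) ⊔ (Q : Subgroup G))) :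
              Subgroup ↥((P : Subgroup G) ⊔ (Q : Subgroup G))) :=
        Nat.card_congr (S.equiv (P.subtype le_sup_left)).toEquiv
      rw [h1, Sylow.coe_subtype]
      exact Nat.card_congr (Subgroup.subgroupOfEquivOfLe le_sup_left).toEquiv
    have hcard2 : Nat.card ((S : Subgroup ↥((P : Subgroup G) ⊔ (Q : Subgroup G))).map
        (Subgroup.subtype _)) = 2 ^ (Nat.card G).factorization 2 := by
      rw [← P.card_eq_multiplicity, ← hcard]
      exact Nat.card_congr (Subgroup.equivMapOfInjective _ _ (Subgroup.subtype_injective _)).symm.toEquiv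
    refine ⟨Sylow.ofCard _ hcard2, ?_, ?_, ?_⟩
    · rw [Sylow.coe_ofCard]
      rintro _ ⟨s, _, rfl⟩
      exact s.2
    · rw [Sylow.coe_ofCard]
      intro y hy
      have hy' : y ∈ (P : Subgroup G) ⊔ Q := (le_sup_left : (P : Subgroup G) ≤ (P : Subgroup G) ⊔ Q) hy.1
      exact ⟨⟨y, hy'⟩, hS1 (Subgroup.mem_subgroupOf.mpr hy), rfl⟩
    · rw [Sylow.coe_ofCard]
      rintro _ ⟨s, hs, rfl⟩ y hy
      have hy' : y ∈ (P : Subgroup G) ⊔ Q := (le_sup_left : (P : Subgroup G) ≤ (P : Subgroup G) ⊔ Q) hy.1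
      have hyS : (⟨y, hy'⟩ : ↥((P : Subgroup G) ⊔ (Q : Subgroup G))) ∈ S :=
        hS1 (Subgroup.mem_subgroupOf.mpr hy)
      have := hS2.conj_mem ⟨⟨y, hy'⟩, hyS⟩ (Subgroup.mem_subgroupOf.mpr
        (Subgroup.mem_subgroupOf.mpr hy)) ⟨s, hs⟩
      exact Subgroup.mem_subgroupOf.mp (Subgroup.mem_subgroupOf.mp this)
  · intro h P Q
    obtain ⟨S, h1, h2, h3⟩ := h P Q
    refine ⟨S.subtype h1, ?_, ?_⟩
    · rw [Sylow.coe_subtype]
      intro y hy
      exact Subgroup.mem_subgroupOf.mpr (h2 (Subgroup.mem_subgroupOf.mp hy))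
    · constructor
      intro y hy s
      rw [Subgroup.mem_subgroupOf, Subgroup.mem_subgroupOf] at hy ⊢
      have hs : ((s : ↥((P : Subgroup G) ⊔ (Q : Subgroup G))) : G) ∈ (S : Subgroup G) := by
        have := s.2
        rw [← SetLike.mem_coe] at this
        exact Subgroup.mem_subgroupOf.mp this
      exact h3 _ hs _ hy

/-- commuting from `N ∩ P = 1` -/
theorem comm_of {N : Subgroup G} (hN : N.Normal) (hodd : Odd (Nat.card N)) (P : Sylow 2 G)
    {n y : G} (hn : n ∈ N) (hy : y ∈ (P : Subgroup G)) (hy' : n⁻¹ * y * n ∈ (P : Subgroup G)) :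
    y * n = n * y := by
  have hdis : ∀ z ∈ N, z ∈ (P : Subgroup G) → z = 1 := by
    intro z hz hz'
    have h1 : orderOf z ∣ Nat.card N := Subgroup.orderOf_dvd_natCard N hz
    obtain ⟨k, hk⟩ := (P.isPGroup') ⟨z, hz'⟩
    have h2 : z ^ 2 ^ k = 1 := by
      have := congrArg Subtype.val hk
      simpa using this
    have h3 : orderOf z ∣ 2 ^ k := orderOf_dvd_of_pow_eq_one h2
    have hc : Nat.Coprime (Nat.card N) (2 ^ k) :=
      Nat.Coprime.pow_right k (Nat.coprime_two_right.mpr hodd)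
    have := Nat.eq_one_of_dvd_coprimes hc h1 h3
    exact orderOf_eq_one_iff.mp this
  have h1 : y⁻¹ * (n⁻¹ * y * n) ∈ (P : Subgroup G) :=
    (P : Subgroup G).mul_mem ((P : Subgroup G).inv_mem hy) hy'
  have h2 : y⁻¹ * (n⁻¹ * y * n) ∈ N := by
    have e : y⁻¹ * (n⁻¹ * y * n) = (y⁻¹ * n⁻¹ * y⁻¹⁻¹) * n := by group
    rw [e]
    exact N.mul_mem (hN.conj_mem _ (N.inv_mem hn) _) hn
  have h3 := hdis _ h2 h1
  have h4 : n⁻¹ * y * n = y := by
    have := congrArg (fun w => y * w) h3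
    simpa [mul_assoc] using this
  calc y * n = n * (n⁻¹ * y * n) := by group
    _ = n * y := by rw [h4]

theorem sup_top {N : Subgroup G} {k : ℕ} (hk : N.index = 2 ^ k) (P : Sylow 2 G) :
    N ⊔ (P : Subgroup G) = ⊤ := by
  rw [← Subgroup.index_eq_one]
  have h1 : (N ⊔ (P : Subgroup G)).index ∣ 2 ^ k := hk ▸ Subgroup.index_dvd_of_le le_sup_left
  have h2 : (N ⊔ (P : Subgroup G)).index ∣ (P : Subgroup G).index :=
    Subgroup.index_dvd_of_le le_sup_right
  obtain ⟨j, _, hj⟩ := (Nat.dvd_prime_pow Nat.prime_two).mp h1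
  rcases Nat.eq_zero_or_pos j with h0 | h0
  · rw [hj, h0, pow_zero]
  · exfalso
    apply P.not_dvd_index
    refine dvd_trans ?_ h2
    rw [hj]
    exact dvd_pow_self 2 (by omega)

theorem conj_by {N : Subgroup G} (hN : N.Normal) {k : ℕ} (hk : N.index = 2 ^ k)
    (P Q : Sylow 2 G) : ∃ n ∈ N, ∀ z, z ∈ (Q : Subgroup G) ↔ n⁻¹ * z * n ∈ (P : Subgroup G) := by
  obtain ⟨g, hg⟩ := MulAction.exists_smul_eq G P Q
  have hgt : g ∈ N ⊔ (P : Subgroup G) := by rw [sup_top hk P]; trivial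
  rw [← SetLike.mem_coe, Subgroup.normal_mul, Set.mem_mul] at hgt
  obtain ⟨n, hn, p, hp, rfl⟩ := hgt
  refine ⟨n, hn, ?_⟩
  intro z
  rw [← hg]
  have hz : z ∈ (((n * p) • P : Sylow 2 G) : Subgroup G) ↔ (n * p)⁻¹ * z * (n * p) ∈ (P : Subgroup G) := by
    rw [Sylow.coe_subgroup_smul, Subgroup.mem_pointwise_smul_iff_inv_smul_mem]
    simp [MulAut.smul_def, mul_assoc]
  rw [hz]
  have e : (n * p)⁻¹ * z * (n * p) = p⁻¹ * (n⁻¹ * z * n) * p := by group
  rw [e]
  constructor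
  · intro h
    have := (P : Subgroup G).mul_mem ((P : Subgroup G).mul_mem hp h) ((P : Subgroup G).inv_mem hp)
    have e2 : p * (p⁻¹ * (n⁻¹ * z * n) * p) * p⁻¹ = n⁻¹ * z * n := by group
    rwa [e2] at this
  · intro h
    exact (P : Subgroup G).mul_mem ((P : Subgroup G).mul_mem ((P : Subgroup G).inv_mem hp) h) hp

theorem main {N : Subgroup G} (hN : N.Normal) (hodd : Odd (Nat.card N)) {k : ℕ}
    (hk : N.index = 2 ^ k) :
    PropStar G ↔ ∀ P : Sylow 2 G, ∀ n ∈ N, ∀ x ∈ (P : Subgroup G), ∀ y ∈ (P : Subgroup G),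
      y * n = n * y → (x * y * x⁻¹) * n = n * (x * y * x⁻¹) := by
  rw [star_iff]
  constructor
  · intro h P n hn x hx y hy hyn
    -- the second Sylow subgroup
    obtain ⟨S, hS1, hS2, hS3⟩ := h P (n • P)
    have hQ : ∀ z, z ∈ ((n • P : Sylow 2 G) : Subgroup G) ↔ n⁻¹ * z * n ∈ (P : Subgroup G) := by
      intro z
      rw [Sylow.coe_subgroup_smul, Subgroup.mem_pointwise_smul_iff_inv_smul_mem]
      simp [MulAut.smul_def]
    obtain ⟨m, hm, hmS⟩ := conj_by hN hk P S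
    have hyc : n⁻¹ * y * n = y := by rw [mul_assoc, hyn]; group
    have hyI : y ∈ (P : Subgroup G) ⊓ ((n • P : Sylow 2 G) : Subgroup G) :=
      ⟨hy, (hQ y).mpr (by rw [hyc]; exact hy)⟩
    have hyS := hS2 hyI
    have hym : y * m = m * y := comm_of hN hodd P hm hy ((hmS y).mp hyS)
    have hxS : m * x * m⁻¹ ∈ (S : Subgroup G) := by
      rw [hmS]
      have : m⁻¹ * (m * x * m⁻¹) * m = x := by group
      rw [this]; exact hx
    have hc := hS3 _ hxS y hyI
    have e1 : m * x * m⁻¹ * y * (m * x * m⁻¹)⁻¹ = m * (x * y * x⁻¹) * m⁻¹ := by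
      have : m⁻¹ * y * m = y := by rw [mul_assoc, hym]; group
      calc m * x * m⁻¹ * y * (m * x * m⁻¹)⁻¹ = m * x * (m⁻¹ * y * m) * x⁻¹ * m⁻¹ := by group
        _ = m * (x * y * x⁻¹) * m⁻¹ := by rw [this]; group
    rw [e1] at hc
    generalize hcc : m * (x * y * x⁻¹) * m⁻¹ = w at hc
    have hwS := hS2 hc
    have hwm : w * m = m * w := comm_of hN hodd P hm hc.1 ((hmS w).mp hwS)
    have hw : x * y * x⁻¹ = w := by
      calc x * y * x⁻¹ = m⁻¹ * (m * (x * y * x⁻¹) * m⁻¹) * m := by group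
        _ = m⁻¹ * w * m := by rw [hcc]
        _ = w := by rw [mul_assoc, hwm]; group
    rw [hw]
    exact comm_of hN hodd P hn hc.1 ((hQ w).mp hc.2)
  · intro h P Q
    obtain ⟨n, hn, hnQ⟩ := conj_by hN hk P Q
    refine ⟨P, le_sup_left, inf_le_left, ?_⟩
    rintro s hs y ⟨hyP, hyQ⟩
    have hyn : y * n = n * y := comm_of hN hodd P hn hyP ((hnQ y).mp hyQ)
    have h1 := h P n hn s hs y hyP hyn
    have h2 : s * y * s⁻¹ ∈ (P : Subgroup G) :=
      (P : Subgroup G).mul_mem ((P : Subgroup G).mul_mem hs hyP) ((P : Subgroup G).inv_mem hs)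
    refine ⟨h2, (hnQ _).mpr ?_⟩
    have : n⁻¹ * (s * y * s⁻¹) * n = s * y * s⁻¹ := by rw [mul_assoc, h1]; group
    rw [this]
    exact h2

end Pool.Agent.H2.SylInt
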