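import Pool.Agent.H2.SylInt

namespace Pool.Agent.H2.SylInt

theorem main' {G : Type} [Group G] [Finite G] {N : Subgroup G} (hN : N.Normal)
    (hodd : Odd (Nat.card N)) (hk : ∃ k, N.index = 2 ^ k) :
    PropStar G ↔ ∀ P : Sylow 2 G, ∀ n ∈ N,
      ((Subgroup.centralizer {n}).subgroupOf (P : Subgroup G)).Normal := by
  obtain ⟨k, hk⟩ := hk
  rw [main hN hodd hk]
  have hcen : ∀ n z : G, z ∈ Subgroup.centralizer {n} ↔ z * n = n * z := by
    intro n z
    rw [Subgroup.mem_centralizer_iff]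
    simp [eq_comm]
  constructor
  · intro h P n hn
    constructor
    intro y hy x
    rw [Subgroup.mem_subgroupOf, hcen] at hy ⊢
    exact h P n hn x x.2 y y.2 hy
  · intro h P n hn x hx y hy hyn
    have h1 := (h P n hn).conj_mem ⟨y, hy⟩ (by rw [Subgroup.mem_subgroupOf, hcen]; exact hyn) ⟨x, hx⟩
    rw [Subgroup.mem_subgroupOf, hcen] at h1
    exact h1

/-- the wreath product of the symmetric group of degree 3 with the group of order 2 -/
structure W where
  a : Equiv.Perm (Fin 3)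
  b : Equiv.Perm (Fin 3)
  e : Bool

namespace W

instance : DecidableEq W := fun x y =>
  decidable_of_iff (x.a = y.a ∧ x.b = y.b ∧ x.e = y.e)
    ⟨fun h => by cases x; cases y; simp only at h; rw [h.1, h.2.1, h.2.2],
      fun h => by rw [h]; exact ⟨rfl, rfl, rfl⟩⟩

instance : Mul W := ⟨fun x y => ⟨x.a * (cond x.e y.b y.a), x.b * (cond x.e y.a y.b), xor x.e y.e⟩⟩
instance : One W := ⟨⟨1, 1, false⟩⟩
instance : Inv W := ⟨fun x => ⟨cond x.e x.b⁻¹ x.a⁻¹, cond x.e x.a⁻¹ x.b⁻¹, x.e⟩⟩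

theorem mul_def (x y : W) :
    x * y = ⟨x.a * (cond x.e y.b y.a), x.b * (cond x.e y.a y.b), xor x.e y.e⟩ := rfl
theorem one_def : (1 : W) = ⟨1, 1, false⟩ := rfl
theorem inv_def (x : W) : x⁻¹ = ⟨cond x.e x.b⁻¹ x.a⁻¹, cond x.e x.a⁻¹ x.b⁻¹, x.e⟩ := rfl

instance : Group W :=
  Group.ofLeftAxioms
    (by
      rintro ⟨a, b, e⟩ ⟨a', b', e'⟩ ⟨a'', b'', e''⟩
      cases e <;> cases e' <;> cases e'' <;> simp [mul_def, mul_assoc])
    (by
      rintro ⟨a, b, e⟩
      cases e <;> simp [mul_def, one_def])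
    (by
      rintro ⟨a, b, e⟩
      cases e <;> simp [mul_def, one_def, inv_def])

def eq : Equiv.Perm (Fin 3) × Equiv.Perm (Fin 3) × Bool ≃ W :=
  ⟨fun p => ⟨p.1, p.2.1, p.2.2⟩, fun x => (x.a, x.b, x.e), fun _ => rfl, fun _ => rfl⟩

instance : Fintype W := Fintype.ofEquiv _ eq

def t : Equiv.Perm (Fin 3) := Equiv.swap 0 1
def c : Equiv.Perm (Fin 3) := Equiv.swap 0 1 * Equiv.swap 1 2

def inN (x : W) : Bool := decide (x.a ^ 3 = 1) && decide (x.b ^ 3 = 1) && !x.e
def inH (x : W) : Bool := (decide (x.a = 1) || decide (x.a = t)) && (decide (x.b = 1) || decide (x.b = t))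

theorem N_mul : ∀ x y : W, inN x = true → inN y = true → inN (x * y) = true := by decide +kernel
theorem N_inv : ∀ x : W, inN x = true → inN x⁻¹ = true := by decide +kernel
theorem N_conj : ∀ x y : W, inN x = true → inN (y * x * y⁻¹) = true := by decide +kernel
theorem H_mul : ∀ x y : W, inH x = true → inH y = true → inH (x * y) = true := by decide +kernel
theorem H_inv : ∀ x : W, inH x = true → inH x⁻¹ = true := by decide +kernel
theorem H_pow' : ∀ x : W, inH x = true → x * x * (x * x) = 1 := by decide +kernel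
theorem H_pow (x : W) (hx : inH x = true) : x ^ 4 = 1 := by
  rw [← H_pow' x hx, pow_succ, pow_succ, pow_two, mul_assoc (x * x)]

def N : Subgroup W where
  carrier := {x | inN x = true}
  mul_mem' := fun {x y} hx hy => N_mul x y hx hy
  one_mem' := by show inN 1 = true; decide
  inv_mem' := fun {x} hx => N_inv x hx

def H : Subgroup W where
  carrier := {x | inH x = true}
  mul_mem' := fun {x y} hx hy => H_mul x y hx hy
  one_mem' := by show inH 1 = true; decide
  inv_mem' := fun {x} hx => H_inv x hx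

theorem N_normal : N.Normal := ⟨fun x hx g => N_conj x g hx⟩

theorem card_N : Nat.card N = 9 := by
  have : Nat.card N = Nat.card {x : W // inN x = true} := rfl
  rw [this, Nat.card_eq_fintype_card]
  decide +kernel

theorem card_W : Nat.card W = 72 := by
  rw [Nat.card_eq_fintype_card]
  decide +kernel

theorem index_N : N.index = 8 := by
  have := N.card_mul_index
  rw [card_N, card_W] at this
  omega

theorem H_pgroup : IsPGroup 2 H := by
  intro x
  refine ⟨2, ?_⟩
  apply Subtype.ext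
  exact H_pow x.1 x.2

theorem not_star : ¬ PropStar W := by
  rw [main' N_normal (by rw [card_N]; decide) ⟨3, by rw [index_N]; norm_num⟩]
  intro h
  obtain ⟨P, hP⟩ := H_pgroup.exists_le_sylow
  have hn : (⟨c, 1, false⟩ : W) ∈ N := by
    show inN ⟨c, 1, false⟩ = true
    decide +kernel
  have hy : (⟨1, t, false⟩ : W) ∈ (P : Subgroup W) := hP (by
    show inH ⟨1, t, false⟩ = true
    decide +kernel)
  have hx : (⟨1, 1, true⟩ : W) ∈ (P : Subgroup W) := hP (by
    show inH ⟨1, 1, true⟩ = true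
    decide +kernel)
  have h1 := (h P _ hn).conj_mem ⟨_, hy⟩ (by
    rw [Subgroup.mem_subgroupOf, Subgroup.mem_centralizer_iff]
    intro z hz
    rw [Set.mem_singleton_iff] at hz
    subst hz
    show (⟨c, 1, false⟩ : W) * ⟨1, t, false⟩ = ⟨1, t, false⟩ * ⟨c, 1, false⟩
    decide +kernel) ⟨_, hx⟩
  rw [Subgroup.mem_subgroupOf, Subgroup.mem_centralizer_iff] at h1
  have h2 := h1 ⟨c, 1, false⟩ rfl
  revert h2
  show ¬ ((⟨c, 1, false⟩ : W) * ((⟨1, 1, true⟩ : W) * ⟨1, t, false⟩ * (⟨1, 1, true⟩ : W)⁻¹) =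
    ((⟨1, 1, true⟩ : W) * ⟨1, t, false⟩ * (⟨1, 1, true⟩ : W)⁻¹) * ⟨c, 1, false⟩)
  decide +kernel

end W

end Pool.Agent.H2.SylInt
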