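import Mathlib

namespace Pool.Agent.H2.SylInt

/-- Property (∗): for all Sylow 2-subgroups `P, Q` of `G` there is a Sylow 2-subgroup `S` of
`⟨P, Q⟩` such that `P ∩ Q` is a normal subgroup of `S`. -/
def PropStar (G : Type) [Group G] : Prop :=
  ∀ P Q : Sylow 2 G, ∃ S : Sylow 2 ↥((P : Subgroup G) ⊔ (Q : Subgroup G)),
    ((P : Subgroup G) ⊓ Q).subgroupOf (P ⊔ Q) ≤ S ∧
    ((((P : Subgroup G) ⊓ Q).subgroupOf (P ⊔ Q)).subgroupOf S).Normal

end Pool.Agent.H2.SylInt
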