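import Pool.Agent.H2.TraceBrDefs

namespace Pool.Agent.H2.TraceBr

open MvPolynomial

variable {N m : ℕ}

/-- a derivation applied entrywise to a product of matrices -/
theorem map_mul' (D : Derivation ℂ (Pol N m) (Pol N m)) (M M' : Matrix (Fin m) (Fin m) (Pol N m)) :
    (M * M').map D = M.map D * M' + M * M'.map D := by
  refine Matrix.ext fun i j => ?_
  simp only [Matrix.map_apply, Matrix.mul_apply, Matrix.add_apply, map_sum, Derivation.leibniz,
    smul_eq_mul, Finset.sum_add_distrib]
  rw [add_comm]
  congr 1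
  exact Finset.sum_congr rfl fun s _ => mul_comm _ _

theorem map_C (D : Derivation ℂ (Pol N m) (Pol N m)) (M : Matrix (Fin m) (Fin m) ℂ) :
    (M.map (C : ℂ →+* Pol N m)).map D = 0 := by
  refine Matrix.ext fun i j => ?_
  simp only [Matrix.map_apply, Matrix.zero_apply]
  exact D.map_algebraMap _

/-- Euler derivation -/
noncomputable def E (N m : ℕ) : Derivation ℂ (Pol N m) (Pol N m) := mkDerivation ℂ fun v => X v

/-- inner derivation by a matrix `A` -/
noncomputable def Y (A : Matrix (Fin m) (Fin m) (Pol N m)) : Derivation ℂ (Pol N m) (Pol N m) :=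
  mkDerivation ℂ fun v => (A * gen N m v.1 - gen N m v.1 * A) v.2.1 v.2.2

theorem E_gen (α : Fin N) : (gen N m α).map (E N m) = gen N m α := by
  refine Matrix.ext fun i j => ?_
  simp [E, gen, mkDerivation_X]

theorem Y_gen (A : Matrix (Fin m) (Fin m) (Pol N m)) (α : Fin N) :
    (gen N m α).map (Y A) = A * gen N m α - gen N m α * A := by
  refine Matrix.ext fun i j => ?_
  simp only [Matrix.map_apply, gen, Matrix.of_apply, Y, mkDerivation_X]

theorem Y_ev (A : Matrix (Fin m) (Fin m) (Pol N m)) (P : FreeAlgebra ℂ (Fin N)) :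
    (ev N m P).map (Y A) = A * ev N m P - ev N m P * A := by
  induction P using FreeAlgebra.induction with
  | grade0 r =>
    have h : ev N m (algebraMap ℂ (FreeAlgebra ℂ (Fin N)) r)
        = algebraMap ℂ (Matrix (Fin m) (Fin m) (Pol N m)) r := by
      simp [ev]
    rw [h, (Algebra.commutes r A).symm, sub_self]
    refine Matrix.ext fun i j => ?_
    rw [Matrix.map_apply, Matrix.algebraMap_matrix_apply, Matrix.zero_apply]
    split_ifs
    · exact (Y A).map_algebraMap r
    · simp
  | grade1 α =>
    have h : ev N m (FreeAlgebra.ι ℂ α) = gen N m α := by simp [ev]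
    rw [h, Y_gen]
  | mul a b ha hb =>
    have h : ev N m (a * b) = ev N m a * ev N m b := by simp [ev]
    rw [h, map_mul', ha, hb]
    noncomm_ring
  | add a b ha hb =>
    have h : ev N m (a + b) = ev N m a + ev N m b := by simp [ev]
    have h2 : (ev N m a + ev N m b).map (Y A) = (ev N m a).map (Y A) + (ev N m b).map (Y A) := by
      refine Matrix.ext fun i j => ?_
      simp
    rw [h, h2, ha, hb]
    noncomm_ring

theorem Y_trace (A : Matrix (Fin m) (Fin m) (Pol N m)) (P : FreeAlgebra ℂ (Fin N)) :
    Y A (ev N m P).trace = 0 := by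
  have h : Y A (ev N m P).trace = ((ev N m P).map (Y A)).trace := by
    simp [Matrix.trace, map_sum]
  rw [h, Y_ev, Matrix.trace_sub, Matrix.trace_mul_comm, sub_self]

theorem E_pow (α : Fin N) (n : ℕ) : ((gen N m α) ^ n).map (E N m) = (n : ℂ) • (gen N m α) ^ n := by
  induction n with
  | zero =>
    refine Matrix.ext fun i j => ?_
    rw [pow_zero, Matrix.map_apply]
    simp only [Nat.cast_zero, zero_smul, Matrix.zero_apply]
    by_cases h : i = j
    · subst h
      rw [Matrix.one_apply_eq]
      exact (E N m).map_one_eq_zero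
    · rw [Matrix.one_apply_ne h]
      exact (E N m).map_zero
  | succ n ih =>
    rw [pow_succ, map_mul', ih, E_gen, Nat.cast_succ, add_smul, one_smul, smul_mul_assoc]

/-- the commutation relation `[E, Y] = n Y` -/
theorem comm_EY (α : Fin N) (n : ℕ) (f : Pol N m) :
    E N m (Y ((gen N m α) ^ n) f) = Y ((gen N m α) ^ n) (E N m f)
      + (n : ℂ) • Y ((gen N m α) ^ n) f := by
  have h : ⁅E N m, Y ((gen N m α) ^ n)⁆ = (n : ℂ) • Y (N := N) (m := m) ((gen N m α) ^ n) := by
    apply MvPolynomial.derivation_ext
    intro v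
    rw [Derivation.commutator_apply, Derivation.smul_apply]
    have h1 : Y ((gen N m α) ^ n) (X v)
        = ((gen N m α) ^ n * gen N m v.1 - gen N m v.1 * (gen N m α) ^ n) v.2.1 v.2.2 := by
      rw [Y, mkDerivation_X]
    have h2 : E N m (X v) = X v := by rw [E, mkDerivation_X]
    have h3 : ((gen N m α) ^ n * gen N m v.1 - gen N m v.1 * (gen N m α) ^ n).map (E N m)
        = ((n : ℂ) + 1) • ((gen N m α) ^ n * gen N m v.1 - gen N m v.1 * (gen N m α) ^ n) := by
      have h4 : ∀ M M' : Matrix (Fin m) (Fin m) (Pol N m), (M - M').map (E N m)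
          = M.map (E N m) - M'.map (E N m) := by
        intro M M'
        refine Matrix.ext fun i j => ?_
        simp
      rw [h4, map_mul', map_mul', E_pow, E_gen, smul_sub, add_smul, add_smul, one_smul, one_smul,
        smul_mul_assoc, mul_smul_comm]
      abel
    have h5 := congrFun (congrFun h3 v.2.1) v.2.2
    rw [Matrix.map_apply, Matrix.smul_apply] at h5
    rw [h2, h1, h5, add_smul, one_smul]
    abel
  have h6 := congrArg (fun D : Derivation ℂ (Pol N m) (Pol N m) => D f) h
  simp only [Derivation.commutator_apply, Derivation.smul_apply] at h6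
  rw [← h6]
  ring

/-- the bracket `{a, b} = E(a) Y(b) - Y(a) E(b)` -/
noncomputable def Br (D D' : Derivation ℂ (Pol N m) (Pol N m)) :
    Pol N m →ₗ[ℂ] Pol N m →ₗ[ℂ] Pol N m :=
  LinearMap.mk₂ ℂ (fun a b => D a * D' b - D' a * D b)
    (by intro a a' b; simp only [map_add]; ring)
    (by intro c a b; simp only [Derivation.map_smul, smul_mul_assoc, smul_sub])
    (by intro a b b'; simp only [map_add]; ring)
    (by intro c a b; simp only [Derivation.map_smul, mul_smul_comm, smul_sub])

theorem Br_apply (D D' : Derivation ℂ (Pol N m) (Pol N m)) (a b : Pol N m) :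
    Br D D' a b = D a * D' b - D' a * D b := rfl

theorem Br_jacobi (D D' : Derivation ℂ (Pol N m) (Pol N m)) (r : ℂ)
    (h : ∀ f, D (D' f) = D' (D f) + r • D' f) (a b c : Pol N m) :
    Br D D' a (Br D D' b c) + Br D D' b (Br D D' c a) + Br D D' c (Br D D' a b) = 0 := by
  simp only [Br_apply, map_sub, Derivation.leibniz, smul_eq_mul, h, Algebra.smul_def]
  ring

theorem deriv_comm (φ : Pol N m →ₐ[ℂ] Pol N m) (D : Derivation ℂ (Pol N m) (Pol N m))
    (h : ∀ v, φ (D (X v)) = D (φ (X v))) (f : Pol N m) : φ (D f) = D (φ f) := by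
  induction f using MvPolynomial.induction_on with
  | C r =>
    have h1 : D (C r) = 0 := D.map_algebraMap r
    have h2 : φ (C r) = C r := φ.commutes r
    rw [h1, h2, h1, map_zero]
  | add p q hp hq => rw [map_add, map_add, hp, hq, map_add, map_add]
  | mul_X p v hp =>
    rw [Derivation.leibniz, map_add, smul_eq_mul, smul_eq_mul, map_mul, map_mul, map_mul,
      Derivation.leibniz, smul_eq_mul, smul_eq_mul, hp, h v]

end Pool.Agent.H2.TraceBr
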