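import Pool.Agent.H2.TraceBr1

namespace Pool.Agent.H2.TraceBr

open MvPolynomial

variable {N m : ℕ}

theorem map_mulφ (φ : Pol N m →ₐ[ℂ] Pol N m) (M M' : Matrix (Fin m) (Fin m) (Pol N m)) :
    (M * M').map φ = M.map φ * M'.map φ := by
  refine Matrix.ext fun i j => ?_
  simp [Matrix.mul_apply, map_sum]

/-- the matrix `g` with constant polynomial entries -/
noncomputable def cm (N : ℕ) (g : Matrix (Fin m) (Fin m) ℂ) : Matrix (Fin m) (Fin m) (Pol N m) :=
  g.map (C : ℂ →+* Pol N m)

theorem cm_mul (g h : Matrix (Fin m) (Fin m) ℂ) : cm N (g * h) = cm N g * cm N h := by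
  unfold cm
  rw [Matrix.map_mul]

theorem cm_inv_mul (g : Matrix.GeneralLinearGroup (Fin m) ℂ) :
    cm N ((g⁻¹ : Matrix.GeneralLinearGroup (Fin m) ℂ) : Matrix (Fin m) (Fin m) ℂ)
      * cm N (g : Matrix (Fin m) (Fin m) ℂ) = 1 := by
  rw [← cm_mul, ← Units.val_mul, inv_mul_cancel, Units.val_one]
  exact Matrix.map_one _ (map_zero _) (map_one _)

theorem conj_gen (g : Matrix.GeneralLinearGroup (Fin m) ℂ) (α : Fin N) :
    (gen N m α).map (conj N m g) = cm N (g : Matrix (Fin m) (Fin m) ℂ) * gen N m α *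
      cm N ((g⁻¹ : Matrix.GeneralLinearGroup (Fin m) ℂ) : Matrix (Fin m) (Fin m) ℂ) := by
  refine Matrix.ext fun i j => ?_
  rw [Matrix.map_apply]
  simp only [conj, gen, Matrix.of_apply, aeval_X]
  rfl

theorem conj_pow (g : Matrix.GeneralLinearGroup (Fin m) ℂ) (α : Fin N) (n : ℕ) :
    ((gen N m α) ^ n).map (conj N m g) * cm N (g : Matrix (Fin m) (Fin m) ℂ)
      = cm N (g : Matrix (Fin m) (Fin m) ℂ) * (gen N m α) ^ n := by
  induction n with
  | zero =>
    have h : ((gen N m α) ^ 0).map (conj N m g) = 1 := by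
      rw [pow_zero]
      exact Matrix.map_one _ (map_zero _) (map_one _)
    rw [h, one_mul, pow_zero, mul_one]
  | succ n ih =>
    rw [pow_succ, map_mulφ, conj_gen]
    calc ((gen N m α) ^ n).map (conj N m g) * (cm N (g : Matrix (Fin m) (Fin m) ℂ) * gen N m α *
          cm N ((g⁻¹ : Matrix.GeneralLinearGroup (Fin m) ℂ) : Matrix (Fin m) (Fin m) ℂ))
          * cm N (g : Matrix (Fin m) (Fin m) ℂ)
        = (((gen N m α) ^ n).map (conj N m g) * cm N (g : Matrix (Fin m) (Fin m) ℂ)) * gen N m α *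
          (cm N ((g⁻¹ : Matrix.GeneralLinearGroup (Fin m) ℂ) : Matrix (Fin m) (Fin m) ℂ)
          * cm N (g : Matrix (Fin m) (Fin m) ℂ)) := by noncomm_ring
      _ = cm N (g : Matrix (Fin m) (Fin m) ℂ) * ((gen N m α) ^ n * gen N m α) := by
          rw [ih, cm_inv_mul, mul_one, mul_assoc]

theorem cm_mul_inv (g : Matrix.GeneralLinearGroup (Fin m) ℂ) :
    cm N (g : Matrix (Fin m) (Fin m) ℂ) *
    cm N ((g⁻¹ : Matrix.GeneralLinearGroup (Fin m) ℂ) : Matrix (Fin m) (Fin m) ℂ) = 1 := by
  rw [← cm_mul, ← Units.val_mul, mul_inv_cancel, Units.val_one]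
  exact Matrix.map_one _ (map_zero _) (map_one _)

theorem conj_pow' (g : Matrix.GeneralLinearGroup (Fin m) ℂ) (α : Fin N) (n : ℕ) :
    ((gen N m α) ^ n).map (conj N m g)
      = cm N (g : Matrix (Fin m) (Fin m) ℂ) * (gen N m α) ^ n *
      cm N ((g⁻¹ : Matrix.GeneralLinearGroup (Fin m) ℂ) : Matrix (Fin m) (Fin m) ℂ) := by
  rw [← conj_pow, mul_assoc, cm_mul_inv, mul_one]

theorem E_conj (g : Matrix.GeneralLinearGroup (Fin m) ℂ) (f : Pol N m) :
    conj N m g (E N m f) = E N m (conj N m g f) := by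
  apply deriv_comm
  intro v
  have h1 : E N m (X v) = X v := by rw [E, mkDerivation_X]
  have h2 := congrFun (congrFun (conj_gen g v.1) v.2.1) v.2.2
  rw [Matrix.map_apply] at h2
  have h3 : gen N m v.1 v.2.1 v.2.2 = X v := rfl
  rw [h3] at h2
  rw [h1, h2]
  have h4 : (cm N (g : Matrix (Fin m) (Fin m) ℂ) * gen N m v.1 *
      cm N ((g⁻¹ : Matrix.GeneralLinearGroup (Fin m) ℂ) : Matrix (Fin m) (Fin m) ℂ)).map (E N m)
      = cm N (g : Matrix (Fin m) (Fin m) ℂ) * gen N m v.1 *
      cm N ((g⁻¹ : Matrix.GeneralLinearGroup (Fin m) ℂ) : Matrix (Fin m) (Fin m) ℂ) := by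
    rw [map_mul', map_mul', E_gen]
    unfold cm
    rw [map_C, map_C, zero_mul, mul_zero, zero_add, add_zero]
  have h5 := congrFun (congrFun h4 v.2.1) v.2.2
  rw [Matrix.map_apply] at h5
  exact h5.symm

theorem Y_conj (g : Matrix.GeneralLinearGroup (Fin m) ℂ) (α : Fin N) (n : ℕ) (f : Pol N m) :
    conj N m g (Y ((gen N m α) ^ n) f) = Y ((gen N m α) ^ n) (conj N m g f) := by
  apply deriv_comm
  intro v
  have h1 : Y ((gen N m α) ^ n) (X v)
      = ((gen N m α) ^ n * gen N m v.1 - gen N m v.1 * (gen N m α) ^ n) v.2.1 v.2.2 := by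
    rw [Y, mkDerivation_X]
  have h2 := congrFun (congrFun (conj_gen g v.1) v.2.1) v.2.2
  rw [Matrix.map_apply] at h2
  have h3 : gen N m v.1 v.2.1 v.2.2 = X v := rfl
  rw [h3] at h2
  rw [h1, h2]
  set G := cm N (g : Matrix (Fin m) (Fin m) ℂ) with hG
  set G' := cm N ((g⁻¹ : Matrix.GeneralLinearGroup (Fin m) ℂ) : Matrix (Fin m) (Fin m) ℂ) with hG'
  have hGG : G' * G = 1 := cm_inv_mul g
  have hA : ((gen N m α) ^ n).map (conj N m g) = G * (gen N m α) ^ n * G' := conj_pow' g α n
  have hx : (gen N m v.1).map (conj N m g) = G * gen N m v.1 * G' := conj_gen g v.1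
  have e1 : ((gen N m α) ^ n * gen N m v.1 - gen N m v.1 * (gen N m α) ^ n).map (conj N m g)
      = G * ((gen N m α) ^ n * gen N m v.1 - gen N m v.1 * (gen N m α) ^ n) * G' := by
    have h4 : ∀ M M' : Matrix (Fin m) (Fin m) (Pol N m), (M - M').map (conj N m g)
        = M.map (conj N m g) - M'.map (conj N m g) := by
      intro M M'
      refine Matrix.ext fun i j => ?_
      simp
    rw [h4, map_mulφ, map_mulφ, hA, hx]
    have h5 : ∀ S T : Matrix (Fin m) (Fin m) (Pol N m),
        (G * S * G') * (G * T * G') = G * (S * T) * G' := by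
      intro S T
      calc (G * S * G') * (G * T * G') = G * S * (G' * G) * T * G' := by noncomm_ring
        _ = G * (S * T) * G' := by rw [hGG]; noncomm_ring
    rw [h5, h5]
    noncomm_ring
  have e2 : (G * gen N m v.1 * G').map (Y ((gen N m α) ^ n))
      = G * ((gen N m α) ^ n * gen N m v.1 - gen N m v.1 * (gen N m α) ^ n) * G' := by
    have hC1 : G.map (Y ((gen N m α) ^ n)) = 0 := map_C _ _
    have hC2 : G'.map (Y ((gen N m α) ^ n)) = 0 := map_C _ _
    rw [map_mul', map_mul', hC1, hC2, Y_gen, zero_mul, mul_zero, zero_add, add_zero]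
  have h6 := congrFun (congrFun e1 v.2.1) v.2.2
  have h7 := congrFun (congrFun e2 v.2.1) v.2.2
  rw [Matrix.map_apply] at h6 h7
  rw [h6, h7]

theorem homog_pow (α : Fin N) (n : ℕ) (i j : Fin m) : (((gen N m α) ^ n) i j).IsHomogeneous n := by
  induction n generalizing i j with
  | zero =>
    rw [pow_zero]
    by_cases h : i = j
    · subst h
      rw [Matrix.one_apply_eq]
      exact isHomogeneous_one _ _
    · rw [Matrix.one_apply_ne h]
      exact isHomogeneous_zero _ _ _
  | succ n ih =>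
    rw [pow_succ, Matrix.mul_apply]
    apply IsHomogeneous.sum
    intro s _
    exact (ih i s).mul (isHomogeneous_X _ _)

theorem homog_comm (α β : Fin N) (n : ℕ) (i j : Fin m) :
    (((gen N m α) ^ n * gen N m β - gen N m β * (gen N m α) ^ n) i j).IsHomogeneous (n + 1) := by
  rw [Matrix.sub_apply, Matrix.mul_apply, Matrix.mul_apply]
  apply IsHomogeneous.sub
  · apply IsHomogeneous.sum
    intro s _
    exact (homog_pow α n i s).mul (isHomogeneous_X _ _)
  · apply IsHomogeneous.sum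
    intro s _
    rw [add_comm n 1]
    exact (isHomogeneous_X _ _).mul (homog_pow α n s j)

/-- The bracket `E(a) Y(b) - Y(a) E(b)` is a trace Poisson bracket of degree `n + 2`. -/
theorem isTraceBracket (α : Fin N) (n : ℕ) :
    IsTraceBracket N m (n + 2) (fun a b => Br (E N m) (Y ((gen N m α) ^ n)) a b) where
  antisymm := by intro a b; simp only [Br_apply]; ring
  add := by intro a b c; exact map_add _ _ _
  smul := by
    intro r a b
    have h : ∀ p : Pol N m, C r * p = r • p := fun p => (MvPolynomial.smul_eq_C_mul p r).symm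
    rw [h, h]
    exact map_smul _ _ _
  leibniz := by
    intro a b c
    simp only [Br_apply, Derivation.leibniz, smul_eq_mul]
    ring
  jacobi := fun a b c => Br_jacobi _ _ (n : ℂ) (comm_EY α n) a b c
  invariant := by
    intro g a b
    simp only [Br_apply, map_sub, map_mul, E_conj, Y_conj]
  trace := by
    intro P₁ P₂
    refine ⟨0, ?_⟩
    have h0 : ev N m 0 = 0 := by simp [ev]
    rw [Br_apply, Y_trace, Y_trace, mul_zero, zero_mul, sub_self, h0, Matrix.trace_zero]
  homogeneous := by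
    intro v w
    have hE : ∀ v : Idx N m, E N m (X v) = X v := fun v => by rw [E, mkDerivation_X]
    have hY : ∀ v : Idx N m, Y ((gen N m α) ^ n) (X v)
        = ((gen N m α) ^ n * gen N m v.1 - gen N m v.1 * (gen N m α) ^ n) v.2.1 v.2.2 :=
      fun v => by rw [Y, mkDerivation_X]
    rw [Br_apply, hE, hE, hY, hY]
    apply IsHomogeneous.sub
    · have h : n + 2 = 1 + (n + 1) := by ring
      rw [h]
      exact (isHomogeneous_X _ _).mul (homog_comm _ _ _ _ _)
    · have h : n + 2 = (n + 1) + 1 := by ring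
      rw [h]
      exact (homog_comm _ _ _ _ _).mul (isHomogeneous_X _ _)

end Pool.Agent.H2.TraceBr
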