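import Pool.Agent.H2.TraceBr2

namespace Pool.Agent.H2.TraceBr

open MvPolynomial

variable {S : Type} [CommRing S] [Algebra ℂ S]

/-- constants -/
def ct (S : Type) [CommRing S] [Algebra ℂ S] (r : ℂ) : S := algebraMap ℂ S r

variable (N m : ℕ)

/-- evaluation of the generic matrices: `x_0 ↦ a₀ E₁₁ + d₀ E₂₂`, `x_1 ↦ a₁ E₁₁ + b₁ E₁₂`, the
others to zero -/
noncomputable def evl (a0 d0 a1 b1 : S) : Pol (N + 2) (m + 2) →ₐ[ℂ] S :=
  aeval fun v : Idx (N + 2) (m + 2) =>
    if v.1 = 0 then (if v.2.1 = 0 ∧ v.2.2 = 0 then a0 else if v.2.1 = 1 ∧ v.2.2 = 1 then d0 else 0)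
    else if v.1 = 1 then
      (if v.2.1 = 0 ∧ v.2.2 = 0 then a1 else if v.2.1 = 0 ∧ v.2.2 = 1 then b1 else 0)
    else 0

variable {N m}

/-- the four entries in the corner block, for the word `w` -/
def ea (a0 a1 : S) : List (Fin (N + 2)) → S
  | [] => 1
  | γ :: w => (if γ = 0 then a0 else if γ = 1 then a1 else 0) * ea a0 a1 w
/-- lower right entry -/
def ed (d0 : S) : List (Fin (N + 2)) → S
  | [] => 1
  | γ :: w => (if γ = 0 then d0 else 0) * ed d0 w
/-- upper right entry -/
def eb (a0 d0 a1 b1 : S) : List (Fin (N + 2)) → S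
  | [] => 0
  | γ :: w => (if γ = 0 then a0 else if γ = 1 then a1 else 0) * eb a0 d0 a1 b1 w
      + (if γ = 1 then b1 else 0) * ed d0 w

/-- product of the generic matrices along a list -/
noncomputable def wl (N m : ℕ) (w : List (Fin N)) : Matrix (Fin m) (Fin m) (Pol N m) :=
  (w.map (gen N m)).prod

theorem word_eq {N m p : ℕ} (u : Fin p → Fin N) : word N m u = wl N m (List.ofFn u) := by
  unfold word wl
  rw [List.map_ofFn]
  rfl

theorem evl_wl (a0 d0 a1 b1 : S) (w : List (Fin (N + 2))) :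
    evl N m a0 d0 a1 b1 (wl (N + 2) (m + 2) w 0 0) = ea a0 a1 w ∧
    evl N m a0 d0 a1 b1 (wl (N + 2) (m + 2) w 0 1) = eb a0 d0 a1 b1 w ∧
    evl N m a0 d0 a1 b1 (wl (N + 2) (m + 2) w 1 0) = 0 ∧
    evl N m a0 d0 a1 b1 (wl (N + 2) (m + 2) w 1 1) = ed d0 w := by
  have h01 : (0 : Fin (m + 2)) ≠ 1 := by
    intro h
    have := congrArg Fin.val h
    simp at this
  have hg : ∀ (γ : Fin (N + 2)) (i j : Fin (m + 2)),
      evl N m a0 d0 a1 b1 (gen (N + 2) (m + 2) γ i j) =
      (if γ = 0 then (if i = 0 ∧ j = 0 then a0 else if i = 1 ∧ j = 1 then d0 else 0)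
      else if γ = 1 then (if i = 0 ∧ j = 0 then a1 else if i = 0 ∧ j = 1 then b1 else 0)
      else 0) := by
    intro γ i j
    simp only [gen, Matrix.of_apply, evl, aeval_X]
  induction w with
  | nil =>
    simp [wl, ea, eb, ed, Matrix.one_apply, h01, h01.symm]
  | cons γ w ih =>
    obtain ⟨h00, h01', h10, h11⟩ := ih
    have hc : wl (N + 2) (m + 2) (γ :: w) = gen (N + 2) (m + 2) γ * wl (N + 2) (m + 2) w := by
      simp [wl]
    have hsum : ∀ i j : Fin (m + 2), evl N m a0 d0 a1 b1 (wl (N + 2) (m + 2) (γ :: w) i j)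
        = evl N m a0 d0 a1 b1 (gen (N + 2) (m + 2) γ i 0)
            * evl N m a0 d0 a1 b1 (wl (N + 2) (m + 2) w 0 j)
          + evl N m a0 d0 a1 b1 (gen (N + 2) (m + 2) γ i 1)
            * evl N m a0 d0 a1 b1 (wl (N + 2) (m + 2) w 1 j) := by
      intro i j
      rw [hc, Matrix.mul_apply, map_sum]
      rw [Finset.sum_eq_add (0 : Fin (m + 2)) 1 h01]
      · rw [map_mul, map_mul]
      · intro s _ hs
        rw [map_mul, hg]
        simp [hs.1, hs.2]
      · intro h; exact absurd (Finset.mem_univ _) h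
      · intro h; exact absurd (Finset.mem_univ _) h
    refine ⟨?_, ?_, ?_, ?_⟩
    · rw [hsum, h00, h10, hg]
      simp [ea, h01, h01.symm]
    · rw [hsum, h01', h11, hg, hg]
      by_cases h0 : γ = 0
      · simp [eb, h0, h01, h01.symm]
      · by_cases h1 : γ = 1
        · simp [eb, h1, h01, h01.symm]
        · simp [eb, h0, h1]
    · rw [hsum, h00, h10, hg]
      simp [h01, h01.symm]
    · rw [hsum, h01', h11, hg, hg]
      by_cases h0 : γ = 0
      · simp [ed, h0, h01, h01.symm]
      · simp [ed, h0, h01, h01.symm]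

/-- `1` if all letters are `0` -/
def zz : List (Fin (N + 2)) → ℂ
  | [] => 1
  | γ :: w => if γ = 0 then zz w else 0
/-- `1` if the word is `0^p 1 0^q` -/
def ss : List (Fin (N + 2)) → ℂ
  | [] => 0
  | γ :: w => if γ = 0 then ss w else if γ = 1 then zz w else 0
/-- `p` if the word is `0^p 1 0^q` -/
def pp : List (Fin (N + 2)) → ℂ
  | [] => 0
  | γ :: w => if γ = 0 then pp w + ss w else 0
/-- `q` if the word is `0^p 1 0^q` -/
def qq : List (Fin (N + 2)) → ℂ
  | [] => 0
  | γ :: w => if γ = 0 then qq w else if γ = 1 then (w.length : ℂ) * zz w else 0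

theorem ct_add (r s : ℂ) : ct S (r + s) = ct S r + ct S s := map_add _ _ _
theorem ct_mul' (r s : ℂ) : ct S (r * s) = ct S r * ct S s := map_mul _ _ _
theorem ct_zero : ct S 0 = 0 := map_zero _
theorem ct_one : ct S 1 = 1 := map_one _
theorem ct_nat (n : ℕ) : ct S (n : ℂ) = (n : S) := map_natCast _ _

variable {dl ep : S}

theorem h10 : (1 : Fin (N + 2)) ≠ 0 := by
  intro h
  have := congrArg Fin.val h
  simp at this

theorem ed1 (ep_sq : ep * ep = 0) (w : List (Fin (N + 2))) : ed (1 + ep) w = ct S (zz w) * (1 + (w.length : S) * ep) := by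
  induction w with
  | nil => simp [ed, zz, ct_one]
  | cons γ w ih =>
    by_cases h0 : γ = 0
    · simp only [ed, zz, if_pos h0, ih, List.length_cons, Nat.cast_succ]
      linear_combination (ct S (zz w) * (w.length : S)) * ep_sq
    · simp [ed, zz, if_neg h0, ct_zero]

theorem ed2 (w : List (Fin (N + 2))) : ed (1 : S) w = ct S (zz w) := by
  induction w with
  | nil => simp [ed, zz, ct_one]
  | cons γ w ih =>
    by_cases h0 : γ = 0
    · simp [ed, zz, if_pos h0, ih]
    · simp [ed, zz, if_neg h0, ct_zero]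

theorem ea1 (w : List (Fin (N + 2))) : ea (1 : S) 0 w = ct S (zz w) := by
  induction w with
  | nil => simp [ea, zz, ct_one]
  | cons γ w ih =>
    by_cases h0 : γ = 0
    · simp [ea, zz, if_pos h0, ih]
    · simp [ea, zz, if_neg h0, ct_zero]

theorem ea2 (dl_sq : dl * dl = 0) (w : List (Fin (N + 2))) : ea 1 dl w = ct S (zz w) + ct S (ss w) * dl := by
  induction w with
  | nil => simp [ea, zz, ss, ct_one, ct_zero]
  | cons γ w ih =>
    by_cases h0 : γ = 0
    · simp [ea, zz, ss, if_pos h0, ih]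
    · by_cases h1 : γ = 1
      · subst h1
        simp only [ea, zz, ss, if_neg h0, if_true, ih, ct_zero]
        linear_combination ct S (ss w) * dl_sq
      · simp [ea, zz, ss, if_neg h0, if_neg h1, ct_zero]

theorem eb1 (ep_sq : ep * ep = 0) (w : List (Fin (N + 2))) :
    eb 1 (1 + ep) 0 dl w = ct S (ss w) * dl + ct S (qq w) * (dl * ep) := by
  induction w with
  | nil => simp [eb, ss, qq, ct_zero]
  | cons γ w ih =>
    by_cases h0 : γ = 0
    · subst h0
      simp [eb, ss, qq, ih, h10.symm]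
    · by_cases h1 : γ = 1
      · subst h1
        simp only [eb, ss, qq, if_neg h0, if_true, ed1 ep_sq, ct_mul', ct_nat]
        ring
      · simp [eb, ss, qq, if_neg h0, if_neg h1, ct_zero]

theorem eb3 (ep_sq : ep * ep = 0) (w : List (Fin (N + 2))) :
    eb (1 + ep) 1 0 dl w = ct S (ss w) * dl + ct S (pp w) * (dl * ep) := by
  induction w with
  | nil => simp [eb, ss, pp, ct_zero]
  | cons γ w ih =>
    by_cases h0 : γ = 0
    · subst h0
      simp only [eb, ss, pp, ih, if_true, if_neg h10.symm, ct_add]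
      linear_combination (ct S (pp w) * dl) * ep_sq
    · by_cases h1 : γ = 1
      · subst h1
        simp only [eb, ss, pp, if_neg h0, if_true, ed2, ct_zero]
        ring
      · simp [eb, ss, pp, if_neg h0, if_neg h1, ct_zero]

theorem pq (w : List (Fin (N + 2))) : pp w + qq w = ss w * ((w.length : ℂ) - 1) := by
  induction w with
  | nil => simp [pp, qq, ss]
  | cons γ w ih =>
    by_cases h0 : γ = 0
    · simp only [pp, qq, ss, if_pos h0, List.length_cons, Nat.cast_succ]
      linear_combination ih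
    · by_cases h1 : γ = 1
      · simp only [pp, qq, ss, if_neg h0, if_pos h1, List.length_cons, Nat.cast_succ]
        ring
      · simp [pp, qq, ss, if_neg h0, if_neg h1]

end Pool.Agent.H2.TraceBr
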