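import Pool.Agent.H2.TraceBr3

namespace Pool.Agent.H2.TraceBr

open MvPolynomial

/-- the ring `ℂ[ε, δ]` with `ε² = δ² = 0` -/
abbrev S0 : Type := DualNumber (DualNumber ℂ)
/-- `δ` -/
def dl : S0 := TrivSqZeroExt.inr 1
/-- `ε` -/
def ep : S0 := TrivSqZeroExt.inl (TrivSqZeroExt.inr 1)
theorem dl_sq : dl * dl = 0 := TrivSqZeroExt.inr_mul_inr _ _ _
theorem ep_sq : ep * ep = 0 := by
  unfold ep
  rw [← TrivSqZeroExt.inl_mul, TrivSqZeroExt.inr_mul_inr, TrivSqZeroExt.inl_zero]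
/-- coefficient of `δ ε` -/
def c11 : S0 →ₗ[ℂ] ℂ where
  toFun x := x.snd.snd
  map_add' _ _ := rfl
  map_smul' _ _ := rfl
/-- coefficient of `δ` -/
def c10 : S0 →ₗ[ℂ] ℂ where
  toFun x := x.snd.fst
  map_add' _ _ := rfl
  map_smul' _ _ := rfl
theorem de : dl * ep = TrivSqZeroExt.inr (TrivSqZeroExt.inr 1) := by
  unfold dl ep
  rw [TrivSqZeroExt.inr_mul_inl]
  congr 1
  change (1 : DualNumber ℂ) * TrivSqZeroExt.inr 1 = _
  rw [one_mul]
theorem c11_de : c11 (dl * ep) = 1 := by rw [de]; rfl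
theorem c11_d : c11 dl = 0 := rfl
theorem c10_de : c10 (dl * ep) = 0 := by rw [de]; rfl
theorem c10_d : c10 dl = 1 := rfl
theorem c11_e : c11 ep = 0 := rfl
theorem c11_one : c11 1 = 0 := rfl

theorem c11_ct (r : ℂ) (x : S0) : c11 (ct S0 r * x) = r * c11 x := by
  rw [ct, ← Algebra.smul_def, map_smul, smul_eq_mul]
theorem c10_ct (r : ℂ) (x : S0) : c10 (ct S0 r * x) = r * c10 x := by
  rw [ct, ← Algebra.smul_def, map_smul, smul_eq_mul]

variable {N m : ℕ}

theorem zz_rep (n : ℕ) : zz (List.replicate n (0 : Fin (N + 2))) = 1 := by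
  induction n with
  | zero => rfl
  | succ n ih => rw [List.replicate_succ, zz, if_pos rfl, ih]

theorem ss_rep (n : ℕ) : ss (List.replicate n (0 : Fin (N + 2)) ++ [1]) = 1 := by
  induction n with
  | zero => simp [ss, zz, h10]
  | succ n ih => rw [List.replicate_succ, List.cons_append, ss, if_pos rfl, ih]

theorem qq_rep (n : ℕ) : qq (List.replicate n (0 : Fin (N + 2)) ++ [1]) = 0 := by
  induction n with
  | zero => simp [qq, zz, h10]
  | succ n ih => rw [List.replicate_succ, List.cons_append, qq, if_pos rfl, ih]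

theorem T1 (c a b : ℂ) (z : ℂ) :
    c11 (ct S0 c * ((ct S0 a * dl + ct S0 b * (dl * ep)) * ct S0 z)) = c * (b * z) := by
  have h : ct S0 c * ((ct S0 a * dl + ct S0 b * (dl * ep)) * ct S0 z)
      = ct S0 (c * (a * z)) * dl + ct S0 (c * (b * z)) * (dl * ep) := by
    simp only [ct_mul']; ring
  rw [h, map_add, c11_ct, c11_ct, c11_d, c11_de]
  ring

theorem T1' (c a b : ℂ) (z : ℂ) :
    c10 (ct S0 c * ((ct S0 a * dl + ct S0 b * (dl * ep)) * ct S0 z)) = c * (a * z) := by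
  have h : ct S0 c * ((ct S0 a * dl + ct S0 b * (dl * ep)) * ct S0 z)
      = ct S0 (c * (a * z)) * dl + ct S0 (c * (b * z)) * (dl * ep) := by
    simp only [ct_mul']; ring
  rw [h, map_add, c10_ct, c10_ct, c10_d, c10_de]
  ring

theorem T2 (c a b z : ℂ) (l : ℕ) :
    c11 (ct S0 c * ((ct S0 a + ct S0 b * dl) * (ct S0 z * (1 + (l : S0) * ep))))
      = c * (b * z * l) := by
  have h : ct S0 c * ((ct S0 a + ct S0 b * dl) * (ct S0 z * (1 + (l : S0) * ep)))
      = ct S0 (c * (a * z)) * 1 + ct S0 (c * (a * z * l)) * ep + ct S0 (c * (b * z)) * dl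
        + ct S0 (c * (b * z * l)) * (dl * ep) := by
    simp only [ct_mul', ct_nat]; ring
  rw [h, map_add, map_add, map_add, c11_ct, c11_ct, c11_ct, c11_ct, c11_d, c11_de, c11_e, c11_one]
  ring

theorem eb1' (w : List (Fin (N + 2))) :
    eb (1 : S0) (1 + ep) 0 dl w = ct S0 (ss w) * dl + ct S0 (qq w) * (dl * ep) :=
  eb1 (S := S0) ep_sq w
theorem eb3' (w : List (Fin (N + 2))) :
    eb ((1 : S0) + ep) 1 0 dl w = ct S0 (ss w) * dl + ct S0 (pp w) * (dl * ep) :=
  eb3 (S := S0) ep_sq w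
theorem ea2' (w : List (Fin (N + 2))) : ea (1 : S0) dl w = ct S0 (zz w) + ct S0 (ss w) * dl :=
  ea2 (S := S0) dl_sq w
theorem ed1' (w : List (Fin (N + 2))) :
    ed ((1 : S0) + ep) w = ct S0 (zz w) * (1 + (w.length : S0) * ep) :=
  ed1 (S := S0) ep_sq w

theorem wl_pow (α : Fin N) (n : ℕ) : (gen N m α) ^ n = wl N m (List.replicate n α) := by
  simp [wl]

theorem evl_C (a0 d0 a1 b1 : S0) (r : ℂ) : evl N m a0 d0 a1 b1 (C r) = ct S0 r :=
  (evl N m a0 d0 a1 b1).commutes r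

theorem not_star (n : ℕ) (hn : 1 ≤ n) :
    ¬ IsStar (N + 2) (m + 2) (n + 2)
      (fun a b => Br (E (N + 2) (m + 2)) (Y ((gen (N + 2) (m + 2) 0) ^ n)) a b) := by
  rintro ⟨c, hc⟩
  simp only [] at hc
  have hE : ∀ v : Idx (N + 2) (m + 2), E (N + 2) (m + 2) (X v) = X v :=
    fun v => by rw [E, mkDerivation_X]
  have hY : ∀ v : Idx (N + 2) (m + 2), Y ((gen (N + 2) (m + 2) 0) ^ n) (X v)
      = ((gen (N + 2) (m + 2) 0) ^ n * gen (N + 2) (m + 2) v.1
        - gen (N + 2) (m + 2) v.1 * (gen (N + 2) (m + 2) 0) ^ n) v.2.1 v.2.2 :=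
    fun v => by rw [Y, mkDerivation_X]
  have hL : ∀ i j i' j' : Fin (m + 2),
      Br (E (N + 2) (m + 2)) (Y ((gen (N + 2) (m + 2) 0) ^ n)) (X (0, i, j)) (X (1, i', j'))
      = X (0, i, j) * (wl (N + 2) (m + 2) (List.replicate n 0 ++ [1]) i' j'
        - wl (N + 2) (m + 2) (1 :: List.replicate n 0) i' j') := by
    intro i j i' j'
    rw [Br_apply, hE, hE, hY, hY]
    have h0 : (gen (N + 2) (m + 2) 0) ^ n * gen (N + 2) (m + 2) 0
        - gen (N + 2) (m + 2) 0 * (gen (N + 2) (m + 2) 0) ^ n = 0 := by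
      rw [← pow_succ, ← pow_succ', sub_self]
    have h1 : wl (N + 2) (m + 2) (List.replicate n 0 ++ [1])
        = (gen (N + 2) (m + 2) 0) ^ n * gen (N + 2) (m + 2) 1 := by
      simp [wl]
    have h2 : wl (N + 2) (m + 2) (1 :: List.replicate n 0)
        = gen (N + 2) (m + 2) 1 * (gen (N + 2) (m + 2) 0) ^ n := by
      simp [wl]
    simp only []
    rw [h0, h1, h2, Matrix.zero_apply, zero_mul, sub_zero, Matrix.sub_apply]
  have g1 := (hL 0 0 0 1).symm.trans (hc 0 1 0 0 0 1)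
  have g2 := (hL 0 1 1 0).symm.trans (hc 0 1 0 1 1 0)
  have g3 := (hL 0 1 1 1).symm.trans (hc 0 1 0 1 1 1)
  have hX : ∀ (a0 d0 a1 b1 : S0) (j : Fin (m + 2)), evl N m a0 d0 a1 b1 (X (0, 0, j))
      = if j = 0 then a0 else 0 := by
    intro a0 d0 a1 b1 j
    rw [evl, aeval_X]
    have h01 : (0 : Fin (m + 2)) ≠ 1 := by
      intro h
      have := congrArg Fin.val h
      simp at this
    simp [h01]
  have h10' : (1 : Fin (m + 2)) ≠ 0 := by
    intro h
    have := congrArg Fin.val h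
    simp at this
  -- values of the four functionals on the right-hand sides
  have r1 := congrArg (fun f => c11 (evl N m 1 (1 + ep) 0 dl f)) g1
  have r1' := congrArg (fun f => c10 (evl N m 1 (1 + ep) 0 dl f)) g1
  have r2 := congrArg (fun f => c11 (evl N m 1 (1 + ep) dl 0 f)) g2
  have r3 := congrArg (fun f => c11 (evl N m (1 + ep) 1 0 dl f)) g3
  simp only [map_sum, map_mul, map_sub, word_eq, (evl_wl _ _ _ _ _).1, (evl_wl _ _ _ _ _).2.1,
    (evl_wl _ _ _ _ _).2.2.1, (evl_wl _ _ _ _ _).2.2.2, evl_C, hX, if_neg h10', if_true, zero_mul,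
    map_zero, eb1', eb3', ea1, ea2', ed1', ed2, T1, T1', T2] at r1 r1' r2 r3
  have l1 : c11 (1 * ((ct S0 (ss (List.replicate n (0 : Fin (N + 2)) ++ [1])) * dl
      + ct S0 (qq (List.replicate n (0 : Fin (N + 2)) ++ [1])) * (dl * ep))
      - (ct S0 (ss (1 :: List.replicate n (0 : Fin (N + 2)))) * dl
      + ct S0 (qq (1 :: List.replicate n (0 : Fin (N + 2)))) * (dl * ep)))) = -(n : ℂ) := by
    rw [one_mul, map_sub, map_add, map_add, c11_ct, c11_ct, c11_ct, c11_ct, c11_d, c11_de, qq_rep,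
      qq, if_neg h10, if_pos rfl, zz_rep, List.length_replicate]
    ring
  have l1' : c10 (1 * ((ct S0 (ss (List.replicate n (0 : Fin (N + 2)) ++ [1])) * dl
      + ct S0 (qq (List.replicate n (0 : Fin (N + 2)) ++ [1])) * (dl * ep))
      - (ct S0 (ss (1 :: List.replicate n (0 : Fin (N + 2)))) * dl
      + ct S0 (qq (1 :: List.replicate n (0 : Fin (N + 2)))) * (dl * ep)))) = 0 := by
    rw [one_mul, map_sub, map_add, map_add, c10_ct, c10_ct, c10_ct, c10_ct, c10_d, c10_de, ss_rep,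
      ss, if_neg h10, if_pos rfl, zz_rep]
    ring
  rw [l1] at r1
  rw [l1'] at r1'
  have key0 : -(n : ℂ) + 0 + 0 - ((n : ℂ) + 1) * 0 =
      (∑ x ∈ Finset.range (n + 2 + 1), ∑ u : Fin x → Fin (N + 2), ∑ v : Fin (n + 2 - x) → Fin (N + 2),
        c x (n + 2 - x) u v 0 1 * (qq (List.ofFn u) * zz (List.ofFn v)))
      + (∑ x ∈ Finset.range (n + 2 + 1), ∑ u : Fin x → Fin (N + 2),
        ∑ v : Fin (n + 2 - x) → Fin (N + 2), c x (n + 2 - x) u v 0 1 *
          (ss (List.ofFn u) * zz (List.ofFn v) * ((List.ofFn v).length : ℂ)))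
      + (∑ x ∈ Finset.range (n + 2 + 1), ∑ u : Fin x → Fin (N + 2),
        ∑ v : Fin (n + 2 - x) → Fin (N + 2), c x (n + 2 - x) u v 0 1 *
          (pp (List.ofFn u) * zz (List.ofFn v)))
      - ((n : ℂ) + 1) * (∑ x ∈ Finset.range (n + 2 + 1), ∑ u : Fin x → Fin (N + 2),
        ∑ v : Fin (n + 2 - x) → Fin (N + 2), c x (n + 2 - x) u v 0 1 *
          (ss (List.ofFn u) * zz (List.ofFn v))) := by
    rw [← r1, ← r2, ← r3, ← r1']
  have key : -(n : ℂ) + 0 + 0 - ((n : ℂ) + 1) * 0 = 0 := by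
    rw [key0]
    simp only [Finset.mul_sum, ← Finset.sum_add_distrib, ← Finset.sum_sub_distrib]
    apply Finset.sum_eq_zero
    intro p hp
    apply Finset.sum_eq_zero
    intro u _
    apply Finset.sum_eq_zero
    intro v _
    have h1 := pq (List.ofFn u)
    have hlen : ((List.ofFn u).length : ℂ) = p := by simp
    have hlen' : ((List.ofFn v).length : ℂ) = (n : ℂ) + 2 - p := by
      rw [List.length_ofFn, Nat.cast_sub (by have := Finset.mem_range.1 hp; omega)]
      push_cast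
      ring
    rw [hlen] at h1
    rw [hlen']
    linear_combination (c p (n + 2 - p) u v 0 1 * zz (List.ofFn v)) * h1
  have : (n : ℂ) = 0 := by linear_combination -key
  have h0 : n = 0 := by exact_mod_cast this
  omega

end Pool.Agent.H2.TraceBr
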