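import Mathlib

/-! Trace Poisson brackets on the entries of `N` generic `m × m` matrices. -/

namespace Pool.Agent.H2.TraceBr

open MvPolynomial

/-- `(α, i, j)` stands for the entry of `x_α` in row `i` and column `j` -/
abbrev Idx (N m : ℕ) : Type := Fin N × Fin m × Fin m

/-- polynomial functions of the `N m²` matrix entries -/
abbrev Pol (N m : ℕ) : Type := MvPolynomial (Idx N m) ℂ

/-- the generic matrix `x_α` -/
noncomputable def gen (N m : ℕ) (α : Fin N) : Matrix (Fin m) (Fin m) (Pol N m) :=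
  Matrix.of fun i j => X (α, i, j)

/-- the value of a matrix polynomial at `x_1, …, x_N` -/
noncomputable def ev (N m : ℕ) (P : FreeAlgebra ℂ (Fin N)) : Matrix (Fin m) (Fin m) (Pol N m) :=
  FreeAlgebra.lift ℂ (gen N m) P

/-- the substitution `x_α ↦ g x_α g⁻¹` in a polynomial function -/
noncomputable def conj (N m : ℕ) (g : Matrix.GeneralLinearGroup (Fin m) ℂ) : Pol N m →ₐ[ℂ] Pol N m :=
  aeval fun v : Idx N m =>
    ((g : Matrix (Fin m) (Fin m) ℂ).map (C : ℂ →+* Pol N m) * gen N m v.1 *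
      ((g⁻¹ : Matrix.GeneralLinearGroup (Fin m) ℂ) : Matrix (Fin m) (Fin m) ℂ).map
        (C : ℂ →+* Pol N m)) v.2.1 v.2.2

/-- the matrix `x_{u 0} x_{u 1} ⋯` of a word `u` of length `p` (the identity if `p = 0`) -/
noncomputable def word (N m : ℕ) {p : ℕ} (u : Fin p → Fin N) : Matrix (Fin m) (Fin m) (Pol N m) :=
  (List.ofFn fun t => gen N m (u t)).prod

/-- `B` is a Poisson bracket which is a trace bracket and homogeneous of degree `k` -/
structure IsTraceBracket (N m k : ℕ) (B : Pol N m → Pol N m → Pol N m) : Prop where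
  antisymm : ∀ a b, B a b = -B b a
  add : ∀ a b c, B a (b + c) = B a b + B a c
  smul : ∀ (r : ℂ) (a b : Pol N m), B a (C r * b) = C r * B a b
  leibniz : ∀ a b c, B a (b * c) = B a b * c + b * B a c
  jacobi : ∀ a b c, B a (B b c) + B b (B c a) + B c (B a b) = 0
  invariant : ∀ g a b, conj N m g (B a b) = B (conj N m g a) (conj N m g b)
  trace : ∀ P₁ P₂ : FreeAlgebra ℂ (Fin N), ∃ P₃ : FreeAlgebra ℂ (Fin N),
    B (ev N m P₁).trace (ev N m P₂).trace = (ev N m P₃).trace
  homogeneous : ∀ v w : Idx N m, (B (X v) (X w)).IsHomogeneous k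

/-- `B` is of form (*): a combination of `(u)^{j'}_i (v)^j_{i'}` over pairs of words of total
length `k`, with constant coefficients -/
def IsStar (N m k : ℕ) (B : Pol N m → Pol N m → Pol N m) : Prop :=
  ∃ c : (p q : ℕ) → (Fin p → Fin N) → (Fin q → Fin N) → Fin N → Fin N → ℂ,
    ∀ (α β : Fin N) (i j i' j' : Fin m), B (X (α, i, j)) (X (β, i', j')) =
      ∑ p ∈ Finset.range (k + 1), ∑ u : Fin p → Fin N, ∑ v : Fin (k - p) → Fin N,
        C (c p (k - p) u v α β) * (word N m u i j' * word N m v i' j)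

end Pool.Agent.H2.TraceBr
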